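/-
Definitions and module interfaces for the disproof of the medial conjecture
(MP_2afbe1_gt, frozen statement S12940).

DO NOT CHANGE without telling helper72.
Every module `Tk` proves `theorem Tk : Stmt_Tk` in its own file `Pool/Agent/Medial/Tk*.lean`.
-/
import Mathlib

set_option autoImplicit false

namespace Pool.Agent.Medial

open MeasureTheory
open scoped Real

/-- Euclidean 3-space. -/
abbrev E := EuclideanSpace ℝ (Fin 3)

/-- The scalar triple product `det(a,b,c)`. -/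
def tri (a b c : E) : ℝ :=
  a 0 * (b 1 * c 2 - b 2 * c 1) - a 1 * (b 0 * c 2 - b 2 * c 0) + a 2 * (b 0 * c 1 - b 1 * c 0)

/-- Every supporting plane touches at most three points of `S` (same wording as the frozen file). -/
def Simplicial (S : Finset E) : Prop :=
  ∀ (a : E) (c : ℝ) (T : Finset E),
    a ≠ 0 → T ⊆ S → (∀ x ∈ S, inner ℝ a x ≤ c) → (∀ x ∈ T, inner ℝ a x = c) → T.card ≤ 3

/-- The neighbours of `v` (same wording as the frozen file). -/
def nb (S : Finset E) (v : E) : Set E :=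
  {w : E | w ∈ S ∧ w ≠ v ∧
    ∃ (a : E) (c : ℝ), (∀ x ∈ S, inner ℝ a x ≤ c) ∧ ∀ x ∈ S, (inner ℝ a x = c ↔ (x = v ∨ x = w))}

/-- The origin is an interior point of the convex hull of `S`. -/
def Centered (S : Finset E) : Prop := ∀ a : E, a ≠ 0 → ∃ x ∈ S, 0 < inner ℝ a x

/-- All points of `S` lie on the unit sphere. -/
def Unit (S : Finset E) : Prop := ∀ x ∈ S, ‖x‖ = 1

/-- `(v,w,x)` is a positively oriented facet of the hull of `S`. -/
def Fac (S : Finset E) (v w x : E) : Prop :=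
  v ∈ S ∧ w ∈ S ∧ x ∈ S ∧ 0 < tri v w x ∧
    ∀ y ∈ S, y ≠ v → y ≠ w → y ≠ x → tri (w - v) (x - v) (y - v) < 0

open Classical in
/-- The neighbours of `v` that come from facets. -/
noncomputable def N (S : Finset E) (v : E) : Finset E := S.filter (fun w => ∃ x, Fac S v w x)

open Classical in
/-- `L S v w` is the third vertex of the facet to the left of the dart `v → w`
(the neighbour of `v` following `w` counterclockwise). -/
noncomputable def L (S : Finset E) (v w : E) : E := if h : ∃ x, Fac S v w x then h.choose else w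

/-- Volume of the convex hull, as a real number. -/
noncomputable def V (S : Finset E) : ℝ := (volume (convexHull ℝ (S : Set E))).toReal

/-- Sum of the squared side lengths of a triangle. -/
noncomputable def Lsq (v w x : E) : ℝ := ‖v - w‖ ^ 2 + ‖w - x‖ ^ 2 + ‖x - v‖ ^ 2

/-- The tetrahedron with apex `0`. -/
def tet (v w x : E) : Set E := convexHull ℝ {0, v, w, x}

/-- Abstract oriented triangulation of the sphere with a height function in general position.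
`N v` : the neighbours of `v`;  `L v w` : the neighbour of `v` following `w` counterclockwise;
`(v, w, L v w)` is the facet to the left of the dart `v → w`. -/
structure HMap {V : Type*} (S : Finset V) (N : V → Finset V) (L : V → V → V) (z : V → ℝ) :
    Prop where
  mem : ∀ v ∈ S, ∀ w ∈ N v, w ∈ S
  ne : ∀ v ∈ S, ∀ w ∈ N v, w ≠ v
  symm : ∀ v ∈ S, ∀ w ∈ N v, v ∈ N w
  L_mem : ∀ v ∈ S, ∀ w ∈ N v, L v w ∈ N v
  L_ne : ∀ v ∈ S, ∀ w ∈ N v, L v w ≠ w
  L_mem' : ∀ v ∈ S, ∀ w ∈ N v, L v w ∈ N w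
  /-- the facet `(v,w,x)` seen from `w` is `(w,x,v)` -/
  rot : ∀ v ∈ S, ∀ w ∈ N v, L w (L v w) = v
  /-- the neighbours of a vertex form a single cycle -/
  trans : ∀ v ∈ S, ∀ w ∈ N v, ∀ w' ∈ N v, ∃ k : ℕ, (L v)^[k] w = w'
  inj : ∀ v ∈ S, ∀ w ∈ S, z v = z w → v = w
  exit_unique : ∀ v ∈ S, ∀ w ∈ N v, ∀ w' ∈ N v, z v < z w → z (L v w) < z v →
    z v < z w' → z (L v w') < z v → w = w'
  entry_unique : ∀ v ∈ S, ∀ w ∈ N v, ∀ w' ∈ N v, z w < z v → z v < z (L v w) →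
    z w' < z v → z v < z (L v w') → w = w'
  up : ∀ v ∈ S, (∃ y ∈ S, z v < z y) → ∃ w ∈ N v, z v < z w
  down : ∀ v ∈ S, (∃ y ∈ S, z y < z v) → ∃ w ∈ N v, z w < z v

/-! ### T1 : facet combinatorics (helper72) -/

/-- T1a: the facet structure is an `HMap`. -/
def Stmt_T1a : Prop :=
  ∀ S : Finset E, Unit S → Simplicial S → Centered S →
    ∀ u : E, (∀ x ∈ S, ∀ y ∈ S, x ≠ y → (inner ℝ u x : ℝ) ≠ inner ℝ u y) →
      HMap S (N S) (L S) (fun x => (inner ℝ u x : ℝ))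

/-- T1b: the left neighbour really gives a facet; neighbours are the exposed edges. -/
def Stmt_T1b : Prop :=
  ∀ S : Finset E, Unit S → Simplicial S → Centered S →
    (∀ v ∈ S, ∀ w ∈ N S v, Fac S v w (L S v w)) ∧
    (∀ v w x, Fac S v w x → w ∈ N S v ∧ L S v w = x) ∧
    (∀ v w x, Fac S v w x → Fac S w x v) ∧
    (∀ v ∈ S, (N S v : Set E) = nb S v)

/-! ### T2 : Euler count and choice of the direction -/

/-- T2a: Euler count for an abstract triangulation. -/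
def Stmt_T2a : Prop :=
  ∀ (V : Type) (S : Finset V) (N : V → Finset V) (L : V → V → V) (z : V → ℝ),
    HMap S N L z → 2 ≤ S.card → ∑ v ∈ S, (N v).card + 12 = 6 * S.card

/-- T2b: a generic direction far from twelve given points. -/
def Stmt_T2b : Prop :=
  ∀ (S A : Finset E), Unit A → A.card ≤ 12 →
    ∃ u : E, ‖u‖ = 1 ∧ (∀ x ∈ S, ∀ y ∈ S, x ≠ y → (inner ℝ u x : ℝ) ≠ inner ℝ u y) ∧
      ∀ v ∈ A, (inner ℝ u v : ℝ) ≤ 9 / 10

/-! ### T3 : development of a cap all of whose vertices have degree six -/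

/-- the primitive sixth root of unity -/
noncomputable def om : ℂ := ⟨1 / 2, √3 / 2⟩

def Stmt_T3 : Prop :=
  ∀ (V : Type) (S : Finset V) (N : V → Finset V) (L : V → V → V) (z : V → ℝ) (z0 : ℝ),
    HMap S N L z → (∀ v ∈ S, z0 < z v → (N v).card = 6) → (∃ y ∈ S, z y ≤ z0) →
    ∃ (ψ : V → ℂ) (e : V → V → ℂ),
      (∀ v ∈ S, z0 < z v → ∀ w ∈ N v, ‖e v w‖ = 1 ∧ e v (L v w) = om * e v w) ∧
      (∀ v ∈ S, z0 < z v → ∀ w ∈ N v, z0 < z w → e w v = - e v w ∧ ψ w = ψ v + e v w)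

/-! ### T4 : isoperimetric inequality for a permutation of a finite set of points of the plane -/

def Stmt_T4 : Prop :=
  ∀ (ι : Type) (C : Finset ι) (F : ι → ι) (P : ι → ℂ),
    (∀ c ∈ C, F c ∈ C) → (∀ c ∈ C, ∀ c' ∈ C, F c = F c' → c = c') →
    2 * π * ∑ c ∈ C, ((starRingEnd ℂ) (P c) * P (F c)).im ≤ (∑ c ∈ C, ‖P (F c) - P c‖) ^ 2

/-! ### T5 : the slab inequality -/

/-- `Qf a b c`: for a flat equilateral triangle of side one with vertex heights `a,b,c`. -/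
noncomputable def Qf (a b c : ℝ) : ℝ := (a - b) ^ 2 + (b - c) ^ 2 + (c - a) ^ 2

open Classical in
/-- T5: each facet is counted three times in the double sums (once for each of its darts). -/
def Stmt_T5 : Prop :=
  ∀ (V : Type) (S : Finset V) (N : V → Finset V) (L : V → V → V) (z : V → ℝ) (z0 s1 s2 : ℝ),
    HMap S N L z → (∀ v ∈ S, z0 < z v → (N v).card = 6) → (∃ y ∈ S, z y ≤ z0) →
    z0 ≤ s1 → s1 < s2 →
    (s2 - s1) * √(π * √3 *
        ((∑ v ∈ S, ((N v).filter (fun w => s2 ≤ z v ∧ s2 ≤ z w ∧ s2 ≤ z (L v w))).card : ℕ) : ℝ) / 3)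
      ≤ (∑ v ∈ S, ∑ w ∈ (N v).filter (fun w => s1 < max (z v) (max (z w) (z (L v w))) ∧
            min (z v) (min (z w) (z (L v w))) < s2),
          √(Qf (z v) (z w) (z (L v w)))) / (3 * (2 * √2))

/-! ### T6 : volumes -/

/-- T6a: volume is the sum over facets. -/
def Stmt_T6a : Prop :=
  ∀ S : Finset E, Unit S → Simplicial S → Centered S →
    ∑ v ∈ S, ∑ w ∈ N S v, tri v w (L S v w) / 6 = 3 * V S

/-- T6b: the second moment trick. -/
def Stmt_T6b : Prop :=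
  ∀ S : Finset E, Unit S → Simplicial S → Centered S →
    ∑ v ∈ S, ∑ w ∈ N S v, tri v w (L S v w) / 6 * Lsq v w (L S v w) ≤ 24 * (4 * π / 3 - V S)

open Classical in
/-- T6c: upper bound for the volume of a family `K` of facets (given by darts) in a cone slab. -/
def Stmt_T6c : Prop :=
  ∀ S : Finset E, Unit S → Simplicial S → Centered S →
    ∀ (u : E) (α β : ℝ) (K : E → E → Prop), ‖u‖ = 1 → 0 ≤ α → α ≤ β → β ≤ 1 →
      (∀ v ∈ S, ∀ w ∈ N S v, K v w → ∀ x ∈ tet v w (L S v w),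
        α * ‖x‖ ≤ inner ℝ u x ∧ inner ℝ u x ≤ β * ‖x‖) →
      ∑ v ∈ S, ∑ w ∈ (N S v).filter (fun w => K v w), tri v w (L S v w) / 6 ≤ 2 * π * (β - α)

open Classical in
/-- T6d: lower bound for the volume of a family `K` of facets containing all those that meet a cone. -/
def Stmt_T6d : Prop :=
  ∀ S : Finset E, Unit S → Simplicial S → Centered S →
    ∀ (u : E) (s : ℝ) (K : E → E → Prop), ‖u‖ = 1 → 0 ≤ s → s ≤ 1 →
      (∀ v ∈ S, ∀ w ∈ N S v, ¬ K v w → ∀ x ∈ tet v w (L S v w), inner ℝ u x ≤ s * ‖x‖) →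
      2 * π * (1 - s) - 3 * (4 * π / 3 - V S) ≤
        ∑ v ∈ S, ∑ w ∈ (N S v).filter (fun w => K v w), tri v w (L S v w) / 6

/-! ### T7 : insertion of a point -/

open Classical in
def Stmt_T7 : Prop :=
  ∀ S : Finset E, Unit S → 4 * π / 3 - V S ≤ 1 / 1000 →
    ∃ (r : ℝ) (p : E), 3 / 4 ≤ r ∧ r ≤ 1 ∧ ‖p‖ = 1 ∧
      Metric.closedBall (0 : E) r ⊆ convexHull ℝ (S : Set E) ∧
      V S + (1 - r) ^ 2 / 20 ≤ V (insert p S)

/-! ### T8 : near-optimal configurations -/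

def Stmt_T8 : Prop :=
  ∀ δ : ℝ, 0 < δ → ∃ n₀ : ℕ, ∀ n : ℕ, n₀ ≤ n → ∃ T : Finset E, T.card ≤ n ∧ Unit T ∧
    4 * π / 3 - (1 + δ) * (4 * π ^ 2 / (√3 * n)) ≤ V T

/-! ### T9 : medial configurations exist for `n = 5k+2` -/

def Stmt_T9 : Prop :=
  ∀ k : ℕ, 3 ≤ k → ∃ S : Finset E, S.card = 5 * k + 2 ∧ Unit S ∧ Simplicial S ∧
    ∀ v ∈ S, 5 ≤ (nb S v).ncard ∧ (nb S v).ncard ≤ 6

/-! ### T10 : final analysis -/

/-- T10: no medial set of `n` points can be both near-optimal and quasi-uniform. -/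
def Stmt_T10 : Prop :=
  ∀ C : ℝ, 0 < C → ∃ δ : ℝ, 0 < δ ∧ ∃ n₀ : ℕ, ∀ n : ℕ, n₀ ≤ n → ∀ (S : Finset E) (r : ℝ),
    S.card = n → Unit S → Simplicial S →
    (∀ v ∈ S, 5 ≤ (nb S v).ncard ∧ (nb S v).ncard ≤ 6) →
    1 - C / n ≤ r → r ≤ 1 → Metric.closedBall (0 : E) r ⊆ convexHull ℝ (S : Set E) →
    4 * π / 3 - V S ≤ (1 + δ) * (4 * π ^ 2 / (√3 * n)) → False

end Pool.Agent.Medial
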