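/-
Assembly of the disproof of the medial conjecture.
(helper72)
-/
import Pool.Agent.Medial.Defs

set_option autoImplicit false

namespace Pool.Agent.Medial

open MeasureTheory
open scoped Real

theorem isCompact_hull (S : Finset E) : IsCompact (convexHull ℝ (S : Set E)) :=
  S.finite_toSet.isCompact_convexHull ℝ

theorem hull_ne_top (S : Finset E) : volume (convexHull ℝ (S : Set E)) ≠ ⊤ :=
  (isCompact_hull S).measure_lt_top.ne

theorem V_mono {S T : Finset E} (h : S ⊆ T) : V S ≤ V T := by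
  unfold V
  apply ENNReal.toReal_mono (hull_ne_top T)
  exact measure_mono (convexHull_mono (by exact_mod_cast h))

theorem hull_subset_ball {S : Finset E} (hS : Unit S) :
    convexHull ℝ (S : Set E) ⊆ Metric.closedBall 0 1 := by
  apply convexHull_min _ (convex_closedBall _ _)
  intro x hx
  rw [mem_closedBall_zero_iff]
  exact (hS x hx).le

theorem vol_ball : (volume (Metric.closedBall (0 : E) 1)).toReal = 4 * π / 3 := by
  rw [EuclideanSpace.volume_closedBall_fin_three]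
  rw [ENNReal.ofReal_one, one_pow, one_mul, ENNReal.toReal_ofReal (by positivity)]
  ring

theorem V_le {S : Finset E} (hS : Unit S) : V S ≤ 4 * π / 3 := by
  rw [← vol_ball]
  unfold V
  apply ENNReal.toReal_mono
  · exact (isCompact_closedBall _ _).measure_lt_top.ne
  · exact measure_mono (hull_subset_ball hS)

/-- the sphere is infinite: any finite set can be enlarged -/
theorem exists_new (S : Finset E) : ∃ x : E, ‖x‖ = 1 ∧ x ∉ S := by
  classical
  have hinf : (Metric.sphere (0 : E) 1).Infinite := by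
    have h1 : Set.InjOn (fun t : ℝ => (!₂[t, √(1 - t ^ 2), 0] : E)) (Set.Icc 0 1) := by
      intro a _ b _ hab
      have := congrArg (fun t : E => t 0) hab
      simpa using this
    have h2 : ((fun t : ℝ => (!₂[t, √(1 - t ^ 2), 0] : E)) '' (Set.Icc 0 1)).Infinite :=
      (Set.infinite_image_iff h1).mpr (Set.Icc_infinite (by norm_num))
    refine h2.mono ?_
    rintro _ ⟨t, ht, rfl⟩
    rw [mem_sphere_zero_iff_norm, EuclideanSpace.norm_eq, Fin.sum_univ_three]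
    simp only [Real.norm_eq_abs, sq_abs]
    have h3 : (√(1 - t ^ 2)) ^ 2 = 1 - t ^ 2 := Real.sq_sqrt (by nlinarith [ht.1, ht.2])
    simp [h3]
  obtain ⟨x, hx, hx'⟩ := hinf.exists_notMem_finset S
  exact ⟨x, mem_sphere_zero_iff_norm.mp hx, hx'⟩

theorem exists_pad (S : Finset E) (hS : Unit S) (m : ℕ) (hm : S.card ≤ m) :
    ∃ T : Finset E, S ⊆ T ∧ Unit T ∧ T.card = m := by
  classical
  obtain ⟨d, rfl⟩ := Nat.exists_eq_add_of_le hm
  clear hm
  induction d with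
  | zero => exact ⟨S, subset_rfl, hS, rfl⟩
  | succ d ih =>
    obtain ⟨T, hT1, hT2, hT3⟩ := ih
    obtain ⟨x, hx, hxT⟩ := exists_new T
    refine ⟨insert x T, hT1.trans (Finset.subset_insert _ _), ?_, ?_⟩
    · intro y hy
      rcases Finset.mem_insert.mp hy with rfl | hy
      · exact hx
      · exact hT2 y hy
    · rw [Finset.card_insert_of_notMem hxT, hT3]; ring

theorem floor_val {n : ℕ} (hn : 13 ≤ n) : ⌊(6 : ℝ) - 12 / (n : ℝ)⌋ = 5 := by
  have h : (13 : ℝ) ≤ n := by exact_mod_cast hn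
  rw [Int.floor_eq_iff]
  have h1 : 12 / (n : ℝ) < 1 := by rw [div_lt_one (by linarith)]; linarith
  have h2 : 0 < 12 / (n : ℝ) := by positivity
  constructor
  · push_cast; linarith
  · push_cast; linarith

theorem ceil_val {n : ℕ} (hn : 13 ≤ n) : ⌈(6 : ℝ) - 12 / (n : ℝ)⌉ = 6 := by
  have h : (13 : ℝ) ≤ n := by exact_mod_cast hn
  rw [Int.ceil_eq_iff]
  have h1 : 12 / (n : ℝ) < 1 := by rw [div_lt_one (by linarith)]; linarith
  have h2 : 0 < 12 / (n : ℝ) := by positivity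
  constructor
  · push_cast; linarith
  · push_cast; linarith

/-- pigeonhole for an increasing sequence -/
theorem exists_small_step (f : ℕ → ℝ) (K : ℕ) (hK : 0 < K) (M : ℝ) (hM : ∀ k, K ≤ k → f k ≤ M) :
    ∃ k, K ≤ k ∧ k < 2 * K ∧ f (k + 1) - f k ≤ (M - f K) / K := by
  by_contra hcon
  push Not at hcon
  have h1 : ∀ j : ℕ, j ≤ K → f K + j * ((M - f K) / K) ≤ f (K + j) ∧
      (0 < j → f K + j * ((M - f K) / K) < f (K + j)) := by
    intro j
    induction j with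
    | zero => intro _; simp
    | succ j ih =>
      intro hj
      obtain ⟨h2, _⟩ := ih (by omega)
      have h3 := hcon (K + j) (by omega) (by omega)
      have h4 : f K + ((j + 1 : ℕ) : ℝ) * ((M - f K) / K) < f (K + (j + 1)) := by
        push_cast
        rw [← add_assoc]
        linarith
      exact ⟨h4.le, fun _ => h4⟩
  have h2 := (h1 K le_rfl).2 hK
  have hK' : (K : ℝ) ≠ 0 := by exact_mod_cast hK.ne'
  rw [mul_div_cancel₀ _ hK'] at h2
  linarith [hM (K + K) (by omega)]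

theorem assembly (h7 : Stmt_T7) (h8 : Stmt_T8) (h9 : Stmt_T9) (h10 : Stmt_T10) :
    ¬ (∀ n : ℕ, 4 ≤ n →
      (∃ S : Finset (EuclideanSpace ℝ (Fin 3)), S.card = n ∧ (∀ x ∈ S, ‖x‖ = 1) ∧
        (∀ (a : EuclideanSpace ℝ (Fin 3)) (c : ℝ) (T : Finset (EuclideanSpace ℝ (Fin 3))),
          a ≠ 0 → T ⊆ S → (∀ x ∈ S, inner ℝ a x ≤ c) → (∀ x ∈ T, inner ℝ a x = c) → T.card ≤ 3) ∧
        (∀ v ∈ S,
          ⌊(6 : ℝ) - 12 / (n : ℝ)⌋ ≤
            ((Set.ncard {w : EuclideanSpace ℝ (Fin 3) | w ∈ S ∧ w ≠ v ∧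
              ∃ (a : EuclideanSpace ℝ (Fin 3)) (c : ℝ), (∀ x ∈ S, inner ℝ a x ≤ c) ∧
                ∀ x ∈ S, (inner ℝ a x = c ↔ (x = v ∨ x = w))} : ℕ) : ℤ) ∧
          ((Set.ncard {w : EuclideanSpace ℝ (Fin 3) | w ∈ S ∧ w ≠ v ∧
              ∃ (a : EuclideanSpace ℝ (Fin 3)) (c : ℝ), (∀ x ∈ S, inner ℝ a x ≤ c) ∧
                ∀ x ∈ S, (inner ℝ a x = c ↔ (x = v ∨ x = w))} : ℕ) : ℤ) ≤
            ⌈(6 : ℝ) - 12 / (n : ℝ)⌉)) →
      ∃ S : Finset (EuclideanSpace ℝ (Fin 3)), S.card = n ∧ (∀ x ∈ S, ‖x‖ = 1) ∧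
        (∀ (a : EuclideanSpace ℝ (Fin 3)) (c : ℝ) (T : Finset (EuclideanSpace ℝ (Fin 3))),
          a ≠ 0 → T ⊆ S → (∀ x ∈ S, inner ℝ a x ≤ c) → (∀ x ∈ T, inner ℝ a x = c) → T.card ≤ 3) ∧
        (∀ v ∈ S,
          ⌊(6 : ℝ) - 12 / (n : ℝ)⌋ ≤
            ((Set.ncard {w : EuclideanSpace ℝ (Fin 3) | w ∈ S ∧ w ≠ v ∧
              ∃ (a : EuclideanSpace ℝ (Fin 3)) (c : ℝ), (∀ x ∈ S, inner ℝ a x ≤ c) ∧
                ∀ x ∈ S, (inner ℝ a x = c ↔ (x = v ∨ x = w))} : ℕ) : ℤ) ∧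
          ((Set.ncard {w : EuclideanSpace ℝ (Fin 3) | w ∈ S ∧ w ≠ v ∧
              ∃ (a : EuclideanSpace ℝ (Fin 3)) (c : ℝ), (∀ x ∈ S, inner ℝ a x ≤ c) ∧
                ∀ x ∈ S, (inner ℝ a x = c ↔ (x = v ∨ x = w))} : ℕ) : ℤ) ≤
            ⌈(6 : ℝ) - 12 / (n : ℝ)⌉) ∧
        ∀ T : Finset (EuclideanSpace ℝ (Fin 3)), T.card = n → (∀ x ∈ T, ‖x‖ = 1) →
          MeasureTheory.volume (convexHull ℝ (T : Set (EuclideanSpace ℝ (Fin 3)))) ≤
            MeasureTheory.volume (convexHull ℝ (S : Set (EuclideanSpace ℝ (Fin 3))))) := by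
  classical
  intro H
  -- maximal medial sets
  have hk : ∀ k : ℕ, ∃ S : Finset E, 3 ≤ k → (S.card = 5 * k + 2 ∧ Unit S ∧ Simplicial S ∧
      (∀ v ∈ S, 5 ≤ (nb S v).ncard ∧ (nb S v).ncard ≤ 6) ∧
      ∀ T : Finset E, T.card = 5 * k + 2 → Unit T → V T ≤ V S) := by
    intro k
    by_cases hk3 : 3 ≤ k
    · obtain ⟨S0, hS0c, hS0u, hS0s, hS0v⟩ := h9 k hk3
      have hn : 13 ≤ 5 * k + 2 := by omega
      obtain ⟨S, hSc, hSu, hSs, hSv, hSm⟩ := H (5 * k + 2) (by omega)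
        ⟨S0, hS0c, hS0u, hS0s, fun v hv => by
          rw [floor_val hn, ceil_val hn]
          obtain ⟨a1, a2⟩ := hS0v v hv
          constructor
          · exact_mod_cast a1
          · exact_mod_cast a2⟩
      refine ⟨S, fun _ => ⟨hSc, hSu, hSs, fun v hv => ?_, fun T hT hTu => ?_⟩⟩
      · have := hSv v hv
        rw [floor_val hn, ceil_val hn] at this
        obtain ⟨a1, a2⟩ := this
        constructor
        · exact_mod_cast a1
        · exact_mod_cast a2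
      · exact ENNReal.toReal_mono (hull_ne_top S) (hSm T hT hTu)
    · exact ⟨∅, fun h => absurd h hk3⟩
  choose S hS using hk
  have hmax : ∀ k, 3 ≤ k → ∀ T : Finset E, T.card ≤ 5 * k + 2 → Unit T → V T ≤ V (S k) := by
    intro k hk T hT hTu
    obtain ⟨T', hT'1, hT'2, hT'3⟩ := exists_pad T hTu (5 * k + 2) hT
    exact (V_mono hT'1).trans ((hS k hk).2.2.2.2 T' hT'3 hT'2)
  -- constants from T10
  obtain ⟨δ, hδ, n₀, hT10⟩ := h10 200 (by norm_num)
  obtain ⟨n₁, hn₁⟩ := h8 (min δ 1) (lt_min hδ one_pos)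
  have hsqrt : (0 : ℝ) < √3 := by positivity
  have hD : ∀ k, 3 ≤ k → n₁ ≤ 5 * k + 2 → 4 * π / 3 - V (S k) ≤
      (1 + min δ 1) * (4 * π ^ 2 / (√3 * ((5 * k + 2 : ℕ) : ℝ))) := by
    intro k hk hk1
    obtain ⟨T, hTc, hTu, hTV⟩ := hn₁ (5 * k + 2) hk1
    have := hmax k hk T hTc hTu
    linarith
  have hC : 8 * π ^ 2 / √3 ≤ 50 := by
    rw [div_le_iff₀ hsqrt]
    have h1 : π < 3.15 := Real.pi_lt_d2
    have h2 : (1.7 : ℝ) < √3 := by
      rw [Real.lt_sqrt (by norm_num)]; norm_num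
    have h3 : 0 < π := Real.pi_pos
    nlinarith
  have hD' : ∀ k, 3 ≤ k → n₁ ≤ 5 * k + 2 → 4 * π / 3 - V (S k) ≤ 50 / ((5 * k + 2 : ℕ) : ℝ) := by
    intro k hk hk1
    refine (hD k hk hk1).trans ?_
    have hpos : (0 : ℝ) < ((5 * k + 2 : ℕ) : ℝ) := by positivity
    have h1 : (1 + min δ 1) ≤ 2 := by linarith [min_le_right δ 1]
    have h2 : 0 ≤ 4 * π ^ 2 / (√3 * ((5 * k + 2 : ℕ) : ℝ)) := by positivity
    calc (1 + min δ 1) * (4 * π ^ 2 / (√3 * ((5 * k + 2 : ℕ) : ℝ)))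
        ≤ 2 * (4 * π ^ 2 / (√3 * ((5 * k + 2 : ℕ) : ℝ))) := mul_le_mul_of_nonneg_right h1 h2
      _ = (8 * π ^ 2 / √3) / ((5 * k + 2 : ℕ) : ℝ) := by
          field_simp; ring
      _ ≤ 50 / ((5 * k + 2 : ℕ) : ℝ) := div_le_div_of_nonneg_right hC hpos.le
  -- choose `K`
  obtain ⟨K, hKdef⟩ : ∃ K : ℕ, K = n₀ + n₁ + 10000 := ⟨_, rfl⟩
  have hKpos : 0 < K := by omega
  obtain ⟨k, hk1, hk2, hk3⟩ := exists_small_step (fun k => V (S k)) K hKpos (4 * π / 3)
    (fun k hk => V_le (hS k (by omega)).2.1)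
  have hk3' : 3 ≤ k := by omega
  obtain ⟨hSc, hSu, hSs, hSv, -⟩ := hS k hk3'
  -- insertion
  have hKR : (10000 : ℝ) ≤ K := by
    have : 10000 ≤ K := by omega
    exact_mod_cast this
  have hkR : (K : ℝ) ≤ k := by exact_mod_cast hk1
  have hkR2 : (k : ℝ) < 2 * K := by exact_mod_cast hk2
  obtain ⟨r, p, hr1, hr2, hp, hball, hgain⟩ := h7 (S k) hSu (by
    refine (hD' k hk3' (by omega)).trans ?_
    rw [div_le_div_iff₀ (by positivity) (by norm_num)]
    push_cast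
    nlinarith)
  have hins : V (insert p (S k)) ≤ V (S (k + 1)) := by
    apply hmax (k + 1) (by omega)
    · have := Finset.card_insert_le p (S k)
      omega
    · intro x hx
      rcases Finset.mem_insert.mp hx with rfl | hx
      · exact hp
      · exact hSu x hx
  have hgap : (1 - r) ^ 2 / 20 ≤ (50 / ((5 * K + 2 : ℕ) : ℝ)) / K := by
    have h1 : (1 - r) ^ 2 / 20 ≤ V (S (k + 1)) - V (S k) := by
      have : V (insert p (S k)) ≤ V (S (k + 1)) := hins
      linarith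
    have h2 : (4 * π / 3 - V (S K)) / K ≤ (50 / ((5 * K + 2 : ℕ) : ℝ)) / K :=
      div_le_div_of_nonneg_right (hD' K (by omega) (by omega)) (by positivity)
    exact h1.trans (hk3.trans h2)
  have hr : 1 - 200 / ((5 * k + 2 : ℕ) : ℝ) ≤ r := by
    have hKp : (0 : ℝ) < K := by linarith
    have h1 : (1 - r) ^ 2 ≤ 200 / (K : ℝ) ^ 2 := by
      have h2 : (50 / ((5 * K + 2 : ℕ) : ℝ)) / K ≤ 10 / (K : ℝ) ^ 2 := by
        rw [div_div, div_le_div_iff₀ (by positivity) (by positivity)]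
        push_cast
        nlinarith [sq_nonneg (K : ℝ)]
      have h3 : (200 : ℝ) / (K : ℝ) ^ 2 = 20 * (10 / (K : ℝ) ^ 2) := by ring
      rw [h3]; linarith
    have h4 : 1 - r ≤ 15 / K := by
      have h5 : (1 - r) ^ 2 ≤ (15 / K) ^ 2 := by
        rw [div_pow]
        refine h1.trans ?_
        apply div_le_div_of_nonneg_right _ (by positivity)
        norm_num
      exact le_of_sq_le_sq h5 (by positivity)
    have h6 : (15 : ℝ) / K ≤ 200 / ((5 * k + 2 : ℕ) : ℝ) := by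
      rw [div_le_div_iff₀ hKp (by positivity)]
      push_cast
      nlinarith
    linarith
  refine hT10 (5 * k + 2) (by omega) (S k) r hSc hSu hSs hSv hr hr2 hball ?_
  refine (hD k hk3' (by omega)).trans ?_
  apply mul_le_mul_of_nonneg_right
  · linarith [min_le_left δ 1]
  · positivity

end Pool.Agent.Medial
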