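/-
Basic identities for the scalar triple product, and the fan lemma.
(helper72)
-/
import Pool.Agent.Medial.Defs

set_option autoImplicit false

namespace Pool.Agent.Medial

theorem inner_eq (a x : E) : (inner ℝ a x : ℝ) = a 0 * x 0 + a 1 * x 1 + a 2 * x 2 := by
  simp [PiLp.inner_apply, Fin.sum_univ_three, mul_comm]

theorem norm_sq_eq (a : E) : ‖a‖ ^ 2 = a 0 ^ 2 + a 1 ^ 2 + a 2 ^ 2 := by
  simp [EuclideanSpace.norm_sq_eq, Fin.sum_univ_three]

theorem tri_rot (a b c : E) : tri b c a = tri a b c := by unfold tri; ring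

theorem tri_swap (a b c : E) : tri a c b = - tri a b c := by unfold tri; ring

theorem tri_swap' (a b c : E) : tri b a c = - tri a b c := by unfold tri; ring

theorem tri_sub_left (a b c d : E) : tri (a - d) b c = tri a b c - tri d b c := by
  simp only [tri, PiLp.sub_apply]; ring

theorem tri_sub_mid (a b c d : E) : tri a (b - d) c = tri a b c - tri a d c := by
  simp only [tri, PiLp.sub_apply]; ring

theorem tri_sub_right (a b c d : E) : tri a b (c - d) = tri a b c - tri a b d := by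
  simp only [tri, PiLp.sub_apply]; ring

theorem tri_add_right (a b c d : E) : tri a b (c + d) = tri a b c + tri a b d := by
  simp only [tri, PiLp.add_apply]; ring

theorem tri_smul_right (a b c : E) (t : ℝ) : tri a b (t • c) = t * tri a b c := by
  simp only [tri, PiLp.smul_apply, smul_eq_mul]; ring

theorem tri_self_left (a c : E) : tri a a c = 0 := by unfold tri; ring

theorem tri_self_right (a c : E) : tri a c c = 0 := by unfold tri; ring

theorem tri_self_out (a c : E) : tri a c a = 0 := by unfold tri; ring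

/-- The orientation of a facet does not depend on the base vertex. -/
theorem orient_rot (v w x y : E) : tri (x - w) (v - w) (y - w) = tri (w - v) (x - v) (y - v) := by
  simp only [tri, PiLp.sub_apply]; ring

/-- cross product as an element of `E` -/
noncomputable def crs (a b : E) : E :=
  !₂[a 1 * b 2 - a 2 * b 1, a 2 * b 0 - a 0 * b 2, a 0 * b 1 - a 1 * b 0]

theorem inner_crs (a b c : E) : (inner ℝ (crs a b) c : ℝ) = tri a b c := by
  rw [inner_eq]
  simp [crs, tri]
  ring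

/-- Cramer's rule. -/
theorem cramer (a b c u : E) :
    tri a b c • u = tri u b c • a + tri a u c • b + tri a b u • c := by
  ext i
  fin_cases i <;> simp [tri] <;> ring

theorem cramer_inner (a b c u x : E) :
    tri a b c * inner ℝ x u = tri u b c * inner ℝ x a + tri a u c * inner ℝ x b
      + tri a b u * inner ℝ x c := by
  have h := congrArg (fun t => (inner ℝ x t : ℝ)) (cramer a b c u)
  simpa [inner_add_right, inner_smul_right] using h

/-- Data of a closed fan of facets around the vertex `v`: `O` are the neighbours, `σ` the successor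
function, and `a w` a covector supporting the facet `(v, w, σ w)`. -/
structure Fan (S O : Finset E) (v : E) (σ : E → E) (a : E → E) : Prop where
  nonempty : O.Nonempty
  sub : O ⊆ S
  ne : ∀ w ∈ O, w ≠ v
  map : ∀ w ∈ O, σ w ∈ O
  surj : ∀ q ∈ O, ∃ p ∈ O, σ p = q
  ne1 : ∀ w ∈ O, σ w ≠ w
  ne2 : ∀ w ∈ O, σ (σ w) ≠ w
  zero0 : ∀ w ∈ O, (inner ℝ (a w) (w - v) : ℝ) = 0
  zero1 : ∀ w ∈ O, (inner ℝ (a w) (σ w - v) : ℝ) = 0
  neg : ∀ w ∈ O, ∀ y ∈ S, y ≠ v → y ≠ w → y ≠ σ w → (inner ℝ (a w) (y - v) : ℝ) < 0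

/-- Decomposition in the basis `p, q, r`. -/
theorem decomp {p q r α β : E} (hq : q ≠ 0) (h1 : (inner ℝ α p : ℝ) = 0) (h2 : (inner ℝ α q : ℝ) = 0)
    (h3 : (inner ℝ α r : ℝ) < 0) (h4 : (inner ℝ β q : ℝ) = 0) (h5 : (inner ℝ β r : ℝ) = 0)
    (h6 : (inner ℝ β p : ℝ) < 0) (x : E) :
    ∃ c : ℝ, x = ((inner ℝ β x : ℝ) / inner ℝ β p) • p + c • q + ((inner ℝ α x : ℝ) / inner ℝ α r) • r := by
  have hli : LinearIndependent ℝ ![p, q, r] := by
    rw [Fintype.linearIndependent_iff]
    intro g hg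
    simp only [Fin.sum_univ_three, Matrix.cons_val_zero, Matrix.cons_val_one, Matrix.cons_val] at hg
    have e1 := congrArg (fun t => (inner ℝ α t : ℝ)) hg
    have e2 := congrArg (fun t => (inner ℝ β t : ℝ)) hg
    simp only [inner_add_right, inner_smul_right, h1, h2, h4, h5, inner_zero_right, mul_zero, zero_add,
      add_zero] at e1 e2
    have g2 : g 2 = 0 := by
      rcases mul_eq_zero.mp e1 with h | h
      · exact h
      · exact absurd h h3.ne
    have g0 : g 0 = 0 := by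
      rcases mul_eq_zero.mp e2 with h | h
      · exact h
      · exact absurd h h6.ne
    rw [g2, g0] at hg
    simp only [zero_smul, zero_add, add_zero] at hg
    have g1 : g 1 = 0 := by
      rcases smul_eq_zero.mp hg with h | h
      · exact h
      · exact absurd h hq
    intro i
    fin_cases i
    · exact g0
    · exact g1
    · exact g2
  let B := basisOfLinearIndependentOfCardEqFinrank hli (by simp)
  have hB := B.sum_repr x
  simp only [Fin.sum_univ_three] at hB
  have hb : ∀ i, B i = ![p, q, r] i := fun i => by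
    simp [B, coe_basisOfLinearIndependentOfCardEqFinrank]
  rw [hb 0, hb 1, hb 2] at hB
  simp only [Matrix.cons_val_zero, Matrix.cons_val_one, Matrix.cons_val] at hB
  have e1 := congrArg (fun t => (inner ℝ α t : ℝ)) hB
  have e2 := congrArg (fun t => (inner ℝ β t : ℝ)) hB
  simp only [inner_add_right, inner_smul_right, h1, h2, h4, h5, mul_zero, zero_add, add_zero] at e1 e2
  refine ⟨B.repr x 1, ?_⟩
  rw [← e1, ← e2, mul_div_cancel_right₀ _ h3.ne, mul_div_cancel_right₀ _ h6.ne]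
  exact hB.symm

variable {S O : Finset E} {v : E} {σ a : E → E}

/-- local maximality implies global maximality -/
theorem Fan.le (h : Fan S O v σ a) {g : E} (hg : ∀ y ∈ S, y ≠ v → 0 < (inner ℝ g (y - v) : ℝ))
    {b : E} (hb : ∀ w ∈ O, (inner ℝ b (w - v) : ℝ) ≤ 0) {y : E} (hy : y ∈ S) :
    (inner ℝ b (y - v) : ℝ) ≤ 0 := by
  classical
  by_cases hyv : y = v
  · subst hyv; simp
  obtain ⟨q, hq, hmin⟩ := O.exists_min_image
    (fun w => -(inner ℝ b (w - v) : ℝ) / inner ℝ g (w - v)) h.nonempty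
  obtain ⟨p, hp, rfl⟩ := h.surj q hq
  set t := -(inner ℝ b (σ p - v) : ℝ) / inner ℝ g (σ p - v) with ht
  have hgO : ∀ w ∈ O, 0 < (inner ℝ g (w - v) : ℝ) := fun w hw => hg w (h.sub hw) (h.ne w hw)
  have ht0 : 0 ≤ t := div_nonneg (by linarith [hb _ hq]) (hgO _ hq).le
  have hf : ∀ w ∈ O, (inner ℝ b (w - v) : ℝ) + t * inner ℝ g (w - v) ≤ 0 := by
    intro w hw
    have h1 := hmin w hw
    rw [le_div_iff₀ (hgO w hw)] at h1
    linarith
  have hf0 : (inner ℝ b (σ p - v) : ℝ) + t * inner ℝ g (σ p - v) = 0 := by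
    rw [ht, div_mul_cancel₀ _ (hgO _ hq).ne']; ring
  have hr := h.map _ hq
  have n1 : σ (σ p) ≠ p := h.ne2 p hp
  have n2 : σ (σ p) ≠ σ p := h.ne1 _ hq
  obtain ⟨c, hc⟩ := decomp (p := p - v) (q := σ p - v) (r := σ (σ p) - v) (α := a p) (β := a (σ p))
    (sub_ne_zero.mpr (h.ne _ hq)) (h.zero0 p hp) (h.zero1 p hp)
    (h.neg p hp _ (h.sub hr) (h.ne _ hr) n1 n2) (h.zero0 _ hq) (h.zero1 _ hq)
    (h.neg _ hq _ (h.sub hp) (h.ne _ hp) (h.ne1 p hp).symm n1.symm) (y - v)
  have hle : ∀ w ∈ O, (inner ℝ (a w) (y - v) : ℝ) ≤ 0 := by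
    intro w hw
    by_cases h1 : y = w
    · rw [h1, h.zero0 w hw]
    by_cases h2 : y = σ w
    · rw [h2, h.zero1 w hw]
    exact (h.neg w hw y hy hyv h1 h2).le
  have c1 : 0 ≤ (inner ℝ (a (σ p)) (y - v) : ℝ) / inner ℝ (a (σ p)) (p - v) :=
    div_nonneg_of_nonpos (hle _ hq) (h.neg _ hq _ (h.sub hp) (h.ne _ hp) (h.ne1 p hp).symm n1.symm).le
  have c2 : 0 ≤ (inner ℝ (a p) (y - v) : ℝ) / inner ℝ (a p) (σ (σ p) - v) :=
    div_nonneg_of_nonpos (hle _ hp) (h.neg p hp _ (h.sub hr) (h.ne _ hr) n1 n2).le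
  have e1 := congrArg (fun t => (inner ℝ b t : ℝ)) hc
  have e2 := congrArg (fun t => (inner ℝ g t : ℝ)) hc
  simp only [inner_add_right, inner_smul_right] at e1 e2
  have hgy := hg y hy hyv
  have f1 := mul_nonpos_of_nonneg_of_nonpos c1 (hf p hp)
  have f2 := mul_nonpos_of_nonneg_of_nonpos c2 (hf _ hr)
  have : (inner ℝ b (y - v) : ℝ) + t * inner ℝ g (y - v) ≤ 0 := by
    rw [e1, e2]
    calc _ = (inner ℝ (a (σ p)) (y - v) : ℝ) / inner ℝ (a (σ p)) (p - v) *
            ((inner ℝ b (p - v) : ℝ) + t * inner ℝ g (p - v))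
          + c * ((inner ℝ b (σ p - v) : ℝ) + t * inner ℝ g (σ p - v))
          + (inner ℝ (a p) (y - v) : ℝ) / inner ℝ (a p) (σ (σ p) - v) *
            ((inner ℝ b (σ (σ p) - v) : ℝ) + t * inner ℝ g (σ (σ p) - v)) := by ring
      _ ≤ 0 := by rw [hf0]; linarith
  nlinarith [mul_nonneg ht0 hgy.le]

/-- A supporting covector at `v` touching another point touches a point of the fan. -/
theorem Fan.touch (h : Fan S O v σ a) {g : E} (hg : ∀ y ∈ S, y ≠ v → 0 < (inner ℝ g (y - v) : ℝ))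
    {b : E} (hb : ∀ y ∈ S, (inner ℝ b (y - v) : ℝ) ≤ 0) {y : E} (hy : y ∈ S) (hyv : y ≠ v)
    (hby : (inner ℝ b (y - v) : ℝ) = 0) : ∃ w ∈ O, (inner ℝ b (w - v) : ℝ) = 0 := by
  classical
  by_contra hcon
  push Not at hcon
  have hlt : ∀ w ∈ O, (inner ℝ b (w - v) : ℝ) < 0 := fun w hw =>
    lt_of_le_of_ne (hb w (h.sub hw)) (hcon w hw)
  have hgO : ∀ w ∈ O, 0 < (inner ℝ g (w - v) : ℝ) := fun w hw => hg w (h.sub hw) (h.ne w hw)
  obtain ⟨q, hq, hmin⟩ := O.exists_min_image
    (fun w => -(inner ℝ b (w - v) : ℝ) / inner ℝ g (w - v)) h.nonempty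
  set t := -(inner ℝ b (q - v) : ℝ) / inner ℝ g (q - v) with ht
  have ht0 : 0 < t := div_pos (by linarith [hlt _ hq]) (hgO _ hq)
  have key : ∀ w ∈ O, (inner ℝ (b + t • g) (w - v) : ℝ) ≤ 0 := by
    intro w hw
    have h1 := hmin w hw
    rw [le_div_iff₀ (hgO w hw)] at h1
    rw [inner_add_left, inner_smul_left]
    simp
    linarith
  have h2 := h.le hg key hy
  rw [inner_add_left, inner_smul_left, hby] at h2
  simp at h2
  nlinarith [hg y hy hyv, mul_pos ht0 (hg y hy hyv)]

/-- A nonzero supporting covector at `v` touching another point touches a subset of a facet of the fan. -/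
theorem Fan.touch_sub (h : Fan S O v σ a) {g : E}
    (hg : ∀ y ∈ S, y ≠ v → 0 < (inner ℝ g (y - v) : ℝ))
    {b : E} (hb0 : b ≠ 0) (hb : ∀ y ∈ S, (inner ℝ b (y - v) : ℝ) ≤ 0) {y0 : E} (hy0 : y0 ∈ S)
    (hyv0 : y0 ≠ v) (hby0 : (inner ℝ b (y0 - v) : ℝ) = 0) :
    ∃ w ∈ O, ∀ y ∈ S, (inner ℝ b (y - v) : ℝ) = 0 → y = v ∨ y = w ∨ y = σ w := by
  obtain ⟨q, hq, hbq⟩ := h.touch hg hb hy0 hyv0 hby0
  obtain ⟨p, hp, rfl⟩ := h.surj q hq
  have hr := h.map _ hq
  have n1 : σ (σ p) ≠ p := h.ne2 p hp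
  have n2 : σ (σ p) ≠ σ p := h.ne1 _ hq
  have hαr := h.neg p hp _ (h.sub hr) (h.ne _ hr) n1 n2
  have hβp := h.neg _ hq _ (h.sub hp) (h.ne _ hp) (h.ne1 p hp).symm n1.symm
  have hdec := fun x => decomp (p := p - v) (q := σ p - v) (r := σ (σ p) - v) (α := a p)
    (β := a (σ p)) (sub_ne_zero.mpr (h.ne _ hq)) (h.zero0 p hp) (h.zero1 p hp) hαr (h.zero0 _ hq)
    (h.zero1 _ hq) hβp x
  have hle : ∀ w ∈ O, ∀ y ∈ S, (inner ℝ (a w) (y - v) : ℝ) ≤ 0 := by
    intro w hw y hy
    by_cases h0 : y = v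
    · simp [h0]
    by_cases h1 : y = w
    · rw [h1, h.zero0 w hw]
    by_cases h2 : y = σ w
    · rw [h2, h.zero1 w hw]
    exact (h.neg w hw y hy h0 h1 h2).le
  have hz : ∀ w ∈ O, ∀ y ∈ S, (inner ℝ (a w) (y - v) : ℝ) = 0 → y = v ∨ y = w ∨ y = σ w := by
    intro w hw y hy hy0
    by_contra hcon
    push Not at hcon
    exact (h.neg w hw y hy hcon.1 hcon.2.1 hcon.2.2).ne hy0
  have hbp := hb p (h.sub hp)
  have hbr := hb _ (h.sub hr)
  rcases lt_or_eq_of_le hbp with hbp' | hbp'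
  · refine ⟨σ p, hq, fun y hy hby => ?_⟩
    obtain ⟨c, hc⟩ := hdec (y - v)
    have e1 := congrArg (fun t => (inner ℝ b t : ℝ)) hc
    simp only [inner_add_right, inner_smul_right, hby, hbq, mul_zero, add_zero] at e1
    have c1 : 0 ≤ (inner ℝ (a (σ p)) (y - v) : ℝ) / inner ℝ (a (σ p)) (p - v) :=
      div_nonneg_of_nonpos (hle _ hq y hy) hβp.le
    have c2 : 0 ≤ (inner ℝ (a p) (y - v) : ℝ) / inner ℝ (a p) (σ (σ p) - v) :=
      div_nonneg_of_nonpos (hle _ hp y hy) hαr.le
    have f1 := mul_nonpos_of_nonneg_of_nonpos c1 hbp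
    have f2 := mul_nonpos_of_nonneg_of_nonpos c2 hbr
    have f3 : (inner ℝ (a (σ p)) (y - v) : ℝ) / inner ℝ (a (σ p)) (p - v) * inner ℝ b (p - v) = 0 := by
      linarith
    have f4 : (inner ℝ (a (σ p)) (y - v) : ℝ) = 0 := by
      rcases mul_eq_zero.mp f3 with h3 | h3
      · rcases div_eq_zero_iff.mp h3 with h4 | h4
        · exact h4
        · exact absurd h4 hβp.ne
      · exact absurd h3 hbp'.ne
    exact hz _ hq y hy f4
  · rcases lt_or_eq_of_le hbr with hbr' | hbr'
    · refine ⟨p, hp, fun y hy hby => ?_⟩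
      obtain ⟨c, hc⟩ := hdec (y - v)
      have e1 := congrArg (fun t => (inner ℝ b t : ℝ)) hc
      simp only [inner_add_right, inner_smul_right, hby, hbq, mul_zero, add_zero] at e1
      have c1 : 0 ≤ (inner ℝ (a (σ p)) (y - v) : ℝ) / inner ℝ (a (σ p)) (p - v) :=
        div_nonneg_of_nonpos (hle _ hq y hy) hβp.le
      have c2 : 0 ≤ (inner ℝ (a p) (y - v) : ℝ) / inner ℝ (a p) (σ (σ p) - v) :=
        div_nonneg_of_nonpos (hle _ hp y hy) hαr.le
      have f1 := mul_nonpos_of_nonneg_of_nonpos c1 hbp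
      have f2 := mul_nonpos_of_nonneg_of_nonpos c2 hbr
      have f3 : (inner ℝ (a p) (y - v) : ℝ) / inner ℝ (a p) (σ (σ p) - v) *
          inner ℝ b (σ (σ p) - v) = 0 := by linarith
      have f4 : (inner ℝ (a p) (y - v) : ℝ) = 0 := by
        rcases mul_eq_zero.mp f3 with h3 | h3
        · rcases div_eq_zero_iff.mp h3 with h4 | h4
          · exact h4
          · exact absurd h4 hαr.ne
        · exact absurd h3 hbr'.ne
      exact hz _ hp y hy f4
    · exfalso
      apply hb0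
      obtain ⟨c, hc⟩ := hdec b
      have e1 := congrArg (fun t => (inner ℝ b t : ℝ)) hc
      simp only [inner_add_right, inner_smul_right, hbp', hbq, hbr', mul_zero, add_zero] at e1
      exact inner_self_eq_zero.mp e1

/-- The fan determines the neighbours. -/
theorem Fan.nb_eq (h : Fan S O v σ a) {g : E} (hvS : v ∈ S)
    (hg : ∀ y ∈ S, y ≠ v → 0 < (inner ℝ g (y - v) : ℝ)) : nb S v = (O : Set E) := by
  have hle : ∀ w ∈ O, ∀ y ∈ S, (inner ℝ (a w) (y - v) : ℝ) ≤ 0 := by
    intro w hw y hy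
    by_cases h0 : y = v
    · simp [h0]
    by_cases h1 : y = w
    · rw [h1, h.zero0 w hw]
    by_cases h2 : y = σ w
    · rw [h2, h.zero1 w hw]
    exact (h.neg w hw y hy h0 h1 h2).le
  have hz : ∀ w ∈ O, ∀ y ∈ S, (inner ℝ (a w) (y - v) : ℝ) = 0 → y = v ∨ y = w ∨ y = σ w := by
    intro w hw y hy hy0
    by_contra hcon
    push Not at hcon
    exact (h.neg w hw y hy hcon.1 hcon.2.1 hcon.2.2).ne hy0
  ext w
  constructor
  · rintro ⟨hwS, hwv, b, c, hb, hbt⟩
    have hvc : (inner ℝ b v : ℝ) = c := (hbt v hvS).mpr (Or.inl rfl)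
    have hwc : (inner ℝ b w : ℝ) = c := (hbt w hwS).mpr (Or.inr rfl)
    have hb' : ∀ y ∈ S, (inner ℝ b (y - v) : ℝ) ≤ 0 := fun y hy => by
      rw [inner_sub_right, hvc]; linarith [hb y hy]
    obtain ⟨w', hw', hbw'⟩ := h.touch hg hb' hwS hwv (by rw [inner_sub_right, hvc, hwc, sub_self])
    have : (inner ℝ b w' : ℝ) = c := by
      rw [inner_sub_right, hvc] at hbw'; linarith
    rcases (hbt w' (h.sub hw')).mp this with h1 | h1
    · exact absurd h1 (h.ne _ hw')
    · rw [← h1]; exact hw'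
  · intro hq
    have hq : w ∈ O := hq
    obtain ⟨p, hp, rfl⟩ := h.surj w hq
    refine ⟨h.sub hq, h.ne _ hq, a p + a (σ p), inner ℝ (a p + a (σ p)) v, ?_, ?_⟩
    · intro x hx
      have h1 := hle p hp x hx
      have h2 := hle _ hq x hx
      rw [inner_sub_right] at h1 h2
      rw [inner_add_left, inner_add_left]; linarith
    · intro x hx
      have h1 := hle p hp x hx
      have h2 := hle _ hq x hx
      constructor
      · intro hx0
        rw [inner_add_left, inner_add_left] at hx0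
        have h1' := h1
        have h2' := h2
        rw [inner_sub_right] at h1' h2'
        have z1 : (inner ℝ (a p) (x - v) : ℝ) = 0 := by rw [inner_sub_right]; linarith
        have z2 : (inner ℝ (a (σ p)) (x - v) : ℝ) = 0 := by rw [inner_sub_right]; linarith
        rcases hz p hp x hx z1 with h3 | h3 | h3
        · exact Or.inl h3
        · rcases hz _ hq x hx z2 with h4 | h4 | h4
          · exact Or.inl h4
          · exact absurd (h4.symm.trans h3) (h.ne1 p hp)
          · exact absurd (h4.symm.trans h3) (h.ne2 p hp)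
        · exact Or.inr h3
      · rintro (rfl | rfl)
        · rfl
        · have z1 := h.zero1 p hp
          have z2 := h.zero0 _ hq
          rw [inner_sub_right] at z1 z2
          rw [inner_add_left, inner_add_left]; linarith

/-- on the unit sphere `-v` is strictly positive on `y - v` -/
theorem pos_of_unit {S : Finset E} (hS : Unit S) {v : E} (hv : v ∈ S) :
    ∀ y ∈ S, y ≠ v → 0 < (inner ℝ (-v) (y - v) : ℝ) := by
  intro y hy hyv
  have h1 : ‖y - v‖ ^ 2 = 2 - 2 * inner ℝ v y := by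
    rw [norm_sub_sq_real, hS y hy, hS v hv, real_inner_comm]; ring
  have h2 : 0 < ‖y - v‖ ^ 2 := by
    have := norm_pos_iff.mpr (sub_ne_zero.mpr hyv)
    positivity
  have h3 : (inner ℝ (-v) (y - v) : ℝ) = 1 - inner ℝ v y := by
    rw [inner_neg_left, inner_sub_right, real_inner_self_eq_norm_sq, hS v hv]; ring
  rw [h3]; linarith

/-- A set all of whose vertices have fans is simplicial (for points of the unit sphere with at least
two points). -/
theorem simplicial_of_fans {S : Finset E} (hS : Unit S)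
    (hfan : ∀ v ∈ S, ∃ (O : Finset E) (σ a : E → E), Fan S O v σ a) : Simplicial S := by
  classical
  intro b c T hb hTS hle hT
  by_contra hcard
  push Not at hcard
  have hne : T.Nonempty := Finset.card_pos.mp (by omega)
  obtain ⟨v, hv⟩ := hne
  obtain ⟨O, σ, a, h⟩ := hfan v (hTS hv)
  obtain ⟨y0, hy0, hy0v⟩ : ∃ y0 ∈ T, y0 ≠ v := Finset.exists_mem_ne (by omega) v
  have hvc := hT v hv
  have hb' : ∀ y ∈ S, (inner ℝ b (y - v) : ℝ) ≤ 0 := fun y hy => by
    rw [inner_sub_right, hvc]; linarith [hle y hy]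
  obtain ⟨w, hw, hw2⟩ := h.touch_sub (pos_of_unit hS (hTS hv)) hb hb' (hTS hy0) hy0v
    (by rw [inner_sub_right, hvc, hT y0 hy0, sub_self])
  have hsub : T ⊆ {v, w, σ w} := by
    intro y hy
    have := hw2 y (hTS hy) (by rw [inner_sub_right, hvc, hT y hy, sub_self])
    simpa using this
  have := Finset.card_le_card hsub
  have h3 : ({v, w, σ w} : Finset E).card ≤ 3 := Finset.card_le_three
  omega

end Pool.Agent.Medial
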