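import Mathlib
import Pool.Agent.Medial.Defs

/-! Moments of the corner simplex of `ℝ³` and of tetrahedra with apex `0`. -/

set_option autoImplicit false

open MeasureTheory Set

namespace Pool.Agent.Medial

/-- coordinates -/
def co (a : E) : ℝ × ℝ × ℝ := (a 0, a 1, a 2)

lemma mp_co : MeasurePreserving co volume volume := by
  have h1 := PiLp.volume_preserving_ofLp (Fin 3)
  have h2 := volume_preserving_piFinSuccAbove (fun _ : Fin 3 => ℝ) 0
  have h3 : MeasurePreserving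
      (Prod.map id (MeasurableEquiv.finTwoArrow : (Fin 2 → ℝ) ≃ᵐ ℝ × ℝ))
      ((volume : Measure ℝ).prod (volume : Measure (Fin 2 → ℝ)))
      ((volume : Measure ℝ).prod (volume : Measure (ℝ × ℝ))) :=
    (MeasurePreserving.id volume).prod (volume_preserving_finTwoArrow ℝ)
  have h4 := h3.comp (h2.comp h1)
  exact h4

/-- corner simplex -/
def Dl : Set E := {a | 0 ≤ a 0 ∧ 0 ≤ a 1 ∧ 0 ≤ a 2 ∧ a 0 + a 1 + a 2 ≤ 1}

def Dl' : Set (ℝ × ℝ × ℝ) := {a | 0 ≤ a.1 ∧ 0 ≤ a.2.1 ∧ 0 ≤ a.2.2 ∧ a.1 + a.2.1 + a.2.2 ≤ 1}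

lemma isClosed_Dl' : IsClosed Dl' := by
  have h : Dl' = {a : ℝ × ℝ × ℝ | 0 ≤ a.1} ∩ ({a | 0 ≤ a.2.1} ∩ ({a | 0 ≤ a.2.2} ∩
      {a | a.1 + a.2.1 + a.2.2 ≤ 1})) := by
    ext a; simp [Dl']
  rw [h]
  refine (isClosed_le (by fun_prop) (by fun_prop)).inter
    ((isClosed_le (by fun_prop) (by fun_prop)).inter
      ((isClosed_le (by fun_prop) (by fun_prop)).inter (isClosed_le (by fun_prop) (by fun_prop))))

lemma isCompact_Dl' : IsCompact Dl' := by
  refine IsCompact.of_isClosed_subset (s := Icc (0 : ℝ) 1 ×ˢ (Icc (0 : ℝ) 1 ×ˢ Icc (0 : ℝ) 1)) ?_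
    isClosed_Dl' ?_
  · exact isCompact_Icc.prod (isCompact_Icc.prod isCompact_Icc)
  · rintro ⟨x, y, z⟩ ⟨h1, h2, h3, h4⟩
    simp only at h1 h2 h3 h4
    exact ⟨⟨h1, by simp; linarith⟩, ⟨h2, by simp; linarith⟩, ⟨h3, by simp; linarith⟩⟩

lemma measurableSet_Dl : MeasurableSet Dl := by
  have : Dl = co ⁻¹' Dl' := rfl
  rw [this]
  exact mp_co.measurable isClosed_Dl'.measurableSet

lemma integral_Dl (f : ℝ × ℝ × ℝ → ℝ) (hf : Continuous f) :
    ∫ a in Dl, f (co a) = ∫ x in (0 : ℝ)..1, ∫ y in (0 : ℝ)..(1 - x), ∫ z in (0 : ℝ)..(1 - x - y),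
      f (x, y, z) := by
  have hint : IntegrableOn f Dl' volume := hf.continuousOn.integrableOn_compact isCompact_Dl'
  have hint' : Integrable (Dl'.indicator f) (volume : Measure (ℝ × ℝ × ℝ)) :=
    (integrable_indicator_iff isClosed_Dl'.measurableSet).2 hint
  have h1 : ∫ a in Dl, f (co a) = ∫ p, Dl'.indicator f p := by
    rw [← mp_co.map_eq, integral_map mp_co.measurable.aemeasurable]
    · rw [← integral_indicator measurableSet_Dl]
      rfl
    · rw [mp_co.map_eq]; exact hint'.aestronglyMeasurable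
  rw [h1]
  have hv : (volume : Measure (ℝ × ℝ × ℝ)) = (volume : Measure ℝ).prod (volume : Measure (ℝ × ℝ)) :=
    rfl
  rw [hv] at hint' ⊢
  rw [integral_prod _ hint', intervalIntegral.integral_of_le zero_le_one,
    ← integral_indicator measurableSet_Ioc]
  have hz : ∀ x y : ℝ, ∫ z, Dl'.indicator f (x, y, z) =
      if 0 ≤ x ∧ 0 ≤ y ∧ x + y ≤ 1 then ∫ z in (0 : ℝ)..(1 - x - y), f (x, y, z) else 0 := by
    intro x y
    split_ifs with h
    · rw [intervalIntegral.integral_of_le (by linarith), ← integral_Icc_eq_integral_Ioc,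
        ← integral_indicator measurableSet_Icc]
      refine integral_congr_ae (Filter.Eventually.of_forall fun z => ?_)
      show Dl'.indicator f (x, y, z) = (Icc 0 (1 - x - y)).indicator (fun z => f (x, y, z)) z
      by_cases hzz : 0 ≤ z ∧ z ≤ 1 - x - y
      · have m1 : ((x, y, z) : ℝ × ℝ × ℝ) ∈ Dl' := ⟨h.1, h.2.1, hzz.1, by simp only; linarith⟩
        rw [indicator_of_mem m1, indicator_of_mem (show z ∈ Icc 0 (1 - x - y) from hzz)]
      · have m1 : ((x, y, z) : ℝ × ℝ × ℝ) ∉ Dl' := by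
          rintro ⟨_, _, h3, h4⟩
          simp only at h3 h4
          exact hzz ⟨h3, by linarith⟩
        rw [indicator_of_notMem m1, indicator_of_notMem (show z ∉ Icc 0 (1 - x - y) from hzz)]
    · have h0 : ∀ z : ℝ, Dl'.indicator f (x, y, z) = 0 := by
        intro z
        have m1 : ((x, y, z) : ℝ × ℝ × ℝ) ∉ Dl' := by
          rintro ⟨h1, h2, h3, h4⟩
          simp only at h1 h2 h3 h4
          exact h ⟨h1, h2, by linarith⟩
        rw [indicator_of_notMem m1]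
      simp only [h0, integral_zero]
  have hs : ∀ x : ℝ, Integrable (fun p : ℝ × ℝ => Dl'.indicator f (x, p)) volume := by
    intro x
    have hmeas : MeasurableSet {p : ℝ × ℝ | (x, p) ∈ Dl'} :=
      (isClosed_Dl'.preimage (by fun_prop : Continuous fun p : ℝ × ℝ => (x, p))).measurableSet
    have : (fun p : ℝ × ℝ => Dl'.indicator f (x, p)) =
        indicator {p : ℝ × ℝ | (x, p) ∈ Dl'} (fun p => f (x, p)) := by
      ext p; simp [indicator]
    rw [this, integrable_indicator_iff hmeas]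
    have hcomp : IsCompact {p : ℝ × ℝ | (x, p) ∈ Dl'} := by
      refine IsCompact.of_isClosed_subset (s := Icc (0 : ℝ) 1 ×ˢ Icc (0 : ℝ) 1)
        (isCompact_Icc.prod isCompact_Icc)
        (isClosed_Dl'.preimage (by fun_prop : Continuous fun p : ℝ × ℝ => (x, p))) ?_
      rintro ⟨y, z⟩ ⟨h1, h2, h3, h4⟩
      simp only at h1 h2 h3 h4
      exact ⟨⟨h2, by simp; linarith⟩, ⟨h3, by simp; linarith⟩⟩
    exact (by fun_prop : Continuous fun p : ℝ × ℝ => f (x, p)).continuousOn.integrableOn_compact hcomp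
  have hv2 : (volume : Measure (ℝ × ℝ)) = (volume : Measure ℝ).prod (volume : Measure ℝ) := rfl
  -- the boundary point x = 0 is negligible
  have hae : ∀ᵐ x : ℝ, x ≠ 0 := by
    simp [ae_iff]
  refine integral_congr_ae ?_
  filter_upwards [hae] with x hx0
  have hsx := hs x
  rw [hv2] at hsx ⊢
  rw [integral_prod _ hsx]
  simp only [hz]
  by_cases hx : 0 < x ∧ x ≤ 1
  · rw [indicator_of_mem (show x ∈ Ioc (0 : ℝ) 1 from hx),
      intervalIntegral.integral_of_le (by linarith), ← integral_Icc_eq_integral_Ioc,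
      ← integral_indicator measurableSet_Icc]
    refine integral_congr_ae (Filter.Eventually.of_forall fun y => ?_)
    simp only [indicator, mem_Icc]
    by_cases hy : 0 ≤ y ∧ y ≤ 1 - x
    · rw [if_pos ⟨hx.1.le, hy.1, by linarith⟩, if_pos hy]
    · rw [if_neg, if_neg hy]
      rintro ⟨_, h2, h3⟩
      exact hy ⟨h2, by linarith⟩
  · rw [indicator_of_notMem (show x ∉ Ioc (0 : ℝ) 1 from hx)]
    have h0 : ∀ y : ℝ, (if 0 ≤ x ∧ 0 ≤ y ∧ x + y ≤ 1 then
        ∫ z in (0 : ℝ)..(1 - x - y), f (x, y, z) else 0) = 0 := by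
      intro y
      rw [if_neg]
      rintro ⟨h1, h2, h3⟩
      exact hx ⟨lt_of_le_of_ne h1 (Ne.symm hx0), by linarith⟩
    simp only [h0, integral_zero]

lemma poly4 (p0 p1 p2 p3 p4 a b : ℝ) :
    ∫ y in a..b, (p0 + p1 * y + p2 * y ^ 2 + p3 * y ^ 3 + p4 * y ^ 4) =
      p0 * (b - a) + p1 * (b ^ 2 - a ^ 2) / 2 + p2 * (b ^ 3 - a ^ 3) / 3 +
        p3 * (b ^ 4 - a ^ 4) / 4 + p4 * (b ^ 5 - a ^ 5) / 5 := by
  have h : ∀ y : ℝ, HasDerivAt (fun y : ℝ => p0 * y + p1 * y ^ 2 / 2 + p2 * y ^ 3 / 3 +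
      p3 * y ^ 4 / 4 + p4 * y ^ 5 / 5) (p0 + p1 * y + p2 * y ^ 2 + p3 * y ^ 3 + p4 * y ^ 4) y := by
    intro y
    have := (((((hasDerivAt_id y).const_mul p0).add
      (((hasDerivAt_pow 2 y).const_mul p1).div_const 2)).add
      (((hasDerivAt_pow 3 y).const_mul p2).div_const 3)).add
      (((hasDerivAt_pow 4 y).const_mul p3).div_const 4)).add
      (((hasDerivAt_pow 5 y).const_mul p4).div_const 5)
    refine this.congr_deriv ?_
    norm_num
    ring
  rw [intervalIntegral.integral_eq_sub_of_hasDerivAt (fun y _ => h y)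
    ((by fun_prop : Continuous fun y : ℝ =>
      p0 + p1 * y + p2 * y ^ 2 + p3 * y ^ 3 + p4 * y ^ 4).intervalIntegrable _ _)]
  ring

lemma iter_poly (f : ℝ × ℝ × ℝ → ℝ) (r : ℝ)
    (q0 q1 q2 : ℝ → ℝ → ℝ)
    (hf : ∀ x y z, f (x, y, z) = q0 x y + q1 x y * z + q2 x y * z ^ 2)
    (hc : Continuous f)
    (c0 c1 c2 c3 : ℝ → ℝ)
    (hg : ∀ x y, q0 x y * (1 - x - y) + q1 x y * (1 - x - y) ^ 2 / 2 +
      q2 x y * (1 - x - y) ^ 3 / 3 = c0 x + c1 x * y + c2 x * y ^ 2 + c3 x * y ^ 3)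
    (d0 d1 d2 d3 d4 : ℝ)
    (hh : ∀ x, c0 x * (1 - x) + c1 x * (1 - x) ^ 2 / 2 + c2 x * (1 - x) ^ 3 / 3 +
      c3 x * (1 - x) ^ 4 / 4 = d0 + d1 * x + d2 * x ^ 2 + d3 * x ^ 3 + d4 * x ^ 4)
    (hr : d0 + d1 / 2 + d2 / 3 + d3 / 4 + d4 / 5 = r) :
    ∫ a in Dl, f (co a) = r := by
  rw [integral_Dl f hc]
  have e1 : ∀ x y : ℝ, ∫ z in (0 : ℝ)..(1 - x - y), f (x, y, z) =
      c0 x + c1 x * y + c2 x * y ^ 2 + c3 x * y ^ 3 := by
    intro x y
    rw [← hg]
    have := poly4 (q0 x y) (q1 x y) (q2 x y) 0 0 0 (1 - x - y)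
    rw [show (fun z => f (x, y, z)) = fun z => q0 x y + q1 x y * z + q2 x y * z ^ 2 +
      0 * z ^ 3 + 0 * z ^ 4 from by ext z; rw [hf]; ring, this]
    ring
  simp only [e1]
  have e2 : ∀ x : ℝ, ∫ y in (0 : ℝ)..(1 - x), (c0 x + c1 x * y + c2 x * y ^ 2 + c3 x * y ^ 3) =
      d0 + d1 * x + d2 * x ^ 2 + d3 * x ^ 3 + d4 * x ^ 4 := by
    intro x
    rw [← hh]
    have := poly4 (c0 x) (c1 x) (c2 x) (c3 x) 0 0 (1 - x)
    rw [show (fun y => c0 x + c1 x * y + c2 x * y ^ 2 + c3 x * y ^ 3) = fun y =>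
      c0 x + c1 x * y + c2 x * y ^ 2 + c3 x * y ^ 3 + 0 * y ^ 4 from by ext y; ring, this]
    ring
  simp only [e2]
  rw [poly4, ← hr]
  ring

lemma Dl_one : ∫ _a in Dl, (1 : ℝ) = 1 / 6 := by
  refine iter_poly (fun _ => 1) _ (fun _ _ => 1) (fun _ _ => 0)
    (fun _ _ => 0) (by intros; ring) (by fun_prop) (fun x => 1 - x) (fun _ => -1) (fun _ => 0)
    (fun _ => 0) (by intros; ring) (1 / 2) (-1) (1 / 2) 0 0 (by intros; ring) (by norm_num)

lemma Dl_00 : ∫ a in Dl, a 0 * a 0 = 1 / 60 := by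
  refine iter_poly (fun p => p.1 * p.1) _ (fun x _ => x * x)
    (fun _ _ => 0) (fun _ _ => 0) (by intros; ring) (by fun_prop) (fun x => x ^ 2 * (1 - x))
    (fun x => -x ^ 2) (fun _ => 0)
    (fun _ => 0) (by intros; ring) 0 0 (1 / 2) (-1) (1 / 2) (by intros; ring) (by norm_num)

lemma Dl_11 : ∫ a in Dl, a 1 * a 1 = 1 / 60 := by
  refine iter_poly (fun p => p.2.1 * p.2.1) _ (fun _ y => y * y)
    (fun _ _ => 0) (fun _ _ => 0) (by intros; ring) (by fun_prop) (fun _ => 0)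
    (fun _ => 0) (fun x => 1 - x)
    (fun _ => -1) (by intros; ring) (1 / 12) (-4 / 12) (6 / 12) (-4 / 12) (1 / 12)
    (by intros; ring) (by norm_num)

lemma Dl_22 : ∫ a in Dl, a 2 * a 2 = 1 / 60 := by
  refine iter_poly (fun p => p.2.2 * p.2.2) _ (fun _ _ => 0)
    (fun _ _ => 0) (fun _ _ => 1) (by intros; ring) (by fun_prop) (fun x => (1 - x) ^ 3 / 3)
    (fun x => -(1 - x) ^ 2) (fun x => 1 - x)
    (fun _ => -1 / 3) (by intros; ring) (1 / 12) (-4 / 12) (6 / 12) (-4 / 12) (1 / 12)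
    (by intros; ring) (by norm_num)

lemma Dl_01 : ∫ a in Dl, a 0 * a 1 = 1 / 120 := by
  refine iter_poly (fun p => p.1 * p.2.1) _ (fun x y => x * y)
    (fun _ _ => 0) (fun _ _ => 0) (by intros; ring) (by fun_prop) (fun _ => 0)
    (fun x => x * (1 - x)) (fun x => -x)
    (fun _ => 0) (by intros; ring) 0 (1 / 6) (-3 / 6) (3 / 6) (-1 / 6)
    (by intros; ring) (by norm_num)

lemma Dl_02 : ∫ a in Dl, a 0 * a 2 = 1 / 120 := by
  refine iter_poly (fun p => p.1 * p.2.2) _ (fun _ _ => 0)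
    (fun x _ => x) (fun _ _ => 0) (by intros; ring) (by fun_prop) (fun x => x * (1 - x) ^ 2 / 2)
    (fun x => -x * (1 - x)) (fun x => x / 2)
    (fun _ => 0) (by intros; ring) 0 (1 / 6) (-3 / 6) (3 / 6) (-1 / 6)
    (by intros; ring) (by norm_num)

lemma Dl_12 : ∫ a in Dl, a 1 * a 2 = 1 / 120 := by
  refine iter_poly (fun p => p.2.1 * p.2.2) _ (fun _ _ => 0)
    (fun _ y => y) (fun _ _ => 0) (by intros; ring) (by fun_prop) (fun _ => 0)
    (fun x => (1 - x) ^ 2 / 2) (fun x => -(1 - x))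
    (fun _ => 1 / 2) (by intros; ring) (1 / 24) (-4 / 24) (6 / 24) (-4 / 24) (1 / 24)
    (by intros; ring) (by norm_num)

end Pool.Agent.Medial
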