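import Mathlib
import Pool.Agent.Medial.Simplex

/-! Integrals over tetrahedra with apex `0`. -/

set_option autoImplicit false

open MeasureTheory Set

namespace Pool.Agent.Medial

/-- the linear map with columns `p q r` -/
noncomputable def Lm (p q r : E) : E →L[ℝ] E :=
  (EuclideanSpace.proj (0 : Fin 3)).smulRight p + (EuclideanSpace.proj (1 : Fin 3)).smulRight q +
    (EuclideanSpace.proj (2 : Fin 3)).smulRight r

lemma Lm_apply (p q r a : E) : Lm p q r a = a 0 • p + a 1 • q + a 2 • r := by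
  simp [Lm]

lemma Lm_det (p q r : E) : (Lm p q r).det = tri p q r := by
  have h : (Lm p q r).det = LinearMap.det ((Lm p q r : E →L[ℝ] E) : E →ₗ[ℝ] E) := rfl
  rw [h, ← LinearMap.det_toMatrix (EuclideanSpace.basisFun (Fin 3) ℝ).toBasis]
  rw [Matrix.det_fin_three]
  simp only [LinearMap.toMatrix_apply]
  simp [Lm_apply, tri]
  ring

lemma mem_tet {p q r x : E} : x ∈ tet p q r ↔
    ∃ a b c : ℝ, 0 ≤ a ∧ 0 ≤ b ∧ 0 ≤ c ∧ a + b + c ≤ 1 ∧ x = a • p + b • q + c • r := by
  constructor
  · intro hx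
    have hconv : Convex ℝ {x : E | ∃ a b c : ℝ, 0 ≤ a ∧ 0 ≤ b ∧ 0 ≤ c ∧ a + b + c ≤ 1 ∧
        x = a • p + b • q + c • r} := by
      rintro x ⟨a, b, c, ha, hb, hc, h1, rfl⟩ y ⟨a', b', c', ha', hb', hc', h1', rfl⟩ s t hs ht hst
      refine ⟨s * a + t * a', s * b + t * b', s * c + t * c', by positivity, by positivity,
        by positivity, ?_, ?_⟩
      · nlinarith
      · module
    refine convexHull_min ?_ hconv hx
    intro y hy
    simp only [mem_insert_iff, mem_singleton_iff] at hy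
    rcases hy with rfl | rfl | rfl | rfl
    · exact ⟨0, 0, 0, le_rfl, le_rfl, le_rfl, by norm_num, by simp⟩
    · exact ⟨1, 0, 0, by norm_num, le_rfl, le_rfl, by norm_num, by simp⟩
    · exact ⟨0, 1, 0, le_rfl, by norm_num, le_rfl, by norm_num, by simp⟩
    · exact ⟨0, 0, 1, le_rfl, le_rfl, by norm_num, by norm_num, by simp⟩
  · rintro ⟨a, b, c, ha, hb, hc, h1, rfl⟩
    have h := (convex_convexHull ℝ ({0, p, q, r} : Set E)).sum_mem (t := Finset.univ)
      (w := ![1 - a - b - c, a, b, c]) (z := ![0, p, q, r]) (by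
        intro i _
        fin_cases i <;> simp <;> linarith) (by
        simp [Fin.sum_univ_four]; ring) (by
        intro i _
        fin_cases i <;> exact subset_convexHull ℝ _ (by simp))
    simpa [Fin.sum_univ_four, tet] using h

lemma tet_eq (p q r : E) : tet p q r = Lm p q r '' Dl := by
  ext x
  rw [mem_tet]
  constructor
  · rintro ⟨a, b, c, ha, hb, hc, h1, rfl⟩
    refine ⟨!₂[a, b, c], ⟨by simpa using ha, by simpa using hb, by simpa using hc, by simpa using h1⟩, ?_⟩
    rw [Lm_apply]; simp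
  · rintro ⟨a, ⟨h0, h1, h2, h3⟩, rfl⟩
    exact ⟨a 0, a 1, a 2, h0, h1, h2, h3, Lm_apply _ _ _ _⟩

lemma Lm_injective {p q r : E} (h : tri p q r ≠ 0) : Function.Injective (Lm p q r) := by
  have hdet : LinearMap.det ((Lm p q r : E →L[ℝ] E) : E →ₗ[ℝ] E) ≠ 0 := by
    have := Lm_det p q r
    rw [← this] at h
    exact h
  have hi : Function.Injective ((Lm p q r : E →L[ℝ] E) : E →ₗ[ℝ] E) := by
    rw [← LinearMap.ker_eq_bot]
    by_contra hk
    exact hdet (LinearMap.det_eq_zero_iff_ker_ne_bot.2 hk)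
  exact hi

lemma isCompact_tet (p q r : E) : IsCompact (tet p q r) :=
  (Set.toFinite _).isCompact_convexHull ℝ

lemma measurableSet_tet (p q r : E) : MeasurableSet (tet p q r) :=
  (isCompact_tet p q r).isClosed.measurableSet

lemma integral_tet {p q r : E} (h : tri p q r ≠ 0) (g : E → ℝ) :
    ∫ x in tet p q r, g x = |tri p q r| * ∫ a in Dl, g (Lm p q r a) := by
  rw [tet_eq, integral_image_eq_integral_abs_det_fderiv_smul volume measurableSet_Dl
    (fun x _ => (Lm p q r).hasFDerivWithinAt) ((Lm_injective h).injOn) g]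
  simp only [Lm_det, smul_eq_mul]
  rw [integral_const_mul]

lemma vol_tet {p q r : E} (h : 0 < tri p q r) : (volume (tet p q r)).toReal = tri p q r / 6 := by
  have h1 := integral_tet h.ne' (fun _ => 1)
  rw [Dl_one, abs_of_pos h] at h1
  simp only [integral_const, smul_eq_mul, mul_one] at h1
  rw [measureReal_restrict_apply_univ] at h1
  rw [← measureReal_def, h1]; ring

lemma integrableOn_Dl {f : ℝ × ℝ × ℝ → ℝ} (hf : Continuous f) :
    IntegrableOn (fun a : E => f (co a)) Dl volume := by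
  have : IsCompact Dl := by
    have h1 : Dl = ⇑(Lm (EuclideanSpace.single 0 1) (EuclideanSpace.single 1 1)
      (EuclideanSpace.single 2 1)) '' Dl := by
      have : ∀ a : E, Lm (EuclideanSpace.single 0 1) (EuclideanSpace.single 1 1)
          (EuclideanSpace.single 2 1) a = a := by
        intro a; rw [Lm_apply]; ext i; fin_cases i <;> simp
      simp only [this, image_id']
    rw [h1, ← tet_eq]; exact isCompact_tet _ _ _
  refine ContinuousOn.integrableOn_compact this (Continuous.continuousOn ?_)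
  exact hf.comp (by unfold co; fun_prop)

lemma inner_unit {p q : E} (hp : ‖p‖ = 1) (hq : ‖q‖ = 1) :
    (inner ℝ p q : ℝ) = 1 - ‖p - q‖ ^ 2 / 2 := by
  have := norm_sub_sq_real p q
  rw [hp, hq] at this
  linarith

lemma norm_Lm_sq {p q r : E} (hp : ‖p‖ = 1) (hq : ‖q‖ = 1) (hr : ‖r‖ = 1) (a : E) :
    ‖Lm p q r a‖ ^ 2 = (a 0 + a 1 + a 2) ^ 2 - (a 0 * a 1 * ‖p - q‖ ^ 2 + a 1 * a 2 * ‖q - r‖ ^ 2 +
      a 0 * a 2 * ‖r - p‖ ^ 2) := by
  rw [Lm_apply, norm_add_sq_real, norm_add_sq_real, inner_add_left]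
  simp only [inner_smul_left, inner_smul_right, norm_smul, hp, hq, hr, Real.norm_eq_abs, mul_one,
    sq_abs, conj_trivial]
  rw [inner_unit hp hq, inner_unit hp hr, inner_unit hq hr, norm_sub_rev p r]
  ring

lemma second_moment {p q r : E} (h : 0 < tri p q r) (hp : ‖p‖ = 1) (hq : ‖q‖ = 1)
    (hr : ‖r‖ = 1) :
    ∫ x in tet p q r, (3 / 5 - ‖x‖ ^ 2) = tri p q r / 6 * Lsq p q r / 20 := by
  rw [integral_tet h.ne', abs_of_pos h]
  have h1 : ∀ a : E, 3 / 5 - ‖Lm p q r a‖ ^ 2 = 3 / 5 * 1 - (a 0 * a 0 + a 1 * a 1 + a 2 * a 2) -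
      (2 - ‖p - q‖ ^ 2) * (a 0 * a 1) - (2 - ‖q - r‖ ^ 2) * (a 1 * a 2) -
      (2 - ‖r - p‖ ^ 2) * (a 0 * a 2) := by
    intro a; rw [norm_Lm_sq hp hq hr]; ring
  simp only [h1]
  have i0 : IntegrableOn (fun _ : E => (1 : ℝ)) Dl volume := integrableOn_Dl (f := fun _ => 1) (by fun_prop)
  have i00 : IntegrableOn (fun a : E => a 0 * a 0) Dl volume :=
    integrableOn_Dl (f := fun p => p.1 * p.1) (by fun_prop)
  have i11 : IntegrableOn (fun a : E => a 1 * a 1) Dl volume :=
    integrableOn_Dl (f := fun p => p.2.1 * p.2.1) (by fun_prop)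
  have i22 : IntegrableOn (fun a : E => a 2 * a 2) Dl volume :=
    integrableOn_Dl (f := fun p => p.2.2 * p.2.2) (by fun_prop)
  have i01 : IntegrableOn (fun a : E => a 0 * a 1) Dl volume :=
    integrableOn_Dl (f := fun p => p.1 * p.2.1) (by fun_prop)
  have i02 : IntegrableOn (fun a : E => a 0 * a 2) Dl volume :=
    integrableOn_Dl (f := fun p => p.1 * p.2.2) (by fun_prop)
  have i12 : IntegrableOn (fun a : E => a 1 * a 2) Dl volume :=
    integrableOn_Dl (f := fun p => p.2.1 * p.2.2) (by fun_prop)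
  rw [integral_sub, integral_sub, integral_sub, integral_sub, integral_add, integral_add,
    integral_const_mul, integral_const_mul, integral_const_mul, integral_const_mul,
    Dl_one, Dl_00, Dl_11, Dl_22, Dl_01, Dl_02, Dl_12]
  · unfold Lsq; ring
  · exact i00
  · exact i11
  · exact i00.add i11
  · exact i22
  · exact i0.const_mul _
  · exact (i00.add i11).add i22
  · exact (i0.const_mul _).sub ((i00.add i11).add i22)
  · exact i01.const_mul _
  · exact ((i0.const_mul _).sub ((i00.add i11).add i22)).sub (i01.const_mul _)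
  · exact i12.const_mul _
  · exact (((i0.const_mul _).sub ((i00.add i11).add i22)).sub (i01.const_mul _)).sub
      (i12.const_mul _)
  · exact i02.const_mul _

end Pool.Agent.Medial
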