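import Mathlib
import Pool.Agent.Medial.Tet

/-! The radial moment identity for cones in the unit ball. -/

set_option autoImplicit false

open MeasureTheory Set Metric

namespace Pool.Agent.Medial

open scoped Pointwise

lemma cone_ball_scale (C : Set E) (hcone : ∀ x ∈ C, ∀ t : ℝ, 0 < t → t • x ∈ C) {r : ℝ}
    (hr : 0 < r) :
    (volume (closedBall (0 : E) r ∩ C)).toReal = r ^ 3 * (volume (closedBall (0 : E) 1 ∩ C)).toReal := by
  have h : closedBall (0 : E) r ∩ C = r • (closedBall (0 : E) 1 ∩ C) := by
    ext x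
    rw [Set.mem_smul_set_iff_inv_smul_mem₀ hr.ne']
    simp only [mem_inter_iff, mem_closedBall, dist_zero_right, norm_smul, norm_inv,
      Real.norm_eq_abs, abs_of_pos hr]
    constructor
    · rintro ⟨h1, h2⟩
      refine ⟨?_, hcone x h2 _ (inv_pos.2 hr)⟩
      rw [inv_mul_le_iff₀ hr]; linarith
    · rintro ⟨h1, h2⟩
      rw [inv_mul_le_iff₀ hr] at h1
      refine ⟨by linarith, ?_⟩
      have := hcone _ h2 r hr
      rwa [smul_inv_smul₀ hr.ne'] at this
  rw [h, Measure.addHaar_smul]
  simp [abs_of_pos hr]
  left; positivity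

lemma cone_moment (C : Set E) (hC : MeasurableSet C)
    (hcone : ∀ x ∈ C, ∀ t : ℝ, 0 < t → t • x ∈ C) :
    ∫ x in closedBall (0 : E) 1 ∩ C, (3 / 5 - ‖x‖ ^ 2) = 0 := by
  set B := closedBall (0 : E) 1 with hB
  set m := (volume (B ∩ C)).toReal with hm
  have hBm : MeasurableSet (B ∩ C) := isClosed_closedBall.measurableSet.inter hC
  have hfin : volume (B ∩ C) ≠ ⊤ :=
    ((measure_mono inter_subset_left).trans_lt
      (isCompact_closedBall (0 : E) 1).measure_lt_top).ne
  have hint : IntegrableOn (fun x : E => ‖x‖ ^ 2) (B ∩ C) volume :=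
    ((by fun_prop : Continuous fun x : E => ‖x‖ ^ 2).continuousOn.integrableOn_compact
      (isCompact_closedBall (0 : E) 1)).mono_set inter_subset_left
  have h1 : ∫ x in B ∩ C, ‖x‖ ^ 2 = 3 / 5 * m := by
    rw [Integrable.integral_eq_integral_meas_lt hint
      (Filter.Eventually.of_forall fun x => by positivity)]
    have h2 : ∀ t ∈ Ioi (0 : ℝ), (volume.restrict (B ∩ C)).real {x : E | t < ‖x‖ ^ 2} =
        (Ioc (0 : ℝ) 1).indicator (fun t => m - t ^ (3 / 2 : ℝ) * m) t := by
      intro t ht
      have ht : 0 < t := ht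
      have hms : MeasurableSet {x : E | t < ‖x‖ ^ 2} :=
        measurableSet_lt measurable_const (by fun_prop)
      rw [measureReal_def, Measure.restrict_apply hms]
      by_cases ht1 : t ≤ 1
      · rw [indicator_of_mem (show t ∈ Ioc (0 : ℝ) 1 from ⟨ht, ht1⟩)]
        have hs : 0 < √t := Real.sqrt_pos.2 ht
        have e1 : {x : E | t < ‖x‖ ^ 2} ∩ (B ∩ C) = (B ∩ C) \ (closedBall (0 : E) (√t) ∩ C) := by
          ext x
          simp only [mem_inter_iff, mem_sdiff, mem_closedBall, dist_zero_right]
          constructor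
          · rintro ⟨h3, h4, h5⟩
            refine ⟨⟨h4, h5⟩, fun h6 => ?_⟩
            have := Real.sq_sqrt ht.le
            have h7 : ‖x‖ ^ 2 ≤ √t ^ 2 := by gcongr; exact h6.1
            have h3 : t < ‖x‖ ^ 2 := h3
            linarith
          · rintro ⟨⟨h3, h4⟩, h5⟩
            refine ⟨?_, h3, h4⟩
            by_contra h6
            have h6 : ¬ t < ‖x‖ ^ 2 := h6
            push Not at h6
            exact h5 ⟨Real.le_sqrt_of_sq_le h6, h4⟩
        have hsub : closedBall (0 : E) (√t) ∩ C ⊆ B ∩ C := by
          refine inter_subset_inter_left _ (closedBall_subset_closedBall ?_)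
          exact Real.sqrt_le_one.2 ht1
        rw [e1, measure_sdiff hsub (isClosed_closedBall.measurableSet.inter hC).nullMeasurableSet
          (ne_top_of_le_ne_top hfin (measure_mono hsub)),
          ENNReal.toReal_sub_of_le (measure_mono hsub) hfin, cone_ball_scale C hcone hs]
        have : t ^ (3 / 2 : ℝ) = √t ^ 3 := by
          rw [Real.sqrt_eq_rpow, ← Real.rpow_natCast, ← Real.rpow_mul ht.le]; norm_num
        rw [this]
      · rw [indicator_of_notMem (show t ∉ Ioc (0 : ℝ) 1 from fun h => ht1 h.2)]
        have e1 : {x : E | t < ‖x‖ ^ 2} ∩ (B ∩ C) = ∅ := by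
          ext x
          simp only [mem_inter_iff, mem_empty_iff_false, iff_false]
          rintro ⟨h3, h4, h5⟩
          have h3 : t < ‖x‖ ^ 2 := h3
          have h4 : ‖x‖ ≤ 1 := by simpa [hB] using h4
          push Not at ht1
          nlinarith [norm_nonneg x]
        rw [e1]; simp
    rw [setIntegral_congr_fun measurableSet_Ioi h2, setIntegral_indicator measurableSet_Ioc]
    have h3 : Ioi (0 : ℝ) ∩ Ioc 0 1 = Ioc 0 1 := by
      ext t; simp only [mem_inter_iff, mem_Ioi, mem_Ioc]; tauto
    rw [h3, ← intervalIntegral.integral_of_le zero_le_one, intervalIntegral.integral_sub (by simp)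
      ((intervalIntegral.intervalIntegrable_rpow' (by norm_num)).mul_const _),
      intervalIntegral.integral_mul_const, integral_rpow (by norm_num)]
    simp
    ring
  have hc : IntegrableOn (fun _ : E => (3 / 5 : ℝ)) (B ∩ C) volume :=
    integrableOn_const hfin
  rw [integral_sub hc hint, h1]
  simp only [integral_const, smul_eq_mul]
  rw [measureReal_restrict_apply_univ, measureReal_def]
  ring

lemma ball_moment : ∫ x in closedBall (0 : E) 1, (3 / 5 - ‖x‖ ^ 2) = 0 := by
  have := cone_moment univ MeasurableSet.univ (by simp)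
  rwa [inter_univ] at this

lemma vol_ball : (volume (closedBall (0 : E) 1)).toReal = 4 * Real.pi / 3 := by
  rw [EuclideanSpace.volume_closedBall_fin_three]
  have := Real.pi_pos
  simp
  rw [ENNReal.toReal_ofReal (by positivity)]
  ring

end Pool.Agent.Medial
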