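/-
T1: combinatorics of the facets of the hull of a simplicial, centered set on the unit sphere.
(helper72)
-/
import Pool.Agent.Medial.Basic

set_option autoImplicit false

namespace Pool.Agent.Medial

theorem mem_N {S : Finset E} {v w : E} : w ∈ N S v ↔ w ∈ S ∧ ∃ x, Fac S v w x := by
  classical
  unfold N
  simp

theorem Fac.rot {S : Finset E} {v w x : E} (h : Fac S v w x) : Fac S w x v := by
  obtain ⟨h1, h2, h3, h4, h5⟩ := h
  refine ⟨h2, h3, h1, by rw [tri_rot]; exact h4, fun y hy hyw hyx hyv => ?_⟩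
  rw [orient_rot]
  exact h5 y hy hyv hyw hyx

theorem Fac.ne12 {S : Finset E} {v w x : E} (h : Fac S v w x) : w ≠ v := by
  rintro rfl
  have := h.2.2.2.1
  rw [tri_self_left] at this
  exact lt_irrefl _ this

theorem Fac.ne23 {S : Finset E} {v w x : E} (h : Fac S v w x) : x ≠ w := h.rot.ne12

theorem Fac.ne13 {S : Finset E} {v w x : E} (h : Fac S v w x) : x ≠ v := h.rot.rot.ne12.symm

theorem Fac.unique {S : Finset E} {v w x x' : E} (h : Fac S v w x) (h' : Fac S v w x') : x = x' := by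
  by_contra hne
  have h1 := h.2.2.2.2 x' h'.2.2.1 h'.ne13 h'.ne23 (Ne.symm hne)
  have h2 := h'.2.2.2.2 x h.2.2.1 h.ne13 h.ne23 hne
  rw [tri_swap] at h2
  linarith

theorem L_eq {S : Finset E} {v w x : E} (h : Fac S v w x) : L S v w = x := by
  classical
  have hex : ∃ x, Fac S v w x := ⟨x, h⟩
  unfold L
  rw [dif_pos hex]
  exact hex.choose_spec.unique h

theorem Fac.mem_N {S : Finset E} {v w x : E} (h : Fac S v w x) : w ∈ N S v :=
  Medial.mem_N.mpr ⟨h.2.1, x, h⟩

theorem fac_L {S : Finset E} {v w : E} (h : w ∈ N S v) : Fac S v w (L S v w) := by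
  obtain ⟨_, x, hx⟩ := mem_N.mp h
  rw [L_eq hx]; exact hx

theorem Fac.nonpos {S : Finset E} {v w x y : E} (h : Fac S v w x) (hy : y ∈ S) :
    tri (w - v) (x - v) (y - v) ≤ 0 := by
  by_cases h1 : y = v
  · rw [h1, sub_self]; simp [tri]
  by_cases h2 : y = w
  · rw [h2, tri_self_out]
  by_cases h3 : y = x
  · rw [h3, tri_self_right]
  exact (h.2.2.2.2 y hy h1 h2 h3).le

theorem orient_expand (v w x y : E) : tri (w - v) (x - v) (y - v)
    = tri y w x + tri v y x + tri v w y - tri v w x := by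
  simp only [tri, PiLp.sub_apply]; ring

/-- criterion for a facet -/
theorem fac_of_le {S : Finset E} (hs : Simplicial S) {v w x : E} (hv : v ∈ S) (hw : w ∈ S) (hx : x ∈ S)
    (hpos : 0 < tri v w x) (hle : ∀ y ∈ S, tri (w - v) (x - v) (y - v) ≤ 0) : Fac S v w x := by
  classical
  refine ⟨hv, hw, hx, hpos, fun y hy hyv hyw hyx => lt_of_le_of_ne (hle y hy) ?_⟩
  intro h0
  have hvw : w ≠ v := by
    rintro rfl; rw [tri_self_left] at hpos; exact lt_irrefl _ hpos
  have hvx : x ≠ v := by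
    rintro rfl; rw [tri_self_out] at hpos; exact lt_irrefl _ hpos
  have hwx : x ≠ w := by
    rintro rfl; rw [tri_self_right] at hpos; exact lt_irrefl _ hpos
  have hsub : ∀ t : E, (inner ℝ (crs (w - v) (x - v)) t : ℝ)
      = tri (w - v) (x - v) (t - v) + tri (w - v) (x - v) v := by
    intro t
    rw [inner_crs, tri_sub_right]; ring
  have ha : crs (w - v) (x - v) ≠ 0 := by
    intro hzero
    have h1 : (inner ℝ (crs (w - v) (x - v)) v : ℝ) = tri v w x := by
      rw [inner_crs]; simp only [tri, PiLp.sub_apply]; ring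
    rw [hzero, inner_zero_left] at h1
    linarith
  have := hs (crs (w - v) (x - v)) (tri (w - v) (x - v) v) {v, w, x, y} ha
    (by
      intro t ht
      simp only [Finset.mem_insert, Finset.mem_singleton] at ht
      rcases ht with rfl | rfl | rfl | rfl <;> assumption)
    (fun t ht => by rw [hsub]; linarith [hle t ht])
    (by
      intro t ht
      simp only [Finset.mem_insert, Finset.mem_singleton] at ht
      rw [hsub]
      rcases ht with rfl | rfl | rfl | rfl
      · rw [sub_self]; simp [tri]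
      · rw [tri_self_out]; ring
      · rw [tri_self_right]; ring
      · rw [h0]; ring)
  have hc : ({v, w, x, y} : Finset E).card = 4 := by
    rw [Finset.card_insert_of_notMem, Finset.card_insert_of_notMem, Finset.card_insert_of_notMem,
      Finset.card_singleton]
    · simp [hyx.symm]
    · simp [hwx.symm, hyw.symm]
    · simp [hvw.symm, hvx.symm, hyv.symm]
  omega

/-- Gift wrapping. -/
theorem gift {S : Finset E} (hs : Simplicial S) (hc : Centered S) {c v w : E} (hv : v ∈ S)
    (hw : w ∈ S) (hle : ∀ y ∈ S, (inner ℝ c y : ℝ) ≤ 1) (hcv : (inner ℝ c v : ℝ) = 1)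
    (hcw : (inner ℝ c w : ℝ) = 1) (hvw : crs v w ≠ 0) : ∃ x, Fac S v w x := by
  classical
  obtain ⟨x0, hx0, hx0'⟩ := hc _ hvw
  rw [inner_crs] at hx0'
  obtain ⟨x, hx, hmin⟩ := (S.filter (fun y => 0 < tri v w y)).exists_min_image
    (fun y => (1 - (inner ℝ c y : ℝ)) / tri v w y) ⟨x0, by simp [hx0, hx0']⟩
  simp only [Finset.mem_filter] at hx hmin
  refine ⟨x, fac_of_le hs hv hw hx.1 hx.2 fun y hy => ?_⟩
  have hid : tri (w - v) (x - v) (y - v)
      = - (tri v w x * (1 - inner ℝ c y)) + tri v w y * (1 - inner ℝ c x) := by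
    have h1 := cramer_inner v w x y c
    rw [hcv, hcw] at h1
    rw [orient_expand]
    linarith
  rw [hid]
  rcases le_or_gt (tri v w y) 0 with h | h
  · have h1 := mul_nonpos_of_nonpos_of_nonneg h (by linarith [hle x hx.1] : 0 ≤ 1 - (inner ℝ c x : ℝ))
    have h2 := mul_nonneg hx.2.le (by linarith [hle y hy] : 0 ≤ 1 - (inner ℝ c y : ℝ))
    linarith
  · have h1 := hmin y ⟨hy, h⟩
    rw [div_le_div_iff₀ hx.2 h] at h1
    linarith

/-- The opposite facet. -/
theorem Fac.opp {S : Finset E} (hs : Simplicial S) (hc : Centered S) {v w x : E}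
    (h : Fac S v w x) : ∃ y, Fac S w v y := by
  have hpos := h.2.2.2.1
  refine gift hs hc (c := (tri v w x)⁻¹ • crs (w - v) (x - v)) h.2.1 h.1 ?_ ?_ ?_ ?_
  · intro y hy
    rw [inner_smul_left, inner_crs]
    simp only [conj_trivial]
    rw [inv_mul_le_iff₀ hpos]
    have h1 := h.nonpos hy
    rw [tri_sub_right] at h1
    have h2 : tri (w - v) (x - v) v = tri v w x := by simp only [tri, PiLp.sub_apply]; ring
    linarith
  · rw [inner_smul_left, inner_crs]
    simp only [conj_trivial]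
    have h2 : tri (w - v) (x - v) w = tri v w x := by simp only [tri, PiLp.sub_apply]; ring
    rw [h2, inv_mul_cancel₀ hpos.ne']
  · rw [inner_smul_left, inner_crs]
    simp only [conj_trivial]
    have h2 : tri (w - v) (x - v) v = tri v w x := by simp only [tri, PiLp.sub_apply]; ring
    rw [h2, inv_mul_cancel₀ hpos.ne']
  · intro h0
    have h1 : (inner ℝ (crs w v) x : ℝ) = - tri v w x := by rw [inner_crs, tri_swap']
    rw [h0, inner_zero_left] at h1
    linarith

theorem crs_ne_zero {v w : E} (hv : v ≠ 0) (h : ∀ t : ℝ, w ≠ t • v) : crs v w ≠ 0 := by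
  intro h0
  have e0 : v 1 * w 2 - v 2 * w 1 = 0 := by
    have := congrArg (fun t : E => t 0) h0; simpa [crs] using this
  have e1 : v 2 * w 0 - v 0 * w 2 = 0 := by
    have := congrArg (fun t : E => t 1) h0; simpa [crs] using this
  have e2 : v 0 * w 1 - v 1 * w 0 = 0 := by
    have := congrArg (fun t : E => t 2) h0; simpa [crs] using this
  have hn : v 0 ^ 2 + v 1 ^ 2 + v 2 ^ 2 ≠ 0 := by
    rw [← norm_sq_eq]
    exact pow_ne_zero 2 (norm_ne_zero_iff.mpr hv)
  apply h ((v 0 * w 0 + v 1 * w 1 + v 2 * w 2) / (v 0 ^ 2 + v 1 ^ 2 + v 2 ^ 2))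
  ext i
  simp only [PiLp.smul_apply, smul_eq_mul]
  rw [div_mul_eq_mul_div, eq_div_iff hn]
  fin_cases i
  · show w 0 * _ = _ * v 0
    linear_combination (-v 1) * e2 + (v 2) * e1
  · show w 1 * _ = _ * v 1
    linear_combination (v 0) * e2 - (v 2) * e0
  · show w 2 * _ = _ * v 2
    linear_combination (-v 0) * e1 + (v 1) * e0

/-- every vertex lies on a facet -/
theorem N_nonempty {S : Finset E} (hS : Unit S) (hs : Simplicial S) (hc : Centered S) {v : E}
    (hv : v ∈ S) : (N S v).Nonempty := by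
  classical
  have hv1 : (inner ℝ v v : ℝ) = 1 := by rw [real_inner_self_eq_norm_sq, hS v hv]; norm_num
  have hv0 : v ≠ 0 := by
    rintro rfl; rw [inner_zero_left] at hv1; norm_num at hv1
  -- a covector `m` orthogonal to `v`
  obtain ⟨m, hm0, hmv⟩ : ∃ m : E, m ≠ 0 ∧ (inner ℝ m v : ℝ) = 0 := by
    by_cases h : v 0 = 0 ∧ v 1 = 0
    · refine ⟨!₂[1, 0, 0], ?_, ?_⟩
      · intro h0
        have := congrArg (fun t : E => t 0) h0
        simp at this
      · rw [inner_eq]; simp [h.1]
    · refine ⟨!₂[v 1, - v 0, 0], ?_, ?_⟩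
      · intro h0
        have e0 := congrArg (fun t : E => t 0) h0
        have e1 := congrArg (fun t : E => t 1) h0
        simp at e0 e1
        exact h ⟨e1, e0⟩
      · rw [inner_eq]; simp; ring
  obtain ⟨y0, hy0, hy0'⟩ := hc m hm0
  obtain ⟨w, hw, hmin⟩ := (S.filter (fun y => 0 < (inner ℝ m y : ℝ))).exists_min_image
    (fun y => (1 - (inner ℝ v y : ℝ)) / inner ℝ m y) ⟨y0, by simp [hy0, hy0']⟩
  simp only [Finset.mem_filter] at hw hmin
  set t := (1 - (inner ℝ v w : ℝ)) / inner ℝ m w with ht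
  have hle1 : ∀ y ∈ S, (inner ℝ v y : ℝ) ≤ 1 := by
    intro y hy
    have := real_inner_le_norm v y
    rw [hS v hv, hS y hy] at this
    linarith
  have ht0 : 0 ≤ t := div_nonneg (by linarith [hle1 w hw.1]) hw.2.le
  obtain ⟨x, hx⟩ := gift hs hc (c := v + t • m) hv hw.1
    (by
      intro y hy
      rw [inner_add_left, inner_smul_left]
      simp only [conj_trivial]
      rcases le_or_gt (inner ℝ m y : ℝ) 0 with h | h
      · have := mul_nonpos_of_nonneg_of_nonpos ht0 h
        linarith [hle1 y hy]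
      · have h1 := hmin y ⟨hy, h⟩
        rw [le_div_iff₀ h] at h1
        linarith)
    (by
      rw [inner_add_left, inner_smul_left, hmv, hv1]; simp)
    (by
      rw [inner_add_left, inner_smul_left]
      simp only [conj_trivial]
      rw [ht, div_mul_cancel₀ _ hw.2.ne']; ring)
    (by
      apply crs_ne_zero hv0
      intro s hs'
      have := hw.2
      rw [hs', inner_smul_right, hmv] at this
      simp at this)
  exact ⟨w, hx.mem_N⟩

section fans

variable {S : Finset E}

theorem surj_N (hs : Simplicial S) (hc : Centered S) {v q : E} (hq : q ∈ N S v) :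
    ∃ p ∈ N S v, L S v p = q := by
  obtain ⟨y, hy⟩ := (fac_L hq).opp hs hc
  have h2 := hy.rot
  exact ⟨y, h2.mem_N, L_eq h2⟩

theorem inj_L {v w w' : E} (hw : w ∈ N S v) (hw' : w' ∈ N S v) (h : L S v w = L S v w') : w = w' := by
  have h1 := (fac_L hw).rot.rot
  have h2 := (fac_L hw').rot.rot
  rw [← h] at h2
  exact h1.unique h2

theorem L_mem_N {v w : E} (hs : Simplicial S) (hc : Centered S) (hw : w ∈ N S v) :
    L S v w ∈ N S v := by
  obtain ⟨y, hy⟩ := (fac_L hw).rot.rot.opp hs hc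
  exact hy.mem_N

/-- any subset of the neighbours closed under `L` is a fan -/
theorem fan_of_closed {v : E} {O : Finset E} (hO : O.Nonempty)
    (hsub : O ⊆ N S v) (hcl : ∀ w ∈ O, L S v w ∈ O) :
    Fan S O v (L S v) (fun w => crs (w - v) (L S v w - v)) := by
  classical
  have hsurj : ∀ q ∈ O, ∃ p ∈ O, L S v p = q := by
    have := Finset.surj_on_of_inj_on_of_card_le (s := O) (t := O) (fun w _ => L S v w)
      (fun w hw => hcl w hw) (fun w w' hw hw' h => inj_L (hsub hw) (hsub hw') h) le_rfl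
    intro q hq
    obtain ⟨p, hp, hpq⟩ := this q hq
    exact ⟨p, hp, hpq.symm⟩
  refine ⟨hO, fun w hw => (mem_N.mp (hsub hw)).1, fun w hw => (fac_L (hsub hw)).ne12, hcl, hsurj,
    fun w hw => (fac_L (hsub hw)).ne23, ?_, ?_, ?_, ?_⟩
  · intro w hw h2
    have h1 := fac_L (hsub hw)
    have h3 := fac_L (hsub (hcl w hw))
    rw [h2] at h3
    have p1 := h1.2.2.2.1
    have p3 := h3.2.2.2.1
    rw [tri_swap] at p3
    linarith
  · intro w hw
    rw [inner_crs, tri_self_out]
  · intro w hw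
    rw [inner_crs, tri_self_right]
  · intro w hw y hy hyv hyw hyx
    rw [inner_crs]
    exact (fac_L (hsub hw)).2.2.2.2 y hy hyv hyw hyx

theorem fan_N (hS : Unit S) (hs : Simplicial S) (hc : Centered S) {v : E} (hv : v ∈ S) :
    Fan S (N S v) v (L S v) (fun w => crs (w - v) (L S v w - v)) :=
  fan_of_closed (N_nonempty hS hs hc hv) subset_rfl (fun _ hw => L_mem_N hs hc hw)

theorem single_cycle (hS : Unit S) (hs : Simplicial S) (hc : Centered S) {v w w' : E} (hv : v ∈ S)
    (hw : w ∈ N S v) (hw' : w' ∈ N S v) : ∃ k : ℕ, (L S v)^[k] w = w' := by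
  classical
  set O := (N S v).filter (fun y => ∃ k : ℕ, (L S v)^[k] w = y) with hO
  have hwO : w ∈ O := by
    rw [hO, Finset.mem_filter]; exact ⟨hw, 0, rfl⟩
  have hsub : O ⊆ N S v := Finset.filter_subset _ _
  have hcl : ∀ y ∈ O, L S v y ∈ O := by
    intro y hy
    rw [hO, Finset.mem_filter] at hy ⊢
    obtain ⟨hy1, k, hk⟩ := hy
    refine ⟨L_mem_N hs hc hy1, k + 1, ?_⟩
    rw [Function.iterate_succ_apply', hk]
  have hfan := fan_of_closed ⟨w, hwO⟩ hsub hcl
  have hF := fac_L hw'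
  have hb : ∀ y ∈ S, (inner ℝ (crs (w' - v) (L S v w' - v)) (y - v) : ℝ) ≤ 0 := by
    intro y hy; rw [inner_crs]; exact hF.nonpos hy
  obtain ⟨q, hq, hq0⟩ := hfan.touch (pos_of_unit hS hv) hb (mem_N.mp hw').1 hF.ne12
    (by rw [inner_crs, tri_self_out])
  have hw'O : w' ∈ O := by
    rw [inner_crs] at hq0
    by_cases h1 : q = w'
    · rw [← h1]; exact hq
    by_cases h2 : q = L S v w'
    · obtain ⟨p, hp, hpq⟩ := hfan.surj q hq
      have : p = w' := inj_L (hsub hp) hw' (hpq.trans h2)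
      rw [← this]; exact hp
    · exact absurd hq0 (hF.2.2.2.2 q (mem_N.mp (hsub hq)).1 (fac_L (hsub hq)).ne12 h1 h2).ne
  rw [hO, Finset.mem_filter] at hw'O
  exact hw'O.2

/-- uniqueness of the exit facet -/
theorem exit_unique_aux {u v w1 x1 w2 x2 : E} (h1 : Fac S v w1 x1) (h2 : Fac S v w2 x2)
    (a1 : (inner ℝ u v : ℝ) < inner ℝ u w1) (a2 : (inner ℝ u x1 : ℝ) < inner ℝ u v)
    (b1 : (inner ℝ u v : ℝ) < inner ℝ u w2) (b2 : (inner ℝ u x2 : ℝ) < inner ℝ u v) : w1 = w2 := by
  set α1 := (inner ℝ u v : ℝ) - inner ℝ u x1 with hα1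
  set β1 := (inner ℝ u w1 : ℝ) - inner ℝ u v with hβ1
  set α2 := (inner ℝ u v : ℝ) - inner ℝ u x2 with hα2
  set β2 := (inner ℝ u w2 : ℝ) - inner ℝ u v with hβ2
  have pα1 : 0 < α1 := by linarith
  have pβ1 : 0 < β1 := by linarith
  have pα2 : 0 < α2 := by linarith
  have pβ2 : 0 < β2 := by linarith
  have hu : 0 < ‖u‖ ^ 2 := by
    have : u ≠ 0 := by
      rintro rfl; rw [inner_zero_left, inner_zero_left] at a1; exact lt_irrefl _ a1
    have := norm_pos_iff.mpr this
    positivity
  set p1 := α1 • (w1 - v) + β1 • (x1 - v) with hp1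
  set p2 := α2 • (w2 - v) + β2 • (x2 - v) with hp2
  have z1 : (inner ℝ u p1 : ℝ) = 0 := by
    rw [hp1, inner_add_right, inner_smul_right, inner_smul_right, inner_sub_right, inner_sub_right]
    ring
  have z2 : (inner ℝ u p2 : ℝ) = 0 := by
    rw [hp2, inner_add_right, inner_smul_right, inner_smul_right, inner_sub_right, inner_sub_right]
    ring
  have q1 : tri p1 (x1 - v) p2 = α1 * (α2 * tri (w1 - v) (x1 - v) (w2 - v)
      + β2 * tri (w1 - v) (x1 - v) (x2 - v)) := by
    rw [hp1, hp2]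
    simp only [tri, PiLp.sub_apply, PiLp.add_apply, PiLp.smul_apply, smul_eq_mul]; ring
  have q2 : tri p2 (x2 - v) p1 = α2 * (α1 * tri (w2 - v) (x2 - v) (w1 - v)
      + β1 * tri (w2 - v) (x2 - v) (x1 - v)) := by
    rw [hp1, hp2]
    simp only [tri, PiLp.sub_apply, PiLp.add_apply, PiLp.smul_apply, smul_eq_mul]; ring
  have n1 := h1.nonpos h2.2.1
  have n2 := h1.nonpos h2.2.2.1
  have n3 := h2.nonpos h1.2.1
  have n4 := h2.nonpos h1.2.2.1
  have c1 := cramer_inner p1 p2 (x1 - v) u u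
  have c2 := cramer_inner p2 p1 (x2 - v) u u
  rw [z1, z2, real_inner_self_eq_norm_sq, inner_sub_right] at c1
  rw [z1, z2, real_inner_self_eq_norm_sq, inner_sub_right] at c2
  have s1 : tri p1 p2 (x1 - v) = - tri p1 (x1 - v) p2 := tri_swap _ _ _
  have s2 : tri p2 p1 (x2 - v) = - tri p2 (x2 - v) p1 := tri_swap _ _ _
  have s3 : tri p2 p1 u = - tri p1 p2 u := tri_swap' _ _ _
  rw [s1] at c1
  rw [s2, s3] at c2
  have m1 : tri p1 (x1 - v) p2 ≤ 0 := by
    rw [q1]
    exact mul_nonpos_of_nonneg_of_nonpos pα1.le (add_nonpos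
      (mul_nonpos_of_nonneg_of_nonpos pα2.le n1) (mul_nonpos_of_nonneg_of_nonpos pβ2.le n2))
  have m2 : tri p2 (x2 - v) p1 ≤ 0 := by
    rw [q2]
    exact mul_nonpos_of_nonneg_of_nonpos pα2.le (add_nonpos
      (mul_nonpos_of_nonneg_of_nonpos pα1.le n3) (mul_nonpos_of_nonneg_of_nonpos pβ1.le n4))
  -- sign of κ
  have k1 : tri p1 p2 u ≤ 0 := by
    by_contra hk
    push Not at hk
    have := mul_pos hk pα1
    have := mul_nonneg (neg_nonneg.mpr m1) hu.le
    nlinarith
  have k2 : 0 ≤ tri p1 p2 u := by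
    by_contra hk
    push Not at hk
    have := mul_pos (neg_pos.mpr hk) pα2
    have := mul_nonneg (neg_nonneg.mpr m2) hu.le
    nlinarith
  have k0 : tri p1 p2 u = 0 := le_antisymm k1 k2
  rw [k0] at c1
  have r1 : tri p1 (x1 - v) p2 = 0 := by
    have : tri p1 (x1 - v) p2 * ‖u‖ ^ 2 = 0 := by linarith
    rcases mul_eq_zero.mp this with h | h
    · exact h
    · exact absurd h hu.ne'
  rw [q1] at r1
  have r2 : tri (w1 - v) (x1 - v) (w2 - v) = 0 := by
    have h3 : α2 * tri (w1 - v) (x1 - v) (w2 - v) + β2 * tri (w1 - v) (x1 - v) (x2 - v) = 0 := by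
      rcases mul_eq_zero.mp r1 with h | h
      · exact absurd h pα1.ne'
      · exact h
    have h4 := mul_nonpos_of_nonneg_of_nonpos pα2.le n1
    have h5 := mul_nonpos_of_nonneg_of_nonpos pβ2.le n2
    have h6 : α2 * tri (w1 - v) (x1 - v) (w2 - v) = 0 := by linarith
    rcases mul_eq_zero.mp h6 with h | h
    · exact absurd h pα2.ne'
    · exact h
  by_contra hne
  have hw2x1 : w2 ≠ x1 := by
    rintro rfl; linarith
  exact (h1.2.2.2.2 w2 h2.2.1 h2.ne12 (Ne.symm hne) hw2x1).ne r2

end fans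

theorem T1a : Stmt_T1a := by
  intro S hS hs hc u hu
  have hle_up : ∀ v ∈ S, ∀ b : E, (∀ w ∈ N S v, (inner ℝ b (w - v) : ℝ) ≤ 0) →
      ∀ y ∈ S, (inner ℝ b (y - v) : ℝ) ≤ 0 := fun v hv b hb y hy =>
    (fan_N hS hs hc hv).le (pos_of_unit hS hv) hb hy
  refine
    { mem := fun v _ w hw => (mem_N.mp hw).1
      ne := fun v _ w hw => (fac_L hw).ne12
      symm := ?_
      L_mem := fun v _ w hw => L_mem_N hs hc hw
      L_ne := fun v _ w hw => (fac_L hw).ne23
      L_mem' := fun v _ w hw => (fac_L hw).rot.mem_N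
      rot := fun v _ w hw => L_eq (fac_L hw).rot
      trans := fun v hv w hw w' hw' => single_cycle hS hs hc hv hw hw'
      inj := ?_
      exit_unique := ?_
      entry_unique := ?_
      up := ?_
      down := ?_ }
  · intro v _ w hw
    obtain ⟨y, hy⟩ := (fac_L hw).opp hs hc
    exact hy.mem_N
  · intro v hv w hw h
    by_contra hne
    exact hu v hv w hw hne h
  · intro v _ w hw w' hw' h1 h2 h3 h4
    exact exit_unique_aux (fac_L hw) (fac_L hw') h1 h2 h3 h4
  · intro v _ w hw w' hw' h1 h2 h3 h4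
    exact exit_unique_aux (u := -u) (fac_L hw) (fac_L hw') (by simpa using h1) (by simpa using h2)
      (by simpa using h3) (by simpa using h4)
  · rintro v hv ⟨y, hy, hyv⟩
    by_contra hcon
    push Not at hcon
    have := hle_up v hv u (fun w hw => by rw [inner_sub_right]; linarith [hcon w hw]) y hy
    rw [inner_sub_right] at this
    linarith
  · rintro v hv ⟨y, hy, hyv⟩
    by_contra hcon
    push Not at hcon
    have := hle_up v hv (-u) (fun w hw => by
      rw [inner_neg_left, inner_sub_right]; linarith [hcon w hw]) y hy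
    rw [inner_neg_left, inner_sub_right] at this
    linarith

theorem T1b : Stmt_T1b := by
  intro S hS hs hc
  refine ⟨fun v _ w hw => fac_L hw, fun v w x h => ⟨h.mem_N, L_eq h⟩, fun v w x h => h.rot, ?_⟩
  intro v hv
  exact ((fan_N hS hs hc hv).nb_eq hv (pos_of_unit hS hv)).symm

end Pool.Agent.Medial
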