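/-
The facet tetrahedra cover the hull, almost every point being covered exactly once
(three times when counted by darts).
(helper72)
-/
import Pool.Agent.Medial.T1

set_option autoImplicit false

namespace Pool.Agent.Medial

open MeasureTheory
open scoped Real ENNReal

open Classical in
/-- the darts (directed edges) -/
noncomputable def darts (S : Finset E) : Finset (E × E) :=
  (S ×ˢ S).filter (fun p => p.2 ∈ N S p.1)

theorem N_subset (S : Finset E) (v : E) : N S v ⊆ S := fun _ hw => (mem_N.mp hw).1

theorem mem_darts {S : Finset E} {p : E × E} : p ∈ darts S ↔ p.1 ∈ S ∧ p.2 ∈ N S p.1 := by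
  classical
  unfold darts
  rw [Finset.mem_filter, Finset.mem_product]
  exact ⟨fun h => ⟨h.1.1, h.2⟩, fun h => ⟨⟨h.1, N_subset S _ h.2⟩, h.2⟩⟩

theorem sum_darts {M : Type*} [AddCommMonoid M] (S : Finset E) (f : E → E → M) :
    ∑ v ∈ S, ∑ w ∈ N S v, f v w = ∑ p ∈ darts S, f p.1 p.2 := by
  classical
  unfold darts
  rw [Finset.sum_filter, Finset.sum_product]
  refine Finset.sum_congr rfl fun v _ => ?_
  rw [← Finset.sum_filter]
  refine Finset.sum_congr ?_ fun _ _ => rfl
  ext w
  simp only [Finset.mem_filter]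
  exact ⟨fun h => ⟨N_subset S v h, h⟩, fun h => h.2⟩

open Classical in
theorem sum_darts_filter {M : Type*} [AddCommMonoid M] (S : Finset E) (K : E → E → Prop)
    (f : E → E → M) :
    ∑ v ∈ S, ∑ w ∈ (N S v).filter (fun w => K v w), f v w
      = ∑ p ∈ (darts S).filter (fun p => K p.1 p.2), f p.1 p.2 := by
  rw [Finset.sum_filter, ← sum_darts S (fun v w => if K v w then f v w else 0)]
  refine Finset.sum_congr rfl fun v _ => ?_
  rw [Finset.sum_filter]

theorem Fac.mem_darts {S : Finset E} {v w x : E} (h : Fac S v w x) : (v, w) ∈ darts S :=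
  Medial.mem_darts.mpr ⟨h.1, h.mem_N⟩

theorem fac_of_dart {S : Finset E} {p : E × E} (h : p ∈ darts S) :
    Fac S p.1 p.2 (L S p.1 p.2) := fac_L (mem_darts.mp h).2

/-- coordinates of a point of the tetrahedron -/
theorem mem_tet_iff {v w x y : E} (h : 0 < tri v w x) :
    y ∈ tet v w x ↔ 0 ≤ tri y w x ∧ 0 ≤ tri v y x ∧ 0 ≤ tri v w y ∧
      tri y w x + tri v y x + tri v w y ≤ tri v w x := by
  constructor
  · intro hy
    have e1 : ∀ y : E, (inner ℝ (crs w x) y : ℝ) = tri y w x := fun y => by
      rw [inner_crs]; unfold tri; ring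
    have e2 : ∀ y : E, (inner ℝ (crs x v) y : ℝ) = tri v y x := fun y => by
      rw [inner_crs]; unfold tri; ring
    have e3 : ∀ y : E, (inner ℝ (crs v w) y : ℝ) = tri v w y := fun y => inner_crs v w y
    have hconv : Convex ℝ ({y : E | 0 ≤ (inner ℝ (crs w x) y : ℝ)} ∩ ({y : E | 0 ≤ (inner ℝ (crs x v) y : ℝ)}
        ∩ ({y : E | 0 ≤ (inner ℝ (crs v w) y : ℝ)} ∩
          {y : E | (inner ℝ (crs w x + crs x v + crs v w) y : ℝ) ≤ tri v w x}))) := by
      refine (convex_halfSpace_ge (innerₛₗ ℝ (crs w x)).isLinear 0).inter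
        ((convex_halfSpace_ge (innerₛₗ ℝ (crs x v)).isLinear 0).inter
        ((convex_halfSpace_ge (innerₛₗ ℝ (crs v w)).isLinear 0).inter
        (convex_halfSpace_le (innerₛₗ ℝ (crs w x + crs x v + crs v w)).isLinear _)))
    have hsub : ({0, v, w, x} : Set E) ⊆ ({y : E | 0 ≤ (inner ℝ (crs w x) y : ℝ)} ∩
        ({y : E | 0 ≤ (inner ℝ (crs x v) y : ℝ)} ∩ ({y : E | 0 ≤ (inner ℝ (crs v w) y : ℝ)} ∩
          {y : E | (inner ℝ (crs w x + crs x v + crs v w) y : ℝ) ≤ tri v w x}))) := by
      intro t ht
      have ht' : t = 0 ∨ t = v ∨ t = w ∨ t = x := by simpa using ht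
      simp only [Set.mem_inter_iff, Set.mem_ofPred_eq, inner_add_left, e1, e2, e3]
      rcases ht' with rfl | rfl | rfl | rfl
      · have z1 : tri (0 : E) w x = 0 := by simp [tri]
        have z2 : tri v (0 : E) x = 0 := by simp [tri]
        have z3 : tri v w (0 : E) = 0 := by simp [tri]
        rw [z1, z2, z3]
        refine ⟨le_rfl, le_rfl, le_rfl, by linarith⟩
      · rw [tri_self_left, tri_self_out]
        exact ⟨h.le, le_rfl, le_rfl, by linarith⟩
      · rw [tri_self_left, tri_self_right]
        exact ⟨le_rfl, h.le, le_rfl, by linarith⟩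
      · rw [tri_self_out, tri_self_right]
        exact ⟨le_rfl, le_rfl, h.le, by linarith⟩
    have := convexHull_min hsub hconv hy
    simp only [Set.mem_inter_iff, Set.mem_ofPred_eq, inner_add_left, e1, e2, e3] at this
    exact this
  · rintro ⟨h1, h2, h3, h4⟩
    set t := tri v w x with ht
    have hy : y = (1 - tri y w x / t - tri v y x / t - tri v w y / t) • (0 : E) + (tri y w x / t) • v
        + (tri v y x / t) • w + (tri v w y / t) • x := by
      have hc := cramer v w x y
      rw [← ht] at hc
      have : y = t⁻¹ • (t • y) := by rw [smul_smul, inv_mul_cancel₀ h.ne', one_smul]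
      rw [hc] at this
      rw [smul_zero, zero_add]
      conv_lhs => rw [this]
      rw [smul_add, smul_add, smul_smul, smul_smul, smul_smul, div_eq_inv_mul, div_eq_inv_mul,
        div_eq_inv_mul]
    have hconv := convex_convexHull ℝ ({0, v, w, x} : Set E)
    have hmem := hconv.sum_mem (t := (Finset.univ : Finset (Fin 4)))
      (w := ![1 - tri y w x / t - tri v y x / t - tri v w y / t, tri y w x / t, tri v y x / t,
        tri v w y / t]) (z := ![0, v, w, x])
      (by
        intro i _
        fin_cases i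
        · show 0 ≤ 1 - tri y w x / t - tri v y x / t - tri v w y / t
          have : tri y w x / t + tri v y x / t + tri v w y / t ≤ 1 := by
            rw [← add_div, ← add_div, div_le_one h]; exact h4
          linarith
        · exact div_nonneg h1 h.le
        · exact div_nonneg h2 h.le
        · exact div_nonneg h3 h.le)
      (by
        rw [Fin.sum_univ_four]
        show (1 - tri y w x / t - tri v y x / t - tri v w y / t) + tri y w x / t + tri v y x / t
          + tri v w y / t = 1
        ring)
      (by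
        intro i _
        apply subset_convexHull
        fin_cases i <;> simp)
    rw [Fin.sum_univ_four] at hmem
    unfold tet
    rw [hy]
    exact hmem

theorem tet_rot (v w x : E) : tet w x v = tet v w x := by
  unfold tet
  congr 1
  ext y
  simp only [Set.mem_insert_iff, Set.mem_singleton_iff]
  tauto

/-- origin in the hull -/
theorem zero_mem_hull {S : Finset E} (hc : Centered S) : (0 : E) ∈ convexHull ℝ (S : Set E) := by
  by_contra h0
  obtain ⟨f, u, hf1, hf2⟩ := geometric_hahn_banach_closed_point (s := convexHull ℝ (S : Set E))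
    (convex_convexHull ℝ _) (S.finite_toSet.isClosed_convexHull ℝ) h0
  rw [map_zero] at hf2
  -- represent `f`
  obtain ⟨a, ha⟩ : ∃ a : E, ∀ x, f x = inner ℝ a x :=
    ⟨(InnerProductSpace.toDual ℝ E).symm f, fun x => by
      rw [InnerProductSpace.toDual_symm_apply]⟩
  have hSne : S.Nonempty := by
    obtain ⟨x, hx, _⟩ := hc (!₂[1, 0, 0]) (by
      intro h
      have := congrArg (fun t : E => t 0) h
      simp at this)
    exact ⟨x, hx⟩
  obtain ⟨x1, hx1⟩ := hSne
  have hane : a ≠ 0 := by
    rintro rfl
    have := hf1 x1 (subset_convexHull ℝ _ hx1)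
    rw [ha, inner_zero_left] at this
    linarith
  obtain ⟨x, hx, hx'⟩ := hc a hane
  have := hf1 x (subset_convexHull ℝ _ hx)
  rw [ha] at this
  linarith

theorem tet_subset {S : Finset E} (hc : Centered S) {v w x : E} (h : Fac S v w x) :
    tet v w x ⊆ convexHull ℝ (S : Set E) := by
  apply convexHull_min _ (convex_convexHull ℝ _)
  intro t ht
  have ht' : t = 0 ∨ t = v ∨ t = w ∨ t = x := by simpa using ht
  rcases ht' with rfl | rfl | rfl | rfl
  · exact zero_mem_hull hc
  · exact subset_convexHull ℝ _ h.1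
  · exact subset_convexHull ℝ _ h.2.1
  · exact subset_convexHull ℝ _ h.2.2.1

/-- the facet inequality on the hull -/
theorem Fac.hull_le {S : Finset E} {v w x : E} (h : Fac S v w x) {y : E}
    (hy : y ∈ convexHull ℝ (S : Set E)) : tri y w x + tri v y x + tri v w y ≤ tri v w x := by
  have e : ∀ y : E, (inner ℝ (crs w x + crs x v + crs v w) y : ℝ) = tri y w x + tri v y x + tri v w y := by
    intro y
    rw [inner_add_left, inner_add_left, inner_crs, inner_crs, inner_crs]; unfold tri; ring
  have hsub : (S : Set E) ⊆ {y : E | (inner ℝ (crs w x + crs x v + crs v w) y : ℝ) ≤ tri v w x} := by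
    intro t ht
    show (inner ℝ (crs w x + crs x v + crs v w) t : ℝ) ≤ tri v w x
    rw [e]
    have h1 := h.nonpos (y := t) ht
    rw [orient_expand] at h1
    linarith
  have := convexHull_min hsub
    (convex_halfSpace_le (innerₛₗ ℝ (crs w x + crs x v + crs v w)).isLinear _) hy
  have h2 : (inner ℝ (crs w x + crs x v + crs v w) y : ℝ) ≤ tri v w x := this
  rwa [e] at h2

theorem pivot_identity (v w x q y : E) :
    tri v w x * (tri y v q + tri w y q + tri w v y) - tri w v q * (tri y w x + tri v y x + tri v w y)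
      = tri v w y * ((tri x v q + tri w x q + tri w v x) - tri w v q) := by
  unfold tri; ring

/-- every point lies in the cone over the facet maximizing the facet functional -/
theorem exists_tet {S : Finset E} (hS : Unit S) (hs : Simplicial S) (hc : Centered S) {y : E}
    (hy : y ∈ convexHull ℝ (S : Set E)) :
    ∃ p ∈ darts S, y ∈ tet p.1 p.2 (L S p.1 p.2) := by
  classical
  have hSne : S.Nonempty := by
    rcases S.eq_empty_or_nonempty with h | h
    · rw [h] at hy; simp at hy
    · exact h
  obtain ⟨v0, hv0⟩ := hSne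
  obtain ⟨w0, hw0⟩ := N_nonempty hS hs hc hv0
  set A : E × E → ℝ := fun p => (tri y p.2 (L S p.1 p.2) + tri p.1 y (L S p.1 p.2) + tri p.1 p.2 y)
    / tri p.1 p.2 (L S p.1 p.2) with hA
  obtain ⟨p, hp, hmax⟩ := (darts S).exists_max_image A ⟨(v0, w0), mem_darts.mpr ⟨hv0, hw0⟩⟩
  -- nonnegativity of the last coordinate at a maximal dart
  have key : ∀ v w x : E, Fac S v w x → A p ≤ (tri y w x + tri v y x + tri v w y) / tri v w x →
      0 ≤ tri v w y := by
    intro v w x hF hle
    by_contra hneg
    push Not at hneg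
    obtain ⟨q, hq⟩ := hF.opp hs hc
    have h1 := hmax (w, v) hq.mem_darts
    simp only [hA, L_eq hq] at h1
    have h2 : (tri y v q + tri w y q + tri w v y) / tri w v q
        ≤ (tri y w x + tri v y x + tri v w y) / tri v w x := h1.trans hle
    rw [div_le_div_iff₀ hq.2.2.2.1 hF.2.2.2.1] at h2
    have h3 := pivot_identity v w x q y
    have hxq : x ≠ q := by
      rintro rfl
      have a1 := hF.2.2.2.1
      have a2 := hq.2.2.2.1
      rw [tri_swap'] at a2
      linarith
    have h4 := hq.2.2.2.2 x hF.2.2.1 hF.ne23 hF.ne13 hxq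
    rw [orient_expand] at h4
    have h5 := mul_pos_of_neg_of_neg hneg h4
    nlinarith
  have hF := fac_of_dart hp
  have hAp : A p = (tri y p.2 (L S p.1 p.2) + tri p.1 y (L S p.1 p.2) + tri p.1 p.2 y)
    / tri p.1 p.2 (L S p.1 p.2) := rfl
  set v := p.1
  set w := p.2
  set x := L S v w
  refine ⟨p, hp, (mem_tet_iff hF.2.2.2.1).mpr ⟨?_, ?_, ?_, hF.hull_le hy⟩⟩
  · have h1 := key w x v hF.rot (by
      rw [hAp, tri_rot v w x]
      apply le_of_eq
      congr 1
      unfold tri; ring)
    have : tri w x y = tri y w x := by unfold tri; ring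
    linarith
  · have h1 := key x v w hF.rot.rot (by
      rw [hAp]
      have : tri x v w = tri v w x := by unfold tri; ring
      rw [this]
      apply le_of_eq
      congr 1
      unfold tri; ring)
    have : tri x v y = tri v y x := by unfold tri; ring
    linarith
  · exact key v w x hF (le_of_eq hAp)

/-- the planes through the origin and two points of `S` -/
def planes (S : Finset E) : Set E :=
  ⋃ p ∈ ((S ×ˢ S : Finset (E × E)) : Set (E × E)), ((Submodule.span ℝ {p.1, p.2} : Submodule ℝ E) : Set E)

theorem planes_null (S : Finset E) : volume (planes S) = 0 := by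
  unfold planes
  rw [measure_biUnion_null_iff (Finset.countable_toSet _)]
  intro p _
  apply Measure.addHaar_submodule
  intro htop
  have h1 : Module.finrank ℝ (Submodule.span ℝ ({p.1, p.2} : Set E)) = 3 := by
    rw [htop, finrank_top]; simp
  classical
  have h2 : Module.finrank ℝ (Submodule.span ℝ ((({p.1, p.2} : Finset E)) : Set E)) ≤
      ({p.1, p.2} : Finset E).card := finrank_span_finset_le_card _
  have h3 : ({p.1, p.2} : Finset E).card ≤ 2 := Finset.card_le_two
  rw [Finset.coe_insert, Finset.coe_singleton] at h2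
  omega

theorem not_mem_planes {S : Finset E} {v w x y : E} (hw : w ∈ S) (hx : x ∈ S)
    (hpos : 0 < tri v w x) (hy : y ∉ planes S) : tri y w x ≠ 0 := by
  intro h0
  apply hy
  unfold planes
  simp only [Set.mem_iUnion]
  refine ⟨(w, x), Finset.mem_coe.mpr (Finset.mem_product.mpr ⟨hw, hx⟩), ?_⟩
  have hc := cramer v w x y
  rw [h0, zero_smul, zero_add] at hc
  have : y = (tri v w x)⁻¹ • (tri v y x • w + tri v w y • x) := by
    rw [← hc, smul_smul, inv_mul_cancel₀ hpos.ne', one_smul]
  rw [this]
  apply Submodule.smul_mem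
  apply Submodule.add_mem
  · exact Submodule.smul_mem _ _ (Submodule.subset_span (by simp))
  · exact Submodule.smul_mem _ _ (Submodule.subset_span (by simp))

/-- strict positivity of the coordinates off the planes -/
theorem coords_pos {S : Finset E} {v w x y : E} (hF : Fac S v w x) (hy : y ∉ planes S)
    (hyt : y ∈ tet v w x) : 0 < tri y w x ∧ 0 < tri v y x ∧ 0 < tri v w y := by
  obtain ⟨h1, h2, h3, _⟩ := (mem_tet_iff hF.2.2.2.1).mp hyt
  refine ⟨lt_of_le_of_ne h1 (not_mem_planes hF.2.1 hF.2.2.1 hF.2.2.2.1 hy).symm,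
    lt_of_le_of_ne h2 ?_, lt_of_le_of_ne h3 ?_⟩
  · have := not_mem_planes (v := w) hF.2.2.1 hF.1 (by rw [tri_rot]; exact hF.2.2.2.1) hy
    have e : tri y x v = tri v y x := by unfold tri; ring
    rw [e] at this
    exact this.symm
  · have := not_mem_planes (v := x) hF.1 hF.2.1 (by rw [tri_rot, tri_rot]; exact hF.2.2.2.1) hy
    have e : tri y v w = tri v w y := by unfold tri; ring
    rw [e] at this
    exact this.symm

theorem fac_compare {S : Finset E} {v w x v' w' x' y : E} (hF : Fac S v w x) (hF' : Fac S v' w' x')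
    (hc' : 0 < tri y w' x' ∧ 0 < tri v' y x' ∧ 0 < tri v' w' y)
    (hle : (tri y w' x' + tri v' y x' + tri v' w' y) * tri v w x
      ≤ (tri y w x + tri v y x + tri v w y) * tri v' w' x') :
    ∀ z, (z = v' ∨ z = w' ∨ z = x') → (z = v ∨ z = w ∨ z = x) := by
  have hid : tri v' w' x' * (tri y w x + tri v y x + tri v w y)
      = tri y w' x' * (tri v' w x + tri v v' x + tri v w v')
      + tri v' y x' * (tri w' w x + tri v w' x + tri v w w')
      + tri v' w' y * (tri x' w x + tri v x' x + tri v w x') := by
    unfold tri; ring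
  have n1 := hF.nonpos hF'.1
  have n2 := hF.nonpos hF'.2.1
  have n3 := hF.nonpos hF'.2.2.1
  rw [orient_expand] at n1 n2 n3
  have m1 := mul_nonneg hc'.1.le (by linarith : 0 ≤ tri v w x - (tri v' w x + tri v v' x + tri v w v'))
  have m2 := mul_nonneg hc'.2.1.le (by linarith : 0 ≤ tri v w x - (tri w' w x + tri v w' x + tri v w w'))
  have m3 := mul_nonneg hc'.2.2.le (by linarith : 0 ≤ tri v w x - (tri x' w x + tri v x' x + tri v w x'))
  have k1 : tri y w' x' * (tri v w x - (tri v' w x + tri v v' x + tri v w v')) = 0 := by nlinarith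
  have k2 : tri v' y x' * (tri v w x - (tri w' w x + tri v w' x + tri v w w')) = 0 := by nlinarith
  have k3 : tri v' w' y * (tri v w x - (tri x' w x + tri v x' x + tri v w x')) = 0 := by nlinarith
  have z1 := (mul_eq_zero.mp k1).resolve_left hc'.1.ne'
  have z2 := (mul_eq_zero.mp k2).resolve_left hc'.2.1.ne'
  have z3 := (mul_eq_zero.mp k3).resolve_left hc'.2.2.ne'
  have fin : ∀ z ∈ S, tri v w x - (tri z w x + tri v z x + tri v w z) = 0 → (z = v ∨ z = w ∨ z = x) := by
    intro z hz h0
    by_contra hcon
    push Not at hcon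
    have := hF.2.2.2.2 z hz hcon.1 hcon.2.1 hcon.2.2
    rw [orient_expand] at this
    linarith
  rintro z (rfl | rfl | rfl)
  · exact fin _ hF'.1 z1
  · exact fin _ hF'.2.1 z2
  · exact fin _ hF'.2.2.1 z3

/-- uniqueness of the facet (up to rotation) containing a generic point -/
theorem tet_unique {S : Finset E} {v w x v' w' x' y : E} (hF : Fac S v w x) (hF' : Fac S v' w' x')
    (hy : y ∉ planes S) (h1 : y ∈ tet v w x) (h2 : y ∈ tet v' w' x') :
    (v' = v ∧ w' = w) ∨ (v' = w ∧ w' = x) ∨ (v' = x ∧ w' = v) := by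
  have c1 := coords_pos hF hy h1
  have c2 := coords_pos hF' hy h2
  have hsub : (∀ z, (z = v' ∨ z = w' ∨ z = x') → (z = v ∨ z = w ∨ z = x)) := by
    rcases le_total ((tri y w' x' + tri v' y x' + tri v' w' y) * tri v w x)
      ((tri y w x + tri v y x + tri v w y) * tri v' w' x') with hle | hle
    · exact fac_compare hF hF' c2 hle
    · have hs := fac_compare hF' hF c1 hle
      -- the three points of `F` are among those of `F'`, hence conversely
      have d1 := hF.ne12
      have d2 := hF.ne23
      have d3 := hF.ne13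
      have a1 := hs v (Or.inl rfl)
      have a2 := hs w (Or.inr (Or.inl rfl))
      have a3 := hs x (Or.inr (Or.inr rfl))
      have e1 := hF'.ne12
      have e2 := hF'.ne23
      have e3 := hF'.ne13
      rintro z (rfl | rfl | rfl)
      · rcases a1 with a1 | a1 | a1 <;> rcases a2 with a2 | a2 | a2 <;>
          rcases a3 with a3 | a3 | a3 <;> simp_all
      · rcases a1 with a1 | a1 | a1 <;> rcases a2 with a2 | a2 | a2 <;>
          rcases a3 with a3 | a3 | a3 <;> simp_all
      · rcases a1 with a1 | a1 | a1 <;> rcases a2 with a2 | a2 | a2 <;>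
          rcases a3 with a3 | a3 | a3 <;> simp_all
  have b1 := hsub v' (Or.inl rfl)
  have b2 := hsub w' (Or.inr (Or.inl rfl))
  have b3 := hsub x' (Or.inr (Or.inr rfl))
  have p1 := hF.2.2.2.1
  have p2 := hF'.2.2.2.1
  have e1 := hF'.ne12
  have e2 := hF'.ne23
  have e3 := hF'.ne13
  rcases b1 with rfl | rfl | rfl <;> rcases b2 with rfl | rfl | rfl
  · exact absurd rfl e1
  · exact Or.inl ⟨rfl, rfl⟩
  · exfalso
    rcases b3 with rfl | rfl | rfl
    · exact e3 rfl
    · rw [tri_swap] at p2; linarith
    · exact e2 rfl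
  · exfalso
    rcases b3 with rfl | rfl | rfl
    · exact e2 rfl
    · exact e3 rfl
    · rw [tri_swap'] at p2; linarith
  · exact absurd rfl e1
  · exact Or.inr (Or.inl ⟨rfl, rfl⟩)
  · exact Or.inr (Or.inr ⟨rfl, rfl⟩)
  · exfalso
    rcases b3 with rfl | rfl | rfl
    · have : tri v' w' x' = - tri x' w' v' := by unfold tri; ring
      linarith
    · exact e2 rfl
    · exact e3 rfl
  · exact absurd rfl e1

open Classical in
/-- a generic point of the hull lies in exactly three of the dart tetrahedra -/
theorem mult_three {S : Finset E} (hS : Unit S) (hs : Simplicial S) (hc : Centered S) {y : E}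
    (hy : y ∉ planes S) (hyh : y ∈ convexHull ℝ (S : Set E)) :
    ((darts S).filter (fun p => y ∈ tet p.1 p.2 (L S p.1 p.2))).card = 3 := by
  obtain ⟨p, hp, hpt⟩ := exists_tet hS hs hc hyh
  have hF := fac_of_dart hp
  set v := p.1 with hv
  set w := p.2 with hw
  set x := L S v w with hx
  have hset : (darts S).filter (fun p => y ∈ tet p.1 p.2 (L S p.1 p.2)) = {(v, w), (w, x), (x, v)} := by
    ext q
    simp only [Finset.mem_filter, Finset.mem_insert, Finset.mem_singleton]
    constructor
    · rintro ⟨hq, hqt⟩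
      rcases tet_unique hF (fac_of_dart hq) hy hpt hqt with ⟨a, b⟩ | ⟨a, b⟩ | ⟨a, b⟩
      · exact Or.inl (Prod.ext a b)
      · exact Or.inr (Or.inl (Prod.ext a b))
      · exact Or.inr (Or.inr (Prod.ext a b))
    · rintro (rfl | rfl | rfl)
      · exact ⟨hp, hpt⟩
      · refine ⟨hF.rot.mem_darts, ?_⟩
        simp only [L_eq hF.rot]
        rw [tet_rot]; exact hpt
      · refine ⟨hF.rot.rot.mem_darts, ?_⟩
        simp only [L_eq hF.rot.rot]
        rw [tet_rot, tet_rot]; exact hpt
  rw [hset, Finset.card_insert_of_notMem, Finset.card_insert_of_notMem, Finset.card_singleton]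
  · simp only [Finset.mem_singleton, Prod.mk.injEq, not_and]
    intro h1
    exact absurd h1.symm hF.ne23
  · simp only [Finset.mem_insert, Finset.mem_singleton, Prod.mk.injEq, not_or, not_and]
    exact ⟨fun h1 => absurd h1.symm hF.ne12, fun h1 => absurd h1.symm hF.ne13⟩

open Classical in
theorem ae_mult_three {S : Finset E} (hS : Unit S) (hs : Simplicial S) (hc : Centered S) :
    ∀ᵐ y : E, y ∈ convexHull ℝ (S : Set E) →
      ((darts S).filter (fun p => y ∈ tet p.1 p.2 (L S p.1 p.2))).card = 3 := by
  have : ∀ᵐ y : E, y ∉ planes S := by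
    rw [ae_iff]
    simpa using planes_null S
  filter_upwards [this] with y hy hyh
  exact mult_three hS hs hc hy hyh

theorem isCompact_tet (v w x : E) : IsCompact (tet v w x) :=
  (Set.toFinite ({0, v, w, x} : Set E)).isCompact_convexHull ℝ

theorem measurableSet_tet (v w x : E) : MeasurableSet (tet v w x) :=
  (isCompact_tet v w x).isClosed.measurableSet

end Pool.Agent.Medial
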