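/-
Volume and second moment of the tetrahedron `conv{0,v,w,x}`.  (helper86)
-/
import Pool.Agent.Medial.Basic

set_option autoImplicit false

namespace Pool.Agent.Medial

open MeasureTheory
open scoped Real

namespace Mom

/-- planar simplex of size `k` -/
def T2 (k : ℝ) : Set (ℝ × ℝ) := {q | 0 ≤ q.1 ∧ 0 ≤ q.2 ∧ q.1 + q.2 ≤ k}

/-- spatial simplex -/
def T3 : Set (ℝ × ℝ × ℝ) := {p | 0 ≤ p.1 ∧ 0 ≤ p.2.1 ∧ 0 ≤ p.2.2 ∧ p.1 + p.2.1 + p.2.2 ≤ 1}

theorem T2_compact (k : ℝ) : IsCompact (T2 k) := by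
  apply Metric.isCompact_of_isClosed_isBounded
  · apply IsClosed.inter (isClosed_le continuous_const continuous_fst)
    apply IsClosed.inter (isClosed_le continuous_const continuous_snd)
    exact isClosed_le (continuous_fst.add continuous_snd) continuous_const
  · apply ((Metric.isBounded_Icc 0 k).prod (Metric.isBounded_Icc 0 k)).subset
    rintro ⟨a, b⟩ ⟨h1, h2, h3⟩
    simp only [Set.mem_prod, Set.mem_Icc] at *
    exact ⟨⟨h1, by linarith⟩, ⟨h2, by linarith⟩⟩

theorem T3_compact : IsCompact T3 := by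
  apply Metric.isCompact_of_isClosed_isBounded
  · apply IsClosed.inter (isClosed_le continuous_const continuous_fst)
    apply IsClosed.inter (isClosed_le continuous_const (continuous_fst.comp continuous_snd))
    apply IsClosed.inter (isClosed_le continuous_const (continuous_snd.comp continuous_snd))
    exact isClosed_le ((continuous_fst.add (continuous_fst.comp continuous_snd)).add
      (continuous_snd.comp continuous_snd)) continuous_const
  · apply ((Metric.isBounded_Icc (0 : ℝ) 1).prod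
      ((Metric.isBounded_Icc (0 : ℝ) 1).prod (Metric.isBounded_Icc (0 : ℝ) 1))).subset
    rintro ⟨a, b, c⟩ ⟨h1, h2, h3, h4⟩
    simp only [Set.mem_prod, Set.mem_Icc] at *
    exact ⟨⟨h1, by linarith⟩, ⟨h2, by linarith⟩, ⟨h3, by linarith⟩⟩

theorem int_T2 (g : ℝ × ℝ → ℝ) (hg : Continuous g) (k : ℝ) (hk : 0 ≤ k) :
    ∫ q in T2 k, g q = ∫ b in (0 : ℝ)..k, ∫ c in (0 : ℝ)..(k - b), g (b, c) := by
  have hm := (T2_compact k).isClosed.measurableSet
  have hi : Integrable ((T2 k).indicator g) :=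
    (hg.continuousOn.integrableOn_compact (T2_compact k)).integrable_indicator hm
  rw [← integral_indicator hm, show (volume : Measure (ℝ × ℝ)) = volume.prod volume from rfl,
    integral_prod _ hi, intervalIntegral.integral_of_le hk, ← integral_Icc_eq_integral_Ioc,
    ← integral_indicator measurableSet_Icc]
  congr 1
  ext b
  by_cases hb : b ∈ Set.Icc 0 k
  · rw [Set.indicator_of_mem hb, intervalIntegral.integral_of_le (by linarith [hb.2]),
      ← integral_Icc_eq_integral_Ioc, ← integral_indicator measurableSet_Icc]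
    congr 1
    ext c
    by_cases hc : c ∈ Set.Icc 0 (k - b)
    · rw [Set.indicator_of_mem hc, Set.indicator_of_mem]
      exact ⟨hb.1, hc.1, by simp only; linarith [hc.2]⟩
    · rw [Set.indicator_of_notMem hc, Set.indicator_of_notMem]
      rintro ⟨h1, h2, h3⟩
      exact hc ⟨h2, by simp only at h3; linarith⟩
  · rw [Set.indicator_of_notMem hb]
    have : ∀ c, (T2 k).indicator g (b, c) = 0 := by
      intro c
      apply Set.indicator_of_notMem
      rintro ⟨h1, h2, h3⟩
      exact hb ⟨h1, by simp only at h2 h3; linarith⟩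
    simp [this]

theorem int_T3 (f : ℝ × ℝ × ℝ → ℝ) (hf : Continuous f) :
    ∫ p in T3, f p =
      ∫ a in (0 : ℝ)..1, ∫ b in (0 : ℝ)..(1 - a), ∫ c in (0 : ℝ)..(1 - a - b), f (a, b, c) := by
  have hm := T3_compact.isClosed.measurableSet
  have hi : Integrable (T3.indicator f) :=
    (hf.continuousOn.integrableOn_compact T3_compact).integrable_indicator hm
  rw [← integral_indicator hm, show (volume : Measure (ℝ × ℝ × ℝ)) = volume.prod volume from rfl,
    integral_prod _ hi, intervalIntegral.integral_of_le zero_le_one,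
    ← integral_Icc_eq_integral_Ioc, ← integral_indicator measurableSet_Icc]
  congr 1
  ext a
  by_cases ha : a ∈ Set.Icc (0 : ℝ) 1
  · rw [Set.indicator_of_mem ha, ← int_T2 (fun q => f (a, q)) (by fun_prop) (1 - a)
      (by linarith [ha.2]), ← integral_indicator (T2_compact _).isClosed.measurableSet]
    congr 1
    ext q
    by_cases hq : q ∈ T2 (1 - a)
    · rw [Set.indicator_of_mem hq, Set.indicator_of_mem]
      exact ⟨ha.1, hq.1, hq.2.1, by simp only; linarith [hq.2.2]⟩
    · rw [Set.indicator_of_notMem hq, Set.indicator_of_notMem]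
      rintro ⟨h1, h2, h3, h4⟩
      exact hq ⟨h2, h3, by simp only at h4; linarith⟩
  · rw [Set.indicator_of_notMem ha]
    have : ∀ q, T3.indicator f (a, q) = 0 := by
      intro q
      apply Set.indicator_of_notMem
      rintro ⟨h1, h2, h3, h4⟩
      exact ha ⟨h1, by simp only at h2 h3 h4; linarith⟩
    simp [this]

/-- integral of a quartic polynomial -/
theorem int_poly (c0 c1 c2 c3 c4 k : ℝ) :
    ∫ b in (0 : ℝ)..k, (c0 + c1 * b + c2 * b ^ 2 + c3 * b ^ 3 + c4 * b ^ 4) =
      c0 * k + c1 * k ^ 2 / 2 + c2 * k ^ 3 / 3 + c3 * k ^ 4 / 4 + c4 * k ^ 5 / 5 := by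
  have h : ∀ x ∈ Set.uIcc 0 k, HasDerivAt
      (fun b : ℝ => c0 * b + c1 * b ^ 2 / 2 + c2 * b ^ 3 / 3 + c3 * b ^ 4 / 4 + c4 * b ^ 5 / 5)
      (c0 + c1 * x + c2 * x ^ 2 + c3 * x ^ 3 + c4 * x ^ 4) x := by
    intro x _
    have h0 := hasDerivAt_id x
    have h1 := (h0.const_mul c0)
    have h2 := ((hasDerivAt_pow 2 x).const_mul c1).div_const 2
    have h3 := ((hasDerivAt_pow 3 x).const_mul c2).div_const 3
    have h4 := ((hasDerivAt_pow 4 x).const_mul c3).div_const 4
    have h5 := ((hasDerivAt_pow 5 x).const_mul c4).div_const 5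
    refine HasDerivAt.congr_deriv ((((h1.add h2).add h3).add h4).add h5) ?_
    push_cast
    simp only [pow_one]
    ring
  rw [intervalIntegral.integral_eq_sub_of_hasDerivAt h (by
    apply Continuous.intervalIntegrable; fun_prop)]
  ring

/-- The quadratic form integral over the standard simplex. -/
theorem int_quad (A B C D F G H : ℝ) :
    ∫ p in T3, (A * p.1 ^ 2 + B * p.2.1 ^ 2 + C * p.2.2 ^ 2 + D * (p.1 * p.2.1)
      + F * (p.2.1 * p.2.2) + G * (p.1 * p.2.2) + H) =
      (A + B + C) / 60 + (D + F + G) / 120 + H / 6 := by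
  rw [int_T3 _ (by fun_prop)]
  have h1 : ∀ a b : ℝ, ∫ c in (0 : ℝ)..(1 - a - b), (A * a ^ 2 + B * b ^ 2 + C * c ^ 2
      + D * (a * b) + F * (b * c) + G * (a * c) + H) =
      (A * a ^ 2 + B * b ^ 2 + D * (a * b) + H) * (1 - a - b)
        + (F * b + G * a) * (1 - a - b) ^ 2 / 2 + C * (1 - a - b) ^ 3 / 3 := by
    intro a b
    have := int_poly (A * a ^ 2 + B * b ^ 2 + D * (a * b) + H) (F * b + G * a) C 0 0 (1 - a - b)
    refine Eq.trans ?_ (this.trans ?_)
    · congr 1
      ext c
      ring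
    · ring
  simp only [h1]
  have h2 : ∀ a : ℝ, ∫ b in (0 : ℝ)..(1 - a), ((A * a ^ 2 + B * b ^ 2 + D * (a * b) + H)
        * (1 - a - b) + (F * b + G * a) * (1 - a - b) ^ 2 / 2 + C * (1 - a - b) ^ 3 / 3) =
      (A * a ^ 2 + H) * (1 - a) ^ 2 / 2 + D * a * (1 - a) ^ 3 / 6 + B * (1 - a) ^ 4 / 12
        + F * (1 - a) ^ 4 / 24 + G * a * (1 - a) ^ 3 / 6 + C * (1 - a) ^ 4 / 12 := by
    intro a
    have := int_poly ((A * a ^ 2 + H) * (1 - a) + G * a * (1 - a) ^ 2 / 2 + C * (1 - a) ^ 3 / 3)
      (D * a * (1 - a) - (A * a ^ 2 + H) + F * (1 - a) ^ 2 / 2 - G * a * (1 - a)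
        - C * (1 - a) ^ 2)
      (B * (1 - a) - D * a - F * (1 - a) + G * a / 2 + C * (1 - a))
      (- B + F / 2 - C / 3) 0 (1 - a)
    rw [show (A * a ^ 2 + H) * (1 - a) ^ 2 / 2 + D * a * (1 - a) ^ 3 / 6 + B * (1 - a) ^ 4 / 12
        + F * (1 - a) ^ 4 / 24 + G * a * (1 - a) ^ 3 / 6 + C * (1 - a) ^ 4 / 12 = _ by
      refine Eq.trans ?_ this.symm; ring]
    congr 1
    ext b
    ring
  simp only [h2]
  have h3 := int_poly (H / 2 + B / 12 + F / 24 + C / 12)
    (- H + D / 6 - B / 3 - F / 6 + G / 6 - C / 3)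
    (A / 2 + H / 2 - D / 2 + B / 2 + F / 4 - G / 2 + C / 2)
    (- A + D / 2 - B / 3 - F / 6 + G / 2 - C / 3)
    (A / 2 - D / 6 + B / 12 + F / 24 - G / 6 + C / 12) 1
  rw [show (A + B + C) / 60 + (D + F + G) / 120 + H / 6 = _ by
      refine Eq.trans ?_ h3.symm; ring]
  congr 1
  ext a
  ring

/-- the standard simplex in `E` -/
def T : Set E := {c | (∀ i, 0 ≤ c i) ∧ c 0 + c 1 + c 2 ≤ 1}

/-- coordinates -/
noncomputable def φ : E ≃ᵐ ℝ × ℝ × ℝ :=
  ((MeasurableEquiv.toLp 2 (Fin 3 → ℝ)).symm.trans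
    (MeasurableEquiv.piFinSuccAbove (fun _ : Fin 3 => ℝ) 0)).trans
    ((MeasurableEquiv.refl ℝ).prodCongr MeasurableEquiv.finTwoArrow)

theorem φ_apply (c : E) : φ c = (c 0, c 1, c 2) := rfl

theorem φ_mp : MeasurePreserving φ := by
  have h1 := EuclideanSpace.volume_preserving_symm_measurableEquiv_toLp (Fin 3)
  have h2 := volume_preserving_piFinSuccAbove (fun _ : Fin 3 => ℝ) 0
  have h3 := (MeasurePreserving.id (volume : Measure ℝ)).prod (volume_preserving_finTwoArrow ℝ)
  exact h3.comp (h2.comp h1)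

theorem φ_pre : φ ⁻¹' T3 = T := by
  ext c
  simp only [Set.mem_preimage, φ_apply, T3, T]
  constructor
  · rintro ⟨h1, h2, h3, h4⟩
    refine ⟨fun i => ?_, h4⟩
    fin_cases i
    · exact h1
    · exact h2
    · exact h3
  · rintro ⟨h1, h2⟩
    exact ⟨h1 0, h1 1, h1 2, h2⟩

theorem int_T (A B C D F G H : ℝ) :
    ∫ c in T, (A * c 0 ^ 2 + B * c 1 ^ 2 + C * c 2 ^ 2 + D * (c 0 * c 1)
      + F * (c 1 * c 2) + G * (c 0 * c 2) + H) =
      (A + B + C) / 60 + (D + F + G) / 120 + H / 6 := by
  rw [← int_quad A B C D F G H, ← φ_pre]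
  exact φ_mp.setIntegral_preimage_emb φ.measurableEmbedding (fun p =>
    (A * p.1 ^ 2 + B * p.2.1 ^ 2 + C * p.2.2 ^ 2 + D * (p.1 * p.2.1)
      + F * (p.2.1 * p.2.2) + G * (p.1 * p.2.2) + H)) T3

theorem vol_T : volume T = ENNReal.ofReal (1 / 6) := by
  have h1 := int_T 0 0 0 0 0 0 1
  simp only [zero_mul, add_zero, zero_add, zero_div, integral_const, MeasurableSet.univ,
    measureReal_restrict_apply, Set.univ_inter, smul_eq_mul, mul_one] at h1
  have h2 : volume T ≠ ⊤ := by
    rw [← φ_pre, φ_mp.measure_preimage_emb φ.measurableEmbedding]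
    exact T3_compact.measure_lt_top.ne
  rw [← h1, measureReal_def, ENNReal.ofReal_toReal h2]

/-- the linear map sending the standard basis to `v,w,x` -/
noncomputable def lin (v w x : E) : E →ₗ[ℝ] E where
  toFun c := c 0 • v + c 1 • w + c 2 • x
  map_add' a b := by simp only [PiLp.add_apply]; module
  map_smul' r a := by simp only [PiLp.smul_apply, smul_eq_mul, RingHom.id_apply]; module

theorem lin_apply (v w x c : E) : lin v w x c = c 0 • v + c 1 • w + c 2 • x := rfl

theorem lin_det (v w x : E) : LinearMap.det (lin v w x) = tri v w x := by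
  rw [← LinearMap.det_toMatrix (EuclideanSpace.basisFun (Fin 3) ℝ).toBasis, Matrix.det_fin_three]
  simp [LinearMap.toMatrix_apply, lin_apply, tri]
  ring

theorem tet_eq (v w x : E) : tet v w x = lin v w x '' T := by
  ext y
  constructor
  · intro hy
    refine convexHull_min ?_ ?_ hy
    · rintro z (rfl | rfl | rfl | hz)
      · exact ⟨0, ⟨fun i => by simp, by simp⟩, by simp⟩
      · refine ⟨EuclideanSpace.single 0 1, ⟨fun i => ?_, by simp⟩, by simp [lin_apply]⟩
        fin_cases i <;> simp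
      · refine ⟨EuclideanSpace.single 1 1, ⟨fun i => ?_, by simp⟩, by simp [lin_apply]⟩
        fin_cases i <;> simp
      · rw [Set.mem_singleton_iff] at hz
        subst hz
        refine ⟨EuclideanSpace.single 2 1, ⟨fun i => ?_, by simp⟩, by simp [lin_apply]⟩
        fin_cases i <;> simp
    · apply Convex.linear_image
      rintro a ⟨ha1, ha2⟩ b ⟨hb1, hb2⟩ s t hs ht hst
      refine ⟨fun i => ?_, ?_⟩
      · simp only [PiLp.add_apply, PiLp.smul_apply, smul_eq_mul]
        have := ha1 i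
        have := hb1 i
        positivity
      · simp only [PiLp.add_apply, PiLp.smul_apply, smul_eq_mul]
        nlinarith
  · rintro ⟨c, ⟨h1, h2⟩, rfl⟩
    have hc := convex_convexHull ℝ ({0, v, w, x} : Set E)
    have h3 := hc.sum_mem (t := Finset.univ) (w := ![1 - (c 0 + c 1 + c 2), c 0, c 1, c 2])
      (z := ![0, v, w, x]) (by
        intro i _
        fin_cases i
        · simpa using h2
        · exact h1 0
        · exact h1 1
        · exact h1 2) (by
        simp [Fin.sum_univ_four]; ring) (by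
        intro i _
        apply subset_convexHull
        fin_cases i <;> simp)
    unfold tet
    simpa [Fin.sum_univ_four, lin_apply] using h3

theorem T_meas : MeasurableSet T := by
  rw [← φ_pre]
  exact φ.measurable T3_compact.isClosed.measurableSet

end Mom

open Mom

theorem tet_compact (v w x : E) : IsCompact (tet v w x) :=
  (Set.toFinite ({0, v, w, x} : Set E)).isCompact_convexHull ℝ

theorem tet_measurable (v w x : E) : MeasurableSet (tet v w x) :=
  (tet_compact v w x).isClosed.measurableSet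

theorem tet_vol {v w x : E} (h : 0 < tri v w x) :
    volume (tet v w x) = ENNReal.ofReal (tri v w x / 6) := by
  rw [tet_eq, Measure.addHaar_image_linearMap, lin_det, abs_of_pos h, vol_T,
    ← ENNReal.ofReal_mul h.le]
  congr 1
  ring

theorem tet_integrable (v w x : E) (f : E → ℝ) (hf : Continuous f) :
    IntegrableOn f (tet v w x) :=
  hf.continuousOn.integrableOn_compact (tet_compact v w x)

theorem tet_moment {v w x : E} (hv : ‖v‖ = 1) (hw : ‖w‖ = 1) (hx : ‖x‖ = 1)
    (h : 0 < tri v w x) :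
    ∫ y in tet v w x, ‖y‖ ^ 2 = tri v w x / 6 * ((12 - Lsq v w x) / 20) := by
  have hdet : LinearMap.det (lin v w x) ≠ 0 := by rw [lin_det]; exact h.ne'
  have hinj : Function.Injective (lin v w x) := by
    have := (LinearMap.equivOfDetNeZero (lin v w x) hdet).injective
    exact this
  rw [tet_eq, integral_image_eq_integral_abs_det_fderiv_smul volume T_meas
    (f := lin v w x) (f' := fun _ => (lin v w x).toContinuousLinearMap)
    (fun y _ => (lin v w x).toContinuousLinearMap.hasFDerivWithinAt) hinj.injOn]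
  have e1 : ((lin v w x).toContinuousLinearMap).det = tri v w x := by
    rw [← lin_det]; rfl
  simp only [e1, abs_of_pos h, smul_eq_mul]
  rw [integral_const_mul]
  have e2 : ∀ c : E, ‖lin v w x c‖ ^ 2 = 1 * c 0 ^ 2 + 1 * c 1 ^ 2 + 1 * c 2 ^ 2
      + (2 * inner ℝ v w) * (c 0 * c 1) + (2 * inner ℝ w x) * (c 1 * c 2)
      + (2 * inner ℝ v x) * (c 0 * c 2) + 0 := by
    intro c
    rw [lin_apply, norm_add_sq_real, norm_add_sq_real, inner_add_left, norm_smul, norm_smul,
      norm_smul, hv, hw, hx]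
    simp only [real_inner_smul_left, real_inner_smul_right, mul_one, Real.norm_eq_abs, sq_abs]
    ring
  simp only [e2]
  rw [int_T]
  have f1 : ‖v - w‖ ^ 2 = 2 - 2 * inner ℝ v w := by rw [norm_sub_sq_real, hv, hw]; ring
  have f2 : ‖w - x‖ ^ 2 = 2 - 2 * inner ℝ w x := by rw [norm_sub_sq_real, hw, hx]; ring
  have f3 : ‖x - v‖ ^ 2 = 2 - 2 * inner ℝ v x := by
    rw [norm_sub_sq_real, hx, hv, real_inner_comm]; ring
  rw [Lsq, f1, f2, f3]
  ring

end Pool.Agent.Medial
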