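/-
Volume of the intersection of the unit ball with a circular cone.
(helper72)
-/
import Pool.Agent.Medial.Basic

set_option autoImplicit false

namespace Pool.Agent.Medial

open MeasureTheory
open scoped Real ENNReal

/-- area of a disc in `Fin 2 → ℝ` -/
theorem disc_area {ρ : ℝ} (hρ : 0 ≤ ρ) :
    volume {q : Fin 2 → ℝ | q 0 ^ 2 + q 1 ^ 2 ≤ ρ} = ENNReal.ofReal (π * ρ) := by
  have h1 : {q : Fin 2 → ℝ | q 0 ^ 2 + q 1 ^ 2 ≤ ρ}
      = (WithLp.toLp 2 : (Fin 2 → ℝ) → EuclideanSpace ℝ (Fin 2)) ⁻¹'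
        (Metric.closedBall (0 : EuclideanSpace ℝ (Fin 2)) (√ρ)) := by
    ext q
    simp only [Set.mem_ofPred_eq, Set.mem_preimage, mem_closedBall_zero_iff]
    rw [EuclideanSpace.norm_eq, Fin.sum_univ_two]
    simp only [Real.norm_eq_abs, sq_abs]
    rw [Real.sqrt_le_sqrt_iff hρ]
  rw [h1, (PiLp.volume_preserving_toLp (Fin 2)).measure_preimage
    (Metric.isClosed_closedBall.measurableSet.nullMeasurableSet),
    EuclideanSpace.volume_closedBall_fin_two, ← ENNReal.ofReal_pow (Real.sqrt_nonneg _),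
    ← ENNReal.ofReal_mul (by positivity), Real.sq_sqrt hρ, mul_comm]

theorem sector_std (s : ℝ) (hs0 : 0 ≤ s) (hs1 : s ≤ 1) :
    volume {y : Fin 3 → ℝ | y 0 ^ 2 + y 1 ^ 2 + y 2 ^ 2 ≤ 1 ∧
      s ^ 2 * (y 0 ^ 2 + y 1 ^ 2 + y 2 ^ 2) ≤ y 0 ^ 2 ∧ 0 ≤ y 0}
      = ENNReal.ofReal (2 * π / 3 * (1 - s)) := by
  set A : Set (ℝ × (Fin 2 → ℝ)) := {p | p.1 ^ 2 + p.2 0 ^ 2 + p.2 1 ^ 2 ≤ 1 ∧
      s ^ 2 * (p.1 ^ 2 + p.2 0 ^ 2 + p.2 1 ^ 2) ≤ p.1 ^ 2 ∧ 0 ≤ p.1} with hA
  have hAm : MeasurableSet A := by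
    have e : A = {p : ℝ × (Fin 2 → ℝ) | p.1 ^ 2 + p.2 0 ^ 2 + p.2 1 ^ 2 ≤ 1} ∩
        ({p : ℝ × (Fin 2 → ℝ) | s ^ 2 * (p.1 ^ 2 + p.2 0 ^ 2 + p.2 1 ^ 2) ≤ p.1 ^ 2} ∩
        {p : ℝ × (Fin 2 → ℝ) | 0 ≤ p.1}) := by
      ext p; simp [hA]
    rw [e]
    exact (isClosed_le (by fun_prop) (by fun_prop)).measurableSet.inter
      ((isClosed_le (by fun_prop) (by fun_prop)).measurableSet.inter
        (isClosed_le (by fun_prop) (by fun_prop)).measurableSet)
  have hmp := volume_preserving_piFinSuccAbove (fun _ : Fin 3 => ℝ) 0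
  have h1 : {y : Fin 3 → ℝ | y 0 ^ 2 + y 1 ^ 2 + y 2 ^ 2 ≤ 1 ∧
      s ^ 2 * (y 0 ^ 2 + y 1 ^ 2 + y 2 ^ 2) ≤ y 0 ^ 2 ∧ 0 ≤ y 0}
      = (MeasurableEquiv.piFinSuccAbove (fun _ : Fin 3 => ℝ) 0) ⁻¹' A := by
    ext y
    simp [hA, MeasurableEquiv.piFinSuccAbove, Fin.tail]
  rw [h1, hmp.measure_preimage hAm.nullMeasurableSet]
  rw [Measure.volume_eq_prod, Measure.prod_apply hAm]
  have hsec : ∀ᵐ h : ℝ, volume (Prod.mk h ⁻¹' A) =
      (Set.Ioc 0 s).indicator (fun h => ENNReal.ofReal (π * (h ^ 2 * (1 / s ^ 2 - 1)))) h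
      + (Set.Ioc s 1).indicator (fun h => ENNReal.ofReal (π * (1 - h ^ 2))) h := by
    have hne : ∀ᵐ h : ℝ, h ≠ 0 := by
      rw [ae_iff]; simp
    filter_upwards [hne] with h hh
    rcases lt_or_gt_of_ne hh with hneg | hpos
    · have e1 : Prod.mk h ⁻¹' A = ∅ := by
        ext q
        simp only [hA, Set.mem_preimage, Set.mem_ofPred_eq, Set.mem_empty_iff_false, iff_false]
        rintro ⟨_, _, h3⟩
        linarith
      rw [e1, Set.indicator_of_notMem, Set.indicator_of_notMem]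
      · simp
      · rintro ⟨h3, _⟩; linarith
      · rintro ⟨h3, _⟩; linarith
    · rcases le_or_gt h s with hhs | hhs
      · have hspos : 0 < s := lt_of_lt_of_le hpos hhs
        have e1 : Prod.mk h ⁻¹' A = {q : Fin 2 → ℝ | q 0 ^ 2 + q 1 ^ 2 ≤ h ^ 2 * (1 / s ^ 2 - 1)} := by
          ext q
          simp only [hA, Set.mem_preimage, Set.mem_ofPred_eq]
          have hs2 : 0 < s ^ 2 := by positivity
          have key : s ^ 2 * (h ^ 2 + q 0 ^ 2 + q 1 ^ 2) ≤ h ^ 2 ↔
              q 0 ^ 2 + q 1 ^ 2 ≤ h ^ 2 * (1 / s ^ 2 - 1) := by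
            have : h ^ 2 * (1 / s ^ 2 - 1) = h ^ 2 / s ^ 2 - h ^ 2 := by ring
            rw [this, le_sub_iff_add_le, le_div_iff₀ hs2]
            constructor <;> intro h5 <;> linarith
          constructor
          · rintro ⟨_, h4, _⟩
            exact key.mp h4
          · intro h4
            have h5 := key.mpr h4
            refine ⟨?_, h5, hpos.le⟩
            have h6 : h ^ 2 ≤ s ^ 2 := by nlinarith
            by_contra hcon
            push Not at hcon
            nlinarith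
        have hρ : 0 ≤ h ^ 2 * (1 / s ^ 2 - 1) := by
          apply mul_nonneg (sq_nonneg _)
          rw [sub_nonneg, le_div_iff₀ (by positivity)]
          nlinarith
        rw [e1, disc_area hρ, Set.indicator_of_mem (by exact ⟨hpos, hhs⟩), Set.indicator_of_notMem,
          add_zero]
        rintro ⟨h3, _⟩; linarith
      · rcases le_or_gt h 1 with h1' | h1'
        · have e1 : Prod.mk h ⁻¹' A = {q : Fin 2 → ℝ | q 0 ^ 2 + q 1 ^ 2 ≤ 1 - h ^ 2} := by
            ext q
            simp only [hA, Set.mem_preimage, Set.mem_ofPred_eq]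
            constructor
            · rintro ⟨h3, _, _⟩
              linarith
            · intro h4
              have h5 : h ^ 2 + q 0 ^ 2 + q 1 ^ 2 ≤ 1 := by linarith
              refine ⟨h5, ?_, hpos.le⟩
              have h6 : s ^ 2 ≤ h ^ 2 := by nlinarith
              have h7 : s ^ 2 * (h ^ 2 + q 0 ^ 2 + q 1 ^ 2) ≤ s ^ 2 * 1 :=
                mul_le_mul_of_nonneg_left h5 (sq_nonneg _)
              linarith
          have hρ : 0 ≤ 1 - h ^ 2 := by nlinarith
          rw [e1, disc_area hρ, Set.indicator_of_notMem, Set.indicator_of_mem (by exact ⟨hhs, h1'⟩),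
            zero_add]
          rintro ⟨_, h3⟩; linarith
        · have e1 : Prod.mk h ⁻¹' A = ∅ := by
            ext q
            simp only [hA, Set.mem_preimage, Set.mem_ofPred_eq, Set.mem_empty_iff_false, iff_false]
            rintro ⟨h3, _, _⟩
            nlinarith [sq_nonneg (q 0), sq_nonneg (q 1)]
          rw [e1, Set.indicator_of_notMem, Set.indicator_of_notMem]
          · simp
          · rintro ⟨_, h3⟩; linarith
          · rintro ⟨_, h3⟩; linarith
  rw [lintegral_congr_ae hsec, lintegral_add_left, lintegral_indicator measurableSet_Ioc,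
    lintegral_indicator measurableSet_Ioc]
  · rw [← ofReal_integral_eq_lintegral_ofReal, ← ofReal_integral_eq_lintegral_ofReal,
      ← ENNReal.ofReal_add, ← intervalIntegral.integral_of_le hs0, ← intervalIntegral.integral_of_le hs1]
    · congr 1
      have i1 : ∫ x in (0 : ℝ)..s, π * (x ^ 2 * (1 / s ^ 2 - 1)) = π * (s ^ 3 / 3 * (1 / s ^ 2 - 1)) := by
        rw [intervalIntegral.integral_const_mul, intervalIntegral.integral_mul_const, integral_pow]
        norm_num
      have i2 : ∫ x in s..1, π * (1 - x ^ 2) = π * ((1 - s) - (1 - s ^ 3) / 3) := by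
        rw [intervalIntegral.integral_const_mul, intervalIntegral.integral_sub, integral_pow]
        · norm_num
        · exact intervalIntegrable_const
        · exact (continuous_pow 2).intervalIntegrable _ _
      rw [i1, i2]
      rcases eq_or_lt_of_le hs0 with h0 | h0
      · rw [← h0]; norm_num; ring
      · field_simp; ring
    · apply setIntegral_nonneg measurableSet_Ioc
      rintro x ⟨hx1, hx2⟩
      have : 0 < s := lt_of_lt_of_le hx1 hx2
      apply mul_nonneg Real.pi_pos.le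
      apply mul_nonneg (sq_nonneg _)
      rw [sub_nonneg, le_div_iff₀ (by positivity)]
      nlinarith
    · apply setIntegral_nonneg measurableSet_Ioc
      rintro x ⟨hx1, hx2⟩
      apply mul_nonneg Real.pi_pos.le
      nlinarith
    · exact ((continuous_const.mul (continuous_const.sub (continuous_pow 2))).integrableOn_Icc).mono_set
        Set.Ioc_subset_Icc_self
    · rw [Filter.EventuallyLE, ae_restrict_iff' measurableSet_Ioc]
      refine Filter.Eventually.of_forall ?_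
      rintro x ⟨hx1, hx2⟩
      apply mul_nonneg Real.pi_pos.le
      nlinarith
    · exact ((continuous_const.mul ((continuous_pow 2).mul continuous_const)).integrableOn_Icc).mono_set
        Set.Ioc_subset_Icc_self
    · rw [Filter.EventuallyLE, ae_restrict_iff' measurableSet_Ioc]
      refine Filter.Eventually.of_forall ?_
      rintro x ⟨hx1, hx2⟩
      have : 0 < s := lt_of_lt_of_le hx1 hx2
      apply mul_nonneg Real.pi_pos.le
      apply mul_nonneg (sq_nonneg _)
      rw [sub_nonneg, le_div_iff₀ (by positivity)]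
      nlinarith
  · apply Measurable.indicator _ measurableSet_Ioc
    fun_prop

/-- Volume of the part of the unit ball in a closed circular cone. -/
theorem sector_volume (u : E) (hu : ‖u‖ = 1) (s : ℝ) (hs0 : 0 ≤ s) (hs1 : s ≤ 1) :
    volume {x : E | ‖x‖ ≤ 1 ∧ s * ‖x‖ ≤ inner ℝ u x} = ENNReal.ofReal (2 * π / 3 * (1 - s)) := by
  classical
  -- orthonormal basis with first vector `u`
  have hon : Orthonormal ℝ (({0} : Set (Fin 3)).domRestrict (fun _ : Fin 3 => u)) := by
    constructor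
    · intro i; exact hu
    · intro i j hij
      exact absurd (Subsingleton.elim i j) hij
  obtain ⟨b, hb⟩ := hon.exists_orthonormalBasis_extension_of_card_eq (by simp)
  have hb0 : b 0 = u := hb 0 (by simp)
  rw [← sector_std s hs0 hs1]
  have hmp : MeasurePreserving (fun x : E => (b.repr x).ofLp) volume volume :=
    (PiLp.volume_preserving_ofLp (Fin 3)).comp b.measurePreserving_repr
  have hAm : MeasurableSet {y : Fin 3 → ℝ | y 0 ^ 2 + y 1 ^ 2 + y 2 ^ 2 ≤ 1 ∧
      s ^ 2 * (y 0 ^ 2 + y 1 ^ 2 + y 2 ^ 2) ≤ y 0 ^ 2 ∧ 0 ≤ y 0} := by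
    have e : {y : Fin 3 → ℝ | y 0 ^ 2 + y 1 ^ 2 + y 2 ^ 2 ≤ 1 ∧
        s ^ 2 * (y 0 ^ 2 + y 1 ^ 2 + y 2 ^ 2) ≤ y 0 ^ 2 ∧ 0 ≤ y 0} =
        {y : Fin 3 → ℝ | y 0 ^ 2 + y 1 ^ 2 + y 2 ^ 2 ≤ 1} ∩
        ({y : Fin 3 → ℝ | s ^ 2 * (y 0 ^ 2 + y 1 ^ 2 + y 2 ^ 2) ≤ y 0 ^ 2} ∩
        {y : Fin 3 → ℝ | 0 ≤ y 0}) := by
      ext p; simp
    rw [e]
    exact (isClosed_le (by fun_prop) (by fun_prop)).measurableSet.inter
      ((isClosed_le (by fun_prop) (by fun_prop)).measurableSet.inter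
        (isClosed_le (by fun_prop) (by fun_prop)).measurableSet)
  rw [← hmp.measure_preimage hAm.nullMeasurableSet]
  congr 1
  ext x
  simp only [Set.mem_ofPred_eq, Set.mem_preimage]
  have hn : ‖x‖ ^ 2 = (b.repr x) 0 ^ 2 + (b.repr x) 1 ^ 2 + (b.repr x) 2 ^ 2 := by
    rw [← norm_sq_eq, b.repr.norm_map]
  have h0 : (b.repr x) 0 = inner ℝ u x := by
    rw [b.repr_apply_apply, hb0]
  rw [h0] at hn
  rw [h0, ← hn]
  constructor
  · rintro ⟨h1, h2⟩
    have h3 : 0 ≤ s * ‖x‖ := mul_nonneg hs0 (norm_nonneg _)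
    refine ⟨?_, ?_, by linarith⟩
    · nlinarith [norm_nonneg x]
    · rw [← mul_pow]
      exact pow_le_pow_left₀ h3 h2 2
  · rintro ⟨h1, h2, h3⟩
    refine ⟨?_, ?_⟩
    · nlinarith [norm_nonneg x]
    · rw [← mul_pow] at h2
      exact le_of_sq_le_sq h2 h3

end Pool.Agent.Medial
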