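/-
T2a: Euler count for an abstract oriented triangulation with a height function.
(helper72)
-/
import Pool.Agent.Medial.Defs

set_option autoImplicit false

namespace Pool.Agent.Medial

namespace HMap

variable {V : Type*} {S : Finset V} {N : V → Finset V} {L : V → V → V} {z : V → ℝ}

theorem iter_mem (h : HMap S N L z) {v w : V} (hv : v ∈ S) (hw : w ∈ N v) (k : ℕ) :
    (L v)^[k] w ∈ N v := by
  induction k with
  | zero => exact hw
  | succ k ih =>
    rw [Function.iterate_succ_apply']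
    exact h.L_mem v hv _ ih

theorem z_ne (h : HMap S N L z) {v w : V} (hv : v ∈ S) (hw : w ∈ N v) : z w ≠ z v := by
  intro he
  exact h.ne v hv w hw (h.inj w (h.mem v hv w hw) v hv he)

theorem z_ne3 (h : HMap S N L z) {v w : V} (hv : v ∈ S) (hw : w ∈ N v) : z (L v w) ≠ z w := by
  intro he
  exact h.L_ne v hv w hw
    (h.inj _ (h.mem v hv _ (h.L_mem v hv w hw)) w (h.mem v hv w hw) he)

/-- in a single cycle, a predicate which is true somewhere and false somewhere changes from true to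
false at some step -/
theorem exists_step (h : HMap S N L z) {v w w' : V} (hv : v ∈ S) (hw : w ∈ N v) (hw' : w' ∈ N v)
    (P : V → Prop) (hP : P w) (hP' : ¬ P w') : ∃ y ∈ N v, P y ∧ ¬ P (L v y) := by
  obtain ⟨k, hk⟩ := h.trans v hv w hw w' hw'
  induction k generalizing w' with
  | zero =>
    simp only [Function.iterate_zero, id_eq] at hk
    rw [hk] at hP; exact absurd hP hP'
  | succ k ih =>
    rw [Function.iterate_succ_apply'] at hk
    by_cases hk' : P ((L v)^[k] w)
    · exact ⟨_, h.iter_mem hv hw k, hk', by rw [hk]; exact hP'⟩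
    · exact ih (h.iter_mem hv hw k) hk' rfl

theorem exists_exit (h : HMap S N L z) {v : V} (hv : v ∈ S) (h1 : ∃ y ∈ S, z v < z y)
    (h2 : ∃ y ∈ S, z y < z v) : ∃ w ∈ N v, z v < z w ∧ z (L v w) < z v := by
  obtain ⟨w, hw, hw1⟩ := h.up v hv h1
  obtain ⟨w', hw', hw1'⟩ := h.down v hv h2
  obtain ⟨y, hy, hy1, hy2⟩ := h.exists_step hv hw hw' (fun y => z v < z y) hw1 (by simpa using hw1'.le)
  refine ⟨y, hy, hy1, ?_⟩
  have := h.z_ne hv (h.L_mem v hv y hy)
  simp only [not_lt] at hy2
  exact lt_of_le_of_ne hy2 this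

theorem exists_entry (h : HMap S N L z) {v : V} (hv : v ∈ S) (h1 : ∃ y ∈ S, z v < z y)
    (h2 : ∃ y ∈ S, z y < z v) : ∃ w ∈ N v, z w < z v ∧ z v < z (L v w) := by
  obtain ⟨w, hw, hw1⟩ := h.up v hv h1
  obtain ⟨w', hw', hw1'⟩ := h.down v hv h2
  obtain ⟨y, hy, hy1, hy2⟩ := h.exists_step hv hw' hw (fun y => z y < z v) hw1' (by simpa using hw1.le)
  refine ⟨y, hy, hy1, ?_⟩
  have := h.z_ne hv (h.L_mem v hv y hy)
  simp only [not_lt] at hy2
  exact lt_of_le_of_ne hy2 this.symm

/-- the third rotation -/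
theorem rot2 (h : HMap S N L z) {v w : V} (hv : v ∈ S) (hw : w ∈ N v) : L (L v w) v = w := by
  have h1 := h.rot w (h.mem v hv w hw) (L v w) (h.L_mem' v hv w hw)
  rwa [h.rot v hv w hw] at h1

theorem sum_rot (h : HMap S N L z) (f : V → V → ℕ) :
    ∑ v ∈ S, ∑ w ∈ N v, f w (L v w) = ∑ v ∈ S, ∑ w ∈ N v, f v w := by
  rw [Finset.sum_sigma', Finset.sum_sigma']
  refine Finset.sum_bij' (fun d _ => ⟨d.2, L d.1 d.2⟩) (fun d _ => ⟨L d.1 d.2, d.1⟩) ?_ ?_ ?_ ?_ ?_
  · rintro ⟨v, w⟩ hd
    simp only [Finset.mem_sigma] at hd ⊢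
    exact ⟨h.mem v hd.1 w hd.2, h.L_mem' v hd.1 w hd.2⟩
  · rintro ⟨v, w⟩ hd
    simp only [Finset.mem_sigma] at hd ⊢
    refine ⟨h.mem v hd.1 _ (h.L_mem v hd.1 w hd.2), h.symm v hd.1 _ (h.L_mem v hd.1 w hd.2)⟩
  · rintro ⟨v, w⟩ hd
    simp only [Finset.mem_sigma] at hd
    simp only [h.rot v hd.1 w hd.2]
  · rintro ⟨v, w⟩ hd
    simp only [Finset.mem_sigma] at hd
    simp only [h.rot2 hd.1 hd.2]
  · rintro ⟨v, w⟩ hd
    rfl

end HMap

open Classical in
theorem T2a : Stmt_T2a := by
  intro V S N L z h hcard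
  -- indicator of the source is the middle vertex of the facet
  set m : V → V → ℕ := fun v w =>
    if (z v < z w ∧ z (L v w) < z v) ∨ (z w < z v ∧ z v < z (L v w)) then 1 else 0 with hm
  have key : ∀ v ∈ S, ∀ w ∈ N v, m v w + m w (L v w) + m (L v w) v = 1 := by
    intro v hv w hw
    have e1 := h.rot v hv w hw
    have e2 := h.rot2 hv hw
    have n1 := h.z_ne hv hw
    have n2 := h.z_ne3 hv hw
    have n3 := h.z_ne hv (h.L_mem v hv w hw)
    simp only [hm, e1, e2]
    rcases lt_or_gt_of_ne n1 with a | a <;> rcases lt_or_gt_of_ne n2 with b | b <;>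
      rcases lt_or_gt_of_ne n3 with c | c <;>
      simp [a, b, c, a.le, b.le, c.le, not_lt.mpr] <;> linarith
  have hsum : ∑ v ∈ S, ∑ w ∈ N v, (m v w + m w (L v w) + m (L v w) v) = ∑ v ∈ S, (N v).card := by
    refine Finset.sum_congr rfl fun v hv => ?_
    rw [Finset.sum_congr rfl (key v hv)]
    simp
  have hr1 : ∑ v ∈ S, ∑ w ∈ N v, m w (L v w) = ∑ v ∈ S, ∑ w ∈ N v, m v w := h.sum_rot m
  have hr2 : ∑ v ∈ S, ∑ w ∈ N v, m (L v w) v = ∑ v ∈ S, ∑ w ∈ N v, m v w := by
    rw [← h.sum_rot m, ← h.sum_rot (fun v w => m w (L v w))]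
    refine Finset.sum_congr rfl fun v hv => Finset.sum_congr rfl fun w hw => ?_
    simp only [h.rot v hv w hw]
  have hvert : ∀ v ∈ S, ∑ w ∈ N v, m v w =
      if (∃ y ∈ S, z v < z y) ∧ (∃ y ∈ S, z y < z v) then 2 else 0 := by
    intro v hv
    have hsplit : ∀ w ∈ N v, m v w = (if z v < z w ∧ z (L v w) < z v then 1 else 0)
        + (if z w < z v ∧ z v < z (L v w) then 1 else 0) := by
      intro w hw
      simp only [hm]
      by_cases c1 : z v < z w ∧ z (L v w) < z v
      · have c2 : ¬ (z w < z v ∧ z v < z (L v w)) := fun c => by linarith [c1.1, c.1]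
        simp [c1, c2]
      · simp [c1]
    rw [Finset.sum_congr rfl hsplit, Finset.sum_add_distrib, ← Finset.card_filter,
      ← Finset.card_filter]
    by_cases hext : (∃ y ∈ S, z v < z y) ∧ (∃ y ∈ S, z y < z v)
    · rw [if_pos hext]
      obtain ⟨w1, hw1, ha1, ha2⟩ := h.exists_exit hv hext.1 hext.2
      obtain ⟨w2, hw2, hb1, hb2⟩ := h.exists_entry hv hext.1 hext.2
      have e1 : (N v).filter (fun w => z v < z w ∧ z (L v w) < z v) = {w1} := by
        ext w
        simp only [Finset.mem_filter, Finset.mem_singleton]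
        constructor
        · rintro ⟨hw, c1, c2⟩
          exact h.exit_unique v hv w hw w1 hw1 c1 c2 ha1 ha2
        · rintro rfl
          exact ⟨hw1, ha1, ha2⟩
      have e2 : (N v).filter (fun w => z w < z v ∧ z v < z (L v w)) = {w2} := by
        ext w
        simp only [Finset.mem_filter, Finset.mem_singleton]
        constructor
        · rintro ⟨hw, c1, c2⟩
          exact h.entry_unique v hv w hw w2 hw2 c1 c2 hb1 hb2
        · rintro rfl
          exact ⟨hw2, hb1, hb2⟩
      rw [e1, e2]; simp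
    · rw [if_neg hext]
      have e1 : (N v).filter (fun w => z v < z w ∧ z (L v w) < z v) = ∅ := by
        rw [Finset.filter_eq_empty_iff]
        rintro w hw ⟨c1, c2⟩
        exact hext ⟨⟨w, h.mem v hv w hw, c1⟩, ⟨_, h.mem v hv _ (h.L_mem v hv w hw), c2⟩⟩
      have e2 : (N v).filter (fun w => z w < z v ∧ z v < z (L v w)) = ∅ := by
        rw [Finset.filter_eq_empty_iff]
        rintro w hw ⟨c1, c2⟩
        exact hext ⟨⟨_, h.mem v hv _ (h.L_mem v hv w hw), c2⟩, ⟨w, h.mem v hv w hw, c1⟩⟩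
      rw [e1, e2]; simp
  have hne : S.Nonempty := Finset.card_pos.mp (by omega)
  obtain ⟨t, ht, htmax⟩ := S.exists_max_image z hne
  obtain ⟨b, hb, hbmin⟩ := S.exists_min_image z hne
  have htb : t ≠ b := by
    intro htb
    have : ∀ y ∈ S, y = b := by
      intro y hy
      apply h.inj y hy b hb
      have h1 := htmax y hy
      have h2 := hbmin y hy
      rw [htb] at h1
      linarith
    have : S ⊆ {b} := fun y hy => Finset.mem_singleton.mpr (this y hy)
    have := Finset.card_le_card this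
    simp at this
    omega
  have hmid : ∑ v ∈ S, ∑ w ∈ N v, m v w + 4 = 2 * S.card := by
    rw [Finset.sum_congr rfl hvert, ← Finset.sum_filter]
    have hf : S.filter (fun v => (∃ y ∈ S, z v < z y) ∧ (∃ y ∈ S, z y < z v))
        = (S.erase t).erase b := by
      ext v
      simp only [Finset.mem_filter, Finset.mem_erase]
      constructor
      · rintro ⟨hv, ⟨y, hy, hy1⟩, ⟨y', hy', hy1'⟩⟩
        refine ⟨?_, ?_, hv⟩
        · rintro rfl; linarith [hbmin y' hy']
        · rintro rfl; linarith [htmax y hy]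
      · rintro ⟨h1, h2, hv⟩
        refine ⟨hv, ⟨t, ht, lt_of_le_of_ne (htmax v hv) fun he => h2 (h.inj v hv t ht he)⟩,
          ⟨b, hb, lt_of_le_of_ne (hbmin v hv) fun he => h1 (h.inj b hb v hv he).symm⟩⟩
    rw [hf, Finset.sum_const, smul_eq_mul, Finset.card_erase_of_mem, Finset.card_erase_of_mem ht]
    · have : 2 ≤ S.card := hcard
      omega
    · simp [hb, htb.symm]
  simp only [Finset.sum_add_distrib] at hsum
  rw [hr1, hr2] at hsum
  omega

end Pool.Agent.Medial
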