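/-
T2b: a generic direction far from twelve given points.
(helper72)
-/
import Pool.Agent.Medial.Basic

set_option autoImplicit false

namespace Pool.Agent.Medial

open MeasureTheory

/-- generic vectors exist in every ball -/
theorem exists_generic (S : Finset E) (c : E) {ε : ℝ} (hε : 0 < ε) :
    ∃ u : E, ‖u - c‖ < ε ∧ ∀ x ∈ S, ∀ y ∈ S, x ≠ y → (inner ℝ u x : ℝ) ≠ inner ℝ u y := by
  classical
  set P := (S ×ˢ S).filter (fun p => p.1 ≠ p.2) with hP
  have hnull : volume (⋃ p ∈ (P : Set (E × E)), (((ℝ ∙ (p.1 - p.2))ᗮ : Submodule ℝ E) : Set E)) = 0 := by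
    rw [measure_biUnion_null_iff P.countable_toSet]
    intro p hp
    have hp' : p ∈ P := hp
    rw [hP, Finset.mem_filter] at hp'
    apply Measure.addHaar_submodule
    intro htop
    have h1 : p.1 - p.2 ∈ (ℝ ∙ (p.1 - p.2))ᗮ := by rw [htop]; trivial
    rw [Submodule.mem_orthogonal_singleton_iff_inner_right] at h1
    exact sub_ne_zero.mpr hp'.2 (inner_self_eq_zero.mp h1)
  have hpos : 0 < volume (Metric.ball c ε) := Metric.measure_ball_pos _ _ hε
  obtain ⟨u, hu, hun⟩ : ∃ u ∈ Metric.ball c ε,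
      u ∉ ⋃ p ∈ (P : Set (E × E)), (((ℝ ∙ (p.1 - p.2))ᗮ : Submodule ℝ E) : Set E) := by
    by_contra hcon
    push Not at hcon
    have : volume (Metric.ball c ε) ≤ 0 := by
      rw [← hnull]; exact measure_mono hcon
    exact absurd hpos (not_lt.mpr this)
  refine ⟨u, by rw [← dist_eq_norm]; exact hu, fun x hx y hy hxy he => hun ?_⟩
  simp only [Set.mem_iUnion]
  refine ⟨(x, y), ?_, ?_⟩
  · rw [Finset.mem_coe, hP, Finset.mem_filter]; exact ⟨Finset.mem_product.mpr ⟨hx, hy⟩, hxy⟩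
  · show u ∈ (ℝ ∙ (x - y))ᗮ
    rw [Submodule.mem_orthogonal_singleton_iff_inner_left, inner_sub_right, he, sub_self]

/-- integer coordinates (times 1000) of fourteen well separated directions -/
def dirs : Fin 14 → Fin 3 → ℤ :=
  ![![1000, 0, 0], ![-1000, 0, 0], ![0, 1000, 0], ![0, -1000, 0], ![0, 0, 1000], ![0, 0, -1000],
    ![577, 577, 577], ![577, 577, -577], ![577, -577, 577], ![577, -577, -577],
    ![-577, 577, 577], ![-577, 577, -577], ![-577, -577, 577], ![-577, -577, -577]]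

theorem dirs_sep : ∀ i j : Fin 14, i ≠ j →
    dirs i 0 * dirs j 0 + dirs i 1 * dirs j 1 + dirs i 2 * dirs j 2 ≤ 577000 := by decide

theorem dirs_norm : ∀ i : Fin 14,
    998000 ≤ dirs i 0 * dirs i 0 + dirs i 1 * dirs i 1 + dirs i 2 * dirs i 2 ∧
    dirs i 0 * dirs i 0 + dirs i 1 * dirs i 1 + dirs i 2 * dirs i 2 ≤ 1000000 := by decide

/-- the fourteen directions -/
noncomputable def dvec (i : Fin 14) : E :=
  !₂[(dirs i 0 : ℝ) / 1000, (dirs i 1 : ℝ) / 1000, (dirs i 2 : ℝ) / 1000]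

theorem inner_dvec (i j : Fin 14) : (inner ℝ (dvec i) (dvec j) : ℝ)
    = ((dirs i 0 * dirs j 0 + dirs i 1 * dirs j 1 + dirs i 2 * dirs j 2 : ℤ) : ℝ) / 1000000 := by
  rw [inner_eq]
  simp [dvec]
  ring

theorem T2b : Stmt_T2b := by
  classical
  intro S A hA hcard
  -- choose the perturbed directions
  have hch : ∀ i : Fin 14, ∃ u : E, ‖u‖ = 1 ∧ ‖u - dvec i‖ ≤ 1 / 200 ∧
      ∀ x ∈ S, ∀ y ∈ S, x ≠ y → (inner ℝ u x : ℝ) ≠ inner ℝ u y := by
    intro i
    obtain ⟨u', hu', hgen⟩ := exists_generic S (dvec i) (ε := 1 / 1000) (by norm_num)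
    have hn1 : ‖dvec i‖ ^ 2 ≤ 1 ∧ 998 / 1000 ≤ ‖dvec i‖ ^ 2 := by
      have h1 : ‖dvec i‖ ^ 2 = ((dirs i 0 * dirs i 0 + dirs i 1 * dirs i 1 + dirs i 2 * dirs i 2 : ℤ) : ℝ)
          / 1000000 := by rw [← inner_dvec, real_inner_self_eq_norm_sq]
      have h2 := dirs_norm i
      have h3 : (998000 : ℝ) ≤ ((dirs i 0 * dirs i 0 + dirs i 1 * dirs i 1 + dirs i 2 * dirs i 2 : ℤ) : ℝ) := by
        exact_mod_cast h2.1
      have h4 : ((dirs i 0 * dirs i 0 + dirs i 1 * dirs i 1 + dirs i 2 * dirs i 2 : ℤ) : ℝ) ≤ 1000000 := by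
        exact_mod_cast h2.2
      rw [h1]
      constructor
      · rw [div_le_one (by norm_num)]; exact h4
      · rw [div_le_div_iff₀ (by norm_num) (by norm_num)]; linarith
    have hn2 : ‖dvec i‖ ≤ 1 := by nlinarith [norm_nonneg (dvec i)]
    have hn3 : 99 / 100 ≤ ‖dvec i‖ ∧ 998 / 1000 ≤ ‖dvec i‖ := by
      constructor <;> nlinarith [norm_nonneg (dvec i)]
    have hb1 : ‖u'‖ ≤ ‖dvec i‖ + 1 / 1000 := by
      have := norm_add_le (dvec i) (u' - dvec i)
      rw [add_sub_cancel] at this; linarith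
    have hb2 : ‖dvec i‖ - 1 / 1000 ≤ ‖u'‖ := by
      have := norm_sub_norm_le (dvec i) u'
      rw [norm_sub_rev] at this; linarith
    have hpos : 0 < ‖u'‖ := by linarith [hn3.1]
    refine ⟨(‖u'‖)⁻¹ • u', ?_, ?_, ?_⟩
    · rw [norm_smul, norm_inv, norm_norm, inv_mul_cancel₀ hpos.ne']
    · have h1 : ‖(‖u'‖)⁻¹ • u' - u'‖ = |1 - ‖u'‖| := by
        have : (‖u'‖)⁻¹ • u' - u' = ((‖u'‖)⁻¹ - 1) • u' := by rw [sub_smul, one_smul]
        rw [this, norm_smul, Real.norm_eq_abs]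
        have h2 : ‖u'‖ = |‖u'‖| := (abs_of_pos hpos).symm
        rw [h2, ← abs_mul, ← h2, sub_mul, inv_mul_cancel₀ hpos.ne', one_mul]
      have h2 : |1 - ‖u'‖| ≤ 3 / 1000 := by
        rw [abs_le]; constructor <;> linarith [hn3.2]
      calc ‖(‖u'‖)⁻¹ • u' - dvec i‖ = ‖((‖u'‖)⁻¹ • u' - u') + (u' - dvec i)‖ := by
            congr 1; abel
        _ ≤ ‖(‖u'‖)⁻¹ • u' - u'‖ + ‖u' - dvec i‖ := norm_add_le _ _
        _ ≤ 1 / 200 := by rw [h1]; linarith
    · intro x hx y hy hxy he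
      rw [inner_smul_left, inner_smul_left] at he
      exact hgen x hx y hy hxy (mul_left_cancel₀ (by simpa using hpos.ne') he)
  choose u hu1 hu2 hu3 using hch
  by_contra hcon
  push Not at hcon
  have hbad : ∀ i : Fin 14, ∃ v ∈ A, (9 / 10 : ℝ) < inner ℝ (u i) v := fun i =>
    hcon (u i) (hu1 i) (hu3 i)
  choose v hv1 hv2 using hbad
  obtain ⟨i, -, j, -, hij, hvij⟩ := Finset.exists_ne_map_eq_of_card_lt_of_maps_to
    (s := (Finset.univ : Finset (Fin 14))) (t := A) (by simp; omega) (f := v)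
    (fun i _ => hv1 i)
  have h1 := hv2 i
  have h2 := hv2 j
  rw [← hvij] at h2
  have hvn := hA (v i) (hv1 i)
  -- inner product of the two directions is large
  have h3 : (9 / 5 : ℝ) < ‖u i + u j‖ := by
    have h4 := real_inner_le_norm (u i + u j) (v i)
    rw [inner_add_left, hvn, mul_one] at h4
    linarith
  have h4 : ‖u i + u j‖ ^ 2 = 2 + 2 * inner ℝ (u i) (u j) := by
    rw [norm_add_sq_real, hu1, hu1]; ring
  have h5 : (31 / 50 : ℝ) < inner ℝ (u i) (u j) := by nlinarith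
  -- but it is close to that of the centres
  have h6 : (inner ℝ (u i) (u j) : ℝ) = inner ℝ (dvec i) (dvec j) + inner ℝ (dvec i) (u j - dvec j)
      + inner ℝ (u i - dvec i) (u j) := by
    simp only [inner_sub_left, inner_sub_right]; ring
  have hdn : ‖dvec i‖ ≤ 1 := by
    have h1 : ‖dvec i‖ ^ 2 = ((dirs i 0 * dirs i 0 + dirs i 1 * dirs i 1 + dirs i 2 * dirs i 2 : ℤ) : ℝ)
        / 1000000 := by rw [← inner_dvec, real_inner_self_eq_norm_sq]
    have h4 : ((dirs i 0 * dirs i 0 + dirs i 1 * dirs i 1 + dirs i 2 * dirs i 2 : ℤ) : ℝ) ≤ 1000000 := by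
      exact_mod_cast (dirs_norm i).2
    have h5 : ‖dvec i‖ ^ 2 ≤ 1 := by rw [h1, div_le_one (by norm_num)]; exact h4
    nlinarith [norm_nonneg (dvec i)]
  have h7 : (inner ℝ (dvec i) (u j - dvec j) : ℝ) ≤ 1 / 200 := by
    have := real_inner_le_norm (dvec i) (u j - dvec j)
    have := mul_le_mul hdn (hu2 j) (norm_nonneg _) zero_le_one
    linarith
  have h8 : (inner ℝ (u i - dvec i) (u j) : ℝ) ≤ 1 / 200 := by
    have := real_inner_le_norm (u i - dvec i) (u j)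
    rw [hu1, mul_one] at this
    linarith [hu2 i]
  have h9 : (inner ℝ (dvec i) (dvec j) : ℝ) ≤ 577 / 1000 := by
    rw [inner_dvec]
    have h10 : ((dirs i 0 * dirs j 0 + dirs i 1 * dirs j 1 + dirs i 2 * dirs j 2 : ℤ) : ℝ) ≤ 577000 := by
      exact_mod_cast dirs_sep i j hij
    rw [div_le_div_iff₀ (by norm_num) (by norm_num)]; linarith
  linarith

end Pool.Agent.Medial
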