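import Pool.Agent.Medial.T10b
import Pool.Agent.Medial.T2a
import Pool.Agent.Medial.T2b

/-!
T10: final analysis (helper20).
-/

set_option autoImplicit false
set_option maxHeartbeats 1000000

namespace Pool.Agent.Medial

open scoped Real

theorem convex_cone_le (u : E) {α : ℝ} (hα : 0 ≤ α) :
    Convex ℝ {x : E | α * ‖x‖ ≤ (inner ℝ u x : ℝ)} := by
  intro x hx y hy a b ha hb _
  simp only [Set.mem_ofPred_eq] at hx hy ⊢
  rw [inner_add_right, inner_smul_right, inner_smul_right]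
  have h1 : ‖a • x + b • y‖ ≤ a * ‖x‖ + b * ‖y‖ := by
    refine (norm_add_le _ _).trans ?_
    rw [norm_smul, norm_smul, Real.norm_of_nonneg ha, Real.norm_of_nonneg hb]
  have h2 := mul_le_mul_of_nonneg_left h1 hα
  have h3 := mul_le_mul_of_nonneg_left hx ha
  have h4 := mul_le_mul_of_nonneg_left hy hb
  linarith

theorem tet_lower {u v w x : E} {α : ℝ} (hα : 0 ≤ α) (hv1 : ‖v‖ = 1) (hw1 : ‖w‖ = 1)
    (hx1 : ‖x‖ = 1) (hv : α ≤ (inner ℝ u v : ℝ)) (hw : α ≤ (inner ℝ u w : ℝ))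
    (hx : α ≤ (inner ℝ u x : ℝ)) {y : E} (hy : y ∈ tet v w x) :
    α * ‖y‖ ≤ (inner ℝ u y : ℝ) := by
  have hsub : tet v w x ⊆ {x : E | α * ‖x‖ ≤ (inner ℝ u x : ℝ)} := by
    refine convexHull_min ?_ (convex_cone_le u hα)
    intro z hz
    simp only [Set.mem_insert_iff, Set.mem_singleton_iff] at hz
    simp only [Set.mem_ofPred_eq]
    rcases hz with rfl | rfl | rfl | rfl
    · simp
    · rw [hv1, mul_one]; exact hv
    · rw [hw1, mul_one]; exact hw
    · rw [hx1, mul_one]; exact hx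
  exact hsub hy

theorem tet_upper {u ν v w x : E} {β : ℝ} (hβ : 0 ≤ β) (hν : ‖ν‖ = 1)
    (hv : (inner ℝ u v : ℝ) ≤ β * inner ℝ ν v) (hw : (inner ℝ u w : ℝ) ≤ β * inner ℝ ν w)
    (hx : (inner ℝ u x : ℝ) ≤ β * inner ℝ ν x) {y : E} (hy : y ∈ tet v w x) :
    (inner ℝ u y : ℝ) ≤ β * ‖y‖ := by
  have hsub : tet v w x ⊆ {x : E | (inner ℝ (u - β • ν) x : ℝ) ≤ 0} := by
    refine convexHull_min ?_ (convex_halfSpace_le (innerSL ℝ (u - β • ν)).isLinear _)
    intro z hz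
    simp only [Set.mem_insert_iff, Set.mem_singleton_iff] at hz
    simp only [Set.mem_ofPred_eq]
    have key : ∀ q : E, (inner ℝ u q : ℝ) ≤ β * inner ℝ ν q → (inner ℝ (u - β • ν) q : ℝ) ≤ 0 := by
      intro q hq
      rw [inner_sub_left, real_inner_smul_left]
      linarith
    rcases hz with rfl | rfl | rfl | rfl
    · simp
    · exact key _ hv
    · exact key _ hw
    · exact key _ hx
  have h1 : (inner ℝ (u - β • ν) y : ℝ) ≤ 0 := hsub hy
  rw [inner_sub_left, real_inner_smul_left] at h1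
  have h2 : (inner ℝ ν y : ℝ) ≤ ‖y‖ := by
    have := real_inner_le_norm ν y
    rwa [hν, one_mul] at this
  have h3 := mul_le_mul_of_nonneg_left h2 hβ
  linarith

theorem centered_of_ball {S : Finset E} {r : ℝ} (hr : 0 < r)
    (hball : Metric.closedBall (0 : E) r ⊆ convexHull ℝ (S : Set E)) : Centered S := by
  intro a ha
  by_contra hcon
  push Not at hcon
  have hna : 0 < ‖a‖ := norm_pos_iff.2 ha
  have hsub : convexHull ℝ (S : Set E) ⊆ {x : E | (inner ℝ a x : ℝ) ≤ 0} := by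
    refine convexHull_min ?_ (convex_halfSpace_le (innerSL ℝ a).isLinear _)
    intro x hx
    exact hcon x hx
  have hmem : (r / ‖a‖) • a ∈ convexHull ℝ (S : Set E) := by
    apply hball
    rw [mem_closedBall_zero_iff, norm_smul, Real.norm_eq_abs, abs_div, abs_norm, abs_of_pos hr,
      div_mul_cancel₀ _ hna.ne']
  have h1 : (inner ℝ a ((r / ‖a‖) • a) : ℝ) ≤ 0 := hsub hmem
  rw [inner_smul_right, real_inner_self_eq_norm_sq] at h1
  have h2 : 0 < r / ‖a‖ * ‖a‖ ^ 2 := by positivity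
  linarith

/-- consequences of the shape of one facet when the ball of radius close to one is contained in
the hull -/
theorem facet_facts {S : Finset E} {v w x : E} (h : Fac S v w x) (hU : Unit S) {r t : ℝ}
    (hball : Metric.closedBall (0 : E) r ⊆ convexHull ℝ (S : Set E)) (ht : 1 - t ≤ r)
    (ht1 : t ≤ 1 / 10 ^ 13) {u : E} (hu : ‖u‖ = 1) :
    (0 < tri v w x / 6) ∧ 12 * √3 * (tri v w x / 6) ≤ Lsq v w x ∧
    0 ≤ Qf (inner ℝ u v) (inner ℝ u w) (inner ℝ u x) ∧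
    Qf (inner ℝ u v) (inner ℝ u w) (inner ℝ u x) ≤ 24 * t ∧
    (9 / 10 < max (inner ℝ u v : ℝ) (max (inner ℝ u w) (inner ℝ u x)) →
      Qf (inner ℝ u v) (inner ℝ u w) (inner ℝ u x) ≤ (1900036 / 10 ^ 7) *
        (6 * √3 * (tri v w x / 6) + (Lsq v w x - 12 * √3 * (tri v w x / 6)) +
          √(6 * √3 * (tri v w x / 6) * (Lsq v w x - 12 * √3 * (tri v w x / 6))))) ∧
    (9 / 10 < max (inner ℝ u v : ℝ) (max (inner ℝ u w) (inner ℝ u x)) →
      ∀ y ∈ tet v w x, (9 / 10 - 1 / 10 ^ 6) * ‖y‖ ≤ inner ℝ u y) ∧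
    (min (inner ℝ u v : ℝ) (min (inner ℝ u w) (inner ℝ u x)) < 902 / 1000 →
      ∀ y ∈ tet v w x, (inner ℝ u y : ℝ) ≤ (902 / 1000 + 3 / 10 ^ 6) * ‖y‖) := by
  have hr0 : 0 ≤ r := by linarith
  obtain ⟨ν, hν, h1, h2, h3, h4, h5, h6, h7, h8⟩ := h.shape hU hr0 hball ht
  have hv1 : ‖v‖ = 1 := hU v h.1
  have hw1 : ‖w‖ = 1 := hU w h.2.1
  have hx1 : ‖x‖ = 1 := hU x h.2.2.1
  have key : ∀ q : E, ‖ν - q‖ ^ 2 ≤ 2 * t → |(inner ℝ u ν : ℝ) - inner ℝ u q| ≤ 1 / (2 * 10 ^ 6) := by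
    intro q hq
    have e1 : |(inner ℝ u ν : ℝ) - inner ℝ u q| ≤ ‖ν - q‖ := by
      rw [← inner_sub_right]
      have := abs_real_inner_le_norm u (ν - q)
      rwa [hu, one_mul] at this
    refine e1.trans ?_
    refine (pow_le_pow_iff_left₀ (norm_nonneg _) (by norm_num) two_ne_zero).1 ?_
    refine hq.trans ?_
    norm_num
    linarith
  have kv := abs_le.1 (key v h4)
  have kw := abs_le.1 (key w h5)
  have kx := abs_le.1 (key x h6)
  have pair : ∀ p q : E, ‖ν - p‖ ^ 2 ≤ 2 * t → ‖ν - q‖ ^ 2 ≤ 2 * t →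
      ((inner ℝ u p : ℝ) - inner ℝ u q) ^ 2 ≤ 8 * t := by
    intro p q hp hq
    have e1 : |(inner ℝ u ν : ℝ) - inner ℝ u p| ≤ ‖ν - p‖ := by
      rw [← inner_sub_right]
      have := abs_real_inner_le_norm u (ν - p)
      rwa [hu, one_mul] at this
    have e2 : |(inner ℝ u ν : ℝ) - inner ℝ u q| ≤ ‖ν - q‖ := by
      rw [← inner_sub_right]
      have := abs_real_inner_le_norm u (ν - q)
      rwa [hu, one_mul] at this
    have e3 : ((inner ℝ u ν : ℝ) - inner ℝ u p) ^ 2 ≤ 2 * t := by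
      rw [← sq_abs]
      exact (pow_le_pow_left₀ (abs_nonneg _) e1 2).trans hp
    have e4 : ((inner ℝ u ν : ℝ) - inner ℝ u q) ^ 2 ≤ 2 * t := by
      rw [← sq_abs]
      exact (pow_le_pow_left₀ (abs_nonneg _) e2 2).trans hq
    nlinarith [sq_nonneg (((inner ℝ u ν : ℝ) - inner ℝ u p) + ((inner ℝ u ν : ℝ) - inner ℝ u q))]
  have hmax : 9 / 10 < max (inner ℝ u v : ℝ) (max (inner ℝ u w) (inner ℝ u x)) →
      9 / 10 - 1 / (2 * 10 ^ 6) < (inner ℝ u ν : ℝ) := by
    intro hm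
    rcases lt_max_iff.1 hm with h' | h'
    · linarith [kv.1]
    · rcases lt_max_iff.1 h' with h'' | h''
      · linarith [kw.1]
      · linarith [kx.1]
  have hmin : min (inner ℝ u v : ℝ) (min (inner ℝ u w) (inner ℝ u x)) < 902 / 1000 →
      (inner ℝ u ν : ℝ) < 902 / 1000 + 1 / (2 * 10 ^ 6) := by
    intro hm
    rcases min_lt_iff.1 hm with h' | h'
    · linarith [kv.2]
    · rcases min_lt_iff.1 h' with h'' | h''
      · linarith [kw.2]
      · linarith [kx.2]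
  refine ⟨div_pos h.2.2.2.1 (by norm_num), h7, ?_, ?_, ?_, ?_, ?_⟩
  · unfold Qf; positivity
  · have e1 := pair v w h4 h5
    have e2 := pair w x h5 h6
    have e3 := pair x v h6 h4
    unfold Qf
    linarith
  · intro hm
    have e1 := h8 u (9 / 10 - 2 / 10 ^ 6) hu (by norm_num) (by linarith [hmax hm])
    refine e1.trans (mul_le_mul_of_nonneg_right (by norm_num) ?_)
    have e2 : 0 ≤ tri v w x := h.2.2.2.1.le
    have e3 : 0 ≤ Lsq v w x - 12 * √3 * (tri v w x / 6) := by linarith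
    positivity
  · intro hm y hy
    have hm' := hmax hm
    exact tet_lower (by norm_num) hv1 hw1 hx1 (by linarith [kv.2]) (by linarith [kw.2])
      (by linarith [kx.2]) hy
  · intro hm y hy
    have hm' := hmin hm
    have e0 : 902 / 1000 + 1 / 10 ^ 6 ≤ (902 / 1000 + 3 / 10 ^ 6) * r := by
      have : (1 - 1 / 10 ^ 13 : ℝ) ≤ r := by linarith
      have := mul_le_mul_of_nonneg_left this (by norm_num : (0 : ℝ) ≤ 902 / 1000 + 3 / 10 ^ 6)
      linarith
    have e1 : 902 / 1000 + 1 / 10 ^ 6 ≤ (902 / 1000 + 3 / 10 ^ 6) * (inner ℝ ν v : ℝ) :=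
      e0.trans (mul_le_mul_of_nonneg_left h1 (by norm_num))
    refine tet_upper (by norm_num) hν ?_ ?_ ?_ hy
    · linarith [kv.1]
    · rw [h2]; linarith [kw.1]
    · rw [h3]; linarith [kx.1]

open Classical in
/-- T10, given the modules T5 and T6. -/
theorem T10_of (h5 : Stmt_T5) (h6a : Stmt_T6a) (h6b : Stmt_T6b) (h6c : Stmt_T6c)
    (h6d : Stmt_T6d) : Stmt_T10 := by
  intro C hC
  obtain ⟨δ, hδ, n₀, hn₀⟩ := t10_abstract C hC
  refine ⟨δ, hδ, max n₀ 2, ?_⟩
  intro n hn S r hcard hU hS hval hr hr1 hball hD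
  obtain ⟨hnpos, hCn, habs⟩ := hn₀ n (le_trans (le_max_left _ _) hn)
  have hn2 : 2 ≤ S.card := by rw [hcard]; exact le_trans (le_max_right _ _) hn
  have hr0 : 0 < r := by linarith
  have hcent : Centered S := centered_of_ball hr0 hball
  obtain ⟨hfac, -, -, hN⟩ := T1b S hU hS hcent
  have hcardN : ∀ v ∈ S, 5 ≤ (N S v).card ∧ (N S v).card ≤ 6 := by
    intro v hv
    have := hval v hv
    rw [← hN v hv, Set.ncard_coe_finset] at this
    exact this
  -- Euler
  obtain ⟨u0, -, hgen0, -⟩ := T2b S ∅ (by intro x hx; simp at hx) (by simp)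
  have H0 := T1a S hU hS hcent u0 hgen0
  have hEuler := T2a E S (N S) (L S) _ H0 hn2
  obtain ⟨A, hA⟩ : ∃ A : Finset E, A = S.filter (fun v => (N S v).card = 5) := ⟨_, rfl⟩
  have hA12 : A.card = 12 := by
    have h1 : ∑ v ∈ S, ((N S v).card + if (N S v).card = 5 then 1 else 0) = ∑ v ∈ S, 6 := by
      refine Finset.sum_congr rfl fun v hv => ?_
      have := hcardN v hv
      split_ifs with h
      · omega
      · omega
    rw [Finset.sum_add_distrib, Finset.sum_const, smul_eq_mul, ← Finset.card_filter] at h1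
    have h2 : (S.filter (fun v => (N S v).card = 5)).card = A.card := by
      rw [hA]
    omega
  obtain ⟨u, hu, hgen, hA9⟩ := T2b S A (by
    intro x hx
    rw [hA] at hx
    exact hU x (Finset.mem_filter.1 hx).1) hA12.le
  have H := T1a S hU hS hcent u hgen
  have hsix : ∀ v ∈ S, (9 / 10 : ℝ) < inner ℝ u v → (N S v).card = 6 := by
    intro v hv hz
    by_contra hne
    have h1 := hcardN v hv
    have h2 : v ∈ A := by rw [hA, Finset.mem_filter]; exact ⟨hv, by omega⟩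
    linarith [hA9 v h2]
  have hlow : ∃ y ∈ S, (inner ℝ u y : ℝ) ≤ 9 / 10 := by
    have : A.Nonempty := by rw [← Finset.card_pos, hA12]; norm_num
    obtain ⟨y, hy⟩ := this
    refine ⟨y, ?_, hA9 y hy⟩
    rw [hA] at hy
    exact (Finset.mem_filter.1 hy).1
  -- facts about the facets
  have ht : 1 - C / n ≤ r := hr
  have hff : ∀ v ∈ S, ∀ w ∈ N S v, _ := fun v hv w hw =>
    facet_facts (hfac v hv w hw) hU hball ht hCn hu
  obtain ⟨P1, hP1⟩ : ∃ P1 : E → E → Prop, P1 = fun v w =>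
    9 / 10 < max (inner ℝ u v : ℝ) (max (inner ℝ u w) (inner ℝ u (L S v w))) ∧
    min (inner ℝ u v : ℝ) (min (inner ℝ u w) (inner ℝ u (L S v w))) < 902 / 1000 := ⟨_, rfl⟩
  obtain ⟨P2, hP2⟩ : ∃ P2 : E → E → Prop, P2 = fun v w =>
    902 / 1000 ≤ (inner ℝ u v : ℝ) ∧ 902 / 1000 ≤ (inner ℝ u w : ℝ) ∧
      902 / 1000 ≤ (inner ℝ u (L S v w) : ℝ) := ⟨_, rfl⟩
  have t5 := h5 E S (N S) (L S) (fun x => (inner ℝ u x : ℝ)) (9 / 10) (9 / 10) (902 / 1000) H hsix
    hlow le_rfl (by norm_num)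
  have t6a := h6a S hU hS hcent
  have t6b := h6b S hU hS hcent
  have t6c := h6c S hU hS hcent u (9 / 10 - 1 / 10 ^ 6) (902 / 1000 + 3 / 10 ^ 6) P1 hu
    (by norm_num) (by norm_num) (by norm_num) (by
      intro v hv w hw hP y hy
      rw [hP1] at hP
      obtain ⟨-, -, -, -, -, f6, f7⟩ := hff v hv w hw
      exact ⟨f6 hP.1 y hy, f7 hP.2 y hy⟩)
  have t6d := h6d S hU hS hcent u (902 / 1000 + 3 / 10 ^ 6) P2 hu
    (by norm_num) (by norm_num) (by
      intro v hv w hw hP y hy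
      rw [hP2] at hP
      obtain ⟨-, -, -, -, -, -, f7⟩ := hff v hv w hw
      refine f7 ?_ y hy
      by_contra hcon
      push Not at hcon
      rw [le_min_iff, le_min_iff] at hcon
      exact hP hcon)
  refine habs ((_ : E) × E) (S.sigma (fun v => N S v))
    (S.sigma (fun v => (N S v).filter (fun w => P1 v w)))
    (S.sigma (fun v => (N S v).filter (fun w => P2 v w)))
    (fun d => tri d.1 d.2 (L S d.1 d.2) / 6) (fun d => Lsq d.1 d.2 (L S d.1 d.2))
    (fun d => Qf (inner ℝ u d.1) (inner ℝ u d.2) (inner ℝ u (L S d.1 d.2))) (V S)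
    ?_ ?_ ?_ ?_ ?_ ?_ ?_ ?_ ?_ ?_ ?_ ?_ ?_ ?_ ?_
  · exact Finset.sigma_mono (Finset.Subset.refl _) fun v => Finset.filter_subset _ _
  · exact Finset.sigma_mono (Finset.Subset.refl _) fun v => Finset.filter_subset _ _
  · rw [Finset.card_sigma]
    have : ∑ v ∈ S, (N S v).card ≤ 6 * n := by rw [← hcard]; omega
    exact_mod_cast this
  · rintro ⟨v, w⟩ hd
    rw [Finset.mem_sigma] at hd
    exact (hff v hd.1 w hd.2).1
  · rintro ⟨v, w⟩ hd
    rw [Finset.mem_sigma] at hd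
    exact (hff v hd.1 w hd.2).2.1
  · rw [Finset.sum_sigma]; exact t6a
  · rw [Finset.sum_sigma]
    refine t6b.trans (le_of_eq ?_)
    ring
  · -- the deficit is nonnegative
    have h0 : 0 ≤ ∑ v ∈ S, ∑ w ∈ N S v, tri v w (L S v w) / 6 * Lsq v w (L S v w) := by
      refine Finset.sum_nonneg fun v hv => Finset.sum_nonneg fun w hw => ?_
      refine mul_nonneg (hff v hv w hw).1.le ?_
      unfold Lsq; positivity
    linarith
  · exact hD
  · rw [Finset.sum_sigma]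
    refine t6c.trans (le_of_eq ?_)
    ring
  · rw [Finset.sum_sigma]
    refine le_trans (le_of_eq ?_) t6d
    ring
  · rintro ⟨v, w⟩ hd
    rw [Finset.mem_sigma, Finset.mem_filter] at hd
    exact (hff v hd.1 w hd.2.1).2.2.1
  · rintro ⟨v, w⟩ hd
    rw [Finset.mem_sigma, Finset.mem_filter, hP1] at hd
    exact (hff v hd.1 w hd.2.1).2.2.2.2.1 hd.2.2.1
  · rintro ⟨v, w⟩ hd
    rw [Finset.mem_sigma, Finset.mem_filter] at hd
    exact (hff v hd.1 w hd.2.1).2.2.2.1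
  · rw [Finset.sum_sigma, Finset.card_sigma]
    have e : (902 / 1000 - 9 / 10 : ℝ) = 2 / 10 ^ 3 := by norm_num
    rw [e] at t5
    simp only [hP1, hP2]
    convert t5 using 1

end Pool.Agent.Medial
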