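import Mathlib

/-!
Final real analysis for the medial problem: the abstract computation (helper20).
-/

set_option autoImplicit false
set_option maxHeartbeats 1000000

namespace Pool.Agent.Medial

open scoped Real

theorem sqrt3_gt : (1.732 : ℝ) < √3 := by
  rw [Real.lt_sqrt (by norm_num)]; norm_num

theorem sqrt3_lt : √3 < (1.7321 : ℝ) := by
  rw [Real.sqrt_lt' (by norm_num)]; norm_num

theorem sqrt2_gt : (1.4142 : ℝ) < √2 := by
  rw [Real.lt_sqrt (by norm_num)]; norm_num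

theorem sqrt3_mul : √3 * √3 = 3 := Real.mul_self_sqrt (by norm_num)

theorem pisq_gt : 9.8695 < π ^ 2 := by
  have := Real.pi_gt_d6
  nlinarith

theorem pisq_lt : π ^ 2 < 9.8697 := by
  have := Real.pi_lt_d6
  have := Real.pi_pos
  nlinarith

theorem sqrt_le_amgm {Q l : ℝ} (hQ : 0 ≤ Q) (hl : 0 < l) : √Q ≤ (Q / l + l) / 2 := by
  have h1 : √Q * √Q = Q := Real.mul_self_sqrt hQ
  have h2 : 0 ≤ (√Q - l) ^ 2 := sq_nonneg _
  rw [le_div_iff₀ (by norm_num : (0 : ℝ) < 2), div_add' _ _ _ hl.ne', le_div_iff₀ hl]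
  nlinarith

theorem sqrt_mul_le_amgm {a b k : ℝ} (ha : 0 ≤ a) (hb : 0 ≤ b) (hk : 0 < k) :
    √(a * b) ≤ (k * a + b / k) / 2 := by
  have h1 : √(a * b) ≤ (k * a + b / k) / 2 ↔ a * b ≤ ((k * a + b / k) / 2) ^ 2 := by
    rw [Real.sqrt_le_left (by positivity)]
  rw [h1]
  have h2 : ((k * a + b / k) / 2) ^ 2 - a * b = ((k * a - b / k) / 2) ^ 2 := by
    field_simp; ring
  nlinarith [sq_nonneg ((k * a - b / k) / 2)]

/-- the deficit -/
theorem stepA {ε m Dd : ℝ} (hε0 : 0 < ε) (hε1 : ε ≤ 1 / 10 ^ 14) (hm : 0 < m)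
    (hn2 : 160000 / ε < m) (hW0 : 0 ≤ Dd)
    (hW : Dd ≤ (1 + ε / 2000) * (4 * π ^ 2 / (√3 * m))) :
    Dd * m * √3 ≤ (1 + ε / 2000) * (4 * π ^ 2) ∧ Dd ≤ ε / 2000 := by
  have h31 := sqrt3_gt
  have h3pos : 0 < √3 := by linarith
  have hD1 : Dd * m * √3 ≤ (1 + ε / 2000) * (4 * π ^ 2) := by
    have h := mul_le_mul_of_nonneg_right hW (by positivity : (0 : ℝ) ≤ √3 * m)
    have e : (1 + ε / 2000) * (4 * π ^ 2 / (√3 * m)) * (√3 * m) = (1 + ε / 2000) * (4 * π ^ 2) := by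
      field_simp
    rw [e] at h
    linarith
  have hpisq2 := pisq_lt
  have hDm : Dd * m ≤ 80 := by
    have h1 : (1 + ε / 2000) * (4 * π ^ 2) ≤ 50 := by nlinarith
    have h2 : 0 ≤ Dd * m := by positivity
    nlinarith
  refine ⟨hD1, ?_⟩
  have h1 : 160000 < m * ε := by
    rw [div_lt_iff₀ hε0] at hn2; exact hn2
  by_contra hcon
  push Not at hcon
  have h2 : ε / 2000 * m < Dd * m := mul_lt_mul_of_pos_right hcon hm
  linarith

/-- variance and defect from the equilateral shape -/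
theorem stepB {ι : Type} {D : Finset ι} {v L : ι → ℝ} {ε m Dd W vs : ℝ} (hε0 : 0 < ε)
    (hm : 0 < m) (hWD : W = 4 * π / 3 - Dd)
    (hD1 : Dd * m * √3 ≤ (1 + ε / 2000) * (4 * π ^ 2)) (hDε : Dd ≤ ε / 2000)
    (hvm : vs * m = 2 * π / 3) (hcard : (D.card : ℝ) ≤ 6 * m)
    (hv : ∀ d ∈ D, 0 < v d) (hL : ∀ d ∈ D, 12 * √3 * v d ≤ L d)
    (hsum : ∑ d ∈ D, v d = 3 * W) (hsumL : ∑ d ∈ D, v d * L d ≤ 24 * Dd) :
    (∑ d ∈ D, (v d - vs) ^ 2) * m ≤ ε ∧ (∑ d ∈ D, v d * (L d - 12 * √3 * v d)) * m ≤ ε := by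
  have h31 := sqrt3_gt
  have h32 := sqrt3_lt
  have h33 := sqrt3_mul
  have h3pos : 0 < √3 := by linarith
  have hpisq1 := pisq_gt
  have hpisq2 := pisq_lt
  have hpi0 := Real.pi_pos
  have hpi2 := Real.pi_lt_d6
  obtain ⟨A2, hA2⟩ : ∃ A2 : ℝ, A2 = ∑ d ∈ D, v d ^ 2 := ⟨_, rfl⟩
  have hA2a : 12 * √3 * A2 ≤ 24 * Dd := by
    refine le_trans ?_ hsumL
    rw [hA2, Finset.mul_sum]
    refine Finset.sum_le_sum fun d hd => ?_
    have := mul_le_mul_of_nonneg_left (hL d hd) (hv d hd).le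
    linarith
  obtain ⟨var, hvar⟩ : ∃ var : ℝ, var = ∑ d ∈ D, (v d - vs) ^ 2 := ⟨_, rfl⟩
  obtain ⟨c, hc⟩ : ∃ c : ℝ, c = (D.card : ℝ) := ⟨_, rfl⟩
  have hvar_eq : var = A2 - 6 * W * vs + c * vs ^ 2 := by
    rw [hvar, hA2, hc]
    have : ∀ d ∈ D, (v d - vs) ^ 2 = v d ^ 2 - 2 * vs * v d + vs ^ 2 := fun d _ => by ring
    rw [Finset.sum_congr rfl this, Finset.sum_add_distrib, Finset.sum_sub_distrib,
      ← Finset.mul_sum, hsum, Finset.sum_const, nsmul_eq_mul]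
    ring
  have hvar0 : 0 ≤ var := by rw [hvar]; exact Finset.sum_nonneg fun d _ => sq_nonneg _
  rw [← hc] at hcard
  have hcardv : c * vs ^ 2 * m ≤ 8 * π ^ 2 / 3 := by
    have h1 : c * (vs ^ 2 * m) ≤ 6 * m * (vs ^ 2 * m) :=
      mul_le_mul_of_nonneg_right hcard (by positivity)
    have h2 : 6 * m * (vs ^ 2 * m) = 6 * (vs * m) ^ 2 := by ring
    rw [h2, hvm] at h1
    linarith [h1, (by ring : 6 * (2 * π / 3) ^ 2 = 8 * π ^ 2 / 3)]
  have hWvm : 6 * W * vs * m = 16 * π ^ 2 / 3 - 4 * π * Dd := by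
    have : 6 * W * vs * m = 6 * W * (vs * m) := by ring
    rw [this, hvm, hWD]; ring
  have hA2b : A2 * m ≤ 8 * π ^ 2 / 3 * (1 + ε / 2000) := by
    have h1 : √3 * A2 ≤ 2 * Dd := by linarith
    have h2 : √3 * A2 * (√3 * m) ≤ 2 * Dd * (√3 * m) :=
      mul_le_mul_of_nonneg_right h1 (by positivity)
    have h3 : √3 * A2 * (√3 * m) = 3 * (A2 * m) := by
      calc √3 * A2 * (√3 * m) = (√3 * √3) * (A2 * m) := by ring
        _ = 3 * (A2 * m) := by rw [h33]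
    linarith
  have hDpi : 4 * π * Dd ≤ 4 * π * (ε / 2000) := mul_le_mul_of_nonneg_left hDε (by positivity)
  have hvm_eq : var * m = A2 * m - 6 * W * vs * m + c * vs ^ 2 * m := by rw [hvar_eq]; ring
  have hA2c : 8 * π ^ 2 / 3 - 4 * π * Dd ≤ A2 * m := by
    have h1 : 0 ≤ var * m := by positivity
    linarith
  rw [← hvar]
  refine ⟨?_, ?_⟩
  · have e1 : 8 * π ^ 2 / 3 * (ε / 2000) + 4 * π * (ε / 2000) ≤ ε := by nlinarith
    have e2 : 8 * π ^ 2 / 3 * (1 + ε / 2000) = 8 * π ^ 2 / 3 + 8 * π ^ 2 / 3 * (ε / 2000) := by ring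
    linarith
  · obtain ⟨GG, hGG⟩ : ∃ GG : ℝ, GG = ∑ d ∈ D, v d * (L d - 12 * √3 * v d) := ⟨_, rfl⟩
    rw [← hGG]
    have h1 : GG = ∑ d ∈ D, v d * L d - 12 * √3 * A2 := by
      rw [hGG, hA2, Finset.mul_sum, ← Finset.sum_sub_distrib]
      exact Finset.sum_congr rfl fun d _ => by ring
    have h2 : GG ≤ 24 * Dd - 12 * √3 * A2 := by rw [h1]; linarith
    have h3 : GG * m ≤ 24 * (Dd * m) - 12 * √3 * (A2 * m) := by
      have := mul_le_mul_of_nonneg_right h2 hm.le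
      linarith
    have h4 : 3 * (Dd * m) ≤ (1 + ε / 2000) * (4 * π ^ 2) * √3 := by
      have := mul_le_mul_of_nonneg_right hD1 h3pos.le
      have e : Dd * m * √3 * √3 = 3 * (Dd * m) := by rw [mul_assoc, h33]; ring
      linarith
    have h5 : 12 * √3 * (8 * π ^ 2 / 3 - 4 * π * Dd) ≤ 12 * √3 * (A2 * m) :=
      mul_le_mul_of_nonneg_left hA2c (by positivity)
    have h6 : GG * m ≤ √3 * (32 * π ^ 2 * (ε / 2000) + 48 * π * Dd) := by linarith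
    have h7 : 48 * π * Dd ≤ 48 * π * (ε / 2000) := mul_le_mul_of_nonneg_left hDε (by positivity)
    have h8 : 32 * π ^ 2 * (ε / 2000) + 48 * π * Dd ≤ 500 * (ε / 2000) := by
      have e1 : 32 * π ^ 2 * (ε / 2000) ≤ 32 * 9.8697 * (ε / 2000) :=
        mul_le_mul_of_nonneg_right (by linarith) (by positivity)
      have e2 : 48 * π * (ε / 2000) ≤ 48 * 3.141593 * (ε / 2000) :=
        mul_le_mul_of_nonneg_right (by linarith) (by positivity)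
      linarith
    have h9 : √3 * (32 * π ^ 2 * (ε / 2000) + 48 * π * Dd) ≤ √3 * (500 * (ε / 2000)) :=
      mul_le_mul_of_nonneg_left h8 h3pos.le
    have h10 : √3 * (500 * (ε / 2000)) ≤ 1.7321 * (500 * (ε / 2000)) :=
      mul_le_mul_of_nonneg_right h32.le (by positivity)
    linarith

/-- few small facets -/
theorem stepC {ι : Type} {D K : Finset ι} {v : ι → ℝ} {ε m vs : ℝ}
    (hm : 0 < m) (hK : K ⊆ D) (hvs : 0 < vs)
    (hvm : vs * m = 2 * π / 3) (hvar : (∑ d ∈ D, (v d - vs) ^ 2) * m ≤ ε) :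
    ((K.filter (fun d => v d < vs / 2)).card : ℝ) ≤ ε * m := by
  have hpisq1 := pisq_gt
  obtain ⟨b, hb⟩ : ∃ b : ℝ, b = ((K.filter (fun d => v d < vs / 2)).card : ℝ) := ⟨_, rfl⟩
  have hb0 : 0 ≤ b := by rw [hb]; positivity
  have h1 : b * (vs / 2) ^ 2 ≤ ∑ d ∈ D, (v d - vs) ^ 2 := by
    have e1 : b * (vs / 2) ^ 2 ≤ ∑ d ∈ K.filter (fun d => v d < vs / 2), (v d - vs) ^ 2 := by
      rw [hb, ← nsmul_eq_mul]
      refine Finset.card_nsmul_le_sum _ _ _ fun d hd => ?_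
      have hd' := (Finset.mem_filter.1 hd).2
      nlinarith
    refine e1.trans (Finset.sum_le_sum_of_subset_of_nonneg
      ((Finset.filter_subset _ _).trans hK) fun d _ _ => sq_nonneg _)
  have h2 : b * (vs / 2) ^ 2 * m ≤ ε := (mul_le_mul_of_nonneg_right h1 hm.le).trans hvar
  have h3 : b * (vs / 2) ^ 2 * m * m ≤ ε * m := mul_le_mul_of_nonneg_right h2 hm.le
  have h4 : b * (vs / 2) ^ 2 * m * m = b * (π ^ 2 / 9) := by
    have : b * (vs / 2) ^ 2 * m * m = b * ((vs * m) ^ 2 / 4) := by ring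
    rw [this, hvm]; ring
  rw [h4] at h3
  rw [← hb]
  have h5 : b * 1 ≤ b * (π ^ 2 / 9) := mul_le_mul_of_nonneg_left (by linarith) hb0
  linarith

/-- the total defect of the large facets -/
theorem stepD {ι : Type} {D K : Finset ι} {v g : ι → ℝ} {ε m vs : ℝ}
    (hm : 0 < m) (hK : K ⊆ D) (hv : ∀ d ∈ D, 0 < v d) (hg : ∀ d ∈ D, 0 ≤ g d)
    (hvm : vs * m = 2 * π / 3) (hG : (∑ d ∈ D, v d * g d) * m ≤ ε) :
    ∑ d ∈ K.filter (fun d => ¬ v d < vs / 2), g d ≤ ε := by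
  have hpi1 := Real.pi_gt_d6
  obtain ⟨b, hb⟩ : ∃ b : ℝ, b = ∑ d ∈ K.filter (fun d => ¬ v d < vs / 2), g d := ⟨_, rfl⟩
  have hb0 : 0 ≤ b := by
    rw [hb]; exact Finset.sum_nonneg fun d hd => hg d (hK (Finset.mem_filter.1 hd).1)
  have h1 : b * (vs / 2) ≤ ∑ d ∈ D, v d * g d := by
    have e1 : b * (vs / 2) ≤ ∑ d ∈ K.filter (fun d => ¬ v d < vs / 2), v d * g d := by
      rw [hb, Finset.sum_mul]
      refine Finset.sum_le_sum fun d hd => ?_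
      have hd' := (Finset.mem_filter.1 hd)
      have h0 := hg d (hK hd'.1)
      have h1 := hd'.2
      push Not at h1
      nlinarith
    refine e1.trans (Finset.sum_le_sum_of_subset_of_nonneg
      ((Finset.filter_subset _ _).trans hK) fun d hd _ => mul_nonneg (hv d hd).le (hg d hd))
  have h2 : b * (vs / 2) * m ≤ ε := (mul_le_mul_of_nonneg_right h1 hm.le).trans hG
  have h4 : b * (vs / 2) * m = b * (π / 3) := by
    have : b * (vs / 2) * m = b * ((vs * m) / 2) := by ring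
    rw [this, hvm]; ring
  rw [h4] at h2
  rw [← hb]
  have h5 : b * 1 ≤ b * (π / 3) := mul_le_mul_of_nonneg_left (by linarith) hb0
  linarith

/-- number of elements versus volume -/
theorem stepE {ι : Type} {D K : Finset ι} {v : ι → ℝ} {ε m vs : ℝ} (hε1 : ε ≤ 1 / 10 ^ 14)
    (hm : 0 < m) (hK : K ⊆ D) (hvs : 0 < vs)
    (hvm : vs * m = 2 * π / 3) (hvar : (∑ d ∈ D, (v d - vs) ^ 2) * m ≤ ε) :
    (K.card : ℝ) * vs * (1 - 1 / 10 ^ 7) ≤ ∑ d ∈ K, v d + 2 / 10 ^ 8 ∧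
      ∑ d ∈ K, v d ≤ (K.card : ℝ) * vs * (1 + 1 / 10 ^ 7) + 2 / 10 ^ 8 := by
  have hpi1 := Real.pi_gt_d6
  obtain ⟨c, hc⟩ : ∃ c : ℝ, c = (K.card : ℝ) := ⟨_, rfl⟩
  obtain ⟨s, hs⟩ : ∃ s : ℝ, s = ∑ d ∈ K, (v d - vs) ^ 2 := ⟨_, rfl⟩
  have hs1 : s * m ≤ ε := by
    refine le_trans (mul_le_mul_of_nonneg_right ?_ hm.le) hvar
    rw [hs]
    exact Finset.sum_le_sum_of_subset_of_nonneg hK fun d _ _ => sq_nonneg _
  have hs2 : s / vs * 10 ^ 7 / 4 ≤ 2 / 10 ^ 8 := by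
    have h1 : s / vs = s * m / (vs * m) := by field_simp
    rw [h1, hvm]
    have h2 : s * m / (2 * π / 3) ≤ 1 / 10 ^ 14 / 2 := by
      rw [div_le_iff₀ (by positivity)]
      nlinarith
    linarith
  have key : ∀ x : ℝ, |x - vs| ≤ vs * (1 / 10 ^ 7) + (x - vs) ^ 2 / vs * 10 ^ 7 / 4 := by
    intro x
    have h1 : |x - vs| ^ 2 = (x - vs) ^ 2 := sq_abs _
    have h2 : 0 ≤ (|x - vs| * 10 ^ 7 / 2 - vs) ^ 2 := sq_nonneg _
    have h3 : vs * (1 / 10 ^ 7) + (x - vs) ^ 2 / vs * 10 ^ 7 / 4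
        = (vs * vs * (1 / 10 ^ 7) + (x - vs) ^ 2 * 10 ^ 7 / 4) / vs := by field_simp
    rw [h3, le_div_iff₀ hvs]
    nlinarith
  have hsum : ∑ d ∈ K, |v d - vs| ≤ c * vs * (1 / 10 ^ 7) + s / vs * 10 ^ 7 / 4 := by
    calc ∑ d ∈ K, |v d - vs| ≤ ∑ d ∈ K, (vs * (1 / 10 ^ 7) + (v d - vs) ^ 2 / vs * 10 ^ 7 / 4) :=
          Finset.sum_le_sum fun d _ => key _
      _ = c * vs * (1 / 10 ^ 7) + s / vs * 10 ^ 7 / 4 := by
          rw [Finset.sum_add_distrib, Finset.sum_const, nsmul_eq_mul, hc, hs, Finset.sum_div,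
            Finset.sum_mul, Finset.sum_div]
          ring
  have hd : ∑ d ∈ K, v d = c * vs + ∑ d ∈ K, (v d - vs) := by
    rw [Finset.sum_sub_distrib, Finset.sum_const, nsmul_eq_mul, hc]; ring
  have hd1 : |∑ d ∈ K, (v d - vs)| ≤ ∑ d ∈ K, |v d - vs| := Finset.abs_sum_le_sum_abs _ _
  have hd2 := abs_le.1 (hd1.trans hsum)
  rw [← hc, hd]
  constructor
  · linarith [hd2.1]
  · linarith [hd2.2]

/-- sum of the square roots over the large facets -/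
theorem stepF {ι : Type} {K G : Finset ι} {v g Q : ι → ℝ} {ε m s : ℝ} (hε1 : ε ≤ 1 / 10 ^ 14)
    (hs : 0 < s) (hsm : s * s = m) (hG : G ⊆ K) (hv : ∀ d ∈ K, 0 < v d) (hg : ∀ d ∈ K, 0 ≤ g d)
    (hsumv : ∑ d ∈ K, v d ≤ 2 * π * (2004 / 10 ^ 6)) (hsumg : ∑ d ∈ G, g d ≤ ε)
    (hcard : (K.card : ℝ) ≤ 6015 / 10 ^ 6 * m)
    (hQ0 : ∀ d ∈ K, 0 ≤ Q d)
    (hQ : ∀ d ∈ K, Q d ≤ (1900036 / 10 ^ 7) * (6 * √3 * v d + g d + √(6 * √3 * v d * g d))) :
    ∑ d ∈ G, √(Q d) ≤ (12230 / 10 ^ 6) * s := by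
  have h31 := sqrt3_gt
  have h32 := sqrt3_lt
  have hpi2 := Real.pi_lt_d6
  have hpi0 := Real.pi_pos
  have h3pos : 0 < √3 := by linarith
  have hsv : ∑ d ∈ G, v d ≤ 2 * π * (2004 / 10 ^ 6) :=
    (Finset.sum_le_sum_of_subset_of_nonneg hG fun d hd _ => (hv d hd).le).trans hsumv
  have hsv0 : 0 ≤ ∑ d ∈ G, v d := Finset.sum_nonneg fun d hd => (hv d (hG hd)).le
  have hcG : (G.card : ℝ) ≤ 6015 / 10 ^ 6 * m :=
    le_trans (by exact_mod_cast Finset.card_le_card hG) hcard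
  have hSQ : ∑ d ∈ G, Q d ≤ 24864 / 10 ^ 6 := by
    have e1 : ∀ d ∈ G, Q d ≤ (1900036 / 10 ^ 7) *
        ((1 + 1 / (2 * 10 ^ 5)) * (6 * √3) * v d + (1 + 10 ^ 5 / 2) * g d) := by
      intro d hd
      refine (hQ d (hG hd)).trans (mul_le_mul_of_nonneg_left ?_ (by norm_num))
      have h1 := sqrt_mul_le_amgm (a := 6 * √3 * v d) (b := g d) (k := 1 / 10 ^ 5)
        (mul_nonneg (by positivity) (hv d (hG hd)).le) (hg d (hG hd)) (by norm_num)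
      have h2 : (1 / 10 ^ 5 * (6 * √3 * v d) + g d / (1 / 10 ^ 5)) / 2
        = 1 / (2 * 10 ^ 5) * (6 * √3) * v d + 10 ^ 5 / 2 * g d := by ring
      rw [h2] at h1
      linarith
    refine (Finset.sum_le_sum e1).trans ?_
    rw [← Finset.mul_sum, Finset.sum_add_distrib, ← Finset.mul_sum, ← Finset.mul_sum]
    have e2 : (1 + 1 / (2 * 10 ^ 5)) * (6 * √3) * ∑ d ∈ G, v d
        ≤ (1 + 1 / (2 * 10 ^ 5)) * (6 * 1.7321) * (2 * 3.141593 * (2004 / 10 ^ 6)) := by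
      have a1 : ∑ d ∈ G, v d ≤ 2 * 3.141593 * (2004 / 10 ^ 6) := by linarith
      have a2 : (1 + 1 / (2 * 10 ^ 5)) * (6 * √3) ≤ (1 + 1 / (2 * 10 ^ 5)) * (6 * 1.7321) := by
        linarith
      exact mul_le_mul a2 a1 hsv0 (by norm_num)
    have e3 : (1 + 10 ^ 5 / 2) * ∑ d ∈ G, g d ≤ (1 + 10 ^ 5 / 2) * (1 / 10 ^ 14) :=
      mul_le_mul_of_nonneg_left (by linarith) (by norm_num)
    refine (mul_le_mul_of_nonneg_left (add_le_add e2 e3) (by norm_num)).trans ?_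
    norm_num
  have e4 : ∀ d ∈ G, √(Q d) ≤ s / 4.0672 * Q d + 1.0168 / s := by
    intro d hd
    have h1 := sqrt_le_amgm (hQ0 d (hG hd)) (l := 2.0336 / s) (by positivity)
    have h2 : (Q d / (2.0336 / s) + 2.0336 / s) / 2 = s / 4.0672 * Q d + 1.0168 / s := by
      field_simp; ring
    rw [h2] at h1
    exact h1
  refine (Finset.sum_le_sum e4).trans ?_
  rw [Finset.sum_add_distrib, ← Finset.mul_sum, Finset.sum_const, nsmul_eq_mul]
  have e5 : s / 4.0672 * ∑ d ∈ G, Q d ≤ s / 4.0672 * (24864 / 10 ^ 6) :=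
    mul_le_mul_of_nonneg_left hSQ (by positivity)
  have e6 : (G.card : ℝ) * (1.0168 / s) ≤ 6015 / 10 ^ 6 * m * (1.0168 / s) :=
    mul_le_mul_of_nonneg_right hcG (by positivity)
  have e7 : 6015 / 10 ^ 6 * m * (1.0168 / s) = 6015 / 10 ^ 6 * 1.0168 * s := by
    rw [← hsm]; field_simp
  rw [e7] at e6
  have e8 : s / 4.0672 * (24864 / 10 ^ 6) + 6015 / 10 ^ 6 * 1.0168 * s ≤ (12230 / 10 ^ 6) * s := by
    have : s / 4.0672 * (24864 / 10 ^ 6) + 6015 / 10 ^ 6 * 1.0168 * s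
      = (24864 / 10 ^ 6 / 4.0672 + 6015 / 10 ^ 6 * 1.0168) * s := by ring
    rw [this]
    exact mul_le_mul_of_nonneg_right (by norm_num) hs.le
  linarith

/-- sum of the square roots over the small facets -/
theorem stepG {ι : Type} {B : Finset ι} {Q : ι → ℝ} {ε m s C : ℝ} (hC : 0 < C)
    (hεC : ε * (1 + C) ≤ 1 / 10 ^ 14) (hs : 0 < s) (hsm : s * s = m)
    (hcard : (B.card : ℝ) ≤ ε * m) (hQ0 : ∀ d ∈ B, 0 ≤ Q d) (hQ : ∀ d ∈ B, Q d ≤ 24 * (C / m)) :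
    ∑ d ∈ B, √(Q d) ≤ (1 / 10 ^ 6) * s := by
  have e1 : ∀ d ∈ B, √(Q d) ≤ 25 * (1 + C) / 2 / s := by
    intro d hd
    have h1 := sqrt_le_amgm (hQ0 d hd) (l := (1 + C) / s) (by positivity)
    have h2 : Q d / ((1 + C) / s) ≤ 24 * (1 + C) / s := by
      rw [div_le_iff₀ (by positivity)]
      refine (hQ d hd).trans ?_
      have h3 : 24 * (1 + C) / s * ((1 + C) / s) = 24 * ((1 + C) ^ 2 / m) := by
        rw [← hsm]; field_simp
      rw [h3]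
      have hm : 0 < m := by rw [← hsm]; positivity
      refine mul_le_mul_of_nonneg_left ?_ (by norm_num)
      exact div_le_div_of_nonneg_right (by nlinarith) hm.le
    have h3 : 24 * (1 + C) / s + (1 + C) / s = 2 * (25 * (1 + C) / 2 / s) := by ring
    linarith
  refine (Finset.sum_le_card_nsmul _ _ _ e1).trans ?_
  rw [nsmul_eq_mul]
  refine (mul_le_mul_of_nonneg_right hcard (by positivity)).trans ?_
  have h4 : ε * m * (25 * (1 + C) / 2 / s) = ε * (1 + C) * (25 / 2) * s := by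
    rw [← hsm]; field_simp
  rw [h4]
  refine mul_le_mul_of_nonneg_right ?_ hs.le
  linarith

/-- The abstract final computation. -/
theorem t10_abstract (C : ℝ) (hC : 0 < C) :
    ∃ δ : ℝ, 0 < δ ∧ ∃ n₀ : ℕ, ∀ n : ℕ, n₀ ≤ n →
      0 < n ∧ C / n ≤ 1 / 10 ^ 13 ∧
      ∀ (ι : Type) (D K1 K2 : Finset ι) (v L Q : ι → ℝ) (W : ℝ),
        K1 ⊆ D → K2 ⊆ D → (D.card : ℝ) ≤ 6 * n →
        (∀ d ∈ D, 0 < v d) → (∀ d ∈ D, 12 * √3 * v d ≤ L d) →
        ∑ d ∈ D, v d = 3 * W → ∑ d ∈ D, v d * L d ≤ 24 * (4 * π / 3 - W) →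
        0 ≤ 4 * π / 3 - W → 4 * π / 3 - W ≤ (1 + δ) * (4 * π ^ 2 / (√3 * n)) →
        ∑ d ∈ K1, v d ≤ 2 * π * (2004 / 10 ^ 6) →
        2 * π * (97997 / 10 ^ 6) - 3 * (4 * π / 3 - W) ≤ ∑ d ∈ K2, v d →
        (∀ d ∈ K1, 0 ≤ Q d) →
        (∀ d ∈ K1, Q d ≤ (1900036 / 10 ^ 7) * (6 * √3 * v d + (L d - 12 * √3 * v d) +
          √(6 * √3 * v d * (L d - 12 * √3 * v d)))) →
        (∀ d ∈ K1, Q d ≤ 24 * (C / n)) →
        (2 / 10 ^ 3) * √(π * √3 * (K2.card : ℝ) / 3) ≤ (∑ d ∈ K1, √(Q d)) / (3 * (2 * √2)) →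
        False := by
  obtain ⟨ε, hε⟩ : ∃ ε : ℝ, ε = 1 / 10 ^ 14 / (1 + C) := ⟨_, rfl⟩
  have hε0 : 0 < ε := by rw [hε]; positivity
  have hε1 : ε ≤ 1 / 10 ^ 14 := by
    rw [hε]; apply div_le_self (by positivity); linarith
  have hεC : ε * (1 + C) = 1 / 10 ^ 14 := by
    rw [hε]; field_simp
  obtain ⟨n₀, hn₀⟩ := exists_nat_gt (160000 / ε + C * 10 ^ 13 + 1)
  refine ⟨ε / 2000, by positivity, n₀, ?_⟩
  intro n hn
  have hn1 : 160000 / ε + C * 10 ^ 13 + 1 < (n : ℝ) := lt_of_lt_of_le hn₀ (by exact_mod_cast hn)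
  have hq1 : 0 < 160000 / ε := by positivity
  have hq2 : 0 < C * 10 ^ 13 := by positivity
  have hnpos : 0 < (n : ℝ) := by linarith
  have hn2 : 160000 / ε < (n : ℝ) := by linarith
  have hn3 : C * 10 ^ 13 < (n : ℝ) := by linarith
  have hCn : C / n ≤ 1 / 10 ^ 13 := by
    rw [div_le_div_iff₀ hnpos (by positivity)]; linarith
  refine ⟨by exact_mod_cast hnpos, hCn, ?_⟩
  intro ι D K1 K2 v L Q W hK1 hK2 hcard hv hL hsum hsumL hW0 hW hV1 hV2 hQ0 hQ hQC hmain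
  classical
  obtain ⟨m, hm⟩ : ∃ m : ℝ, m = (n : ℝ) := ⟨_, rfl⟩
  rw [← hm] at hnpos hn2 hcard hW hQC
  obtain ⟨Dd, hDd⟩ : ∃ Dd : ℝ, Dd = 4 * π / 3 - W := ⟨_, rfl⟩
  rw [← hDd] at hsumL hW0 hW hV2
  have hWD : W = 4 * π / 3 - Dd := by rw [hDd]; ring
  have h31 := sqrt3_gt
  have hpi1 := Real.pi_gt_d6
  obtain ⟨hD1, hDε⟩ := stepA hε0 hε1 hnpos hn2 hW0 hW
  obtain ⟨vs, hvs⟩ : ∃ vs : ℝ, vs = 2 * π / (3 * m) := ⟨_, rfl⟩
  have hvm : vs * m = 2 * π / 3 := by rw [hvs]; field_simp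
  have hvs0 : 0 < vs := by rw [hvs]; positivity
  obtain ⟨hvar, hGG⟩ := stepB hε0 hnpos hWD hD1 hDε hvm hcard hv hL hsum hsumL
  have hg : ∀ d ∈ D, 0 ≤ L d - 12 * √3 * v d := fun d hd => by linarith [hL d hd]
  have hB := stepC hnpos hK1 hvs0 hvm hvar
  have hGs := stepD (g := fun d => L d - 12 * √3 * v d) hnpos hK1 hv hg hvm hGG
  obtain ⟨hE1, -⟩ := stepE hε1 hnpos hK1 hvs0 hvm hvar
  obtain ⟨-, hE2⟩ := stepE hε1 hnpos hK2 hvs0 hvm hvar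
  have hc1 : (K1.card : ℝ) ≤ 6015 / 10 ^ 6 * m := by
    by_contra hcon
    push Not at hcon
    have h1 : (K1.card : ℝ) * vs * (1 - 1 / 10 ^ 7) * m ≤
        (2 * π * (2004 / 10 ^ 6) + 2 / 10 ^ 8) * m :=
      mul_le_mul_of_nonneg_right (by linarith) hnpos.le
    have h2 : (K1.card : ℝ) * vs * (1 - 1 / 10 ^ 7) * m
        = (K1.card : ℝ) * ((1 - 1 / 10 ^ 7) * (vs * m)) := by ring
    rw [h2, hvm] at h1
    have h3 : 6015 / 10 ^ 6 * m * ((1 - 1 / 10 ^ 7) * (2 * π / 3)) <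
        (K1.card : ℝ) * ((1 - 1 / 10 ^ 7) * (2 * π / 3)) :=
      mul_lt_mul_of_pos_right hcon (by positivity)
    have h4 : (2 * π * (2004 / 10 ^ 6) + 2 / 10 ^ 8) * m ≤
        6015 / 10 ^ 6 * m * ((1 - 1 / 10 ^ 7) * (2 * π / 3)) := by
      have : 6015 / 10 ^ 6 * m * ((1 - 1 / 10 ^ 7) * (2 * π / 3))
        = (6015 / 10 ^ 6 * ((1 - 1 / 10 ^ 7) * (2 * π / 3))) * m := by ring
      rw [this]
      refine mul_le_mul_of_nonneg_right ?_ hnpos.le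
      linarith
    linarith
  have hc2 : 293985 / 10 ^ 6 * m ≤ (K2.card : ℝ) := by
    by_contra hcon
    push Not at hcon
    have h1 : (2 * π * (97997 / 10 ^ 6) - 3 * Dd) * m ≤
        ((K2.card : ℝ) * vs * (1 + 1 / 10 ^ 7) + 2 / 10 ^ 8) * m :=
      mul_le_mul_of_nonneg_right (by linarith) hnpos.le
    have h2 : ((K2.card : ℝ) * vs * (1 + 1 / 10 ^ 7) + 2 / 10 ^ 8) * m
        = (K2.card : ℝ) * ((1 + 1 / 10 ^ 7) * (vs * m)) + 2 / 10 ^ 8 * m := by ring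
    rw [h2, hvm] at h1
    have h3 : (K2.card : ℝ) * ((1 + 1 / 10 ^ 7) * (2 * π / 3)) <
        293985 / 10 ^ 6 * m * ((1 + 1 / 10 ^ 7) * (2 * π / 3)) :=
      mul_lt_mul_of_pos_right hcon (by positivity)
    have h4 : 293985 / 10 ^ 6 * m * ((1 + 1 / 10 ^ 7) * (2 * π / 3)) + 2 / 10 ^ 8 * m ≤
        (2 * π * (97997 / 10 ^ 6) - 3 * Dd) * m := by
      have : 293985 / 10 ^ 6 * m * ((1 + 1 / 10 ^ 7) * (2 * π / 3)) + 2 / 10 ^ 8 * m
        = (293985 / 10 ^ 6 * ((1 + 1 / 10 ^ 7) * (2 * π / 3)) + 2 / 10 ^ 8) * m := by ring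
      rw [this]
      refine mul_le_mul_of_nonneg_right ?_ hnpos.le
      linarith
    linarith
  obtain ⟨s, hs⟩ : ∃ s : ℝ, s = √m := ⟨_, rfl⟩
  have hs0 : 0 < s := by rw [hs]; exact Real.sqrt_pos.2 hnpos
  have hsm : s * s = m := by rw [hs]; exact Real.mul_self_sqrt hnpos.le
  have hF := stepF (ε := ε) (m := m) (s := s) (K := K1)
    (G := K1.filter (fun d => ¬ v d < vs / 2)) (v := v) (g := fun d => L d - 12 * √3 * v d) (Q := Q)
    hε1 hs0 hsm (Finset.filter_subset _ _) (fun d hd => hv d (hK1 hd)) (fun d hd => hg d (hK1 hd))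
    hV1 hGs hc1 hQ0 hQ
  have hG := stepG (ε := ε) (m := m) (s := s) (B := K1.filter (fun d => v d < vs / 2)) (Q := Q)
    hC hεC.le hs0 hsm hB (fun d hd => hQ0 d (Finset.mem_filter.1 hd).1)
    (fun d hd => hQC d (Finset.mem_filter.1 hd).1)
  have hsplit := Finset.sum_filter_add_sum_filter_not K1 (fun d => v d < vs / 2) (fun d => √(Q d))
  have htot : ∑ d ∈ K1, √(Q d) ≤ (12231 / 10 ^ 6) * s := by linarith
  have hroot : 7301 / 10 ^ 4 * s ≤ √(π * √3 * (K2.card : ℝ) / 3) := by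
    refine Real.le_sqrt_of_sq_le ?_
    have h1 : (7301 / 10 ^ 4 * s) ^ 2 = (7301 / 10 ^ 4) ^ 2 * m := by rw [← hsm]; ring
    rw [h1]
    have h2 : (3.141592 * 1.732 : ℝ) ≤ π * √3 := mul_le_mul hpi1.le h31.le (by norm_num) (by positivity)
    have h3 : (3.141592 * 1.732 : ℝ) * (293985 / 10 ^ 6 * m) ≤ π * √3 * (K2.card : ℝ) :=
      mul_le_mul h2 hc2 (by positivity) (by positivity)
    have h4 : (7301 / 10 ^ 4) ^ 2 * m * 3 ≤ (3.141592 * 1.732 : ℝ) * (293985 / 10 ^ 6 * m) := by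
      have : (3.141592 * 1.732 : ℝ) * (293985 / 10 ^ 6 * m)
        = (3.141592 * 1.732 * (293985 / 10 ^ 6) / 3) * m * 3 := by ring
      rw [this]
      refine mul_le_mul_of_nonneg_right (mul_le_mul_of_nonneg_right (by norm_num) hnpos.le)
        (by norm_num)
    linarith
  have h2 := sqrt2_gt
  rw [le_div_iff₀ (by positivity)] at hmain
  have h5 : 2 / 10 ^ 3 * (7301 / 10 ^ 4 * s) * (3 * (2 * 1.4142)) ≤
      2 / 10 ^ 3 * √(π * √3 * (K2.card : ℝ) / 3) * (3 * (2 * √2)) := by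
    refine mul_le_mul (mul_le_mul_of_nonneg_left hroot (by norm_num)) (by linarith) (by norm_num)
      (mul_nonneg (by norm_num) (Real.sqrt_nonneg _))
  have h6 : 2 / 10 ^ 3 * (7301 / 10 ^ 4 * s) * (3 * (2 * 1.4142)) ≤ (12231 / 10 ^ 6) * s :=
    h5.trans (hmain.trans htot)
  have h7 : 2 / 10 ^ 3 * (7301 / 10 ^ 4 * s) * (3 * (2 * 1.4142))
    = (2 / 10 ^ 3 * (7301 / 10 ^ 4) * (3 * (2 * 1.4142))) * s := by ring
  rw [h7] at h6
  have h8 := le_of_mul_le_mul_right h6 hs0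
  norm_num at h8

end Pool.Agent.Medial
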