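import Pool.Agent.Medial.T1
import Pool.Agent.Medial.T10a

/-!
Geometry of one facet (helper20).
-/

set_option autoImplicit false
set_option maxHeartbeats 1000000

namespace Pool.Agent.Medial

open scoped Real

/-- `‖p × q‖² = ‖p‖²‖q‖² - ⟨p,q⟩²` -/
theorem norm_crs_sq (p q : E) : ‖crs p q‖ ^ 2 = ‖p‖ ^ 2 * ‖q‖ ^ 2 - (inner ℝ p q) ^ 2 := by
  rw [norm_sq_eq, norm_sq_eq, norm_sq_eq, inner_eq]
  simp only [crs, PiLp.toLp_apply, Matrix.cons_val_zero, Matrix.cons_val_one, Matrix.cons_val]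
  ring

/-- Gram determinant -/
theorem gram_tri (p q u : E) : ‖u‖ ^ 2 * ‖crs p q‖ ^ 2 - (inner ℝ (crs p q) u) ^ 2
    = ‖q‖ ^ 2 * (inner ℝ u p) ^ 2 - 2 * inner ℝ p q * (inner ℝ u p) * (inner ℝ u q)
      + ‖p‖ ^ 2 * (inner ℝ u q) ^ 2 := by
  rw [norm_crs_sq, inner_crs, norm_sq_eq, norm_sq_eq, norm_sq_eq, inner_eq, inner_eq, inner_eq]
  simp only [tri]
  ring

theorem Lsq_eq (v w x : E) : Lsq v w x
    = 2 * (‖w - v‖ ^ 2 + ‖x - v‖ ^ 2 - inner ℝ (w - v) (x - v)) := by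
  simp only [Lsq, norm_sq_eq, inner_eq, PiLp.sub_apply]
  ring

theorem inner_crs_left (v w x : E) : (inner ℝ (crs (w - v) (x - v)) v : ℝ) = tri v w x := by
  rw [inner_crs]; simp only [tri, PiLp.sub_apply]; ring

theorem inner_crs_sub (v w x y : E) :
    (inner ℝ (crs (w - v) (x - v)) y : ℝ) = tri v w x + tri (w - v) (x - v) (y - v) := by
  rw [inner_crs]; simp only [tri, PiLp.sub_apply]; ring

/-- positive semidefinite binary forms with zero determinant -/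
theorem form_nonneg {X Y Z a b : ℝ} (hdet : X * Z = Y ^ 2) (htr : 0 ≤ X + Z) :
    0 ≤ X * a ^ 2 + 2 * Y * a * b + Z * b ^ 2 := by
  have hX : 0 ≤ X := by
    by_contra h
    push Not at h
    have hZ : 0 < Z := by linarith
    have : X * Z < 0 := mul_neg_of_neg_of_pos h hZ
    nlinarith [sq_nonneg Y]
  have hZ : 0 ≤ Z := by
    by_contra h
    push Not at h
    have hX' : 0 < X := by linarith
    have : X * Z < 0 := mul_neg_of_pos_of_neg hX' h
    nlinarith [sq_nonneg Y]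
  rcases htr.eq_or_lt with h | h
  · have h1 : X = 0 := by linarith
    have h2 : Z = 0 := by linarith
    have h3 : Y = 0 := by
      have : Y ^ 2 = 0 := by rw [← hdet, h1]; ring
      exact pow_eq_zero_iff (two_ne_zero) |>.1 this
    rw [h1, h2, h3]; simp
  · have h1 : (X * a ^ 2 + 2 * Y * a * b + Z * b ^ 2) * (X + Z)
        = (X * a + Y * b) ^ 2 + (Y * a + Z * b) ^ 2 := by
      have : (X * a + Y * b) ^ 2 + (Y * a + Z * b) ^ 2
        = X ^ 2 * a ^ 2 + Y ^ 2 * a ^ 2 + 2 * Y * (X + Z) * a * b + Y ^ 2 * b ^ 2 + Z ^ 2 * b ^ 2 := by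
        ring
      rw [this, ← hdet]; ring
    by_contra hcon
    push Not at hcon
    have h2 := mul_neg_of_neg_of_pos hcon h
    rw [h1] at h2
    nlinarith [sq_nonneg (X * a + Y * b), sq_nonneg (Y * a + Z * b)]

/-- the width form of a triangle -/
theorem width_form {A B c G L μ a b τ : ℝ} (hG : G = A * B - c ^ 2) (hL : L = 2 * (A + B - c))
    (hLG : 0 ≤ L ^ 2 - 12 * G)
    (hμ : μ = (L + √(L ^ 2 - 12 * G)) / 2) (hs : 0 ≤ A + B)
    (hgram : G - τ = B * a ^ 2 - 2 * c * a * b + A * b ^ 2) :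
    (a ^ 2 + (a - b) ^ 2 + b ^ 2) * G ≤ μ * (G - τ) := by
  have hμ2 : μ ^ 2 - L * μ + 3 * G = 0 := by
    have h1 : √(L ^ 2 - 12 * G) = 2 * μ - L := by rw [hμ]; ring
    have h2 : √(L ^ 2 - 12 * G) ^ 2 = L ^ 2 - 12 * G := Real.sq_sqrt hLG
    rw [h1] at h2
    nlinarith
  have hid : L ^ 2 - 12 * G = (4 * c - (A + B)) ^ 2 + 3 * (A - B) ^ 2 := by
    rw [hG, hL]; ring
  have habs : |4 * c - (A + B)| ≤ √(L ^ 2 - 12 * G) := by
    rw [hid]
    refine Real.abs_le_sqrt ?_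
    nlinarith [sq_nonneg (A - B)]
  have hab := abs_le.1 habs
  have hμ1 : 3 / 2 * (A + B) - 3 * c ≤ μ := by rw [hμ]; linarith [hab.1, hL]
  have hμ1' : (A + B) / 2 + c ≤ μ := by rw [hμ]; linarith [hab.2, hL]
  have htr : 0 ≤ (μ * B - 2 * G) + (μ * A - 2 * G) := by
    have h4G : 4 * G ≤ (A + B) ^ 2 - 4 * c ^ 2 := by rw [hG]; nlinarith [sq_nonneg (A - B)]
    rcases le_total c ((A + B) / 4) with h | h
    · have e1 : (3 / 2 * (A + B) - 3 * c) * (A + B) ≤ μ * (A + B) :=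
        mul_le_mul_of_nonneg_right hμ1 hs
      have e2 : 0 ≤ ((A + B) - 2 * c) * ((A + B) - 4 * c) := by
        refine mul_nonneg ?_ ?_ <;> linarith
      nlinarith
    · have e1 : ((A + B) / 2 + c) * (A + B) ≤ μ * (A + B) :=
        mul_le_mul_of_nonneg_right hμ1' hs
      have e2 : 0 ≤ (4 * c - (A + B)) * (2 * c + (A + B)) := by
        refine mul_nonneg ?_ ?_ <;> linarith
      nlinarith
  have hdet : (μ * B - 2 * G) * (μ * A - 2 * G) = (G - μ * c) ^ 2 := by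
    have : (μ * B - 2 * G) * (μ * A - 2 * G) - (G - μ * c) ^ 2
      = μ ^ 2 * (A * B - c ^ 2) - 2 * G * μ * (A + B - c) + 3 * G ^ 2 := by ring
    have h2 : μ ^ 2 * (A * B - c ^ 2) - 2 * G * μ * (A + B - c) + 3 * G ^ 2
      = G * (μ ^ 2 - L * μ + 3 * G) := by rw [← hG, hL]; ring
    rw [h2, hμ2, mul_zero] at this
    linarith
  have h := form_nonneg (a := a) (b := b) hdet htr
  rw [hgram]
  nlinarith

/-- the supporting plane of a facet -/
theorem Fac.le {S : Finset E} {v w x : E} (h : Fac S v w x) {y : E} (hy : y ∈ S) :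
    (inner ℝ (crs (w - v) (x - v)) y : ℝ) ≤ tri v w x := by
  rw [inner_crs_sub]
  have h4 := h.2.2.2.2 y hy
  by_cases h1 : y = v
  · subst h1
    have : tri (w - y) (x - y) (y - y) = 0 := by simp only [tri, PiLp.sub_apply]; ring
    rw [this]; simp
  by_cases h2 : y = w
  · subst h2
    have : tri (y - v) (x - v) (y - v) = 0 := by simp only [tri, PiLp.sub_apply]; ring
    rw [this]; simp
  by_cases h3 : y = x
  · subst h3
    have : tri (w - v) (y - v) (y - v) = 0 := by simp only [tri, PiLp.sub_apply]; ring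
    rw [this]; simp
  linarith [h4 h1 h2 h3]

theorem inner_crs_mid (v w x : E) : (inner ℝ (crs (w - v) (x - v)) w : ℝ) = tri v w x := by
  rw [inner_crs]; simp only [tri, PiLp.sub_apply]; ring

theorem inner_crs_right (v w x : E) : (inner ℝ (crs (w - v) (x - v)) x : ℝ) = tri v w x := by
  rw [inner_crs]; simp only [tri, PiLp.sub_apply]; ring

/-- data of one facet, with `N` the unnormalised normal -/
theorem Fac.normal_pos {S : Finset E} {v w x : E} (h : Fac S v w x) :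
    0 < ‖crs (w - v) (x - v)‖ := by
  rw [norm_pos_iff]
  intro h0
  have h1 := inner_crs_left v w x
  rw [h0, inner_zero_left] at h1
  exact absurd h1 (ne_of_lt h.2.2.2.1)

theorem Fac.ball_le {S : Finset E} {v w x : E} (h : Fac S v w x) {r : ℝ} (hr : 0 ≤ r)
    (hball : Metric.closedBall (0 : E) r ⊆ convexHull ℝ (S : Set E)) :
    r * ‖crs (w - v) (x - v)‖ ≤ tri v w x := by
  have hN := h.normal_pos
  set N := crs (w - v) (x - v) with hNdef
  have hmem : (r / ‖N‖) • N ∈ convexHull ℝ (S : Set E) := by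
    apply hball
    rw [mem_closedBall_zero_iff, norm_smul, Real.norm_eq_abs, abs_div, abs_norm, abs_of_nonneg hr,
      div_mul_cancel₀ _ hN.ne']
  have hsub : convexHull ℝ (S : Set E) ⊆ {y | (inner ℝ N y : ℝ) ≤ tri v w x} := by
    refine convexHull_min ?_ ?_
    · intro y hy
      exact h.le hy
    · exact (convex_halfSpace_le (innerSL ℝ N).isLinear _)
  have h1 : (inner ℝ N ((r / ‖N‖) • N) : ℝ) ≤ tri v w x := hsub hmem
  rw [inner_smul_right, real_inner_self_eq_norm_sq] at h1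
  have h2 : r / ‖N‖ * ‖N‖ ^ 2 = r * ‖N‖ := by field_simp
  rwa [h2] at h1

/-- everything needed about the shape of one facet -/
theorem Fac.shape {S : Finset E} {v w x : E} (h : Fac S v w x) (hU : Unit S) {r t : ℝ} (hr : 0 ≤ r)
    (hball : Metric.closedBall (0 : E) r ⊆ convexHull ℝ (S : Set E)) (ht : 1 - t ≤ r) :
    ∃ ν : E, ‖ν‖ = 1 ∧ r ≤ inner ℝ ν v ∧ inner ℝ ν w = (inner ℝ ν v : ℝ) ∧
      inner ℝ ν x = (inner ℝ ν v : ℝ) ∧ ‖ν - v‖ ^ 2 ≤ 2 * t ∧ ‖ν - w‖ ^ 2 ≤ 2 * t ∧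
      ‖ν - x‖ ^ 2 ≤ 2 * t ∧ 12 * √3 * (tri v w x / 6) ≤ Lsq v w x ∧
      ∀ (u : E) (γ : ℝ), ‖u‖ = 1 → 0 ≤ γ → γ ≤ inner ℝ u ν →
        Qf (inner ℝ u v) (inner ℝ u w) (inner ℝ u x) ≤ (1 - γ ^ 2) * (6 * √3 * (tri v w x / 6) +
          (Lsq v w x - 12 * √3 * (tri v w x / 6)) +
          √(6 * √3 * (tri v w x / 6) * (Lsq v w x - 12 * √3 * (tri v w x / 6)))) := by
  have hN := h.normal_pos
  have hb := h.ball_le hr hball
  have hv : ‖v‖ = 1 := hU v h.1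
  have hw : ‖w‖ = 1 := hU w h.2.1
  have hx : ‖x‖ = 1 := hU x h.2.2.1
  have hT := h.2.2.2.1
  have iv := inner_crs_left v w x
  have iw := inner_crs_mid v w x
  have ix := inner_crs_right v w x
  have hG := norm_crs_sq (w - v) (x - v)
  have hL := Lsq_eq v w x
  have hgr := fun u : E => gram_tri (w - v) (x - v) u
  set N := crs (w - v) (x - v) with hNdef
  obtain ⟨T, hTd⟩ : ∃ T : ℝ, T = tri v w x := ⟨_, rfl⟩
  obtain ⟨k, hk⟩ : ∃ k : ℝ, k = ‖N‖ := ⟨_, rfl⟩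
  rw [← hTd] at hb hT iv iw ix
  rw [← hk] at hN hb hG
  have hTk : T ≤ k := by
    have := real_inner_le_norm N v
    rw [iv, hv, mul_one, ← hk] at this
    exact this
  have h3pos : 0 < √3 := by positivity
  have h33 := sqrt3_mul
  -- unit normal
  have hinner : ∀ y : E, (inner ℝ ((1 / k) • N) y : ℝ) = (inner ℝ N y : ℝ) / k := by
    intro y; rw [inner_smul_left]; simp [div_eq_inv_mul]
  have hν1 : ‖(1 / k) • N‖ = 1 := by
    rw [norm_smul, ← hk, Real.norm_eq_abs, abs_of_pos (by positivity)]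
    field_simp
  have hrT : r ≤ T / k := by rw [le_div_iff₀ hN]; exact hb
  have hdist : ∀ y : E, ‖y‖ = 1 → (inner ℝ N y : ℝ) = T → ‖(1 / k) • N - y‖ ^ 2 ≤ 2 * t := by
    intro y hy hiy
    rw [norm_sub_sq_real, hν1, hy, hinner, hiy]
    linarith
  -- shape numbers
  obtain ⟨A, hA⟩ : ∃ A : ℝ, A = ‖w - v‖ ^ 2 := ⟨_, rfl⟩
  obtain ⟨B, hB⟩ : ∃ B : ℝ, B = ‖x - v‖ ^ 2 := ⟨_, rfl⟩
  obtain ⟨c, hc⟩ : ∃ c : ℝ, c = inner ℝ (w - v) (x - v) := ⟨_, rfl⟩
  have hA0 : 0 ≤ A := by rw [hA]; positivity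
  have hB0 : 0 ≤ B := by rw [hB]; positivity
  obtain ⟨L, hLd⟩ : ∃ L : ℝ, L = Lsq v w x := ⟨_, rfl⟩
  have hL' : L = 2 * (A + B - c) := by rw [hLd, hL, hA, hB, hc]
  have hG' : k ^ 2 = A * B - c ^ 2 := by rw [hG, hA, hB, hc]
  have hid : L ^ 2 - 12 * k ^ 2 = (4 * c - (A + B)) ^ 2 + 3 * (A - B) ^ 2 := by
    rw [hG', hL']; ring
  have hLG : 0 ≤ L ^ 2 - 12 * k ^ 2 := by rw [hid]; positivity
  have hL0 : 0 ≤ L := by rw [hLd]; unfold Lsq; positivity
  have hLk : 2 * √3 * k ≤ L := by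
    have h1 : (2 * √3 * k) ^ 2 ≤ L ^ 2 := by
      have : (2 * √3 * k) ^ 2 = 12 * k ^ 2 := by
        calc (2 * √3 * k) ^ 2 = 4 * (√3 * √3) * k ^ 2 := by ring
          _ = 12 * k ^ 2 := by rw [h33]; ring
      linarith
    exact (pow_le_pow_iff_left₀ (by positivity) hL0 two_ne_zero).1 h1
  have hLT : 12 * √3 * (T / 6) ≤ L := by
    have : 12 * √3 * (T / 6) = 2 * √3 * T := by ring
    rw [this]
    exact (mul_le_mul_of_nonneg_left hTk (by positivity)).trans hLk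
  refine ⟨(1 / k) • N, hν1, ?_, ?_, ?_, hdist v hv iv, hdist w hw iw, hdist x hx ix, ?_, ?_⟩
  · rw [hinner, iv]; exact hrT
  · rw [hinner, hinner, iv, iw]
  · rw [hinner, hinner, iv, ix]
  · rw [← hTd, ← hLd]; exact hLT
  intro u γ hu hγ0 hγ
  rw [← hTd, ← hLd]
  obtain ⟨a, ha⟩ : ∃ a : ℝ, a = inner ℝ u (w - v) := ⟨_, rfl⟩
  obtain ⟨b, hb'⟩ : ∃ b : ℝ, b = inner ℝ u (x - v) := ⟨_, rfl⟩
  obtain ⟨τ, hτ⟩ : ∃ τ : ℝ, τ = inner ℝ N u := ⟨_, rfl⟩
  have hQ : Qf (inner ℝ u v) (inner ℝ u w) (inner ℝ u x) = a ^ 2 + (a - b) ^ 2 + b ^ 2 := by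
    rw [ha, hb', inner_sub_right, inner_sub_right]; unfold Qf; ring
  have hgram : k ^ 2 - τ ^ 2 = B * a ^ 2 - 2 * c * a * b + A * b ^ 2 := by
    have := hgr u
    rw [hu, ← hk, ← hτ, ← hB, ← hA, ← hc, ← ha, ← hb'] at this
    linarith
  obtain ⟨μ, hμ⟩ : ∃ μ : ℝ, μ = (L + √(L ^ 2 - 12 * k ^ 2)) / 2 := ⟨_, rfl⟩
  have hμ0 : 0 ≤ μ := by rw [hμ]; positivity
  have hw1 := width_form hG' hL' hLG hμ (by linarith) hgram
  have hτγ : γ * k ≤ τ := by
    have : (inner ℝ u ((1 / k) • N) : ℝ) = τ / k := by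
      rw [real_inner_comm, hinner, hτ]
    rw [this, le_div_iff₀ hN] at hγ
    exact hγ
  have hτ2 : k ^ 2 - τ ^ 2 ≤ (1 - γ ^ 2) * k ^ 2 := by
    have : (γ * k) ^ 2 ≤ τ ^ 2 := pow_le_pow_left₀ (by positivity) hτγ 2
    linarith [mul_pow γ k 2]
  have hk2 : 0 < k ^ 2 := by positivity
  have hQ1 : a ^ 2 + (a - b) ^ 2 + b ^ 2 ≤ (1 - γ ^ 2) * μ := by
    have h1 : (a ^ 2 + (a - b) ^ 2 + b ^ 2) * k ^ 2 ≤ (1 - γ ^ 2) * μ * k ^ 2 := by
      refine hw1.trans ?_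
      have := mul_le_mul_of_nonneg_left hτ2 hμ0
      linarith
    exact le_of_mul_le_mul_right h1 hk2
  have hγ1 : 0 ≤ 1 - γ ^ 2 := by
    have h1 : γ ≤ 1 := by
      refine hγ.trans ?_
      have := real_inner_le_norm u ((1 / k) • N)
      rwa [hu, hν1, mul_one] at this
    nlinarith
  rw [hQ]
  refine hQ1.trans (mul_le_mul_of_nonneg_left ?_ hγ1)
  obtain ⟨g, hg⟩ : ∃ g : ℝ, g = L - 12 * √3 * (T / 6) := ⟨_, rfl⟩
  have hg0 : 0 ≤ g := by rw [hg]; linarith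
  rw [← hg]
  have hT3 : 0 ≤ 6 * √3 * (T / 6) := by positivity
  have hroot : √(L ^ 2 - 12 * k ^ 2) ≤ g + 2 * √(6 * √3 * (T / 6) * g) := by
    rw [Real.sqrt_le_left (by positivity)]
    have h1 : √(6 * √3 * (T / 6) * g) ^ 2 = 6 * √3 * (T / 6) * g := Real.sq_sqrt (by positivity)
    have h2 : 12 * T ^ 2 ≤ 12 * k ^ 2 := by
      have := pow_le_pow_left₀ hT.le hTk 2
      linarith
    have h3 : L ^ 2 - 12 * T ^ 2 = g * (g + 4 * √3 * T) := by
      have e1 : L = g + 2 * √3 * T := by rw [hg]; ring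
      have e2 : 12 * T ^ 2 = (2 * √3 * T) ^ 2 := by
        calc 12 * T ^ 2 = 4 * 3 * T ^ 2 := by ring
          _ = 4 * (√3 * √3) * T ^ 2 := by rw [h33]
          _ = (2 * √3 * T) ^ 2 := by ring
      rw [e2, e1]; ring
    have h4 : (g + 2 * √(6 * √3 * (T / 6) * g)) ^ 2
      = g ^ 2 + 4 * g * √(6 * √3 * (T / 6) * g) + 4 * √(6 * √3 * (T / 6) * g) ^ 2 := by ring
    rw [h4, h1]
    have h5 : 0 ≤ 4 * g * √(6 * √3 * (T / 6) * g) := by positivity
    nlinarith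
  have hLg : L = g + 12 * √3 * (T / 6) := by rw [hg]; ring
  rw [hμ]
  linarith

end Pool.Agent.Medial
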