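/-
T3: development of the cap of six-valent vertices into the hexagonal lattice.
(helper72)
-/
import Pool.Agent.Medial.T2a

set_option autoImplicit false

namespace Pool.Agent.Medial

theorem om_sq : om * om = om - 1 := by
  apply Complex.ext
  · simp only [om, Complex.mul_re, Complex.sub_re, Complex.one_re]
    have : √3 * √3 = 3 := Real.mul_self_sqrt (by norm_num)
    nlinarith
  · simp only [om, Complex.mul_im, Complex.sub_im, Complex.one_im]
    ring

theorem om_cube : om * om * om = -1 := by
  rw [om_sq, sub_mul, om_sq]; ring

theorem om_norm : ‖om‖ = 1 := by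
  have h : ‖om‖ ^ 2 = 1 := by
    rw [← Complex.normSq_eq_norm_sq]
    simp only [om, Complex.normSq_mk]
    have : √3 * √3 = 3 := Real.mul_self_sqrt (by norm_num)
    nlinarith
  nlinarith [norm_nonneg om]

theorem om_pow_six : om ^ 6 = 1 := by
  have : om ^ 6 = (om * om * om) * (om * om * om) := by ring
  rw [this, om_cube]; ring

namespace HMap

variable {V : Type*} {S : Finset V} {N : V → Finset V} {L : V → V → V} {z : V → ℝ}

/-- at a six-valent vertex there is a well defined character along the cycle -/
theorem exists_char (h : HMap S N L z) {v w : V} (hv : v ∈ S) (hw : w ∈ N v)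
    (h6 : (N v).card = 6) : ∃ g : V → ℂ, ∀ k : ℕ, g ((L v)^[k] w) = om ^ k := by
  classical
  set p := Function.minimalPeriod (L v) w with hp
  have hper : w ∈ Function.periodicPts (L v) := by
    obtain ⟨k, hk⟩ := h.trans v hv _ (h.L_mem v hv w hw) w hw
    refine ⟨k + 1, Nat.succ_pos _, ?_⟩
    rw [← Function.iterate_succ_apply] at hk
    exact hk
  have hpos : 0 < p := Function.minimalPeriod_pos_of_mem_periodicPts hper
  have himg : (Finset.range p).image (fun k => (L v)^[k] w) = N v := by
    ext y
    simp only [Finset.mem_image, Finset.mem_range]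
    constructor
    · rintro ⟨k, -, rfl⟩
      exact h.iter_mem hv hw k
    · intro hy
      obtain ⟨k, hk⟩ := h.trans v hv w hw y hy
      exact ⟨k % p, Nat.mod_lt _ hpos, by rw [Function.iterate_mod_minimalPeriod_eq]; exact hk⟩
  have hp6 : p = 6 := by
    rw [← h6, ← himg, Finset.card_image_of_injOn, Finset.card_range]
    intro a ha b hb hab
    rw [Finset.coe_range] at ha hb
    exact Function.iterate_injOn_Iio_minimalPeriod ha hb hab
  have hwell : ∀ j k : ℕ, (L v)^[j] w = (L v)^[k] w → om ^ j = om ^ k := by
    intro j k hjk
    have h1 : j % p = k % p := by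
      apply Function.iterate_injOn_Iio_minimalPeriod (f := L v) (x := w) (Nat.mod_lt _ hpos)
        (Nat.mod_lt _ hpos)
      simp only [Function.iterate_mod_minimalPeriod_eq]
      exact hjk
    rw [hp6] at h1
    have h2 : ∀ j : ℕ, om ^ j = om ^ (j % 6) := by
      intro j
      conv_lhs => rw [← Nat.div_add_mod j 6, pow_add, pow_mul, om_pow_six, one_pow, one_mul]
    rw [h2 j, h2 k, h1]
  refine ⟨fun y => if hy : ∃ k : ℕ, (L v)^[k] w = y then om ^ hy.choose else 1, fun k => ?_⟩
  have hy : ∃ j : ℕ, (L v)^[j] w = (L v)^[k] w := ⟨k, rfl⟩
  simp only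
  rw [dif_pos hy]
  exact hwell _ _ hy.choose_spec

/-- The higher neighbours form an initial arc starting after the entry dart. -/
theorem arc (h : HMap S N L z) {v y : V} (hv : v ∈ S) (hy : y ∈ N v) (hy1 : z y < z v)
    (hy2 : z v < z (L v y)) (j : ℕ) (hj : z v < z ((L v)^[j] (L v y))) :
    ∃ i : ℕ, (L v)^[i] (L v y) = (L v)^[j] (L v y) ∧
      ∀ i' ≤ i, z v < z ((L v)^[i'] (L v y)) := by
  induction j with
  | zero =>
    refine ⟨0, rfl, fun i' hi' => ?_⟩
    have : i' = 0 := by omega
    subst this
    exact hy2
  | succ j ih =>
    by_cases hc : z v < z ((L v)^[j] (L v y))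
    · obtain ⟨i, hi, hi'⟩ := ih hc
      refine ⟨i + 1, by rw [Function.iterate_succ_apply', Function.iterate_succ_apply', hi],
        fun i' hle => ?_⟩
      rcases Nat.lt_or_ge i i' with hlt | hge
      · have : i' = i + 1 := by omega
        subst this
        rw [Function.iterate_succ_apply', hi, ← Function.iterate_succ_apply' (L v) j (L v y)]
        exact hj
      · exact hi' i' hge
    · have hmem := h.iter_mem hv (h.L_mem v hv y hy) j
      have hlt : z ((L v)^[j] (L v y)) < z v :=
        lt_of_le_of_ne (not_lt.mp hc) (h.z_ne hv hmem)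
      rw [Function.iterate_succ_apply'] at hj
      have heq := h.entry_unique v hv _ hmem y hy hlt hj hy1 hy2
      refine ⟨0, ?_, fun i' hi' => ?_⟩
      · rw [Function.iterate_succ_apply', heq]; rfl
      · have : i' = 0 := by omega
        subst this
        exact hy2

end HMap

theorem T3 : Stmt_T3 := by
  classical
  intro V S N L z z0 h hdeg hbot
  obtain ⟨yb, hyb, hyb0⟩ := hbot
  -- the property for an upper set `A`
  have main : ∀ m : ℕ, ∀ A : Finset V, A.card = m → A ⊆ S → (∀ v ∈ A, z0 < z v) →
      (∀ v ∈ A, ∀ w ∈ S, z v < z w → w ∈ A) →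
      ∃ (ψ : V → ℂ) (e : V → V → ℂ),
        (∀ v ∈ A, ∀ w ∈ N v, ‖e v w‖ = 1 ∧ e v (L v w) = om * e v w) ∧
        (∀ v ∈ A, ∀ w ∈ N v, w ∈ A → e w v = - e v w ∧ ψ w = ψ v + e v w) := by
    intro m
    induction m with
    | zero =>
      intro A hA _ _ _
      rw [Finset.card_eq_zero] at hA
      subst hA
      exact ⟨fun _ => 0, fun _ _ => 0, by simp, by simp⟩
    | succ m ih =>
      intro A hA hAS hAz hup
      have hne : A.Nonempty := Finset.card_pos.mp (by omega)
      obtain ⟨v, hvA, hvmin⟩ := A.exists_min_image z hne
      have hv : v ∈ S := hAS hvA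
      have hvz := hAz v hvA
      have hA'1 : ∀ w ∈ A.erase v, z v < z w := by
        intro w hw
        rw [Finset.mem_erase] at hw
        exact lt_of_le_of_ne (hvmin w hw.2) fun he => hw.1 (h.inj v hv w (hAS hw.2) he).symm
      have hA'2 : ∀ w ∈ S, z v < z w → w ∈ A.erase v := by
        intro w hw hvw
        rw [Finset.mem_erase]
        refine ⟨?_, hup v hvA w hw hvw⟩
        rintro rfl; exact lt_irrefl _ hvw
      obtain ⟨ψ, e, he1, he2⟩ := ih (A.erase v) (by rw [Finset.card_erase_of_mem hvA]; omega)
        ((Finset.erase_subset _ _).trans hAS) (fun w hw => hAz w (Finset.mem_of_mem_erase hw))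
        (fun w hw y hy hwy => by
          have h1 := hup w (Finset.mem_of_mem_erase hw) y hy hwy
          rw [Finset.mem_erase]
          refine ⟨?_, h1⟩
          rintro rfl
          linarith [hA'1 w hw])
      have h6 := hdeg v hv hvz
      by_cases htop : ∃ y ∈ S, z v < z y
      · -- there is an entry dart
        obtain ⟨y, hy, hy1, hy2⟩ := h.exists_entry hv htop ⟨yb, hyb, by linarith⟩
        set w1 := L v y with hw1
        have hw1N : w1 ∈ N v := h.L_mem v hv y hy
        have hw1A : w1 ∈ A.erase v := hA'2 w1 (h.mem v hv w1 hw1N) hy2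
        obtain ⟨g, hg⟩ := h.exists_char hv hw1N h6
        -- claim along the arc
        have claim : ∀ i : ℕ, (∀ i' ≤ i, z v < z ((L v)^[i'] w1)) →
            e ((L v)^[i] w1) v = om ^ i * e w1 v ∧
            ψ ((L v)^[i] w1) + e ((L v)^[i] w1) v = ψ w1 + e w1 v := by
          intro i
          induction i with
          | zero => intro _; simp
          | succ i ihi =>
            intro hi
            obtain ⟨c1, c2⟩ := ihi (fun i' hi' => hi i' (by omega))
            set a := (L v)^[i] w1 with ha
            have haN : a ∈ N v := h.iter_mem hv hw1N i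
            have haS : a ∈ S := h.mem v hv a haN
            have haA : a ∈ A.erase v := hA'2 a haS (hi i (by omega))
            rw [Function.iterate_succ_apply', ← ha]
            have hbN : L v a ∈ N v := h.L_mem v hv a haN
            have hbz : z v < z (L v a) := by
              have := hi (i + 1) le_rfl
              rw [Function.iterate_succ_apply', ← ha] at this
              exact this
            have hbS : L v a ∈ S := h.mem v hv _ hbN
            have hbA : L v a ∈ A.erase v := hA'2 _ hbS hbz
            have r1 := h.rot v hv a haN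
            have r2 := h.rot2 hv haN
            have hbNa := h.L_mem' v hv a haN
            have p1 := (he1 a haA (L v a) hbNa).2
            rw [r1] at p1
            have hvNb := h.symm v hv _ hbN
            have p2 := (he1 (L v a) hbA v hvNb).2
            rw [r2] at p2
            obtain ⟨p3, p4⟩ := he2 a haA (L v a) hbNa hbA
            have p5 : e (L v a) v = om * e a v := by
              have : om * e (L v a) v = - e a (L v a) := by rw [← p2, p3]
              have h3 : om * e a v = om * om * e a (L v a) := by rw [p1]; ring
              have h4 : e a (L v a) = - (om * e (L v a) v) := by rw [this]; ring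
              rw [h3, h4]
              calc e (L v a) v = - (om * om * om) * e (L v a) v := by rw [om_cube]; ring
                _ = _ := by ring
            refine ⟨by rw [p5, c1]; ring, ?_⟩
            rw [p4, p5, ← c2, p1]
            have : om * (om * e a (L v a)) = (om - 1) * e a (L v a) := by
              rw [← mul_assoc, om_sq]
            rw [this]; ring
        have claimH : ∀ w ∈ N v, z v < z w → g w * (- e w1 v) = - e w v ∧
            ψ w + e w v = ψ w1 + e w1 v := by
          intro w hw hvw
          obtain ⟨j, hj⟩ := h.trans v hv w1 hw1N w hw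
          obtain ⟨i, hi1, hi2⟩ := h.arc hv hy hy1 hy2 j (by rw [← hw1, hj]; exact hvw)
          rw [← hw1, hj] at hi1
          obtain ⟨c1, c2⟩ := claim i hi2
          rw [hi1] at c1 c2
          refine ⟨?_, c2⟩
          rw [← hi1, hg, hi1, c1]; ring
        have hw1v : v ∈ N w1 := h.symm v hv w1 hw1N
        have hn1 : ‖e w1 v‖ = 1 := (he1 w1 hw1A v hw1v).1
        refine ⟨Function.update ψ v (ψ w1 + e w1 v),
          Function.update e v (fun w => g w * (- e w1 v)), ?_, ?_⟩
        · intro v' hv' w hw
          by_cases hvv : v' = v
          · subst hvv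
            rw [Function.update_self]
            obtain ⟨k, hk⟩ := h.trans v' hv w1 hw1N w hw
            constructor
            · rw [← hk, hg, norm_mul, norm_pow, om_norm, one_pow, norm_neg, hn1, one_mul]
            · rw [← hk, ← Function.iterate_succ_apply' (L v') k w1, hg, hg, pow_succ]; ring
          · rw [Function.update_of_ne hvv]
            exact he1 v' (Finset.mem_erase.mpr ⟨hvv, hv'⟩) w hw
        · intro v' hv' w hw hwA
          by_cases hvv : v' = v
          · subst hvv
            have hwv : w ≠ v' := h.ne v' hv w hw
            have hwA' : w ∈ A.erase v' := Finset.mem_erase.mpr ⟨hwv, hwA⟩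
            obtain ⟨c1, c2⟩ := claimH w hw (hA'1 w hwA')
            rw [Function.update_of_ne hwv, Function.update_self, Function.update_of_ne hwv,
              Function.update_self]
            refine ⟨by rw [c1]; ring, ?_⟩
            rw [c1, ← c2]; ring
          · have hv'A : v' ∈ A.erase v := Finset.mem_erase.mpr ⟨hvv, hv'⟩
            by_cases hwv : w = v
            · subst hwv
              have hv'N : v' ∈ N w := h.symm v' (hAS hv') w hw
              obtain ⟨c1, c2⟩ := claimH v' hv'N (hA'1 v' hv'A)
              rw [Function.update_self, Function.update_of_ne hvv, Function.update_self,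
                Function.update_of_ne hvv]
              exact ⟨c1, c2.symm⟩
            · rw [Function.update_of_ne hwv, Function.update_of_ne hvv, Function.update_of_ne hwv,
                Function.update_of_ne hvv]
              exact he2 v' hv'A w hw (Finset.mem_erase.mpr ⟨hwv, hwA⟩)
      · -- `v` is the top vertex, and `A = {v}`
        have hA1 : A = {v} := by
          ext w
          simp only [Finset.mem_singleton]
          constructor
          · intro hw
            by_contra hne'
            exact htop ⟨w, hAS hw, hA'1 w (Finset.mem_erase.mpr ⟨hne', hw⟩)⟩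
          · rintro rfl; exact hvA
        have hNne : (N v).Nonempty := Finset.card_pos.mp (by omega)
        obtain ⟨w1, hw1N⟩ := hNne
        obtain ⟨g, hg⟩ := h.exists_char hv hw1N h6
        refine ⟨fun _ => 0, fun _ w => g w, ?_, ?_⟩
        · intro v' hv' w hw
          rw [hA1, Finset.mem_singleton] at hv'
          subst hv'
          obtain ⟨k, hk⟩ := h.trans v' hv w1 hw1N w hw
          show ‖g w‖ = 1 ∧ g (L v' w) = om * g w
          constructor
          · rw [← hk, hg, norm_pow, om_norm, one_pow]
          · rw [← hk, ← Function.iterate_succ_apply' (L v') k w1, hg, hg, pow_succ]; ring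
        · intro v' hv' w hw hwA
          rw [hA1, Finset.mem_singleton] at hv' hwA
          subst hv'
          exact absurd hwA (h.ne v' hv w hw)
  obtain ⟨ψ, e, h1, h2⟩ := main _ (S.filter (fun v => z0 < z v)) rfl (Finset.filter_subset _ _)
    (fun v hv => (Finset.mem_filter.mp hv).2)
    (fun v hv w hw hvw => Finset.mem_filter.mpr ⟨hw, lt_trans (Finset.mem_filter.mp hv).2 hvw⟩)
  refine ⟨ψ, e, fun v hv hvz w hw => h1 v (Finset.mem_filter.mpr ⟨hv, hvz⟩) w hw,
    fun v hv hvz w hw hwz => h2 v (Finset.mem_filter.mpr ⟨hv, hvz⟩) w hw
      (Finset.mem_filter.mpr ⟨h.mem v hv w hw, hwz⟩)⟩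

end Pool.Agent.Medial
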