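import Mathlib
import Pool.Agent.Medial.Defs
set_option autoImplicit false
namespace Pool.Agent.Medial
open Real

lemma T4_seg (lam s h a dx dy : ℝ) (hlam : 0 < lam) (hs : 0 < s) (hh : 0 ≤ h)
    (hsum : s + h < π * lam) (hd : dx ^ 2 + dy ^ 2 = h ^ 2) :
    -dx * (2 * a + dy) ≤ lam * h + a ^ 2 * (cos (s / lam) / sin (s / lam))
      - (a + dy) ^ 2 * (cos ((s + h) / lam) / sin ((s + h) / lam)) := by
  rcases hh.eq_or_lt with h0 | hpos
  · subst h0
    have hdx : dx = 0 := by nlinarith [sq_nonneg dx, sq_nonneg dy]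
    have hdy : dy = 0 := by nlinarith [sq_nonneg dx, sq_nonneg dy]
    subst hdx; subst hdy
    simp
  · have hsin : ∀ t ∈ Set.Icc (0 : ℝ) 1, 0 < sin ((s + h * t) / lam) := by
      intro t ht
      apply sin_pos_of_pos_of_lt_pi
      · have := mul_nonneg hpos.le ht.1
        positivity
      · rw [div_lt_iff₀ hlam]
        have := mul_le_mul_of_nonneg_left ht.2 hpos.le
        linarith
    set G : ℝ → ℝ := fun t => lam * h * t + dx * (2 * a * t + dy * t ^ 2)
      - (a + dy * t) ^ 2 * (cos ((s + h * t) / lam) / sin ((s + h * t) / lam)) with hG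
    set G' : ℝ → ℝ := fun t => lam * h + dx * (2 * a + dy * (2 * t))
      - (2 * (a + dy * t) * dy * (cos ((s + h * t) / lam) / sin ((s + h * t) / lam))
        + (a + dy * t) ^ 2 * ((-sin ((s + h * t) / lam) * (h / lam) * sin ((s + h * t) / lam)
          - cos ((s + h * t) / lam) * (cos ((s + h * t) / lam) * (h / lam)))
            / sin ((s + h * t) / lam) ^ 2)) with hG'
    have hder : ∀ t ∈ Set.Icc (0 : ℝ) 1, HasDerivAt G (G' t) t := by
      intro t ht
      have hs0 := (hsin t ht).ne'
      have d1 : HasDerivAt (fun t : ℝ => (s + h * t) / lam) (h / lam) t := by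
        have := (((hasDerivAt_id t).const_mul h).const_add s).div_const lam
        simpa using this
      have d2 := d1.cos
      have d3 := d1.sin
      have d4 := d2.div d3 hs0
      have d5 : HasDerivAt (fun t : ℝ => (a + dy * t)) dy t := by
        have := ((hasDerivAt_id t).const_mul dy).const_add a
        simpa using this
      have d6 : HasDerivAt (fun t : ℝ => (a + dy * t) ^ 2) (2 * (a + dy * t) * dy) t := by
        have := d5.fun_pow 2
        simpa using this
      have d7 := d6.mul d4
      have d8 : HasDerivAt (fun t : ℝ => lam * h * t + dx * (2 * a * t + dy * t ^ 2))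
          (lam * h + dx * (2 * a + dy * (2 * t))) t := by
        have e1 : HasDerivAt (fun t : ℝ => lam * h * t) (lam * h) t := by
          simpa using (hasDerivAt_id t).const_mul (lam * h)
        have e2 : HasDerivAt (fun t : ℝ => 2 * a * t) (2 * a) t := by
          simpa using (hasDerivAt_id t).const_mul (2 * a)
        have e3 : HasDerivAt (fun t : ℝ => dy * t ^ 2) (dy * (2 * t)) t := by
          simpa using (hasDerivAt_pow 2 t).const_mul dy
        exact e1.add ((e2.add e3).const_mul dx)
      exact d8.sub d7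
    have hnn : ∀ t ∈ Set.Icc (0 : ℝ) 1, 0 ≤ G' t := by
      intro t ht
      have hs0 := hsin t ht
      set S := sin ((s + h * t) / lam) with hS
      set Cc := cos ((s + h * t) / lam) with hCc
      have hSC : S ^ 2 + Cc ^ 2 = 1 := sin_sq_add_cos_sq _
      set c := Cc / S with hc
      have hcS : Cc = c * S := by rw [hc]; field_simp
      have e1 : (-S * (h / lam) * S - Cc * (Cc * (h / lam))) / S ^ 2 = -(h / lam) * (1 + c ^ 2) := by
        rw [hcS]; field_simp; ring
      have e2 : G' t = lam * h + dx * (2 * a + dy * (2 * t)) -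
          (2 * (a + dy * t) * dy * c + (a + dy * t) ^ 2 * (-(h / lam) * (1 + c ^ 2))) := by
        rw [hG']; simp only; rw [← hS, ← hCc, ← hc, e1]
      have e3 : h * G' t = lam * (dx + (a + dy * t) * (h / lam)) ^ 2
          + lam * (dy - (a + dy * t) * (h / lam) * c) ^ 2 := by
        rw [e2]
        have hlam' := hlam.ne'
        field_simp
        have : h ^ 2 = dx ^ 2 + dy ^ 2 := hd.symm
        ring_nf
        rw [show h ^ 2 * lam ^ 2 = (dx ^ 2 + dy ^ 2) * lam ^ 2 by rw [this]]
        ring
      have e4 : 0 ≤ h * G' t := by rw [e3]; positivity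
      exact nonneg_of_mul_nonneg_right e4 hpos
    have hmono : MonotoneOn G (Set.Icc 0 1) := by
      apply monotoneOn_of_deriv_nonneg (convex_Icc 0 1)
      · intro t ht
        exact (hder t ht).continuousAt.continuousWithinAt
      · intro t ht
        exact (hder t (interior_subset ht)).differentiableAt.differentiableWithinAt
      · intro t ht
        rw [(hder t (interior_subset ht)).deriv]
        exact hnn t (interior_subset ht)
    have hfin := hmono (Set.left_mem_Icc.mpr zero_le_one) (Set.right_mem_Icc.mpr zero_le_one)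
      zero_le_one
    rw [hG] at hfin
    simp only [mul_zero, mul_one, add_zero, ne_eq, OfNat.ofNat_ne_zero, not_false_eq_true,
      zero_pow, one_pow, zero_sub] at hfin
    linarith

lemma T4_tele (lam off : ℝ) (hlam : 0 < lam) (x y h S : ℕ → ℝ) (hh : ∀ j, 0 ≤ h j)
    (hd : ∀ j, (x (j + 1) - x j) ^ 2 + (y (j + 1) - y j) ^ 2 = h j ^ 2)
    (hS : ∀ j, S (j + 1) = S j + h j) (a b : ℕ) (hab : a ≤ b) (ha : 0 < off + S a)
    (hb : off + S b < π * lam) :
    ∑ j ∈ Finset.Ico a b, -(x (j + 1) - x j) * (y j + y (j + 1)) ≤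
      lam * (S b - S a) + y a ^ 2 * (cos ((off + S a) / lam) / sin ((off + S a) / lam))
        - y b ^ 2 * (cos ((off + S b) / lam) / sin ((off + S b) / lam)) := by
  induction b, hab using Nat.le_induction with
  | base => simp
  | succ b hab ih =>
    have hSmono : Monotone S := monotone_nat_of_le_succ (fun n => by rw [hS]; linarith [hh n])
    have h1 : off + S b < π * lam := by
      have := hS b
      have := hh b
      linarith
    have ih' := ih h1
    rw [Finset.sum_Ico_succ_top hab]
    have h2 := T4_seg lam (off + S b) (h b) (y b) (x (b + 1) - x b) (y (b + 1) - y b) hlam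
      (lt_of_lt_of_le ha (by linarith [hSmono hab])) (hh b) (by have := hS b; linarith) (hd b)
    have e1 : off + S b + h b = off + S (b + 1) := by rw [hS b]; ring
    have e2 : y b + (y (b + 1) - y b) = y (b + 1) := by ring
    have e3 : 2 * y b + (y (b + 1) - y b) = y b + y (b + 1) := by ring
    rw [e1, e2, e3] at h2
    have e4 : lam * (S (b + 1) - S a) = lam * (S b - S a) + lam * h b := by rw [hS b]; ring
    linarith

/-- closed polygon, in coordinates such that the starting point and the half way point have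
`y = 0`. -/
lemma T4_core (k m : ℕ) (hm : m < k) (x y h S : ℕ → ℝ) (hh : ∀ j, 0 ≤ h j)
    (hd : ∀ j, (x (j + 1) - x j) ^ 2 + (y (j + 1) - y j) ^ 2 = h j ^ 2)
    (hS : ∀ j, S (j + 1) = S j + h j) (hS0 : S 0 = 0) (t : ℝ) (ht0 : 0 ≤ t) (ht1 : t ≤ 1)
    (hhalf : S m + t * h m = S k / 2) (hy0 : y 0 = 0) (hyk : y k = 0)
    (hyq : y m + t * (y (m + 1) - y m) = 0) :
    2 * π * ∑ j ∈ Finset.range k, -(x (j + 1) - x j) * (y j + y (j + 1)) ≤ S k ^ 2 := by
  have hSmono : Monotone S := monotone_nat_of_le_succ (fun n => by rw [hS]; linarith [hh n])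
  have hSk : 0 ≤ S k := by rw [← hS0]; exact hSmono (Nat.zero_le k)
  have key : ∀ lam : ℝ, S k / 2 < π * lam →
      ∑ j ∈ Finset.range k, -(x (j + 1) - x j) * (y j + y (j + 1)) ≤ lam * S k := by
    intro lam hl
    have hlam : 0 < lam := by
      have := pi_pos
      by_contra hcon
      have := mul_nonpos_of_nonneg_of_nonpos this.le (not_lt.mp hcon)
      linarith
    set ε := (π * lam - S k / 2) / 2 with hε
    have hε0 : 0 < ε := by rw [hε]; linarith
    have p1 := T4_tele lam ε hlam x y h S hh hd hS 0 m (Nat.zero_le m) (by rw [hS0]; linarith)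
      (by have := mul_nonneg ht0 (hh m); linarith)
    have p2 := T4_seg lam (ε + S m) (t * h m) (y m) (t * (x (m + 1) - x m))
      (t * (y (m + 1) - y m)) hlam (by have := hSmono (Nat.zero_le m); rw [hS0] at this; linarith)
      (mul_nonneg ht0 (hh m)) (by linarith) (by
        have := hd m
        calc (t * (x (m + 1) - x m)) ^ 2 + (t * (y (m + 1) - y m)) ^ 2
            = t ^ 2 * ((x (m + 1) - x m) ^ 2 + (y (m + 1) - y m) ^ 2) := by ring
          _ = (t * h m) ^ 2 := by rw [this]; ring)
    have p3 := T4_seg lam ε ((1 - t) * h m) 0 ((1 - t) * (x (m + 1) - x m))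
      ((1 - t) * (y (m + 1) - y m)) hlam hε0
      (mul_nonneg (by linarith) (hh m)) (by
        have h1 := hS m
        have h2 := hSmono (show m + 1 ≤ k by omega)
        nlinarith) (by
        have := hd m
        calc ((1 - t) * (x (m + 1) - x m)) ^ 2 + ((1 - t) * (y (m + 1) - y m)) ^ 2
            = (1 - t) ^ 2 * ((x (m + 1) - x m) ^ 2 + (y (m + 1) - y m) ^ 2) := by ring
          _ = ((1 - t) * h m) ^ 2 := by rw [this]; ring)
    have p4 := T4_tele lam (ε - S k / 2) hlam x y h S hh hd hS (m + 1) k (by omega)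
      (by
        have h1 := hS m
        have h2 := mul_nonneg (show 0 ≤ 1 - t by linarith) (hh m)
        nlinarith) (by linarith)
    have e1 : ε + (1 - t) * h m = ε - S k / 2 + S (m + 1) := by rw [hS m]; linarith
    have e2 : 0 + (1 - t) * (y (m + 1) - y m) = y (m + 1) := by linarith
    rw [hyq] at p2
    rw [e1, e2] at p3
    rw [hyk] at p4
    rw [hy0, hS0] at p1
    have hsum : ∑ j ∈ Finset.range k, -(x (j + 1) - x j) * (y j + y (j + 1))
        = ∑ j ∈ Finset.Ico 0 m, -(x (j + 1) - x j) * (y j + y (j + 1))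
          + (-(x (m + 1) - x m) * (y m + y (m + 1)))
          + ∑ j ∈ Finset.Ico (m + 1) k, -(x (j + 1) - x j) * (y j + y (j + 1)) := by
      rw [← Finset.sum_Ico_succ_top (Nat.zero_le m), Finset.sum_Ico_consecutive _ (Nat.zero_le _)
        (by omega), Finset.range_eq_Ico]
    rw [hsum]
    have e3 : -(x (m + 1) - x m) * (y m + y (m + 1)) =
        -(t * (x (m + 1) - x m)) * (2 * y m + t * (y (m + 1) - y m)) +
        -((1 - t) * (x (m + 1) - x m)) * (2 * 0 + (1 - t) * (y (m + 1) - y m)) := by
      have e4 : y m = - t * (y (m + 1) - y m) := by linarith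
      set D := y (m + 1) - y m with hD
      have e5 : y (m + 1) = y m + D := by rw [hD]; ring
      rw [e5, e4]; ring
    rw [e3]
    have e6 := hS m
    rw [e6] at p4 p3
    nlinarith
  rcases hSk.eq_or_lt with h0 | hpos
  · have h1 := key 1 (by rw [← h0]; have := pi_pos; linarith)
    rw [← h0] at h1 ⊢
    have := pi_pos
    nlinarith
  · by_contra hcon
    push Not at hcon
    set A := ∑ j ∈ Finset.range k, -(x (j + 1) - x j) * (y j + y (j + 1)) with hA
    have hpi := pi_pos
    have h1 : S k / (2 * π) < A / S k := by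
      rw [div_lt_div_iff₀ (by positivity) hpos]
      nlinarith
    have h2 := key ((S k / (2 * π) + A / S k) / 2) (by
      have : S k / 2 = π * (S k / (2 * π)) := by field_simp
      rw [this]
      apply mul_lt_mul_of_pos_left _ hpi
      linarith)
    have h3 : (S k / (2 * π) + A / S k) / 2 < A / S k := by linarith
    have h4 := mul_lt_mul_of_pos_right h3 hpos
    rw [div_mul_cancel₀ _ hpos.ne'] at h4
    linarith

lemma T4_closed (k : ℕ) (p : ℕ → ℂ) (hp : p k = p 0) :
    2 * π * ∑ j ∈ Finset.range k, ((starRingEnd ℂ) (p j) * p (j + 1)).im ≤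
      (∑ j ∈ Finset.range k, ‖p (j + 1) - p j‖) ^ 2 := by
  set h : ℕ → ℝ := fun j => ‖p (j + 1) - p j‖ with hh
  set S : ℕ → ℝ := fun n => ∑ j ∈ Finset.range n, h j with hS
  have hh0 : ∀ j, 0 ≤ h j := fun j => norm_nonneg _
  have hSs : ∀ j, S (j + 1) = S j + h j := fun j => Finset.sum_range_succ _ _
  have hS0 : S 0 = 0 := by simp [hS]
  have hSmono : Monotone S := monotone_nat_of_le_succ (fun n => by rw [hSs]; linarith [hh0 n])
  have hSk : 0 ≤ S k := by rw [← hS0]; exact hSmono (Nat.zero_le k)
  show 2 * π * ∑ j ∈ Finset.range k, ((starRingEnd ℂ) (p j) * p (j + 1)).im ≤ S k ^ 2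
  rcases hSk.eq_or_lt with h0 | hpos
  · -- constant polygon
    have hz : ∀ j ∈ Finset.range k, ((starRingEnd ℂ) (p j) * p (j + 1)).im = 0 := by
      intro j hj
      have h1 : h j = 0 := by
        have := (Finset.sum_eq_zero_iff_of_nonneg (fun j _ => hh0 j)).mp h0.symm
        exact this j hj
      have h2 : p (j + 1) = p j := by
        rw [hh] at h1
        exact sub_eq_zero.mp (norm_eq_zero.mp h1)
      rw [h2]
      simp [Complex.mul_im]
      ring
    rw [Finset.sum_eq_zero hz, ← h0]
    simp
  -- half way point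
  have hex : ∃ m, S k / 2 ≤ S (m + 1) := by
    have hk0 : k ≠ 0 := by
      rintro rfl
      rw [hS0] at hpos
      exact lt_irrefl _ hpos
    obtain ⟨n, hn⟩ := Nat.exists_eq_succ_of_ne_zero hk0
    refine ⟨n, ?_⟩
    rw [← Nat.succ_eq_add_one, ← hn]
    linarith
  classical
  set m := Nat.find hex with hm
  have hm1 : S k / 2 ≤ S (m + 1) := Nat.find_spec hex
  have hm2 : S m < S k / 2 := by
    rcases Nat.eq_zero_or_pos m with h1 | h1
    · rw [h1, hS0]; linarith
    · obtain ⟨n, hn⟩ := Nat.exists_eq_succ_of_ne_zero h1.ne'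
      have := Nat.find_min hex (show n < m by omega)
      rw [hn]
      exact not_le.mp this
  have hmk : m < k := by
    by_contra hcon
    have := hSmono (not_lt.mp hcon)
    linarith
  have hhm : 0 < h m := by have := hSs m; linarith
  set t : ℝ := (S k / 2 - S m) / h m with ht
  have hthm : t * h m = S k / 2 - S m := by rw [ht]; field_simp
  have ht0 : 0 ≤ t := div_nonneg (by linarith) hhm.le
  have ht1 : t ≤ 1 := by
    rw [ht, div_le_one hhm]
    have := hSs m
    linarith
  -- the frame
  set w : ℂ := p m + t * (p (m + 1) - p m) - p 0 with hw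
  obtain ⟨u, hu1, hu2⟩ : ∃ u : ℂ, ‖u‖ = 1 ∧ (u * w).im = 0 := by
    by_cases hw0 : w = 0
    · exact ⟨1, by simp, by simp [hw0]⟩
    · refine ⟨(starRingEnd ℂ) w / ‖w‖, ?_, ?_⟩
      · rw [norm_div, RCLike.norm_conj, Complex.norm_real, norm_norm]
        exact div_self (norm_ne_zero_iff.mpr hw0)
      · rw [div_mul_eq_mul_div, mul_comm, Complex.mul_conj, ← Complex.ofReal_div]
        exact Complex.ofReal_im _
  set r : ℕ → ℂ := fun j => u * (p j - p 0) with hr
  have hrk : r k = 0 := by rw [hr]; simp [hp]
  have hr0 : r 0 = 0 := by rw [hr]; simp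
  have hu3 : (starRingEnd ℂ) u * u = 1 := by
    rw [mul_comm, Complex.mul_conj, Complex.normSq_eq_norm_sq, hu1]; simp
  have hdr : ∀ j, r (j + 1) - r j = u * (p (j + 1) - p j) := by
    intro j; rw [hr]; ring
  have hnorm : ∀ j, ‖r (j + 1) - r j‖ = h j := by
    intro j; rw [hdr, norm_mul, hu1, one_mul]
  have harea : ∑ j ∈ Finset.range k, ((starRingEnd ℂ) (p j) * p (j + 1)).im
      = ∑ j ∈ Finset.range k, -((r (j + 1)).re - (r j).re) * ((r j).im + (r (j + 1)).im) := by
    have e1 : ∀ j, ((starRingEnd ℂ) (p j) * p (j + 1)).im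
        = -((r (j + 1)).re - (r j).re) * ((r j).im + (r (j + 1)).im)
          + ((((starRingEnd ℂ) (p 0) * p (j + 1)).im + (r (j + 1)).re * (r (j + 1)).im)
            - (((starRingEnd ℂ) (p 0) * p j).im + (r j).re * (r j).im)) := by
      intro j
      have e2 : ((starRingEnd ℂ) (r j) * r (j + 1)) =
          (starRingEnd ℂ) (p j - p 0) * (p (j + 1) - p 0) := by
        rw [hr]; simp only [map_mul]
        calc (starRingEnd ℂ) u * (starRingEnd ℂ) (p j - p 0) * (u * (p (j + 1) - p 0))
            = ((starRingEnd ℂ) u * u) * ((starRingEnd ℂ) (p j - p 0) * (p (j + 1) - p 0)) := by ring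
          _ = _ := by rw [hu3, one_mul]
      have e3 : ((starRingEnd ℂ) (r j) * r (j + 1)).im =
          (r j).re * (r (j + 1)).im - (r j).im * (r (j + 1)).re := by
        simp [Complex.mul_im]; ring
      have e4 : ((starRingEnd ℂ) (p j - p 0) * (p (j + 1) - p 0)).im =
          ((starRingEnd ℂ) (p j) * p (j + 1)).im - ((starRingEnd ℂ) (p 0) * p (j + 1)).im
            + ((starRingEnd ℂ) (p 0) * p j).im := by
        simp [Complex.mul_im]; ring
      rw [e2, e4] at e3
      linarith
    rw [Finset.sum_congr rfl (fun j _ => e1 j), Finset.sum_add_distrib, Finset.sum_range_sub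
      (fun j => ((starRingEnd ℂ) (p 0) * p j).im + (r j).re * (r j).im), hrk, hr0, hp]
    simp
  rw [harea]
  refine T4_core k m hmk (fun j => (r j).re) (fun j => (r j).im) h S hh0 ?_ hSs hS0 t ht0 ht1
    (by linarith) (by simp [hr0]) (by simp [hrk]) ?_
  · intro j
    rw [← hnorm j, ← Complex.normSq_eq_norm_sq, Complex.normSq_apply, Complex.sub_re,
      Complex.sub_im]
    ring
  · show (r m).im + t * ((r (m + 1)).im - (r m).im) = 0
    have e1 : u * w = r m + t * (r (m + 1) - r m) := by
      rw [hdr, hr, hw]; ring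
    rw [e1] at hu2
    simpa using hu2

/-- **T4**: isoperimetric inequality for a permutation of a finite set of points of the plane. -/
theorem T4 : Stmt_T4 := by
  intro ι C
  classical
  induction C using Finset.strongInduction with
  | H C ih =>
  intro F P hF hinj
  rcases C.eq_empty_or_nonempty with rfl | ⟨c0, hc0⟩
  · simp
  -- the orbit of c0
  have hiter : ∀ j, F^[j] c0 ∈ C := by
    intro j
    induction j with
    | zero => exact hc0
    | succ j ihj => rw [Function.iterate_succ_apply']; exact hF _ ihj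
  have hper : ∃ k, 0 < k ∧ F^[k] c0 = c0 := by
    -- pigeonhole
    obtain ⟨i, -, j, -, hij, heq⟩ : ∃ i ∈ (Finset.range (C.card + 1)), ∃ j ∈
        (Finset.range (C.card + 1)), i ≠ j ∧ F^[i] c0 = F^[j] c0 :=
      Finset.exists_ne_map_eq_of_card_lt_of_maps_to (by simp) (fun i _ => hiter i)
    have aux : ∀ i d, F^[i + d] c0 = F^[i] c0 → F^[d] c0 = c0 := by
      intro i
      induction i with
      | zero => intro d hd; simpa using hd
      | succ i ihi =>
        intro d hd
        apply ihi d
        apply hinj _ (hiter _) _ (hiter _)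
        rw [← Function.iterate_succ_apply' F (i + d) c0, ← Function.iterate_succ_apply' F i c0]
        rw [show (i + d).succ = i + 1 + d by omega]
        exact hd
    rcases lt_or_gt_of_ne hij with h | h
    · refine ⟨j - i, by omega, aux i (j - i) ?_⟩
      rw [show i + (j - i) = j by omega, heq]
    · refine ⟨i - j, by omega, aux j (i - j) ?_⟩
      rw [show j + (i - j) = i by omega, heq]
  set k := Nat.find hper with hk
  have hk1 : 0 < k := (Nat.find_spec hper).1
  have hk2 : F^[k] c0 = c0 := (Nat.find_spec hper).2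
  have hkinj : Set.InjOn (fun j => F^[j] c0) (Finset.range k : Set ℕ) := by
    intro i hi j hj hij
    have aux : ∀ i d, F^[i + d] c0 = F^[i] c0 → F^[d] c0 = c0 := by
      intro i
      induction i with
      | zero => intro d hd; simpa using hd
      | succ i ihi =>
        intro d hd
        apply ihi d
        apply hinj _ (hiter _) _ (hiter _)
        rw [← Function.iterate_succ_apply' F (i + d) c0, ← Function.iterate_succ_apply' F i c0]
        rw [show (i + d).succ = i + 1 + d by omega]
        exact hd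
    simp only [Finset.coe_range, Set.mem_Iio] at hi hj
    by_contra hne
    rcases lt_or_gt_of_ne hne with h | h
    · have := aux i (j - i) (by rw [show i + (j - i) = j by omega]; exact hij.symm)
      exact Nat.find_min hper (show j - i < k by omega) ⟨by omega, this⟩
    · have := aux j (i - j) (by rw [show j + (i - j) = i by omega]; exact hij)
      exact Nat.find_min hper (show i - j < k by omega) ⟨by omega, this⟩
  set O := (Finset.range k).image (fun j => F^[j] c0) with hO
  have hOC : O ⊆ C := by
    intro c hc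
    obtain ⟨j, _, rfl⟩ := Finset.mem_image.mp hc
    exact hiter j
  have hsumO : ∀ f : ι → ℝ, ∑ c ∈ O, f c = ∑ j ∈ Finset.range k, f (F^[j] c0) := by
    intro f
    rw [hO, Finset.sum_image hkinj]
  have hc0O : c0 ∈ O := Finset.mem_image.mpr ⟨0, Finset.mem_range.mpr hk1, rfl⟩
  have hFO : ∀ c ∈ C, F c ∈ O → c ∈ O := by
    intro c hc hFc
    obtain ⟨j, hj, hj2⟩ := Finset.mem_image.mp hFc
    have hj' := Finset.mem_range.mp hj
    rcases Nat.eq_zero_or_pos j with h0 | h0
    · subst h0
      -- F c = c0 = F (F^[k-1] c0)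
      have e1 : c = F^[k - 1] c0 := by
        apply hinj _ hc _ (hiter _)
        rw [← Function.iterate_succ_apply' F (k - 1) c0, show (k - 1).succ = k by omega, hk2]
        exact hj2.symm
      rw [e1]
      exact Finset.mem_image.mpr ⟨k - 1, Finset.mem_range.mpr (by omega), rfl⟩
    · have e1 : c = F^[j - 1] c0 := by
        apply hinj _ hc _ (hiter _)
        rw [← Function.iterate_succ_apply' F (j - 1) c0, show (j - 1).succ = j by omega]
        exact hj2.symm
      rw [e1]
      exact Finset.mem_image.mpr ⟨j - 1, Finset.mem_range.mpr (by omega), rfl⟩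
  have hssub : C \ O ⊂ C := by
    refine Finset.ssubset_iff_of_subset Finset.sdiff_subset |>.mpr ⟨c0, hc0, ?_⟩
    simp [hc0O]
  have ih1 := ih (C \ O) hssub F P (by
    intro c hc
    rw [Finset.mem_sdiff] at hc ⊢
    exact ⟨hF c hc.1, fun h => hc.2 (hFO c hc.1 h)⟩) (by
    intro c hc c' hc' h
    exact hinj c (Finset.mem_sdiff.mp hc).1 c' (Finset.mem_sdiff.mp hc').1 h)
  have ih2 := T4_closed k (fun j => P (F^[j] c0)) (by simp [hk2])
  have e1 : ∑ j ∈ Finset.range k, ((starRingEnd ℂ) (P (F^[j] c0)) * P (F^[j + 1] c0)).im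
      = ∑ c ∈ O, ((starRingEnd ℂ) (P c) * P (F c)).im := by
    rw [hsumO (fun c => ((starRingEnd ℂ) (P c) * P (F c)).im)]
    refine Finset.sum_congr rfl (fun j _ => ?_)
    rw [Function.iterate_succ_apply']
  have e2 : ∑ j ∈ Finset.range k, ‖P (F^[j + 1] c0) - P (F^[j] c0)‖
      = ∑ c ∈ O, ‖P (F c) - P c‖ := by
    rw [hsumO (fun c => ‖P (F c) - P c‖)]
    refine Finset.sum_congr rfl (fun j _ => ?_)
    rw [Function.iterate_succ_apply']
  rw [e1, e2] at ih2
  rw [← Finset.sum_sdiff hOC, ← Finset.sum_sdiff hOC (f := fun c => ‖P (F c) - P c‖)]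
  have n1 : 0 ≤ ∑ c ∈ C \ O, ‖P (F c) - P c‖ := Finset.sum_nonneg (fun _ _ => norm_nonneg _)
  have n2 : 0 ≤ ∑ c ∈ O, ‖P (F c) - P c‖ := Finset.sum_nonneg (fun _ _ => norm_nonneg _)
  have n3 := mul_nonneg n1 n2
  nlinarith

end Pool.Agent.Medial
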