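import Pool.Agent.Medial.T5b

/-!
# T5 : the slab inequality
-/

set_option autoImplicit false

namespace Pool.Agent.Medial

open scoped Real
open MeasureTheory intervalIntegral

namespace T5

open Classical in
/-- the darts -/
noncomputable def D {V : Type} (S : Finset V) (N : V → Finset V) : Finset (V × V) :=
  (S ×ˢ S).filter (fun p => p.2 ∈ N p.1)

/-- rotation of a facet -/
def rho {V : Type} (L : V → V → V) (p : V × V) : V × V := (p.2, L p.1 p.2)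

section

variable {V : Type} {S : Finset V} {N : V → Finset V} {L : V → V → V} {z : V → ℝ}
  (h : HMap S N L z)

lemma mem_D {p : V × V} : p ∈ D S N ↔ p.1 ∈ S ∧ p.2 ∈ S ∧ p.2 ∈ N p.1 := by
  classical
  unfold D
  rw [Finset.mem_filter, Finset.mem_product, and_assoc]

include h

lemma mem_D' {v w : V} (hv : v ∈ S) (hw : w ∈ N v) : (v, w) ∈ D S N :=
  mem_D.2 ⟨hv, h.mem v hv w hw, hw⟩

lemma sum_D (f : V → V → ℝ) :
    ∑ v ∈ S, ∑ w ∈ N v, f v w = ∑ p ∈ D S N, f p.1 p.2 := by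
  classical
  unfold D
  rw [Finset.sum_filter, Finset.sum_product]
  refine Finset.sum_congr rfl fun v hv => ?_
  rw [← Finset.sum_filter]
  refine Finset.sum_congr ?_ fun _ _ => rfl
  ext w
  rw [Finset.mem_filter]
  exact ⟨fun hw => ⟨h.mem v hv w hw, hw⟩, fun hw => hw.2⟩

lemma rho_mem {p : V × V} (hp : p ∈ D S N) : rho L p ∈ D S N := by
  obtain ⟨h1, h2, h3⟩ := mem_D.1 hp
  exact mem_D' h h2 (h.L_mem' _ h1 _ h3)

lemma rho_snd {p : V × V} (hp : p ∈ D S N) : L (rho L p).1 (rho L p).2 = p.1 := by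
  obtain ⟨h1, h2, h3⟩ := mem_D.1 hp
  exact h.rot _ h1 _ h3

lemma rho3 {p : V × V} (hp : p ∈ D S N) : rho L (rho L (rho L p)) = p := by
  have h1 := rho_snd h hp
  have h2 := rho_snd h (rho_mem h hp)
  have e1 : rho L (rho L p) = (L p.1 p.2, p.1) := by
    have : rho L (rho L p) = ((rho L p).2, L (rho L p).1 (rho L p).2) := rfl
    rw [this, h1]; rfl
  rw [e1] at h2 ⊢
  show (p.1, L (L p.1 p.2) p.1) = p
  have h3 : L (L p.1 p.2) p.1 = (rho L p).1 := h2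
  rw [h3]; rfl

lemma sum_rho (f : V × V → ℝ) : ∑ p ∈ D S N, f (rho L p) = ∑ p ∈ D S N, f p := by
  refine Finset.sum_nbij' (rho L) (fun p => rho L (rho L p)) ?_ ?_ ?_ ?_ ?_
  · intro p hp; exact rho_mem h hp
  · intro p hp; exact rho_mem h (rho_mem h hp)
  · intro p hp; exact rho3 h hp
  · intro p hp; exact rho3 h hp
  · intro p hp; rfl

lemma sum_rho3 (f : V × V → ℝ) :
    ∑ p ∈ D S N, (f p + f (rho L p) + f (rho L (rho L p))) = 3 * ∑ p ∈ D S N, f p := by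
  rw [Finset.sum_add_distrib, Finset.sum_add_distrib, sum_rho h f,
    sum_rho h (fun p => f (rho L p)), sum_rho h f]
  ring

lemma sum_antisymm (f : V → V → ℝ) (hf : ∀ v w, f w v = - f v w) :
    ∑ p ∈ D S N, f p.1 p.2 = 0 := by
  have e : ∑ p ∈ D S N, f p.1 p.2 = ∑ p ∈ D S N, f p.2 p.1 := by
    refine Finset.sum_nbij' Prod.swap Prod.swap ?_ ?_ ?_ ?_ ?_
    · intro p hp
      obtain ⟨h1, h2, h3⟩ := mem_D.1 hp
      exact mem_D.2 ⟨h2, h1, h.symm _ h1 _ h3⟩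
    · intro p hp
      obtain ⟨h1, h2, h3⟩ := mem_D.1 hp
      exact mem_D.2 ⟨h2, h1, h.symm _ h1 _ h3⟩
    · intro p hp; rfl
    · intro p hp; rfl
    · intro p hp; rfl
  have e2 : ∑ p ∈ D S N, f p.2 p.1 = - ∑ p ∈ D S N, f p.1 p.2 := by
    rw [← Finset.sum_neg_distrib]
    exact Finset.sum_congr rfl fun p _ => hf _ _
  linarith

/-- the third vertex, seen from the dart `p` -/
lemma facet_facts {v w : V} (hv : v ∈ S) (hw : w ∈ N v) :
    w ∈ S ∧ L v w ∈ S ∧ L v w ∈ N v ∧ L v w ∈ N w ∧ v ∈ N w ∧ v ∈ N (L v w) ∧ w ∈ N (L v w) ∧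
      L w (L v w) = v ∧ L (L v w) v = w ∧ z v ≠ z w ∧ z w ≠ z (L v w) ∧ z (L v w) ≠ z v := by
  have h1 := h.mem v hv w hw
  have h2 := h.L_mem v hv w hw
  have h3 := h.mem v hv _ h2
  have h4 := h.L_mem' v hv w hw
  have h5 := h.rot v hv w hw
  have h6 := h.rot w h1 _ h4
  rw [h5] at h6
  refine ⟨h1, h3, h2, h4, h.symm v hv w hw, h.symm v hv _ h2, h.symm w h1 _ h4, h5, h6,
    fun e => h.ne v hv w hw (h.inj v hv w h1 e).symm, fun e => h.L_ne v hv w hw (h.inj w h1 _ h3 e).symm,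
    fun e => h.ne v hv _ h2 (h.inj _ h3 v hv e)⟩

variable (z) in
open Classical in
/-- the crossing darts -/
noncomputable def Cr (S : Finset V) (N : V → Finset V) (s : ℝ) : Finset (V × V) :=
  (D S N).filter (fun p => s < z p.1 ∧ z p.2 < s)

omit h in
lemma mem_Cr {s : ℝ} {p : V × V} : p ∈ Cr z S N s ↔ p ∈ D S N ∧ s < z p.1 ∧ z p.2 < s := by
  classical
  unfold Cr
  rw [Finset.mem_filter]

/-- the next crossing dart -/
noncomputable def nxt (L : V → V → V) (z : V → ℝ) (s : ℝ) (p : V × V) : V × V :=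
  nx z s p.1 p.2 (L p.1 p.2)

lemma nxt_mem {s : ℝ} (hs : ∀ v ∈ S, z v ≠ s) {p : V × V} (hp : p ∈ Cr z S N s) :
    nxt L z s p ∈ Cr z S N s := by
  obtain ⟨hD, h1, h2⟩ := mem_Cr.1 hp
  obtain ⟨a1, a2, a3⟩ := mem_D.1 hD
  obtain ⟨f1, f2, f3, f4, f5, f6, f7, -⟩ := facet_facts h a1 a3
  unfold nxt nx
  by_cases hx : s < z (L p.1 p.2)
  · rw [if_pos hx]
    exact mem_Cr.2 ⟨mem_D.2 ⟨f2, f1, f7⟩, hx, h2⟩
  · rw [if_neg hx]
    exact mem_Cr.2 ⟨mem_D.2 ⟨a1, f2, f3⟩, h1, lt_of_le_of_ne (not_lt.1 hx) (hs _ f2)⟩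

lemma nxt_inj {s : ℝ} (hs : ∀ v ∈ S, z v ≠ s) {p q : V × V} (hp : p ∈ Cr z S N s)
    (hq : q ∈ Cr z S N s) (hpq : nxt L z s p = nxt L z s q) : p = q := by
  obtain ⟨hD, h1, h2⟩ := mem_Cr.1 hp
  obtain ⟨a1, a2, a3⟩ := mem_D.1 hD
  obtain ⟨f1, f2, f3, f4, f5, f6, f7, f8, f9, -⟩ := facet_facts h a1 a3
  obtain ⟨hD', h1', h2'⟩ := mem_Cr.1 hq
  obtain ⟨a1', a2', a3'⟩ := mem_D.1 hD'
  obtain ⟨f1', f2', f3', f4', f5', f6', f7', f8', f9', -⟩ := facet_facts h a1' a3'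
  unfold nxt nx at hpq
  by_cases hx : s < z (L p.1 p.2) <;> by_cases hx' : s < z (L q.1 q.2)
  · rw [if_pos hx, if_pos hx', Prod.mk.injEq] at hpq
    obtain ⟨e1, e2⟩ := hpq
    rw [e1, e2, f8'] at f8
    exact Prod.ext f8.symm e2
  · rw [if_pos hx, if_neg hx', Prod.mk.injEq] at hpq
    obtain ⟨e1, e2⟩ := hpq
    -- L p.1 p.2 = q.1, p.2 = L q.1 q.2
    exfalso
    rw [e1, e2, f9'] at f8
    rw [f8] at h2'
    linarith
  · rw [if_neg hx, if_pos hx', Prod.mk.injEq] at hpq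
    obtain ⟨e1, e2⟩ := hpq
    exfalso
    rw [← e1, ← e2, f9] at f8'
    rw [f8'] at h2
    linarith
  · rw [if_neg hx, if_neg hx', Prod.mk.injEq] at hpq
    obtain ⟨e1, e2⟩ := hpq
    refine Prod.ext e1 ?_
    rw [← f9, ← f9', e2, e1]

end

section

variable {V : Type} {S : Finset V} {N : V → Finset V} {L : V → V → V} {z : V → ℝ} {z0 : ℝ}
  (h : HMap S N L z) {ψ : V → ℂ} {e : V → V → ℂ}
  (he1 : ∀ v ∈ S, z0 < z v → ∀ w ∈ N v, ‖e v w‖ = 1 ∧ e v (L v w) = om * e v w)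
  (he2 : ∀ v ∈ S, z0 < z v → ∀ w ∈ N v, z0 < z w → e w v = - e v w ∧ ψ w = ψ v + e v w)
  {s : ℝ} (hs0 : z0 ≤ s) (hs : ∀ v ∈ S, z v ≠ s)

include h he1 he2 hs0 hs

lemma loc {p : V × V} (hp : p ∈ D S N) : Loc ψ e z s p.1 p.2 (L p.1 p.2) := by
  obtain ⟨a1, a2, a3⟩ := mem_D.1 hp
  obtain ⟨f1, f2, f3, f4, f5, f6, f7, f8, f9, -⟩ := facet_facts h a1 a3
  refine ⟨fun g => he1 _ a1 (by linarith) _ a3, fun g => ?_, fun g => ?_,
    fun g g' => he2 _ a1 (by linarith) _ a3 (by linarith),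
    fun g g' => he2 _ f1 (by linarith) _ f4 (by linarith),
    fun g g' => he2 _ f2 (by linarith) _ f6 (by linarith), hs _ a1, hs _ f1, hs _ f2⟩
  · have := he1 _ f1 (by linarith) _ f4
    rwa [f8] at this
  · have := he1 _ f2 (by linarith) _ f6
    rwa [f9] at this

lemma area_sum : √3 / 2 * ∑ p ∈ D S N,
      (open Classical in if s < z p.1 ∧ s < z p.2 ∧ s < z (L p.1 p.2) then (1 : ℝ) else 0) ≤
    3 * ∑ p ∈ D S N, K ψ e z s p.1 p.2 (L p.1 p.2) := by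
  classical
  have e1 : ∑ p ∈ D S N, Ar ψ e z s p.1 p.2 (L p.1 p.2) =
      3 * ∑ p ∈ D S N, K ψ e z s p.1 p.2 (L p.1 p.2) := by
    have e2 : ∀ p ∈ D S N, Ar ψ e z s p.1 p.2 (L p.1 p.2) =
        ((fun q : V × V => G ψ e z s q.1 q.2) p + (fun q : V × V => G ψ e z s q.1 q.2) (rho L p) +
          (fun q : V × V => G ψ e z s q.1 q.2) (rho L (rho L p))) +
        ((fun q : V × V => K ψ e z s q.1 q.2 (L q.1 q.2)) p +
          (fun q : V × V => K ψ e z s q.1 q.2 (L q.1 q.2)) (rho L p) +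
          (fun q : V × V => K ψ e z s q.1 q.2 (L q.1 q.2)) (rho L (rho L p))) := by
      intro p hp
      obtain ⟨a1, a2, a3⟩ := mem_D.1 hp
      obtain ⟨f1, f2, f3, f4, f5, f6, f7, f8, f9, -⟩ := facet_facts h a1 a3
      unfold Ar rho
      simp only [f8, f9]
      ring
    rw [Finset.sum_congr rfl e2, Finset.sum_add_distrib, sum_rho3 h, sum_rho3 h,
      sum_antisymm h (G ψ e z s) (fun v w => G_swap ψ e z s v w)]
    ring
  rw [← e1, Finset.mul_sum]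
  refine Finset.sum_le_sum fun p hp => ?_
  have hl := loc h he1 he2 hs0 hs hp
  by_cases hc : s < z p.1 ∧ s < z p.2 ∧ s < z (L p.1 p.2)
  · rw [if_pos hc, Ar_all hl hc.1 hc.2.1 hc.2.2, mul_one]
  · rw [if_neg hc, mul_zero]
    exact Ar_nonneg hl

lemma level (T4 : Stmt_T4) :
    π * √3 * (∑ p ∈ D S N,
      (open Classical in if s < z p.1 ∧ s < z p.2 ∧ s < z (L p.1 p.2) then (1 : ℝ) else 0)) / 3 ≤
    (∑ p ∈ D S N, cl (z p.1) (z p.2) (z (L p.1 p.2)) s) ^ 2 ∧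
    0 ≤ ∑ p ∈ D S N, cl (z p.1) (z p.2) (z (L p.1 p.2)) s := by
  classical
  have t4 := T4 (V × V) (Cr z S N s) (nxt L z s) (fun p => P ψ e z s p.1 p.2)
    (fun p hp => nxt_mem h hs hp) (fun p hp q hq hpq => nxt_inj h hs hp hq hpq)
  have e1 : ∑ c ∈ Cr z S N s, ((starRingEnd ℂ) (P ψ e z s c.1 c.2) *
      P ψ e z s (nxt L z s c).1 (nxt L z s c).2).im =
      ∑ p ∈ D S N, K ψ e z s p.1 p.2 (L p.1 p.2) := by
    unfold Cr K nxt
    rw [Finset.sum_filter]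
  have e2 : ∑ c ∈ Cr z S N s, ‖P ψ e z s (nxt L z s c).1 (nxt L z s c).2 - P ψ e z s c.1 c.2‖ =
      ∑ p ∈ D S N, cl (z p.1) (z p.2) (z (L p.1 p.2)) s := by
    unfold Cr
    rw [Finset.sum_filter]
    refine Finset.sum_congr rfl fun p hp => ?_
    by_cases hc : s < z p.1 ∧ z p.2 < s
    · rw [if_pos hc]
      exact len_eq (loc h he1 he2 hs0 hs hp) hc.1 hc.2
    · rw [if_neg hc]
      unfold cl
      rw [if_neg]
      exact fun h' => hc ⟨h'.2, h'.1⟩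
  have e3 := area_sum h he1 he2 hs0 hs
  rw [e1, e2] at t4
  constructor
  · refine le_trans ?_ t4
    have hpi := Real.pi_pos
    have := mul_le_mul_of_nonneg_left e3 hpi.le
    nlinarith
  · rw [← e2]
    exact Finset.sum_nonneg fun _ _ => norm_nonneg _

end

end T5

open T5 in
theorem T5_of (T3 : Stmt_T3) (T4 : Stmt_T4) : Stmt_T5 := by
  classical
  intro V S N L z z0 s1 s2 h hdeg hlow h01 h12
  obtain ⟨ψ, e, he1, he2⟩ := T3 V S N L z z0 h hdeg hlow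
  -- rewrite everything as sums over darts
  have c1 : ((∑ v ∈ S, ((N v).filter (fun w => s2 ≤ z v ∧ s2 ≤ z w ∧ s2 ≤ z (L v w))).card : ℕ) : ℝ)
      = ∑ p ∈ D S N, (if s2 ≤ z p.1 ∧ s2 ≤ z p.2 ∧ s2 ≤ z (L p.1 p.2) then (1 : ℝ) else 0) := by
    rw [← sum_D h (fun v w => if s2 ≤ z v ∧ s2 ≤ z w ∧ s2 ≤ z (L v w) then (1 : ℝ) else 0)]
    push_cast [Finset.card_filter]
    rfl
  have c2 : (∑ v ∈ S, ∑ w ∈ (N v).filter (fun w => s1 < max (z v) (max (z w) (z (L v w))) ∧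
            min (z v) (min (z w) (z (L v w))) < s2), √(Qf (z v) (z w) (z (L v w)))) =
      ∑ p ∈ D S N, (if s1 < max (z p.1) (max (z p.2) (z (L p.1 p.2))) ∧
            min (z p.1) (min (z p.2) (z (L p.1 p.2))) < s2 then
              √(Qf (z p.1) (z p.2) (z (L p.1 p.2))) else 0) := by
    rw [← sum_D h (fun v w => if s1 < max (z v) (max (z w) (z (L v w))) ∧
            min (z v) (min (z w) (z (L v w))) < s2 then
              √(Qf (z v) (z w) (z (L v w))) else 0)]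
    refine Finset.sum_congr rfl fun v hv => ?_
    rw [Finset.sum_filter]
  rw [c1, c2]
  set R : ℝ := √(π * √3 * (∑ p ∈ D S N,
    (if s2 ≤ z p.1 ∧ s2 ≤ z p.2 ∧ s2 ≤ z (L p.1 p.2) then (1 : ℝ) else 0)) / 3) with hR
  -- the tent functions
  have hΦ' : ∀ p : V × V, ∃ Φ : ℝ → ℝ, p ∈ D S N → (Continuous Φ ∧
    (∀ s, s ≠ z p.1 → s ≠ z p.2 → s ≠ z (L p.1 p.2) →
      cl (z p.1) (z p.2) (z (L p.1 p.2)) s + cl (z p.2) (z (L p.1 p.2)) (z p.1) s +
        cl (z (L p.1 p.2)) (z p.1) (z p.2) s = Φ s) ∧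
    (∀ s, s ≤ min (z p.1) (min (z p.2) (z (L p.1 p.2))) → Φ s = 0) ∧
    (∀ s, max (z p.1) (max (z p.2) (z (L p.1 p.2))) ≤ s → Φ s = 0) ∧
    ∀ s1 s2, s1 < s2 → ∫ s in s1..s2, Φ s ≤ √(Qf (z p.1) (z p.2) (z (L p.1 p.2))) / (2 * √2)) := by
    intro p
    by_cases hp : p ∈ D S N
    · obtain ⟨a1, a2, a3⟩ := mem_D.1 hp
      obtain ⟨f1, f2, f3, f4, f5, f6, f7, f8, f9, g1, g2, g3⟩ := facet_facts h a1 a3
      obtain ⟨Φ, hΦ⟩ := good g1 g2 g3
      exact ⟨Φ, fun _ => hΦ⟩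
    · exact ⟨0, fun h => absurd h hp⟩
  choose Φ hΦ using hΦ'
  -- pointwise inequality
  have pw : ∀ s, s1 < s → s < s2 → (∀ v ∈ S, z v ≠ s) → R ≤ (∑ p ∈ D S N, Φ p s) / 3 := by
    intro s hs1 hs2 hs
    obtain ⟨l1, l2⟩ := level h he1 he2 (by linarith : z0 ≤ s) hs T4
    have e1 : ∑ p ∈ D S N, Φ p s = 3 * ∑ p ∈ D S N, cl (z p.1) (z p.2) (z (L p.1 p.2)) s := by
      rw [← sum_rho3 h (fun p => cl (z p.1) (z p.2) (z (L p.1 p.2)) s)]
      refine Finset.sum_congr rfl fun p hp => ?_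
      obtain ⟨a1, a2, a3⟩ := mem_D.1 hp
      obtain ⟨f1, f2, f3, f4, f5, f6, f7, f8, f9, g1, g2, g3⟩ := facet_facts h a1 a3
      rw [← (hΦ p hp).2.1 s (hs _ a1).symm (hs _ f1).symm (hs _ f2).symm]
      unfold rho
      simp only [f8, f9]
    rw [e1, mul_div_cancel_left₀ _ (by norm_num : (3 : ℝ) ≠ 0), hR]
    refine Real.sqrt_le_iff.2 ⟨l2, le_trans ?_ l1⟩
    have : (∑ p ∈ D S N, (if s2 ≤ z p.1 ∧ s2 ≤ z p.2 ∧ s2 ≤ z (L p.1 p.2) then (1 : ℝ) else 0)) ≤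
      ∑ p ∈ D S N, (if s < z p.1 ∧ s < z p.2 ∧ s < z (L p.1 p.2) then (1 : ℝ) else 0) := by
      refine Finset.sum_le_sum fun p _ => ?_
      by_cases hc : s2 ≤ z p.1 ∧ s2 ≤ z p.2 ∧ s2 ≤ z (L p.1 p.2)
      · rw [if_pos hc, if_pos ⟨by linarith [hc.1], by linarith [hc.2.1], by linarith [hc.2.2]⟩]
      · rw [if_neg hc]; split_ifs <;> norm_num
    have hpos : 0 ≤ π * √3 := by positivity
    have := mul_le_mul_of_nonneg_left this hpos
    linarith
  have hcont : ∀ p ∈ D S N, Continuous (Φ p) := fun p hp => (hΦ p hp).1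
  have hint : (s2 - s1) * R ≤ ∫ s in s1..s2, (∑ p ∈ D S N, Φ p s) / 3 := by
    have e1 : (s2 - s1) * R = ∫ _ in s1..s2, R := by simp
    rw [e1]
    apply integral_mono_ae_restrict h12.le (by simp)
    · apply Continuous.intervalIntegrable
      exact (continuous_finsetSum _ hcont).div_const _
    · rw [Filter.EventuallyLE, ae_restrict_iff' measurableSet_Icc]
      have hfin : (((S.image z : Finset ℝ) : Set ℝ) ∪ {s1, s2}).Finite :=
        (Finset.finite_toSet _).union (Set.toFinite _)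
      have := hfin.measure_zero (μ := volume)
      filter_upwards [compl_mem_ae_iff.2 this] with s hs hs'
      simp only [Set.mem_compl_iff, Set.mem_union, Finset.mem_coe, Finset.mem_image,
        Set.mem_insert_iff, Set.mem_singleton_iff, not_or, not_exists, not_and] at hs
      obtain ⟨b1, b2, b3⟩ := hs
      exact pw s (lt_of_le_of_ne hs'.1 (Ne.symm b2)) (lt_of_le_of_ne hs'.2 b3) b1
  refine hint.trans ?_
  rw [intervalIntegral.integral_div, intervalIntegral.integral_finsetSum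
    (fun p hp => (hcont p hp).intervalIntegrable _ _)]
  have e1 : ∑ p ∈ D S N, ∫ s in s1..s2, Φ p s ≤ ∑ p ∈ D S N,
      (if s1 < max (z p.1) (max (z p.2) (z (L p.1 p.2))) ∧
            min (z p.1) (min (z p.2) (z (L p.1 p.2))) < s2 then
              √(Qf (z p.1) (z p.2) (z (L p.1 p.2))) else 0) / (2 * √2) := by
    refine Finset.sum_le_sum fun p hp => ?_
    obtain ⟨p1, p2, p3, p4, p5⟩ := hΦ p hp
    by_cases hc : s1 < max (z p.1) (max (z p.2) (z (L p.1 p.2))) ∧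
            min (z p.1) (min (z p.2) (z (L p.1 p.2))) < s2
    · rw [if_pos hc]
      exact p5 s1 s2 h12
    · rw [if_neg hc, zero_div]
      apply le_of_eq
      rw [integral_congr (g := fun _ => (0 : ℝ))]
      · simp
      · intro s hs
        rw [Set.uIcc_of_le h12.le] at hs
        rcases not_and_or.1 hc with hc | hc
        · exact p4 s ((not_lt.1 hc).trans hs.1)
        · exact p3 s (hs.2.trans (not_lt.1 hc))
  rw [← Finset.sum_div] at e1
  calc (∑ p ∈ D S N, ∫ s in s1..s2, Φ p s) / 3 ≤ _ := div_le_div_of_nonneg_right e1 (by norm_num)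
    _ = _ := by rw [div_div]; ring_nf

end Pool.Agent.Medial
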