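import Pool.Agent.Medial.Defs

/-!
# T5a : local (per facet) computations for the slab inequality
-/

set_option autoImplicit false

namespace Pool.Agent.Medial

open scoped Real

namespace T5

open Classical in
/-- Length of the part of the level line at height `s` inside the flat unit triangle with vertex
heights `a,b,c`, attributed to the dart `(a,b)` (nonzero only if the dart crosses downwards). -/
noncomputable def cl (a b c s : ℝ) : ℝ :=
  if b < s ∧ s < a then
    if s < c then (s - b) * √((1 / (c - b)) ^ 2 + (1 / (a - b)) ^ 2 - 1 / (c - b) * (1 / (a - b)))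
    else (a - s) * √((1 / (a - c)) ^ 2 + (1 / (a - b)) ^ 2 - 1 / (a - c) * (1 / (a - b)))
  else 0

lemma om_re : om.re = 1 / 2 := rfl
lemma om_im : om.im = √3 / 2 := rfl

lemma om_sq : om ^ 2 = om - 1 := by
  have h3 : √3 * √3 = (3 : ℝ) := Real.mul_self_sqrt (by norm_num)
  apply Complex.ext
  · simp only [pow_two, Complex.mul_re, om_re, om_im, Complex.sub_re, Complex.one_re]
    nlinarith
  · simp only [pow_two, Complex.mul_im, om_re, om_im, Complex.sub_im, Complex.one_im]
    ring

lemma norm_pq (p q : ℝ) : ‖(p : ℂ) * om - (q : ℂ)‖ = √(p ^ 2 + q ^ 2 - p * q) := by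
  have h3 : √3 * √3 = (3 : ℝ) := Real.mul_self_sqrt (by norm_num)
  rw [Complex.norm_def, Complex.normSq_apply]
  congr 1
  simp only [Complex.sub_re, Complex.mul_re, Complex.ofReal_re, om_re, Complex.ofReal_im, om_im,
    Complex.sub_im, Complex.mul_im]
  nlinarith

section

variable {V : Type} (ψ : V → ℂ) (e : V → V → ℂ) (z : V → ℝ) (s : ℝ)

/-- crossing point of the dart `v → w` -/
noncomputable def P (v w : V) : ℂ := ψ v + (((z v - s) / (z v - z w) : ℝ) : ℂ) * e v w

open Classical in
/-- contribution of (the part above `s` of) an edge -/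
noncomputable def G (v w : V) : ℝ :=
  if s < z v then
    (if s < z w then ((starRingEnd ℂ) (ψ v) * ψ w).im else ((starRingEnd ℂ) (ψ v) * P ψ e z s v w).im)
  else
    (if s < z w then ((starRingEnd ℂ) (P ψ e z s w v) * ψ w).im else 0)

open Classical in
/-- the dart following the crossing dart `(v,w)` on the level curve -/
noncomputable def nx (v w x : V) : V × V := if s < z x then (x, w) else (v, x)

open Classical in
/-- contribution of the crossing segment -/
noncomputable def K (v w x : V) : ℝ :=
  if s < z v ∧ z w < s then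
    ((starRingEnd ℂ) (P ψ e z s v w) * P ψ e z s (nx z s v w x).1 (nx z s v w x).2).im else 0

lemma im_conj_swap (a b : ℂ) : ((starRingEnd ℂ) a * b).im = - ((starRingEnd ℂ) b * a).im := by
  simp only [Complex.mul_im, Complex.conj_re, Complex.conj_im]; ring

lemma G_swap (v w : V) : G ψ e z s w v = - G ψ e z s v w := by
  unfold G
  by_cases h1 : s < z v <;> by_cases h2 : s < z w <;> simp only [h1, h2, if_true, if_false]
  · exact im_conj_swap _ _
  · exact im_conj_swap _ _
  · exact im_conj_swap _ _
  · simp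

/-- local data of a facet `(v,w,x)` -/
structure Loc (v w x : V) : Prop where
  hv : s < z v → ‖e v w‖ = 1 ∧ e v x = om * e v w
  hw : s < z w → ‖e w x‖ = 1 ∧ e w v = om * e w x
  hx : s < z x → ‖e x v‖ = 1 ∧ e x w = om * e x v
  hvw : s < z v → s < z w → e w v = - e v w ∧ ψ w = ψ v + e v w
  hwx : s < z w → s < z x → e x w = - e w x ∧ ψ x = ψ w + e w x
  hxv : s < z x → s < z v → e v x = - e x v ∧ ψ v = ψ x + e x v
  nv : z v ≠ s
  nw : z w ≠ s
  nx' : z x ≠ s

variable {ψ e z s}

lemma Loc.rot {v w x : V} (h : Loc ψ e z s v w x) : Loc ψ e z s w x v :=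
  ⟨h.hw, h.hx, h.hv, h.hwx, h.hxv, h.hvw, h.nw, h.nx', h.nv⟩

variable (ψ e z s) in
/-- twice the area of the part of the facet above `s` -/
noncomputable def Ar (v w x : V) : ℝ :=
  G ψ e z s v w + G ψ e z s w x + G ψ e z s x v + K ψ e z s v w x + K ψ e z s w x v + K ψ e z s x v w

lemma Ar_rot (v w x : V) : Ar ψ e z s v w x = Ar ψ e z s w x v := by
  unfold Ar; ring

lemma sq_of_norm {c : ℂ} (h : ‖c‖ = 1) : c.re * c.re + c.im * c.im = 1 := by
  rw [← Complex.normSq_apply, Complex.normSq_eq_norm_sq, h]; norm_num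

lemma Ar_all {v w x : V} (h : Loc ψ e z s v w x) (hv : s < z v) (hw : s < z w) (hx : s < z x) :
    Ar ψ e z s v w x = √3 / 2 := by
  have h1 : ψ w = ψ v + e v w := (h.hvw hv hw).2
  have h2 : ψ x = ψ v + om * e v w := by
    have := (h.hxv hx hv)
    rw [this.2, add_assoc, ← (h.hv hv).2, this.1]; ring
  have h3 := sq_of_norm (h.hv hv).1
  have e1 : ¬ z w < s := not_lt.2 hw.le
  have e2 : ¬ z x < s := not_lt.2 hx.le
  have e3 : ¬ z v < s := not_lt.2 hv.le
  unfold Ar G K
  simp only [hv, hw, hx, e1, e2, e3, if_true, and_false, if_false]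
  rw [h1, h2]
  simp only [Complex.mul_im, Complex.conj_re, Complex.conj_im, Complex.add_re, Complex.add_im,
    Complex.mul_re, om_re, om_im]
  linear_combination (√3 / 2) * h3

lemma Ar_none {v w x : V} (hv : z v < s) (hw : z w < s) (hx : z x < s) :
    Ar ψ e z s v w x = 0 := by
  have e1 : ¬ s < z w := not_lt.2 hw.le
  have e2 : ¬ s < z x := not_lt.2 hx.le
  have e3 : ¬ s < z v := not_lt.2 hv.le
  unfold Ar G K
  simp only [e1, e2, e3, false_and, if_false, add_zero]

lemma Ar_one {v w x : V} (h : Loc ψ e z s v w x) (hv : s < z v) (hw : z w < s) (hx : z x < s) :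
    0 ≤ Ar ψ e z s v w x := by
  have e1 : ¬ s < z w := not_lt.2 hw.le
  have e2 : ¬ s < z x := not_lt.2 hx.le
  have e3 : ¬ z v < s := not_lt.2 hv.le
  have h3 := sq_of_norm (h.hv hv).1
  have h4 := (h.hv hv).2
  have t1 : 0 ≤ (z v - s) / (z v - z w) := div_nonneg (by linarith) (by linarith)
  have t2 : 0 ≤ (z v - s) / (z v - z x) := div_nonneg (by linarith) (by linarith)
  have key : Ar ψ e z s v w x =
      ((z v - s) / (z v - z w)) * ((z v - s) / (z v - z x)) * (√3 / 2) := by
    unfold Ar G K nx
    simp only [hv, hw, e1, e2, e3, if_true, and_self, if_false, false_and, P]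
    rw [h4]
    generalize (z v - s) / (z v - z w) = t
    generalize (z v - s) / (z v - z x) = t'
    simp only [Complex.mul_im, Complex.conj_re, Complex.conj_im, Complex.add_re, Complex.add_im,
      Complex.mul_re, om_re, om_im, Complex.ofReal_re, Complex.ofReal_im]
    linear_combination (t * t' * √3 / 2) * h3
  rw [key]
  positivity

lemma e_xw {v w x : V} (h : Loc ψ e z s v w x) (hv : s < z v) (hx : s < z x) :
    e x w = - (om ^ 2) * e v w ∧ ψ x = ψ v + om * e v w := by
  have h1 := (h.hx hx).2
  have h2 := (h.hxv hx hv)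
  have h3 := (h.hv hv).2
  have h4 : e x v = - (om * e v w) := by rw [← h3, h2.1]; ring
  refine ⟨by rw [h1, h4]; ring, ?_⟩
  have := h2.2
  rw [this, h4]; ring

lemma Ar_two {v w x : V} (h : Loc ψ e z s v w x) (hv : s < z v) (hw : z w < s) (hx : s < z x) :
    0 ≤ Ar ψ e z s v w x := by
  have e1 : ¬ s < z w := not_lt.2 hw.le
  have e2 : ¬ z x < s := not_lt.2 hx.le
  have e3 : ¬ z v < s := not_lt.2 hv.le
  have h3 := sq_of_norm (h.hv hv).1
  obtain ⟨h4, h5⟩ := e_xw h hv hx
  have t1 : 0 ≤ (z v - s) / (z v - z w) := div_nonneg (by linarith) (by linarith)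
  have t2 : 0 ≤ (z x - s) / (z x - z w) := div_nonneg (by linarith) (by linarith)
  have t3 : (z x - s) / (z x - z w) ≤ 1 := by rw [div_le_one (by linarith)]; linarith
  have key : Ar ψ e z s v w x =
      (((z v - s) / (z v - z w)) * (1 - (z x - s) / (z x - z w)) + (z x - s) / (z x - z w)) *
        (√3 / 2) := by
    unfold Ar G K nx
    simp only [hv, hx, hw, e1, e2, e3, if_true, and_self, if_false, and_false, P]
    rw [h4, h5, om_sq]
    generalize (z v - s) / (z v - z w) = t
    generalize (z x - s) / (z x - z w) = t'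
    simp only [Complex.mul_im, Complex.conj_re, Complex.conj_im, Complex.add_re, Complex.add_im,
      Complex.mul_re, om_re, om_im, Complex.ofReal_re, Complex.ofReal_im, Complex.neg_re,
      Complex.neg_im, Complex.sub_re, Complex.sub_im, Complex.one_re, Complex.one_im]
    linear_combination ((t * (1 - t') + t') * √3 / 2) * h3
  rw [key]
  have : 0 ≤ 1 - (z x - s) / (z x - z w) := by linarith
  positivity

lemma Ar_nonneg {v w x : V} (h : Loc ψ e z s v w x) : 0 ≤ Ar ψ e z s v w x := by
  rcases lt_or_gt_of_ne h.nv with hv | hv <;> rcases lt_or_gt_of_ne h.nw with hw | hw <;>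
    rcases lt_or_gt_of_ne h.nx' with hx | hx
  · rw [Ar_none hv hw hx]
  · rw [Ar_rot, Ar_rot]; exact Ar_one h.rot.rot hx hv hw
  · rw [Ar_rot]; exact Ar_one h.rot hw hx hv
  · -- w, x above, v below: canonical form: (x, v, w): x above, v below, w above
    rw [Ar_rot, Ar_rot]; exact Ar_two h.rot.rot hx hv hw
  · exact Ar_one h hv hw hx
  · exact Ar_two h hv hw hx
  · -- v, w above, x below: canonical form (w, x, v)
    rw [Ar_rot]; exact Ar_two h.rot hw hx hv
  · rw [Ar_all h hv hw hx]; positivity

/-- length of the crossing segment -/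
lemma len_eq {v w x : V} (h : Loc ψ e z s v w x) (hv : s < z v) (hw : z w < s) :
    ‖P ψ e z s (nx z s v w x).1 (nx z s v w x).2 - P ψ e z s v w‖ = cl (z v) (z w) (z x) s := by
  unfold cl nx
  by_cases hx : s < z x
  · simp only [hx, hw, hv, and_self, if_true]
    obtain ⟨h4, h5⟩ := e_xw h hv hx
    have hvw : z v - z w ≠ 0 := by linarith
    have hxw : z x - z w ≠ 0 := by linarith
    have key : P ψ e z s x w - P ψ e z s v w =
        (((s - z w : ℝ) : ℂ) * (((1 / (z x - z w) : ℝ) : ℂ) * om -
          ((1 / (z x - z w) - 1 / (z v - z w) : ℝ) : ℂ))) * e v w := by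
      unfold P
      rw [h4, h5, om_sq]
      have a1 : (z v - s) / (z v - z w) = 1 - (s - z w) * (1 / (z v - z w)) := by
        field_simp; ring
      have a2 : (z x - s) / (z x - z w) = 1 - (s - z w) * (1 / (z x - z w)) := by
        field_simp; ring
      rw [a1, a2]
      push_cast
      ring
    rw [key, norm_mul, (h.hv hv).1, mul_one, norm_mul, norm_pq, Complex.norm_real,
      Real.norm_of_nonneg (by linarith)]
    congr 2
    ring
  · simp only [hx, hw, hv, and_self, if_true, if_false]
    have hx' : z x < s := lt_of_le_of_ne (not_lt.1 hx) h.nx'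
    have hvw : z v - z w ≠ 0 := by linarith
    have hvx : z v - z x ≠ 0 := by linarith
    have key : P ψ e z s v x - P ψ e z s v w =
        (((z v - s : ℝ) : ℂ) * (((1 / (z v - z x) : ℝ) : ℂ) * om -
          ((1 / (z v - z w) : ℝ) : ℂ))) * e v w := by
      unfold P
      rw [(h.hv hv).2]
      push_cast
      field_simp
      ring
    rw [key, norm_mul, (h.hv hv).1, mul_one, norm_mul, norm_pq, Complex.norm_real,
      Real.norm_of_nonneg (by linarith)]

end

end T5

end Pool.Agent.Medial
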