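import Pool.Agent.Medial.T5a

/-!
# T5b : the coarea inequality for a single triangle
-/

set_option autoImplicit false

namespace Pool.Agent.Medial

open scoped Real
open MeasureTheory intervalIntegral

namespace T5

/-- The property to be proved for the heights `a,b,c`. -/
def Good (a b c : ℝ) : Prop :=
  ∃ Φ : ℝ → ℝ, Continuous Φ ∧
    (∀ s, s ≠ a → s ≠ b → s ≠ c → cl a b c s + cl b c a s + cl c a b s = Φ s) ∧
    (∀ s, s ≤ min a (min b c) → Φ s = 0) ∧
    (∀ s, max a (max b c) ≤ s → Φ s = 0) ∧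
    ∀ s1 s2, s1 < s2 → ∫ s in s1..s2, Φ s ≤ √(Qf a b c) / (2 * √2)

lemma Good.rot {a b c : ℝ} (h : Good a b c) : Good b c a := by
  obtain ⟨Φ, h1, h2, h3, h4, h5⟩ := h
  refine ⟨Φ, h1, ?_, ?_, ?_, ?_⟩
  · intro s hb hc ha
    rw [← h2 s ha hb hc]; ring
  · intro s hs
    apply h3
    simp only [le_min_iff] at hs ⊢
    tauto
  · intro s hs
    apply h4
    simp only [max_le_iff] at hs ⊢
    tauto
  · intro s1 s2 h
    have : Qf b c a = Qf a b c := by unfold Qf; ring
    rw [this]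
    exact h5 s1 s2 h

/-- the tent function -/
noncomputable def tent (k1 k2 h1 h3 s : ℝ) : ℝ := max 0 (min (k1 * (h1 - s)) (k2 * (s - h3)))

lemma tent_cont (k1 k2 h1 h3 : ℝ) : Continuous (tent k1 k2 h1 h3) := by
  unfold tent; fun_prop

lemma tent_nonneg (k1 k2 h1 h3 s : ℝ) : 0 ≤ tent k1 k2 h1 h3 s := le_max_left _ _

lemma tent_low {k1 k2 h1 h3 s : ℝ} (hk : 0 ≤ k2) (h : s ≤ h3) : tent k1 k2 h1 h3 s = 0 := by
  unfold tent
  apply max_eq_left
  exact (min_le_right _ _).trans (mul_nonpos_of_nonneg_of_nonpos hk (by linarith))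

lemma tent_high {k1 k2 h1 h3 s : ℝ} (hk : 0 ≤ k1) (h : h1 ≤ s) : tent k1 k2 h1 h3 s = 0 := by
  unfold tent
  apply max_eq_left
  exact (min_le_left _ _).trans (mul_nonpos_of_nonneg_of_nonpos hk (by linarith))

section

variable {h1 h2 h3 k1 k2 : ℝ} (h12 : h2 < h1) (h23 : h3 < h2) (hk1 : 0 ≤ k1) (hk2 : 0 ≤ k2)
  (hM : k1 * (h1 - h2) = k2 * (h2 - h3))

include h12 h23 hk1 hk2 hM

lemma tent_up {s : ℝ} (ha : h2 ≤ s) (hb : s ≤ h1) : tent k1 k2 h1 h3 s = k1 * (h1 - s) := by
  unfold tent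
  have e1 : k1 * (h1 - s) ≤ k1 * (h1 - h2) := mul_le_mul_of_nonneg_left (by linarith) hk1
  have e2 : k2 * (h2 - h3) ≤ k2 * (s - h3) := mul_le_mul_of_nonneg_left (by linarith) hk2
  rw [min_eq_left (by linarith), max_eq_right (mul_nonneg hk1 (by linarith))]

lemma tent_down {s : ℝ} (ha : h3 ≤ s) (hb : s ≤ h2) : tent k1 k2 h1 h3 s = k2 * (s - h3) := by
  unfold tent
  have e1 : k1 * (h1 - h2) ≤ k1 * (h1 - s) := mul_le_mul_of_nonneg_left (by linarith) hk1
  have e2 : k2 * (s - h3) ≤ k2 * (h2 - h3) := mul_le_mul_of_nonneg_left (by linarith) hk2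
  rw [min_eq_right (by linarith), max_eq_right (mul_nonneg hk2 (by linarith))]

lemma tent_int {s1 s2 : ℝ} (h : s1 < s2) :
    ∫ s in s1..s2, tent k1 k2 h1 h3 s ≤ k1 * (h1 - h2) * (h1 - h3) / 2 := by
  have hi : ∀ a b : ℝ, IntervalIntegrable (tent k1 k2 h1 h3) volume a b :=
    fun a b => (tent_cont k1 k2 h1 h3).intervalIntegrable a b
  have e1 : ∫ s in s1..s2, tent k1 k2 h1 h3 s ≤
      ∫ s in (min s1 h3)..(max s2 h1), tent k1 k2 h1 h3 s := by
    apply integral_mono_interval (min_le_left _ _) h.le (le_max_left _ _)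
    · exact Filter.Eventually.of_forall fun s => tent_nonneg _ _ _ _ s
    · exact hi _ _
  have e2 : ∫ s in (min s1 h3)..h3, tent k1 k2 h1 h3 s = 0 := by
    rw [integral_congr (g := fun _ => (0 : ℝ))]
    · simp
    · intro s hs
      rw [Set.uIcc_of_le (min_le_right _ _)] at hs
      exact tent_low hk2 hs.2
  have e3 : ∫ s in h1..(max s2 h1), tent k1 k2 h1 h3 s = 0 := by
    rw [integral_congr (g := fun _ => (0 : ℝ))]
    · simp
    · intro s hs
      rw [Set.uIcc_of_le (le_max_right _ _)] at hs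
      exact tent_high hk1 hs.1
  have e4 : ∫ s in h3..h2, tent k1 k2 h1 h3 s = k2 * (h2 - h3) ^ 2 / 2 := by
    rw [integral_congr (g := fun s => k2 * (s - h3))]
    · rw [intervalIntegral.integral_const_mul, intervalIntegral.integral_sub (by simp) (by simp)]
      simp only [integral_id, intervalIntegral.integral_const, smul_eq_mul]
      ring
    · intro s hs
      rw [Set.uIcc_of_le h23.le] at hs
      exact tent_down h12 h23 hk1 hk2 hM hs.1 hs.2
  have e5 : ∫ s in h2..h1, tent k1 k2 h1 h3 s = k1 * (h1 - h2) ^ 2 / 2 := by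
    rw [integral_congr (g := fun s => k1 * (h1 - s))]
    · rw [intervalIntegral.integral_const_mul, intervalIntegral.integral_sub (by simp) (by simp)]
      simp only [integral_id, intervalIntegral.integral_const, smul_eq_mul]
      ring
    · intro s hs
      rw [Set.uIcc_of_le h12.le] at hs
      exact tent_up h12 h23 hk1 hk2 hM hs.1 hs.2
  rw [← integral_add_adjacent_intervals (hi (min s1 h3) h3) (hi h3 (max s2 h1)),
    ← integral_add_adjacent_intervals (hi h3 h2) (hi h2 (max s2 h1)),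
    ← integral_add_adjacent_intervals (hi h2 h1) (hi h1 (max s2 h1)), e2, e3, e4, e5] at e1
  have : k2 * (h2 - h3) ^ 2 = k1 * (h1 - h2) * (h2 - h3) := by rw [hM]; ring
  nlinarith

end

lemma k_eq1 {h1 h2 h3 : ℝ} (h12 : h2 < h1) (h23 : h3 < h2) :
    √((1 / (h1 - h3)) ^ 2 + (1 / (h1 - h2)) ^ 2 - 1 / (h1 - h3) * (1 / (h1 - h2))) =
      √(Qf h1 h2 h3 / 2) / ((h1 - h2) * (h1 - h3)) := by
  have a : 0 < h1 - h2 := by linarith
  have b : 0 < h1 - h3 := by linarith
  rw [eq_div_iff (by positivity), ← Real.sqrt_sq (by positivity : 0 ≤ (h1 - h2) * (h1 - h3)),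
    ← Real.sqrt_mul' _ (by positivity)]
  congr 1
  unfold Qf
  field_simp
  ring

lemma k_eq2 {h1 h2 h3 : ℝ} (h12 : h2 < h1) (h23 : h3 < h2) :
    √((1 / (h2 - h3)) ^ 2 + (1 / (h1 - h3)) ^ 2 - 1 / (h2 - h3) * (1 / (h1 - h3))) =
      √(Qf h1 h2 h3 / 2) / ((h2 - h3) * (h1 - h3)) := by
  have a : 0 < h2 - h3 := by linarith
  have b : 0 < h1 - h3 := by linarith
  rw [eq_div_iff (by positivity), ← Real.sqrt_sq (by positivity : 0 ≤ (h2 - h3) * (h1 - h3)),
    ← Real.sqrt_mul' _ (by positivity)]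
  congr 1
  unfold Qf
  field_simp
  ring

lemma tent_total {h1 h2 h3 : ℝ} (h12 : h2 < h1) (h23 : h3 < h2) {s1 s2 : ℝ} (h : s1 < s2) :
    ∫ s in s1..s2, tent (√(Qf h1 h2 h3 / 2) / ((h1 - h2) * (h1 - h3)))
      (√(Qf h1 h2 h3 / 2) / ((h2 - h3) * (h1 - h3))) h1 h3 s ≤ √(Qf h1 h2 h3) / (2 * √2) := by
  have a : 0 < h1 - h2 := by linarith
  have b : 0 < h1 - h3 := by linarith
  have c : 0 < h2 - h3 := by linarith
  refine (tent_int h12 h23 (by positivity) (by positivity) ?_ h).trans (le_of_eq ?_)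
  · field_simp
  · rw [Real.sqrt_div' _ (by norm_num)]
    field_simp

lemma good_desc {h1 h2 h3 : ℝ} (h12 : h2 < h1) (h23 : h3 < h2) : Good h1 h2 h3 := by
  have a : 0 < h1 - h2 := by linarith
  have b : 0 < h1 - h3 := by linarith
  have c : 0 < h2 - h3 := by linarith
  have hk1 : 0 ≤ √(Qf h1 h2 h3 / 2) / ((h1 - h2) * (h1 - h3)) := by positivity
  have hk2 : 0 ≤ √(Qf h1 h2 h3 / 2) / ((h2 - h3) * (h1 - h3)) := by positivity
  have hM : √(Qf h1 h2 h3 / 2) / ((h1 - h2) * (h1 - h3)) * (h1 - h2) =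
    √(Qf h1 h2 h3 / 2) / ((h2 - h3) * (h1 - h3)) * (h2 - h3) := by field_simp
  refine ⟨_, tent_cont (√(Qf h1 h2 h3 / 2) / ((h1 - h2) * (h1 - h3)))
      (√(Qf h1 h2 h3 / 2) / ((h2 - h3) * (h1 - h3))) h1 h3, ?_, ?_, ?_, ?_⟩
  · intro s n1 n2 n3
    -- order h1 > h2 > h3, cyclic order (h1,h2,h3)
    have c3 : cl h3 h1 h2 s = 0 := by
      unfold cl; rw [if_neg]; intro h; linarith [h.1, h.2]
    rw [c3, add_zero]
    rcases lt_or_gt_of_ne n2 with h | h
    · -- s < h2
      have c1 : cl h1 h2 h3 s = 0 := by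
        unfold cl; rw [if_neg]; intro h'; linarith [h'.1, h'.2]
      rw [c1, zero_add]
      rcases lt_or_gt_of_ne n3 with h' | h'
      · rw [tent_low hk2 h'.le]
        unfold cl; rw [if_neg]; intro h''; linarith [h''.1, h''.2]
      · rw [tent_down h12 h23 hk1 hk2 hM h'.le h.le]
        unfold cl
        rw [if_pos ⟨h', h⟩, if_pos (by linarith)]
        have := k_eq2 h12 h23
        rw [mul_comm, ← this]
        congr 2
        ring
    · have c2 : cl h2 h3 h1 s = 0 := by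
        unfold cl; rw [if_neg]; intro h'; linarith [h'.1, h'.2]
      rw [c2, add_zero]
      rcases lt_or_gt_of_ne n1 with h' | h'
      · rw [tent_up h12 h23 hk1 hk2 hM h.le h'.le]
        unfold cl
        rw [if_pos ⟨h, h'⟩, if_neg (by linarith)]
        have := k_eq1 h12 h23
        rw [mul_comm, ← this]
      · rw [tent_high hk1 h'.le]
        unfold cl; rw [if_neg]; intro h''; linarith [h''.1, h''.2]
  · intro s hs
    exact tent_low hk2 (hs.trans ((min_le_right _ _).trans (min_le_right _ _)))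
  · intro s hs
    exact tent_high hk1 ((le_max_left _ _).trans hs)
  · intro s1 s2 h
    exact tent_total h12 h23 h

lemma good_asc {h1 h2 h3 : ℝ} (h12 : h2 < h1) (h23 : h3 < h2) : Good h1 h3 h2 := by
  have a : 0 < h1 - h2 := by linarith
  have b : 0 < h1 - h3 := by linarith
  have c : 0 < h2 - h3 := by linarith
  have hk1 : 0 ≤ √(Qf h1 h2 h3 / 2) / ((h1 - h2) * (h1 - h3)) := by positivity
  have hk2 : 0 ≤ √(Qf h1 h2 h3 / 2) / ((h2 - h3) * (h1 - h3)) := by positivity
  have hM : √(Qf h1 h2 h3 / 2) / ((h1 - h2) * (h1 - h3)) * (h1 - h2) =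
    √(Qf h1 h2 h3 / 2) / ((h2 - h3) * (h1 - h3)) * (h2 - h3) := by field_simp
  refine ⟨_, tent_cont (√(Qf h1 h2 h3 / 2) / ((h1 - h2) * (h1 - h3)))
      (√(Qf h1 h2 h3 / 2) / ((h2 - h3) * (h1 - h3))) h1 h3, ?_, ?_, ?_, ?_⟩
  · intro s n1 n3 n2
    have c2 : cl h3 h2 h1 s = 0 := by
      unfold cl; rw [if_neg]; intro h; linarith [h.1, h.2]
    have c3 : cl h2 h1 h3 s = 0 := by
      unfold cl; rw [if_neg]; intro h; linarith [h.1, h.2]
    rw [c2, c3, add_zero, add_zero]
    rcases lt_or_gt_of_ne n3 with h | h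
    · rw [tent_low hk2 h.le]
      unfold cl; rw [if_neg]; intro h''; linarith [h''.1, h''.2]
    · rcases lt_or_gt_of_ne n1 with h' | h'
      · unfold cl
        rw [if_pos ⟨h, h'⟩]
        rcases lt_or_gt_of_ne n2 with h'' | h''
        · rw [if_pos h'', tent_down h12 h23 hk1 hk2 hM h.le h''.le, ← k_eq2 h12 h23]
          ring
        · rw [if_neg (by linarith), tent_up h12 h23 hk1 hk2 hM h''.le h'.le, ← k_eq1 h12 h23]
          rw [mul_comm]
          congr 2
          ring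
      · rw [tent_high hk1 h'.le]
        unfold cl; rw [if_neg]; intro h''; linarith [h''.1, h''.2]
  · intro s hs
    exact tent_low hk2 (hs.trans ((min_le_right _ _).trans (min_le_left _ _)))
  · intro s hs
    exact tent_high hk1 ((le_max_left _ _).trans hs)
  · intro s1 s2 h
    have : Qf h1 h3 h2 = Qf h1 h2 h3 := by unfold Qf; ring
    rw [this]
    exact tent_total h12 h23 h

lemma good {a b c : ℝ} (hab : a ≠ b) (hbc : b ≠ c) (hca : c ≠ a) : Good a b c := by
  rcases lt_or_gt_of_ne hab with h1 | h1 <;> rcases lt_or_gt_of_ne hbc with h2 | h2 <;>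
    rcases lt_or_gt_of_ne hca with h3 | h3
  · linarith
  · -- a < b < c : rotate to (c, a, b), c > b > a : asc
    exact (good_asc h2 h1).rot
  · -- a < b, c < b, c < a : b > a > c: (b, c, a)
    exact (good_asc h1 h3).rot.rot
  · -- a < b, c < b, a < c : b > c > a : (b, c, a) desc
    exact (good_desc h2 h3).rot.rot
  · -- b < a, b < c, c < a : a > c > b : (a, b, c) asc
    exact good_asc h3 h2
  · -- b < a, b < c, a < c : c > a > b : (c, a, b) desc
    exact (good_desc h3 h1).rot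
  · exact good_desc h1 h2
  · linarith

end T5

end Pool.Agent.Medial
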