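/-
T6: volumes of the hull as sums over facets, second moment inequality. (helper9)
-/
import Pool.Agent.Medial.T1
import Pool.Agent.Medial.Cone
import Pool.Agent.Lib_2b501e.Support
import Pool.Agent.Lib_2b501e.Mom

set_option autoImplicit false

open MeasureTheory Set Metric

namespace Pool.Agent.Medial

open MP2b501e (Body)

lemma zero_mem_interior {S : Finset E} (hc : Centered S) :
    (0 : E) ∈ interior (convexHull ℝ (S : Set E)) := by
  set K := convexHull ℝ (S : Set E) with hK
  have hconv : Convex ℝ K := convex_convexHull ℝ _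
  by_contra h0
  by_cases hne : (interior K).Nonempty
  · obtain ⟨f, hf⟩ := geometric_hahn_banach_open_point hconv.interior isOpen_interior h0
    rw [map_zero] at hf
    set a : E := (InnerProductSpace.toDual ℝ E).symm f with ha
    have hfa : ∀ x, f x = inner ℝ a x := by
      intro x; rw [ha, InnerProductSpace.toDual_symm_apply]
    have hle : ∀ x ∈ K, f x ≤ 0 := by
      intro x hx
      have : x ∈ closure (interior K) := by
        rw [hconv.closure_interior_eq_closure_of_nonempty_interior hne]
        exact subset_closure hx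
      exact closure_minimal (s := interior K) (t := {x | f x ≤ 0}) (fun y hy => (hf y hy).le)
        (isClosed_le f.continuous continuous_const) this
    have ha0 : a ≠ 0 := by
      intro h
      obtain ⟨y, hy⟩ := hne
      have := hf y hy
      rw [hfa, h, inner_zero_left] at this
      exact lt_irrefl _ this
    obtain ⟨x, hx, hpos⟩ := hc a ha0
    have := hle x (subset_convexHull ℝ _ hx)
    rw [hfa] at this
    linarith
  · rw [hconv.interior_nonempty_iff_affineSpan_eq_top, hK, affineSpan_convexHull] at hne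
    have hSne : (S : Set E).Nonempty := by
      obtain ⟨x, hx, -⟩ := hc (EuclideanSpace.single 0 1) (by simp)
      exact ⟨x, hx⟩
    have hdir : (affineSpan ℝ (S : Set E)).direction ≠ ⊤ := by
      intro h
      apply hne
      rwa [AffineSubspace.direction_eq_top_iff_of_nonempty
        ((affineSpan_nonempty ℝ).2 hSne)] at h
    obtain ⟨a, ha, ha0⟩ := (Submodule.ne_bot_iff _).1
      (fun h => hdir (Submodule.orthogonal_eq_bot_iff.1 h))
    have heq : ∀ x ∈ S, ∀ y ∈ S, (inner ℝ a x : ℝ) = inner ℝ a y := by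
      intro x hx y hy
      have hv : x - y ∈ (affineSpan ℝ (S : Set E)).direction := by
        rw [direction_affineSpan]
        exact vsub_mem_vectorSpan ℝ hx hy
      have := (Submodule.mem_orthogonal' _ _).1 ha _ hv
      rw [inner_sub_right] at this
      linarith
    obtain ⟨x, hx, hx1⟩ := hc a ha0
    obtain ⟨y, hy, hy1⟩ := hc (-a) (neg_ne_zero.2 ha0)
    rw [inner_neg_left] at hy1
    have := heq x hx y hy
    linarith

lemma exists_body {S : Finset E} (hc : Centered S) :
    ∃ r R : ℝ, Body (convexHull ℝ (S : Set E)) r R :=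
  MP2b501e.exists_body ((Finset.finite_toSet S).isCompact_convexHull ℝ) (convex_convexHull ℝ _)
    (zero_mem_interior hc)

lemma tri_crs (a p y : E) :
    tri p y (crs a p) = (inner ℝ a p) * (inner ℝ p y) - (inner ℝ a y) * ‖p‖ ^ 2 := by
  rw [norm_sq_eq, inner_eq, inner_eq, inner_eq]
  simp [tri, crs]; ring

/-- points in no plane through the origin and two points of `S` -/
def Gen (S : Finset E) (x : E) : Prop := ∀ a ∈ S, ∀ b ∈ S, crs a b ≠ 0 → tri a b x ≠ 0

lemma ae_gen (S : Finset E) : ∀ᵐ x : E, Gen S x := by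
  unfold Gen
  have : ∀ a ∈ S, ∀ᵐ x : E, ∀ b ∈ S, crs a b ≠ 0 → tri a b x ≠ 0 := by
    intro a _
    have : ∀ b ∈ S, ∀ᵐ x : E, crs a b ≠ 0 → tri a b x ≠ 0 := by
      intro b _
      by_cases h : crs a b = 0
      · exact Filter.Eventually.of_forall fun x h' => absurd h h'
      · rw [ae_iff]
        refine measure_mono_null ?_ (MP2b501e.volume_hyperplane h 0)
        intro x hx
        have hx : ¬ (crs a b ≠ 0 → tri a b x ≠ 0) := hx
        push Not at hx
        show inner ℝ x (crs a b) = (0 : ℝ)
        rw [real_inner_comm, inner_crs]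
        exact hx.2
    exact (Finset.eventually_all S).2 this
  exact (Finset.eventually_all S).2 this

lemma crs_ne_of {p q f : E} {c : ℝ} (hp : ‖p‖ = 1) (hne : p ≠ q) (hc : 0 < c)
    (h1 : (inner ℝ f p : ℝ) = c) (h2 : (inner ℝ f q : ℝ) = c) : crs p q ≠ 0 := by
  apply crs_ne_zero (by intro h; rw [h, norm_zero] at hp; exact zero_ne_one hp)
  intro t ht
  rw [ht, inner_smul_right, h1] at h2
  have : t = 1 := by
    have h3 : t * c = 1 * c := by rw [h2]; ring
    exact mul_right_cancel₀ hc.ne' h3
  rw [this, one_smul] at ht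
  exact hne ht.symm

/-- a supporting covector normalised on a facet: values at most one on `S` -/
lemma fac_of_support {S : Finset E} {f p q r : E} (hp : p ∈ S) (hq : q ∈ S) (hr : r ∈ S)
    (hpos : 0 < tri p q r) (hle : ∀ y ∈ S, y ≠ p → y ≠ q → y ≠ r → (inner ℝ f y : ℝ) < 1)
    (h1 : (inner ℝ f p : ℝ) = 1) (h2 : (inner ℝ f q : ℝ) = 1) (h3 : (inner ℝ f r : ℝ) = 1) :
    Fac S p q r := by
  refine ⟨hp, hq, hr, hpos, fun y hy hyp hyq hyr => ?_⟩
  rw [orient_expand]
  have := cramer_inner p q r y f
  rw [h1, h2, h3] at this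
  have h4 := hle y hy hyp hyq hyr
  nlinarith

/-- value of the facet covector at a point of the facet cone -/
lemma fac_covector {S : Finset E} {v w u : E} (h : Fac S v w u) :
    ∃ g : E, (inner ℝ g v : ℝ) = 1 ∧ (inner ℝ g w : ℝ) = 1 ∧ (inner ℝ g u : ℝ) = 1 ∧
      ∀ y ∈ S, y ≠ v → y ≠ w → y ≠ u → (inner ℝ g y : ℝ) < 1 := by
  have hpos := h.2.2.2.1
  refine ⟨(tri v w u)⁻¹ • (crs w u + crs u v + crs v w), ?_, ?_, ?_, ?_⟩
  · rw [inner_smul_left, inner_add_left, inner_add_left, inner_crs, inner_crs, inner_crs]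
    simp only [conj_trivial]
    rw [inv_mul_eq_one₀ hpos.ne']
    unfold tri; ring
  · rw [inner_smul_left, inner_add_left, inner_add_left, inner_crs, inner_crs, inner_crs]
    simp only [conj_trivial]
    rw [inv_mul_eq_one₀ hpos.ne']
    unfold tri; ring
  · rw [inner_smul_left, inner_add_left, inner_add_left, inner_crs, inner_crs, inner_crs]
    simp only [conj_trivial]
    rw [inv_mul_eq_one₀ hpos.ne']
    unfold tri; ring
  · intro y hy h1 h2 h3
    have h4 := h.2.2.2.2 y hy h1 h2 h3
    rw [orient_expand] at h4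
    rw [inner_smul_left, inner_add_left, inner_add_left, inner_crs, inner_crs, inner_crs]
    simp only [conj_trivial]
    rw [inv_mul_lt_iff₀ hpos]
    have e : tri w u y + tri u v y + tri v w y = tri y w u + tri v y u + tri v w y := by
      unfold tri; ring
    rw [e]; linarith

/-- Every generic point of the hull is covered by a facet; the facet is unique. -/
lemma exists_fac {S : Finset E} (hS : Unit S) (hs : Simplicial S) (hc : Centered S) {x : E}
    (hx : x ∈ convexHull ℝ (S : Set E)) (hg : Gen S x) :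
    ∃ v w u, Fac S v w u ∧ x ∈ tet v w u := by
  classical
  obtain ⟨r, R, b⟩ := exists_body hc
  -- x is not zero
  have hx0 : x ≠ 0 := by
    rintro rfl
    obtain ⟨p, hp, hp1⟩ := hc (EuclideanSpace.single 0 1) (by simp)
    obtain ⟨q, hq, hq1⟩ := hc (-p) (by
      intro h
      have := hS p hp
      rw [neg_eq_zero.1 h, norm_zero] at this
      exact zero_ne_one this)
    by_cases hcrs : crs p q = 0
    · -- then all of `S` is on a line, impossible
      obtain ⟨a, ha⟩ : ∃ a : E, a ≠ 0 ∧ inner ℝ a p = (0 : ℝ) := by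
        by_cases h : p 0 = 0
        · exact ⟨EuclideanSpace.single 0 1, by simp, by simp [inner_eq, h]⟩
        · refine ⟨!₂[-p 1, p 0, 0], ?_, by simp [inner_eq]; ring⟩
          intro h'
          have := congrArg (fun t : E => t 1) h'
          simp at this
          exact h this
      obtain ⟨y, hy, hy1⟩ := hc a ha.1
      have : crs p y ≠ 0 := by
        intro h
        have h1 : ∀ t : E, tri p y t = 0 := by
          intro t; rw [← inner_crs, h, inner_zero_left]
        -- y is parallel to p
        have h2 := h1 (crs a p)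
        rw [tri_crs, ha.2, hS p hp] at h2
        linarith
      exact hg p hp y hy this (by simp [tri])
    · exact hg p hp q hq hcrs (by simp [tri])
  set g := gauge (convexHull ℝ (S : Set E)) x with hgdef
  have hgpos : 0 < g := b.gauge_pos hx0
  have hg1 : g ≤ 1 := b.mem_iff_gauge.1 hx
  have hfr := b.exists_frontier hx0
  set y := g⁻¹ • x with hy
  have hxy : x = g • y := by rw [hy, smul_inv_smul₀ hgpos.ne']
  obtain ⟨u, hu1, hu2⟩ := b.exists_normal hfr
  have hyK : y ∈ convexHull ℝ (S : Set E) := b.frontier_subset hfr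
  have hu0 : u ≠ 0 := by intro h; rw [h, norm_zero] at hu1; exact zero_ne_one hu1
  have hcpos : 0 < MP2b501e.hs (convexHull ℝ (S : Set E)) u := b.hs_pos hu0
  set c := MP2b501e.hs (convexHull ℝ (S : Set E)) u with hcdef
  have hle : ∀ z ∈ S, (inner ℝ u z : ℝ) ≤ c := by
    intro z hz
    rw [real_inner_comm]
    exact MP2b501e.inner_le_hs b.compact (subset_convexHull ℝ _ hz) u
  have hyc : (inner ℝ u y : ℝ) = c := by rw [real_inner_comm]; exact hu2.symm
  -- the touched points
  set T := S.filter (fun z => (inner ℝ u z : ℝ) = c) with hT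
  have hTS : T ⊆ S := Finset.filter_subset _ _
  have hTc : ∀ z ∈ T, (inner ℝ u z : ℝ) = c := fun z hz => (Finset.mem_filter.1 hz).2
  have hcard : T.card ≤ 3 := hs u c T hu0 hTS hle hTc
  -- y is a combination of touched points
  obtain ⟨wt, hw0, hw1, hwy⟩ : ∃ wt : E → ℝ, (∀ z ∈ T, 0 ≤ wt z) ∧ ∑ z ∈ T, wt z = 1 ∧
      ∑ z ∈ T, wt z • z = y := by
    rw [Finset.mem_convexHull] at hyK
    obtain ⟨wt, hw0, hw1, hwy⟩ := hyK
    rw [Finset.centerMass_eq_of_sum_1 _ _ hw1] at hwy
    simp only [id] at hwy
    have hz : ∀ z ∈ S, z ∉ T → wt z = 0 := by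
      intro z hz hzT
      by_contra hne
      have hpos : 0 < wt z := lt_of_le_of_ne (hw0 z hz) (Ne.symm hne)
      have hlt : (inner ℝ u z : ℝ) < c :=
        lt_of_le_of_ne (hle z hz) fun h => hzT (Finset.mem_filter.2 ⟨hz, h⟩)
      have h1 : (inner ℝ u y : ℝ) = ∑ z ∈ S, wt z * inner ℝ u z := by
        rw [← hwy, inner_sum]; simp only [inner_smul_right]
      have h2 : ∑ z ∈ S, wt z * inner ℝ u z < ∑ z ∈ S, wt z * c := by
        apply Finset.sum_lt_sum
        · intro i hi; exact mul_le_mul_of_nonneg_left (hle i hi) (hw0 i hi)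
        · exact ⟨z, hz, mul_lt_mul_of_pos_left hlt hpos⟩
      rw [← Finset.sum_mul, hw1, one_mul, ← h1, hyc] at h2
      exact lt_irrefl _ h2
    refine ⟨wt, fun z hz => hw0 z (hTS hz), ?_, ?_⟩
    · rw [← hw1]
      exact Finset.sum_subset hTS hz
    · rw [← hwy]
      exact Finset.sum_subset hTS fun z h1 h2 => by rw [hz z h1 h2, zero_smul]
  -- generic: no two points suffice
  have hgen : ∀ p ∈ T, ∀ q ∈ T, p ≠ q → tri p q x ≠ 0 := by
    intro p hp q hq hne
    exact hg p (hTS hp) q (hTS hq)
      (crs_ne_of (hS p (hTS hp)) hne hcpos (hTc p hp) (hTc q hq))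
  have hgen1 : ∀ p ∈ T, ∀ t : ℝ, x ≠ t • p := by
    intro p hp t hxt
    -- find another point of S not parallel to p
    obtain ⟨a, ha, hap⟩ : ∃ a : E, a ≠ 0 ∧ inner ℝ a p = (0 : ℝ) := by
      by_cases h : p 0 = 0
      · exact ⟨EuclideanSpace.single 0 1, by simp, by simp [inner_eq, h]⟩
      · refine ⟨!₂[-p 1, p 0, 0], ?_, by simp [inner_eq]; ring⟩
        intro h'
        have := congrArg (fun t : E => t 1) h'
        simp at this
        exact h this
    obtain ⟨z, hz, hz1⟩ := hc a ha
    have : crs p z ≠ 0 := by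
      intro h
      have h1 : ∀ t : E, tri p z t = 0 := by
        intro t; rw [← inner_crs, h, inner_zero_left]
      have h2 := h1 (crs a p)
      rw [tri_crs, hap, hS p (hTS hp)] at h2
      linarith
    exact hg p (hTS hp) z hz this (by rw [hxt]; simp [tri]; ring)
  -- so T has exactly three elements
  have hT3 : T.card = 3 := by
    by_contra hne
    have h2 : T.card = 0 ∨ T.card = 1 ∨ T.card = 2 := by omega
    rcases h2 with h2 | h2 | h2
    · rw [Finset.card_eq_zero] at h2
      rw [h2] at hw1; simp at hw1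
    · obtain ⟨p, hp⟩ := Finset.card_eq_one.1 h2
      rw [hp, Finset.sum_singleton] at hwy
      exact hgen1 p (by rw [hp]; simp) (g * wt p) (by rw [hxy, ← hwy, smul_smul])
    · obtain ⟨p, q, hpq, hTpq⟩ := Finset.card_eq_two.1 h2
      rw [hTpq, Finset.sum_pair hpq] at hwy
      refine hgen p (by rw [hTpq]; simp) q (by rw [hTpq]; simp) hpq ?_
      rw [hxy, ← hwy, tri_smul_right, tri_add_right, tri_smul_right, tri_smul_right, tri_self_out,
        tri_self_right]
      ring
  obtain ⟨p, q, r', hpq, hpr, hqr, hTpqr⟩ := Finset.card_eq_three.1 hT3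
  have hp : p ∈ T := by rw [hTpqr]; simp
  have hq : q ∈ T := by rw [hTpqr]; simp
  have hr : r' ∈ T := by rw [hTpqr]; simp
  rw [hTpqr, Finset.sum_insert (by simp [hpq, hpr]), Finset.sum_pair hqr] at hwy hw1
  have hxc : x = (g * wt p) • p + (g * wt q) • q + (g * wt r') • r' := by
    rw [hxy, ← hwy]; module
  have htri : tri p q r' ≠ 0 := by
    intro h
    refine hgen p hp q hq hpq ?_
    rw [hxc, tri_add_right, tri_add_right, tri_smul_right, tri_smul_right, tri_smul_right, h,
      tri_self_out, tri_self_right]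
    ring
  have hlt : ∀ y ∈ S, y ≠ p → y ≠ q → y ≠ r' → (inner ℝ (c⁻¹ • u) y : ℝ) < 1 := by
    intro y hy h1 h2 h3
    rw [inner_smul_left]
    simp only [conj_trivial]
    rw [inv_mul_lt_iff₀ hcpos, mul_one]
    refine lt_of_le_of_ne (hle y hy) fun h => ?_
    have : y ∈ T := Finset.mem_filter.2 ⟨hy, h⟩
    rw [hTpqr] at this
    simp only [Finset.mem_insert, Finset.mem_singleton] at this
    tauto
  have hone : ∀ z ∈ T, (inner ℝ (c⁻¹ • u) z : ℝ) = 1 := by
    intro z hz
    rw [inner_smul_left]
    simp only [conj_trivial]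
    rw [hTc z hz, inv_mul_cancel₀ hcpos.ne']
  have hsum : g * wt p + g * wt q + g * wt r' ≤ 1 := by
    have : g * wt p + g * wt q + g * wt r' = g * (wt p + (wt q + wt r')) := by ring
    rw [this, hw1, mul_one]; exact hg1
  have n1 := mul_nonneg hgpos.le (hw0 p hp)
  have n2 := mul_nonneg hgpos.le (hw0 q hq)
  have n3 := mul_nonneg hgpos.le (hw0 r' hr)
  rcases lt_or_gt_of_ne htri with hneg | hpos
  · refine ⟨p, r', q, fac_of_support (hTS hp) (hTS hr) (hTS hq)
      (by rw [tri_swap]; linarith) (fun y hy h1 h2 h3 => hlt y hy h1 h3 h2) (hone p hp) (hone r' hr)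
      (hone q hq), ?_⟩
    rw [mem_tet]
    exact ⟨_, _, _, n1, n3, n2, by linarith, by rw [hxc]; abel⟩
  · refine ⟨p, q, r', fac_of_support (hTS hp) (hTS hq) (hTS hr) hpos hlt (hone p hp) (hone q hq)
      (hone r' hr), ?_⟩
    rw [mem_tet]
    exact ⟨_, _, _, n1, n2, n3, hsum, hxc⟩

end Pool.Agent.Medial
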