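/-
T6: counting the darts whose facet cone contains a generic point. (helper9)
-/
import Pool.Agent.Medial.T6a

set_option autoImplicit false

open MeasureTheory Set Metric

namespace Pool.Agent.Medial

lemma tet_rot (p q r : E) : tet q r p = tet p q r := by
  unfold tet
  congr 1
  ext x; simp only [mem_insert_iff, mem_singleton_iff]; tauto

lemma crs_ne_of_tri {v w u : E} (h : tri v w u ≠ 0) : crs w u ≠ 0 := by
  intro h0
  apply h
  rw [← tri_rot, ← inner_crs, h0, inner_zero_left]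

/-- the barycentric coordinates of a generic point are positive -/
lemma mem_tet_pos {S : Finset E} {v w u x : E} (hf : Fac S v w u) (hg : Gen S x)
    (hx : x ∈ tet v w u) : ∃ a b c : ℝ, 0 < a ∧ 0 < b ∧ 0 < c ∧ x = a • v + b • w + c • u := by
  obtain ⟨a, b, c, ha, hb, hc, -, hxe⟩ := mem_tet.1 hx
  have hne := hf.2.2.2.1.ne'
  have hne2 : tri w u v ≠ 0 := by rw [tri_rot]; exact hne
  have hne3 : tri u v w ≠ 0 := by rw [tri_rot]; exact hne2
  have h1 := hg w hf.2.1 u hf.2.2.1 (crs_ne_of_tri hne)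
  have h2 := hg u hf.2.2.1 v hf.1 (crs_ne_of_tri hne2)
  have h3 := hg v hf.1 w hf.2.1 (crs_ne_of_tri hne3)
  rw [hxe] at h1 h2 h3
  simp only [tri_add_right, tri_smul_right, tri_self_out, tri_self_right] at h1 h2 h3
  refine ⟨a, b, c, ?_, ?_, ?_, hxe⟩
  · exact lt_of_le_of_ne ha fun h => h1 (by rw [← h]; ring)
  · exact lt_of_le_of_ne hb fun h => h2 (by rw [← h]; ring)
  · exact lt_of_le_of_ne hc fun h => h3 (by rw [← h]; ring)

lemma covector_le {S : Finset E} {g v w u : E} (h1 : (inner ℝ g v : ℝ) = 1)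
    (h2 : (inner ℝ g w : ℝ) = 1) (h3 : (inner ℝ g u : ℝ) = 1)
    (h4 : ∀ y ∈ S, y ≠ v → y ≠ w → y ≠ u → (inner ℝ g y : ℝ) < 1) {y : E} (hy : y ∈ S) :
    (inner ℝ g y : ℝ) ≤ 1 ∧ ((inner ℝ g y : ℝ) = 1 → y = v ∨ y = w ∨ y = u) := by
  by_cases e1 : y = v
  · rw [e1, h1]; exact ⟨le_rfl, fun _ => Or.inl rfl⟩
  by_cases e2 : y = w
  · rw [e2, h2]; exact ⟨le_rfl, fun _ => Or.inr (Or.inl rfl)⟩
  by_cases e3 : y = u
  · rw [e3, h3]; exact ⟨le_rfl, fun _ => Or.inr (Or.inr rfl)⟩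
  have := h4 y hy e1 e2 e3
  exact ⟨this.le, fun h => absurd h this.ne⟩

lemma fac_unique {S : Finset E} {v w u p q r x : E} (h : Fac S v w u) (h' : Fac S p q r)
    (hg : Gen S x) (hx : x ∈ tet v w u) (hx' : x ∈ tet p q r) :
    (v = p ∧ w = q) ∨ (v = q ∧ w = r) ∨ (v = r ∧ w = p) := by
  obtain ⟨a, b, c, ha, hb, hc, e1⟩ := mem_tet_pos h hg hx
  obtain ⟨a', b', c', ha', hb', hc', e2⟩ := mem_tet_pos h' hg hx'
  obtain ⟨g, g1, g2, g3, g4⟩ := fac_covector h
  obtain ⟨f, f1, f2, f3, f4⟩ := fac_covector h'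
  have i1 : (inner ℝ g x : ℝ) = a + b + c := by
    rw [e1]; simp only [inner_add_right, inner_smul_right, g1, g2, g3]; ring
  have i2 : (inner ℝ f x : ℝ) = a' + b' + c' := by
    rw [e2]; simp only [inner_add_right, inner_smul_right, f1, f2, f3]; ring
  have i3 : (inner ℝ f x : ℝ) = a * inner ℝ f v + b * inner ℝ f w + c * inner ℝ f u := by
    rw [e1]; simp only [inner_add_right, inner_smul_right]
  have i4 : (inner ℝ g x : ℝ) = a' * inner ℝ g p + b' * inner ℝ g q + c' * inner ℝ g r := by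
    rw [e2]; simp only [inner_add_right, inner_smul_right]
  obtain ⟨l1, m1⟩ := covector_le f1 f2 f3 f4 h.1
  obtain ⟨l2, m2⟩ := covector_le f1 f2 f3 f4 h.2.1
  obtain ⟨l3, m3⟩ := covector_le f1 f2 f3 f4 h.2.2.1
  obtain ⟨k1, -⟩ := covector_le g1 g2 g3 g4 h'.1
  obtain ⟨k2, -⟩ := covector_le g1 g2 g3 g4 h'.2.1
  obtain ⟨k3, -⟩ := covector_le g1 g2 g3 g4 h'.2.2.1
  have j1 : (inner ℝ g x : ℝ) ≤ inner ℝ f x := by
    rw [i4, i2]; nlinarith
  have z1 : (inner ℝ f v : ℝ) = 1 := by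
    by_contra hne
    have : (inner ℝ f v : ℝ) < 1 := lt_of_le_of_ne l1 hne
    nlinarith
  have z2 : (inner ℝ f w : ℝ) = 1 := by
    by_contra hne
    have : (inner ℝ f w : ℝ) < 1 := lt_of_le_of_ne l2 hne
    nlinarith
  have z3 : (inner ℝ f u : ℝ) = 1 := by
    by_contra hne
    have : (inner ℝ f u : ℝ) < 1 := lt_of_le_of_ne l3 hne
    nlinarith
  have hpos := h.2.2.2.1
  have hpos' := h'.2.2.2.1
  have n1 := h.ne12
  have n2 := h.ne13
  have n3 := h.ne23
  rcases m1 z1 with rfl | rfl | rfl <;> rcases m2 z2 with rfl | rfl | rfl <;>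
    rcases m3 z3 with rfl | rfl | rfl <;> first
    | exact Or.inl ⟨rfl, rfl⟩
    | exact Or.inr (Or.inl ⟨rfl, rfl⟩)
    | exact Or.inr (Or.inr ⟨rfl, rfl⟩)
    | exact absurd rfl n1
    | exact absurd rfl n2
    | exact absurd rfl n3
    | (exfalso
       have t1 := tri_swap v w u
       unfold tri at *
       linarith)

end Pool.Agent.Medial
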