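/-
T6: the sums over darts. (helper9)
-/
import Pool.Agent.Medial.T6b

set_option autoImplicit false

open MeasureTheory Set Metric

namespace Pool.Agent.Medial

open Classical in
/-- the darts of a family whose facet cone contains `x` -/
noncomputable def cnt (S : Finset E) (K : E → E → Prop) (x : E) : ℝ :=
  ∑ v ∈ S, ∑ w ∈ (N S v).filter (fun w => K v w), (tet v w (L S v w)).indicator (fun _ => (1 : ℝ)) x

open Classical in
lemma cnt_eq_card (S : Finset E) (K : E → E → Prop) (x : E) :
    cnt S K x = (((S ×ˢ S).filter (fun d => d.2 ∈ N S d.1 ∧ K d.1 d.2 ∧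
      x ∈ tet d.1 d.2 (L S d.1 d.2))).card : ℝ) := by
  unfold cnt
  rw [Finset.card_eq_sum_ones, Nat.cast_sum, Finset.sum_filter, Finset.sum_product]
  refine Finset.sum_congr rfl fun v _ => ?_
  rw [Finset.sum_filter]
  have hsub : N S v ⊆ S := fun w hw => (mem_N.1 hw).1
  rw [← Finset.sum_subset hsub]
  · refine Finset.sum_congr rfl fun w hw => ?_
    by_cases hK : K v w
    · by_cases hx : x ∈ tet v w (L S v w)
      · rw [if_pos hK, if_pos ⟨hw, hK, hx⟩, indicator_of_mem hx]; simp
      · rw [if_pos hK, if_neg (fun h => hx h.2.2), indicator_of_notMem hx]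
    · rw [if_neg hK, if_neg (fun h => hK h.2.1)]
  · intro w _ hw
    rw [if_neg (fun h => hw h.1)]

/-- three darts exactly -/
lemma cnt_of_mem {S : Finset E} (hS : Unit S) (hs : Simplicial S) (hc : Centered S) {x : E}
    (hx : x ∈ convexHull ℝ (S : Set E)) (hg : Gen S x) : cnt S (fun _ _ => True) x = 3 := by
  classical
  obtain ⟨p, q, r, hf, hxt⟩ := exists_fac hS hs hc hx hg
  have h1 := hf.ne12
  have h2 := hf.ne13
  have h3 := hf.ne23
  have hcard : ({(p, q), (q, r), (r, p)} : Finset (E × E)).card = 3 := by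
    rw [Finset.card_insert_of_notMem, Finset.card_insert_of_notMem, Finset.card_singleton]
    · simp only [Finset.mem_singleton, Prod.mk.injEq, not_and]
      intro h; exact absurd h h3.symm
    · simp only [Finset.mem_insert, Finset.mem_singleton, Prod.mk.injEq, not_or, not_and]
      exact ⟨fun h => absurd h h1.symm, fun h => absurd h h2.symm⟩
  rw [cnt_eq_card]
  have h33 : (3 : ℝ) = ((({(p, q), (q, r), (r, p)} : Finset (E × E)).card : ℕ) : ℝ) := by
    rw [hcard]; norm_num
  rw [h33]
  congr 2
  ext ⟨v, w⟩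
  simp only [Finset.mem_filter, Finset.mem_product, Finset.mem_insert, Finset.mem_singleton,
    Prod.mk.injEq, true_and]
  constructor
  · rintro ⟨-, hw, hxv⟩
    exact fac_unique (fac_L hw) hf hg hxv hxt
  · rintro (⟨rfl, rfl⟩ | ⟨rfl, rfl⟩ | ⟨rfl, rfl⟩)
    · exact ⟨⟨hf.1, hf.2.1⟩, hf.mem_N, by rw [L_eq hf]; exact hxt⟩
    · exact ⟨⟨hf.2.1, hf.2.2.1⟩, hf.rot.mem_N, by rw [L_eq hf.rot, tet_rot]; exact hxt⟩
    · exact ⟨⟨hf.2.2.1, hf.1⟩, hf.rot.rot.mem_N, by
        rw [L_eq hf.rot.rot, tet_rot, tet_rot]; exact hxt⟩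

lemma cnt_mono {S : Finset E} {K K' : E → E → Prop} (h : ∀ v w, K v w → K' v w) (x : E) :
    cnt S K x ≤ cnt S K' x := by
  classical
  rw [cnt_eq_card, cnt_eq_card]
  norm_cast
  apply Finset.card_le_card
  intro d hd
  simp only [Finset.mem_filter] at hd ⊢
  exact ⟨hd.1, hd.2.1, h _ _ hd.2.2.1, hd.2.2.2⟩

lemma cnt_nonneg (S : Finset E) (K : E → E → Prop) (x : E) : 0 ≤ cnt S K x := by
  classical
  rw [cnt_eq_card]; positivity

lemma tet_subset_hull {S : Finset E} (hc : Centered S) {v w u : E} (hv : v ∈ S) (hw : w ∈ S)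
    (hu : u ∈ S) : tet v w u ⊆ convexHull ℝ (S : Set E) := by
  apply convexHull_min _ (convex_convexHull ℝ _)
  intro y hy
  simp only [mem_insert_iff, mem_singleton_iff] at hy
  rcases hy with rfl | rfl | rfl | rfl
  · exact interior_subset (zero_mem_interior hc)
  · exact subset_convexHull ℝ _ hv
  · exact subset_convexHull ℝ _ hw
  · exact subset_convexHull ℝ _ hu

lemma cnt_of_notMem {S : Finset E} (hc : Centered S) {x : E} (K : E → E → Prop)
    (hx : x ∉ convexHull ℝ (S : Set E)) : cnt S K x = 0 := by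
  classical
  unfold cnt
  refine Finset.sum_eq_zero fun v _ => Finset.sum_eq_zero fun w hw => ?_
  rw [Finset.mem_filter] at hw
  have hf := fac_L hw.1
  rw [indicator_of_notMem]
  exact fun h => hx (tet_subset_hull hc hf.1 hf.2.1 hf.2.2.1 h)

lemma cnt_eq_zero {S : Finset E} {x : E} {K : E → E → Prop}
    (hx : ∀ v ∈ S, ∀ w ∈ N S v, K v w → x ∉ tet v w (L S v w)) : cnt S K x = 0 := by
  classical
  unfold cnt
  refine Finset.sum_eq_zero fun v hv => Finset.sum_eq_zero fun w hw => ?_
  rw [Finset.mem_filter] at hw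
  rw [indicator_of_notMem (hx v hv w hw.1 hw.2)]

lemma cnt_eq_of_all {S : Finset E} {x : E} {K : E → E → Prop}
    (hx : ∀ v ∈ S, ∀ w ∈ N S v, x ∈ tet v w (L S v w) → K v w) :
    cnt S K x = cnt S (fun _ _ => True) x := by
  classical
  rw [cnt_eq_card, cnt_eq_card]
  congr 2
  ext d
  simp only [Finset.mem_filter, Finset.mem_product, true_and]
  constructor
  · rintro ⟨h1, h2, h3, h4⟩; exact ⟨h1, h2, h4⟩
  · rintro ⟨h1, h2, h4⟩; exact ⟨h1, h2, hx _ h1.1 _ h2 h4, h4⟩

lemma integrableOn_tet (v w u : E) {g : E → ℝ} (hg : Continuous g) :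
    IntegrableOn g (tet v w u) volume :=
  hg.continuousOn.integrableOn_compact (isCompact_tet v w u)

open Classical in
lemma sum_eq_integral (S : Finset E) (K : E → E → Prop) {g : E → ℝ} (hg : Continuous g) :
    ∑ v ∈ S, ∑ w ∈ (N S v).filter (fun w => K v w), ∫ x in tet v w (L S v w), g x =
      ∫ x, cnt S K x * g x := by
  have h1 : ∀ v w, ∫ x in tet v w (L S v w), g x =
      ∫ x, (tet v w (L S v w)).indicator (fun _ => (1 : ℝ)) x * g x := by
    intro v w
    rw [← integral_indicator (measurableSet_tet _ _ _)]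
    refine integral_congr_ae (Filter.Eventually.of_forall fun x => ?_)
    by_cases h : x ∈ tet v w (L S v w)
    · simp [indicator_of_mem h]
    · simp [indicator_of_notMem h]
  have h2 : ∀ v w, Integrable
      (fun x => (tet v w (L S v w)).indicator (fun _ => (1 : ℝ)) x * g x) volume := by
    intro v w
    have : (fun x => (tet v w (L S v w)).indicator (fun _ => (1 : ℝ)) x * g x) =
        (tet v w (L S v w)).indicator g := by
      ext x
      by_cases h : x ∈ tet v w (L S v w)
      · simp [indicator_of_mem h]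
      · simp [indicator_of_notMem h]
    rw [this, integrable_indicator_iff (measurableSet_tet _ _ _)]
    exact integrableOn_tet _ _ _ hg
  simp only [h1]
  unfold cnt
  simp only [Finset.sum_mul]
  rw [integral_finsetSum]
  · refine Finset.sum_congr rfl fun v _ => ?_
    rw [integral_finsetSum]
    exact fun w _ => h2 v w
  · intro v _
    exact integrable_finsetSum _ fun w _ => h2 v w

lemma measurableSet_hull (S : Finset E) : MeasurableSet (convexHull ℝ (S : Set E)) :=
  (((Finset.finite_toSet S).isCompact_convexHull ℝ).isClosed).measurableSet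

lemma sum_darts {S : Finset E} (hS : Unit S) (hs : Simplicial S) (hc : Centered S) {g : E → ℝ}
    (hg : Continuous g) :
    ∑ v ∈ S, ∑ w ∈ N S v, ∫ x in tet v w (L S v w), g x =
      3 * ∫ x in convexHull ℝ (S : Set E), g x := by
  classical
  have h := sum_eq_integral S (fun _ _ => True) hg
  simp only [Finset.filter_true] at h
  rw [h, ← integral_indicator (measurableSet_hull S), ← integral_const_mul]
  refine integral_congr_ae ?_
  filter_upwards [ae_gen S] with x hx
  by_cases hxm : x ∈ convexHull ℝ (S : Set E)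
  · rw [cnt_of_mem hS hs hc hxm hx, indicator_of_mem hxm]
  · rw [cnt_of_notMem hc _ hxm, indicator_of_notMem hxm]; ring

lemma vol_tet_fac {S : Finset E} {v w : E} (hw : w ∈ N S v) :
    tri v w (L S v w) / 6 = ∫ _x in tet v w (L S v w), (1 : ℝ) := by
  rw [← vol_tet (fac_L hw).2.2.2.1]
  simp only [integral_const, smul_eq_mul, mul_one]
  rw [measureReal_restrict_apply_univ, measureReal_def]

theorem T6a : Stmt_T6a := by
  intro S hS hs hc
  have h := sum_darts hS hs hc (g := fun _ => 1) continuous_const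
  rw [Finset.sum_congr rfl fun v (_ : v ∈ S) => Finset.sum_congr rfl fun w (hw : w ∈ N S v) =>
    vol_tet_fac hw, h]
  simp only [integral_const, smul_eq_mul, mul_one]
  rw [measureReal_restrict_apply_univ, measureReal_def]
  rfl

lemma hull_subset_ball {S : Finset E} (hS : Unit S) :
    convexHull ℝ (S : Set E) ⊆ closedBall (0 : E) 1 := by
  apply convexHull_min _ (convex_closedBall _ _)
  intro x hx
  rw [mem_closedBall_zero_iff, hS x hx]

lemma V_le {S : Finset E} (hS : Unit S) : V S ≤ 4 * Real.pi / 3 := by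
  rw [← vol_ball]
  exact ENNReal.toReal_mono (isCompact_closedBall (0 : E) 1).measure_lt_top.ne
    (measure_mono (hull_subset_ball hS))

theorem T6b : Stmt_T6b := by
  intro S hS hs hc
  have h := sum_darts hS hs hc (g := fun x => 3 / 5 - ‖x‖ ^ 2) (by fun_prop)
  have h1 : ∀ v ∈ S, ∀ w ∈ N S v, ∫ x in tet v w (L S v w), (3 / 5 - ‖x‖ ^ 2) =
      tri v w (L S v w) / 6 * Lsq v w (L S v w) / 20 := by
    intro v _ w hw
    have hf := fac_L hw
    exact second_moment hf.2.2.2.1 (hS _ hf.1) (hS _ hf.2.1) (hS _ hf.2.2.1)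
  rw [Finset.sum_congr rfl fun v hv => Finset.sum_congr rfl fun w hw => h1 v hv w hw] at h
  have h2 : ∑ v ∈ S, ∑ w ∈ N S v, tri v w (L S v w) / 6 * Lsq v w (L S v w) / 20 =
      (∑ v ∈ S, ∑ w ∈ N S v, tri v w (L S v w) / 6 * Lsq v w (L S v w)) / 20 := by
    rw [Finset.sum_div]
    refine Finset.sum_congr rfl fun v _ => ?_
    rw [Finset.sum_div]
  rw [h2] at h
  -- the complement in the ball
  have hB : IntegrableOn (fun x : E => 3 / 5 - ‖x‖ ^ 2) (closedBall (0 : E) 1) volume :=
    (by fun_prop : Continuous fun x : E => 3 / 5 - ‖x‖ ^ 2).continuousOn.integrableOn_compact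
      (isCompact_closedBall (0 : E) 1)
  have hsplit := setIntegral_sdiff (measurableSet_hull S) hB (hull_subset_ball hS)
  rw [ball_moment] at hsplit
  have hlow : -(2 / 5) * (4 * Real.pi / 3 - V S) ≤
      ∫ x in closedBall (0 : E) 1 \ convexHull ℝ (S : Set E), (3 / 5 - ‖x‖ ^ 2) := by
    have hmeas : MeasurableSet (closedBall (0 : E) 1 \ convexHull ℝ (S : Set E)) :=
      isClosed_closedBall.measurableSet.diff (measurableSet_hull S)
    have hfin : volume (closedBall (0 : E) 1 \ convexHull ℝ (S : Set E)) ≠ ⊤ :=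
      ((measure_mono sdiff_subset).trans_lt (isCompact_closedBall (0 : E) 1).measure_lt_top).ne
    have hvol : (volume (closedBall (0 : E) 1 \ convexHull ℝ (S : Set E))).toReal =
        4 * Real.pi / 3 - V S := by
      rw [measure_sdiff (hull_subset_ball hS) (measurableSet_hull S).nullMeasurableSet
        ((measure_mono (hull_subset_ball hS)).trans_lt
          (isCompact_closedBall (0 : E) 1).measure_lt_top).ne,
        ENNReal.toReal_sub_of_le (measure_mono (hull_subset_ball hS))
          (isCompact_closedBall (0 : E) 1).measure_lt_top.ne, vol_ball]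
      rfl
    calc -(2 / 5) * (4 * Real.pi / 3 - V S)
        = ∫ _x in closedBall (0 : E) 1 \ convexHull ℝ (S : Set E), (-(2 / 5) : ℝ) := by
          simp only [integral_const, smul_eq_mul]
          rw [measureReal_restrict_apply_univ, measureReal_def, hvol]; ring
      _ ≤ _ := by
          refine setIntegral_mono_on (integrableOn_const hfin) (hB.mono_set sdiff_subset) hmeas ?_
          intro x hx
          have : ‖x‖ ≤ 1 := by simpa using hx.1
          nlinarith [norm_nonneg x]
  linarith

end Pool.Agent.Medial
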