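/-
T6: volumes of spherical sectors. (helper9)
-/
import Pool.Agent.Medial.T6c

set_option autoImplicit false

open MeasureTheory Set Metric
open scoped Real

namespace Pool.Agent.Medial

/-- the ball sector around `u` -/
def sec (u : E) (s : ℝ) : Set E := {x | ‖x‖ ≤ 1 ∧ s * ‖x‖ ≤ inner ℝ u x}

lemma isClosed_sec (u : E) (s : ℝ) : IsClosed (sec u s) := by
  have : sec u s = {x : E | ‖x‖ ≤ 1} ∩ {x | s * ‖x‖ ≤ inner ℝ u x} := rfl
  rw [this]
  exact (isClosed_le (by fun_prop) (by fun_prop)).inter (isClosed_le (by fun_prop) (by fun_prop))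

lemma disc_area {R : ℝ} (hR : 0 ≤ R) :
    (volume {p : ℝ × ℝ | p.1 ^ 2 + p.2 ^ 2 ≤ R}) = ENNReal.ofReal (π * R) := by
  have h : {p : ℝ × ℝ | p.1 ^ 2 + p.2 ^ 2 ≤ R} =
      Complex.measurableEquivRealProd.symm ⁻¹' (closedBall (0 : ℂ) (√R)) := by
    ext ⟨a, b⟩
    simp only [mem_preimage, mem_closedBall, dist_zero_right, Set.mem_ofPred_eq]
    have e : (Complex.measurableEquivRealProd.symm (a, b) : ℂ) = ⟨a, b⟩ := rfl
    rw [e, Real.le_sqrt (norm_nonneg _) hR, ← Complex.normSq_eq_norm_sq, Complex.normSq_mk]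
    constructor <;> intro h <;> nlinarith
  rw [h, (Complex.volume_preserving_equiv_real_prod.symm).measure_preimage
    isClosed_closedBall.measurableSet.nullMeasurableSet, Complex.volume_closedBall]
  rw [← ENNReal.ofReal_pow (Real.sqrt_nonneg _), Real.sq_sqrt hR, mul_comm π R,
    ENNReal.ofReal_mul hR]
  congr 1
  rw [← NNReal.coe_real_pi, ENNReal.ofReal_coe_nnreal]

lemma sec_zero_dir {s : ℝ} (hs0 : 0 ≤ s) (hs1 : s ≤ 1) :
    (volume (sec (EuclideanSpace.single 0 1) s)).toReal = 2 * π / 3 * (1 - s) := by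
  -- pass to coordinates
  set Z : Set (ℝ × ℝ × ℝ) := {p | (0 ≤ p.1 ∧ p.1 < s ∧ s ^ 2 * (p.2.1 ^ 2 + p.2.2 ^ 2) ≤
      p.1 ^ 2 * (1 - s ^ 2)) ∨ (s ≤ p.1 ∧ p.1 ≤ 1 ∧ p.2.1 ^ 2 + p.2.2 ^ 2 ≤ 1 - p.1 ^ 2)} with hZ
  have hpre : sec (EuclideanSpace.single 0 1) s = co ⁻¹' Z := by
    ext a
    simp only [sec, Set.mem_ofPred_eq, mem_preimage, hZ, co]
    have hn : ‖a‖ ^ 2 = a 0 ^ 2 + a 1 ^ 2 + a 2 ^ 2 := norm_sq_eq a
    have hi : (inner ℝ (EuclideanSpace.single 0 1 : E) a : ℝ) = a 0 := by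
      simp [inner_eq]
    rw [hi]
    have hn0 := norm_nonneg a
    constructor
    · rintro ⟨h1, h2⟩
      have ha0 : 0 ≤ a 0 := le_trans (by positivity) h2
      have h3 : s ^ 2 * ‖a‖ ^ 2 ≤ a 0 ^ 2 := by
        have : (s * ‖a‖) ^ 2 ≤ a 0 ^ 2 := pow_le_pow_left₀ (by positivity) h2 2
        nlinarith
      have h4 : ‖a‖ ^ 2 ≤ 1 := by nlinarith
      by_cases h5 : a 0 < s
      · left; exact ⟨ha0, h5, by rw [hn] at h3; nlinarith⟩
      · right; push Not at h5
        exact ⟨h5, by nlinarith, by linarith⟩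
    · rintro (⟨h1, h2, h3⟩ | ⟨h1, h2, h3⟩)
      · have hspos : 0 < s := lt_of_le_of_lt h1 h2
        have h4 : s ^ 2 * ‖a‖ ^ 2 ≤ a 0 ^ 2 := by rw [hn]; nlinarith
        have h5 : s * ‖a‖ ≤ a 0 := by
          apply le_of_sq_le_sq _ h1
          rw [mul_pow]; exact h4
        refine ⟨?_, h5⟩
        by_contra h6
        push Not at h6
        nlinarith
      · have h4 : ‖a‖ ^ 2 ≤ 1 := by rw [hn]; linarith
        have h5 : ‖a‖ ≤ 1 := by nlinarith
        exact ⟨h5, by nlinarith⟩
  have hZm : MeasurableSet Z := by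
    have m1 : MeasurableSet {p : ℝ × ℝ × ℝ | 0 ≤ p.1} := measurableSet_le (by fun_prop) (by fun_prop)
    have m2 : MeasurableSet {p : ℝ × ℝ × ℝ | p.1 < s} := measurableSet_lt (by fun_prop) (by fun_prop)
    have m3 : MeasurableSet {p : ℝ × ℝ × ℝ | s ^ 2 * (p.2.1 ^ 2 + p.2.2 ^ 2) ≤
      p.1 ^ 2 * (1 - s ^ 2)} := measurableSet_le (by fun_prop) (by fun_prop)
    have m4 : MeasurableSet {p : ℝ × ℝ × ℝ | s ≤ p.1} := measurableSet_le (by fun_prop) (by fun_prop)
    have m5 : MeasurableSet {p : ℝ × ℝ × ℝ | p.1 ≤ 1} := measurableSet_le (by fun_prop) (by fun_prop)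
    have m6 : MeasurableSet {p : ℝ × ℝ × ℝ | p.2.1 ^ 2 + p.2.2 ^ 2 ≤ 1 - p.1 ^ 2} :=
      measurableSet_le (by fun_prop) (by fun_prop)
    exact (m1.inter (m2.inter m3)).union (m4.inter (m5.inter m6))
  rw [hpre, mp_co.measure_preimage hZm.nullMeasurableSet]
  have hv : (volume : Measure (ℝ × ℝ × ℝ)) = (volume : Measure ℝ).prod (volume : Measure (ℝ × ℝ)) :=
    rfl
  rw [hv, Measure.prod_apply hZm]
  set G : ℝ → ℝ := fun x => (if x < s then x ^ 2 * (1 - s ^ 2) / s ^ 2 else 1 - x ^ 2) with hG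
  have hG0 : ∀ x ∈ Icc (0 : ℝ) 1, 0 ≤ G x := by
    intro x hx
    simp only [hG]
    split_ifs with h
    · have : 0 ≤ 1 - s ^ 2 := by nlinarith
      positivity
    · nlinarith [hx.1, hx.2]
  have hslice : ∀ x : ℝ, volume (Prod.mk x ⁻¹' Z) =
      (Icc (0 : ℝ) 1).indicator (fun x => ENNReal.ofReal (π * G x)) x := by
    intro x
    by_cases hx : x ∈ Icc (0 : ℝ) 1
    · rw [indicator_of_mem hx, ← disc_area (hG0 x hx)]
      congr 1
      ext ⟨y, z⟩
      simp only [mem_preimage, hZ, Set.mem_ofPred_eq, hG]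
      by_cases h : x < s
      · have hspos : 0 < s := lt_of_le_of_lt hx.1 h
        rw [if_pos h, le_div_iff₀ (by positivity)]
        constructor
        · rintro (⟨h1, h2, h3⟩ | ⟨h1, h2, h3⟩)
          · linarith
          · linarith
        · intro h3; left; exact ⟨hx.1, h, by linarith⟩
      · rw [if_neg h]
        push Not at h
        constructor
        · rintro (⟨h1, h2, h3⟩ | ⟨h1, h2, h3⟩)
          · linarith
          · exact h3
        · intro h3; right; exact ⟨h, hx.2, h3⟩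
    · rw [indicator_of_notMem hx]
      have : Prod.mk x ⁻¹' Z = ∅ := by
        ext ⟨y, z⟩
        simp only [mem_preimage, hZ, Set.mem_ofPred_eq, mem_empty_iff_false, iff_false]
        rintro (⟨h1, h2, h3⟩ | ⟨h1, h2, h3⟩)
        · exact hx ⟨h1, by linarith⟩
        · exact hx ⟨by linarith, h2⟩
      rw [this, measure_empty]
  simp only [hslice]
  rw [lintegral_indicator measurableSet_Icc]
  have hGm : Measurable G := by
    apply Measurable.ite measurableSet_Iio <;> fun_prop
  have hGb : ∀ x ∈ Icc (0 : ℝ) 1, G x ≤ 1 := by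
    intro x hx
    simp only [hG]
    split_ifs with h
    · have hspos : 0 < s := lt_of_le_of_lt hx.1 h
      rw [div_le_one (by positivity)]
      have h1 : x ^ 2 ≤ s ^ 2 := by nlinarith [hx.1]
      have : 0 ≤ 1 - s ^ 2 := by nlinarith
      nlinarith
    · nlinarith [hx.1]
  have hGint : IntegrableOn G (Icc 0 1) volume := by
    refine Measure.integrableOn_of_bounded (M := 1) (by simp) hGm.aestronglyMeasurable ?_
    refine (ae_restrict_iff' measurableSet_Icc).2 (Filter.Eventually.of_forall fun x hx => ?_)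
    rw [Real.norm_eq_abs, abs_of_nonneg (hG0 x hx)]; exact hGb x hx
  rw [← ofReal_integral_eq_lintegral_ofReal (hGint.const_mul π)
    ((ae_restrict_iff' measurableSet_Icc).2 (Filter.Eventually.of_forall fun x hx =>
      mul_nonneg Real.pi_pos.le (hG0 x hx)))]
  rw [ENNReal.toReal_ofReal (setIntegral_nonneg measurableSet_Icc fun x hx =>
    mul_nonneg Real.pi_pos.le (hG0 x hx)), integral_const_mul]
  have hI : ∫ x in Icc (0 : ℝ) 1, G x = 2 / 3 * (1 - s) := by
    rw [integral_Icc_eq_integral_Ioc, ← intervalIntegral.integral_of_le zero_le_one]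
    have hi1 : IntervalIntegrable G volume 0 s := by
      rw [intervalIntegrable_iff_integrableOn_Icc_of_le hs0]
      exact hGint.mono_set (Icc_subset_Icc_right hs1)
    have hi2 : IntervalIntegrable G volume s 1 := by
      rw [intervalIntegrable_iff_integrableOn_Icc_of_le hs1]
      exact hGint.mono_set (Icc_subset_Icc_left hs0)
    rw [← intervalIntegral.integral_add_adjacent_intervals hi1 hi2]
    have e1 : ∫ x in (0 : ℝ)..s, G x = s * (1 - s ^ 2) / 3 := by
      have : ∫ x in (0 : ℝ)..s, G x = ∫ x in (0 : ℝ)..s, x ^ 2 * ((1 - s ^ 2) / s ^ 2) := by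
        apply intervalIntegral.integral_congr_ae
        have hae : ∀ᵐ x : ℝ, x ≠ s := by simp [ae_iff]
        filter_upwards [hae] with x hx hx'
        rw [uIoc_of_le hs0] at hx'
        simp only [hG]
        rw [if_pos (lt_of_le_of_ne hx'.2 hx)]
        ring
      rw [this, intervalIntegral.integral_mul_const, integral_pow]
      rcases hs0.eq_or_lt with h | h
      · rw [← h]; norm_num
      · norm_num; field_simp
    have e2 : ∫ x in s..1, G x = (1 - s) - (1 - s ^ 3) / 3 := by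
      have : ∫ x in s..1, G x = ∫ x in s..1, (1 - x ^ 2) := by
        apply intervalIntegral.integral_congr
        intro x hx
        rw [uIcc_of_le hs1] at hx
        simp only [hG]
        rw [if_neg (not_lt.2 hx.1)]
      rw [this, intervalIntegral.integral_sub (by simp) (by simp), integral_pow]
      simp
      ring
    rw [e1, e2]; ring
  rw [hI]; ring

lemma sec_vol {u : E} (hu : ‖u‖ = 1) {s : ℝ} (hs0 : 0 ≤ s) (hs1 : s ≤ 1) :
    (volume (sec u s)).toReal = 2 * π / 3 * (1 - s) := by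
  rw [← sec_zero_dir hs0 hs1]
  set e : E := EuclideanSpace.single 0 1 with he
  have hne : ‖u‖ = ‖e‖ := by rw [hu, he]; simp
  set T := (ℝ ∙ (u - e))ᗮ.reflection with hT
  have hTu : T u = e := Submodule.reflection_sub hne
  have hpre : sec u s = T ⁻¹' (sec e s) := by
    ext x
    simp only [sec, mem_preimage, Set.mem_ofPred_eq, LinearIsometryEquiv.norm_map]
    rw [← hTu, LinearIsometryEquiv.inner_map_map]
  rw [hpre, T.measurePreserving.measure_preimage (isClosed_sec e s).measurableSet.nullMeasurableSet]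

end Pool.Agent.Medial
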