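/-
T6: the statements T6a-T6d. (helper9)
-/
import Pool.Agent.Medial.T6d

set_option autoImplicit false

open MeasureTheory Set Metric
open scoped Real

namespace Pool.Agent.Medial

lemma ball_lt_top : volume (closedBall (0 : E) 1) < ⊤ :=
  (isCompact_closedBall (0 : E) 1).measure_lt_top

lemma sec_subset_ball (u : E) (s : ℝ) : sec u s ⊆ closedBall (0 : E) 1 := by
  intro x hx; rw [mem_closedBall_zero_iff]; exact hx.1

lemma sec_fin (u : E) (s : ℝ) : volume (sec u s) ≠ ⊤ :=
  ((measure_mono (sec_subset_ball u s)).trans_lt ball_lt_top).ne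

/-- slab of the ball between two cones -/
lemma slab_vol {u : E} (hu : ‖u‖ = 1) {α β : ℝ} (h0 : 0 ≤ α) (h1 : α ≤ β) (h2 : β ≤ 1) :
    (volume {x : E | ‖x‖ ≤ 1 ∧ α * ‖x‖ ≤ inner ℝ u x ∧ inner ℝ u x ≤ β * ‖x‖}).toReal ≤
      2 * π / 3 * (β - α) := by
  set Z : Set E := {x : E | ‖x‖ ≤ 1 ∧ α * ‖x‖ ≤ inner ℝ u x ∧ inner ℝ u x ≤ β * ‖x‖} with hZ
  have hZs : Z ⊆ sec u α := fun x hx => ⟨hx.1, hx.2.1⟩
  rcases h2.eq_or_lt with h | h
  · rw [h, ← sec_vol hu h0 (h1.trans h2)]
    exact ENNReal.toReal_mono (sec_fin u α) (measure_mono hZs)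
  · have key : ∀ β' : ℝ, β < β' → β' ≤ 1 → (volume Z).toReal ≤ 2 * π / 3 * (β' - α) := by
      intro β' hb hb1
      have hdis : volume (Z ∩ sec u β') = 0 := by
        refine measure_mono_null (t := {0}) ?_ (measure_singleton _)
        rintro x ⟨hx, hx'⟩
        by_contra hne
        have hpos : 0 < ‖x‖ := norm_pos_iff.2 hne
        have h3 := hx.2.2
        have h4 := hx'.2
        nlinarith
      have hun : volume (Z ∪ sec u β') = volume Z + volume (sec u β') := by
        refine measure_union₀ (isClosed_sec u β').measurableSet.nullMeasurableSet ?_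
        exact hdis
      have hle : volume (Z ∪ sec u β') ≤ volume (sec u α) := by
        apply measure_mono
        apply union_subset hZs
        intro x hx
        refine ⟨hx.1, le_trans ?_ hx.2⟩
        have := norm_nonneg x
        nlinarith
      rw [hun] at hle
      have h5 := ENNReal.toReal_mono (sec_fin u α) hle
      rw [ENNReal.toReal_add (ne_top_of_le_ne_top (sec_fin u α) (measure_mono hZs)) (sec_fin u β'),
        sec_vol hu h0 (h1.trans h2), sec_vol hu (by linarith) hb1] at h5
      linarith
    by_contra hcon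
    push Not at hcon
    set d := (volume Z).toReal - 2 * π / 3 * (β - α) with hd
    have hdpos : 0 < d := by linarith
    have hpi := Real.pi_pos
    set ε := min (1 - β) (d / (2 * π)) with hε
    have hεpos : 0 < ε := lt_min (by linarith) (by positivity)
    have h6 := key (β + ε) (by linarith) (by have := min_le_left (1 - β) (d / (2 * π)); linarith)
    have h7 : ε ≤ d / (2 * π) := min_le_right _ _
    rw [le_div_iff₀ (by positivity)] at h7
    nlinarith

lemma open_sec_vol {u : E} (hu : ‖u‖ = 1) {s : ℝ} (h0 : 0 ≤ s) (h1 : s ≤ 1) :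
    2 * π / 3 * (1 - s) ≤ (volume {x : E | ‖x‖ ≤ 1 ∧ s * ‖x‖ < inner ℝ u x}).toReal := by
  set W : Set E := {x : E | ‖x‖ ≤ 1 ∧ s * ‖x‖ < inner ℝ u x} with hW
  have hWs : W ⊆ closedBall (0 : E) 1 := by
    intro x hx; rw [mem_closedBall_zero_iff]; exact hx.1
  have hWf : volume W ≠ ⊤ := ((measure_mono hWs).trans_lt ball_lt_top).ne
  have key : ∀ s' : ℝ, s < s' → s' ≤ 1 → 2 * π / 3 * (1 - s') ≤ (volume W).toReal := by
    intro s' hs hs1
    have hsub : sec u s' ⊆ W ∪ {0} := by
      intro x hx
      by_cases hx0 : x = 0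
      · right; exact hx0
      · left
        refine ⟨hx.1, ?_⟩
        have hpos : 0 < ‖x‖ := norm_pos_iff.2 hx0
        have := hx.2
        nlinarith
    have h2 : volume (sec u s') ≤ volume W := by
      refine (measure_mono hsub).trans ?_
      refine (measure_union_le _ _).trans ?_
      simp
    have := ENNReal.toReal_mono hWf h2
    rwa [sec_vol hu (by linarith) hs1] at this
  rcases h1.eq_or_lt with h | h
  · rw [h]; simp
  · by_contra hcon
    push Not at hcon
    set d := 2 * π / 3 * (1 - s) - (volume W).toReal with hd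
    have hdpos : 0 < d := by linarith
    have hpi := Real.pi_pos
    set ε := min (1 - s) (d / (2 * π)) with hε
    have hεpos : 0 < ε := lt_min (by linarith) (by positivity)
    have h6 := key (s + ε) (by linarith) (by have := min_le_left (1 - s) (d / (2 * π)); linarith)
    have h7 : ε ≤ d / (2 * π) := min_le_right _ _
    rw [le_div_iff₀ (by positivity)] at h7
    nlinarith

lemma tet_norm_le {S : Finset E} (hS : Unit S) (hc : Centered S) {v w : E} (hw : w ∈ N S v) {x : E}
    (hx : x ∈ tet v w (L S v w)) : ‖x‖ ≤ 1 := by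
  have hf := fac_L hw
  have := hull_subset_ball hS (tet_subset_hull hc hf.1 hf.2.1 hf.2.2.1 hx)
  simpa using this

open Classical in
lemma cnt_integral (S : Finset E) (K : E → E → Prop) :
    ∑ v ∈ S, ∑ w ∈ (N S v).filter (fun w => K v w), tri v w (L S v w) / 6 =
      ∫ x, cnt S K x := by
  have h := sum_eq_integral S K (g := fun _ => 1) continuous_const
  simp only [mul_one] at h
  rw [← h]
  refine Finset.sum_congr rfl fun v _ => Finset.sum_congr rfl fun w hw => ?_
  exact vol_tet_fac (Finset.mem_filter.1 hw).1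

lemma cnt_integrable (S : Finset E) (K : E → E → Prop) : Integrable (cnt S K) volume := by
  classical
  unfold cnt
  refine integrable_finsetSum _ fun v _ => integrable_finsetSum _ fun w _ => ?_
  rw [integrable_indicator_iff (measurableSet_tet _ _ _)]
  exact integrableOn_tet _ _ _ continuous_const

theorem T6c : Stmt_T6c := by
  intro S hS hs hc u α β K hu h0 h1 h2 hK
  rw [cnt_integral]
  set Z : Set E := {x : E | ‖x‖ ≤ 1 ∧ α * ‖x‖ ≤ inner ℝ u x ∧ inner ℝ u x ≤ β * ‖x‖} with hZ
  have hZm : MeasurableSet Z := by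
    have : IsClosed Z := by
      have e : Z = {x : E | ‖x‖ ≤ 1} ∩ ({x | α * ‖x‖ ≤ inner ℝ u x} ∩
        {x | inner ℝ u x ≤ β * ‖x‖}) := rfl
      rw [e]
      exact (isClosed_le (by fun_prop) (by fun_prop)).inter
        ((isClosed_le (by fun_prop) (by fun_prop)).inter (isClosed_le (by fun_prop) (by fun_prop)))
    exact this.measurableSet
  have hZb : Z ⊆ closedBall (0 : E) 1 := by
    intro x hx; rw [mem_closedBall_zero_iff]; exact hx.1
  have hZf : volume Z ≠ ⊤ := ((measure_mono hZb).trans_lt ball_lt_top).ne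
  have hle : ∫ x, cnt S K x ≤ ∫ x, Z.indicator (fun _ => (3 : ℝ)) x := by
    refine integral_mono_ae (cnt_integrable S K)
      ((integrable_indicator_iff hZm).2 (integrableOn_const hZf)) ?_
    filter_upwards [ae_gen S] with x hx
    by_cases hxZ : x ∈ Z
    · rw [indicator_of_mem hxZ]
      by_cases hxP : x ∈ convexHull ℝ (S : Set E)
      · rw [← cnt_of_mem hS hs hc hxP hx]
        exact cnt_mono (fun _ _ _ => trivial) x
      · rw [cnt_of_notMem hc K hxP]; norm_num
    · rw [indicator_of_notMem hxZ, cnt_eq_zero]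
      intro v hv w hw hKvw hxt
      apply hxZ
      have := hK v hv w hw hKvw x hxt
      exact ⟨tet_norm_le hS hc hw hxt, this.1, this.2⟩
  rw [integral_indicator hZm] at hle
  simp only [integral_const, smul_eq_mul] at hle
  rw [measureReal_restrict_apply_univ, measureReal_def] at hle
  have := slab_vol hu h0 h1 h2
  linarith

theorem T6d : Stmt_T6d := by
  intro S hS hs hc u s K hu h0 h1 hK
  rw [cnt_integral]
  set W : Set E := {x : E | ‖x‖ ≤ 1 ∧ s * ‖x‖ < inner ℝ u x} with hW
  set P := convexHull ℝ (S : Set E) with hP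
  have hWm : MeasurableSet W := by
    have e : W = {x : E | ‖x‖ ≤ 1} ∩ {x | s * ‖x‖ < inner ℝ u x} := rfl
    rw [e]
    exact (isClosed_le (by fun_prop) (by fun_prop)).measurableSet.inter
      (isOpen_lt (by fun_prop) (by fun_prop)).measurableSet
  have hWs : W ⊆ closedBall (0 : E) 1 := by
    intro x hx; rw [mem_closedBall_zero_iff]; exact hx.1
  have hWf : volume W ≠ ⊤ := ((measure_mono hWs).trans_lt ball_lt_top).ne
  have hPm : MeasurableSet P := measurableSet_hull S
  have hPb : P ⊆ closedBall (0 : E) 1 := hull_subset_ball hS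
  have hPf : volume P ≠ ⊤ := ((measure_mono hPb).trans_lt ball_lt_top).ne
  have hle : ∫ x, (W ∩ P).indicator (fun _ => (3 : ℝ)) x ≤ ∫ x, cnt S K x := by
    refine integral_mono_ae ((integrable_indicator_iff (hWm.inter hPm)).2
      (integrableOn_const (ne_top_of_le_ne_top hWf (measure_mono inter_subset_left))))
      (cnt_integrable S K) ?_
    filter_upwards [ae_gen S] with x hx
    by_cases hxW : x ∈ W ∩ P
    · rw [indicator_of_mem hxW, ← cnt_of_mem hS hs hc hxW.2 hx]
      rw [cnt_eq_of_all (K := K)]
      intro v hv w hw hxt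
      by_contra hn
      have := hK v hv w hw hn x hxt
      have h3 := hxW.1.2
      linarith
    · rw [indicator_of_notMem hxW]; exact cnt_nonneg S K x
  rw [integral_indicator (hWm.inter hPm)] at hle
  simp only [integral_const, smul_eq_mul] at hle
  rw [measureReal_restrict_apply_univ, measureReal_def] at hle
  have h2 := open_sec_vol hu h0 h1
  -- inclusion exclusion in the ball
  have h3 : (volume W).toReal + (volume P).toReal ≤ (volume (W ∩ P)).toReal +
      (volume (closedBall (0 : E) 1)).toReal := by
    have e := measure_union_add_inter W hPm (μ := volume)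
    have h4 : volume (W ∪ P) ≤ volume (closedBall (0 : E) 1) := measure_mono (union_subset hWs hPb)
    have e2 := congrArg ENNReal.toReal e
    rw [ENNReal.toReal_add (ne_top_of_le_ne_top ball_lt_top.ne h4)
      (ne_top_of_le_ne_top hWf (measure_mono inter_subset_left)), ENNReal.toReal_add hWf hPf] at e2
    have h5 := ENNReal.toReal_mono ball_lt_top.ne h4
    linarith
  rw [vol_ball] at h3
  have hV : V S = (volume P).toReal := rfl
  rw [hV]
  linarith

end Pool.Agent.Medial
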