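/-
T7 : insertion of a point.  (helper86)
-/
import Pool.Agent.Medial.Defs

set_option autoImplicit false

namespace Pool.Agent.Medial

open MeasureTheory
open scoped Real

namespace T7aux

/-- volume of the box spanned by an orthonormal basis -/
theorem box_volume (b : OrthonormalBasis (Fin 3) ℝ E) (l u : Fin 3 → ℝ) :
    volume {x : E | ∀ i, b.repr x i ∈ Set.Ioo (l i) (u i)} = ∏ i, ENNReal.ofReal (u i - l i) := by
  rw [← Real.volume_pi_Ioo]
  have h1 := b.measurePreserving_repr
  have h2 := PiLp.volume_preserving_ofLp (Fin 3)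
  have h3 := h2.comp h1
  rw [← h3.measure_preimage
    (MeasurableSet.univ_pi (fun _ => measurableSet_Ioo)).nullMeasurableSet]
  congr 1
  ext x
  simp

theorem box_measurable (b : OrthonormalBasis (Fin 3) ℝ E) (l u : Fin 3 → ℝ) :
    MeasurableSet {x : E | ∀ i, b.repr x i ∈ Set.Ioo (l i) (u i)} := by
  have h1 := b.measurePreserving_repr
  have h2 := PiLp.volume_preserving_ofLp (Fin 3)
  have h3 := (h2.comp h1).measurable
    (MeasurableSet.univ_pi (fun i => measurableSet_Ioo (a := l i) (b := u i)))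
  have h4 : {x : E | ∀ i, b.repr x i ∈ Set.Ioo (l i) (u i)} =
      WithLp.ofLp ∘ ⇑b.repr ⁻¹' Set.univ.pi fun i => Set.Ioo (l i) (u i) :=
    Set.ext fun x => by simp
  rw [h4]
  exact h3

/-- maximum of the linear functional on `S` -/
noncomputable def hS (S : Finset E) (hS : S.Nonempty) (p : E) : ℝ :=
  S.sup' hS (fun x => (inner ℝ p x : ℝ))

theorem hS_cont (S : Finset E) (h : S.Nonempty) : Continuous (hS S h) := by
  unfold hS
  exact Continuous.finset_sup'_apply h (fun x _ => continuous_id.inner continuous_const)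

theorem exists_min (S : Finset E) (h : S.Nonempty) :
    ∃ p : E, ‖p‖ = 1 ∧ ∀ q : E, ‖q‖ = 1 → hS S h p ≤ hS S h q := by
  obtain ⟨p, hp, hmin⟩ := (isCompact_sphere (0 : E) 1).exists_isMinOn
    (NormedSpace.sphere_nonempty.2 zero_le_one) (hS_cont S h).continuousOn
  refine ⟨p, by simpa using hp, fun q hq => hmin (by simpa using hq)⟩

theorem ball_subset (S : Finset E) (h : S.Nonempty) (r : ℝ)
    (hr : ∀ q : E, ‖q‖ = 1 → r ≤ hS S h q) :
    Metric.closedBall (0 : E) r ⊆ convexHull ℝ (S : Set E) := by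
  intro y hy
  by_contra hc
  obtain ⟨f, u, hfu, huy⟩ := geometric_hahn_banach_closed_point (convex_convexHull ℝ (S : Set E))
    (S.finite_toSet.isClosed_convexHull ℝ) hc
  set a : E := (InnerProductSpace.toDual ℝ E).symm f with ha
  have hfa : ∀ x, f x = inner ℝ a x := by
    intro x
    rw [ha, InnerProductSpace.toDual_symm_apply]
  have ha0 : a ≠ 0 := by
    intro h0
    obtain ⟨x, hx⟩ := h
    have h1 := hfu x (subset_convexHull ℝ _ hx)
    rw [hfa, h0, inner_zero_left] at h1
    rw [hfa, h0, inner_zero_left] at huy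
    linarith
  have hna : 0 < ‖a‖ := norm_pos_iff.2 ha0
  have hq := hr ((‖a‖)⁻¹ • a) (by rw [norm_smul, norm_inv, norm_norm, inv_mul_cancel₀ hna.ne'])
  obtain ⟨x, hx, hxm⟩ := S.exists_mem_eq_sup' h
    (fun x => (inner ℝ ((‖a‖)⁻¹ • a) x : ℝ))
  have h1 := hfu x (subset_convexHull ℝ _ hx)
  rw [hfa] at h1 huy
  have h2 : (inner ℝ ((‖a‖)⁻¹ • a) x : ℝ) = (‖a‖)⁻¹ * inner ℝ a x := by
    rw [real_inner_smul_left]
  have h3 : r ≤ (‖a‖)⁻¹ * inner ℝ a x := by
    rw [← h2, ← hxm]; exact hq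
  have h4 : (inner ℝ a y : ℝ) ≤ ‖a‖ * r :=
    (real_inner_le_norm a y).trans (mul_le_mul_of_nonneg_left (by simpa using hy) hna.le)
  have h5 : ‖a‖ * r ≤ inner ℝ a x := by
    have := mul_le_mul_of_nonneg_left h3 hna.le
    rwa [← mul_assoc, mul_inv_cancel₀ hna.ne', one_mul] at this
  linarith

theorem hull_le (S : Finset E) (h : S.Nonempty) (p x : E) (hx : x ∈ convexHull ℝ (S : Set E)) :
    (inner ℝ p x : ℝ) ≤ hS S h p := by
  have hconv : Convex ℝ {x : E | (inner ℝ p x : ℝ) ≤ hS S h p} := by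
    have := convex_halfSpace_le (𝕜 := ℝ) (f := fun x : E => (inner ℝ p x : ℝ))
      (innerSL ℝ p).isLinear (hS S h p)
    exact this
  have hsub : (S : Set E) ⊆ {x : E | (inner ℝ p x : ℝ) ≤ hS S h p} := by
    intro y hy
    exact S.le_sup' (fun x => (inner ℝ p x : ℝ)) hy
  exact convexHull_min hsub hconv hx

theorem hull_sub_ball (S : Finset E) (hU : Unit S) :
    convexHull ℝ (S : Set E) ⊆ Metric.closedBall (0 : E) 1 := by
  apply convexHull_min _ (convex_closedBall _ _)
  intro x hx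
  simp [hU x hx]

theorem vol_unit : volume (Metric.closedBall (0 : E) 1) = ENNReal.ofReal (4 * π / 3) := by
  rw [EuclideanSpace.volume_closedBall_fin_three]
  simp
  congr 1
  ring

theorem hull_meas (S : Finset E) : MeasurableSet (convexHull ℝ (S : Set E)) :=
  (S.finite_toSet.isClosed_convexHull ℝ).measurableSet

theorem hull_fin (S : Finset E) : volume (convexHull ℝ (S : Set E)) ≠ ⊤ :=
  (S.finite_toSet.isCompact_convexHull ℝ).measure_lt_top.ne

/-- lower bound for `r` -/
theorem r_ge (S : Finset E) (h : S.Nonempty) (hU : Unit S) (hD : 4 * π / 3 - V S ≤ 1 / 1000)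
    (p : E) (hp : ‖p‖ = 1) : 3 / 4 ≤ hS S h p := by
  by_contra hc
  push Not at hc
  have hsub : convexHull ℝ (S : Set E) ∪ Metric.ball ((7 / 8 : ℝ) • p) (1 / 8) ⊆
      Metric.closedBall (0 : E) 1 := by
    apply Set.union_subset (hull_sub_ball S hU)
    intro x hx
    rw [mem_closedBall_zero_iff]
    have h1 : ‖x - (7 / 8 : ℝ) • p‖ < 1 / 8 := by simpa [dist_eq_norm] using hx
    have h2 : ‖x‖ ≤ ‖x - (7 / 8 : ℝ) • p‖ + ‖(7 / 8 : ℝ) • p‖ := by
      have := norm_add_le (x - (7 / 8 : ℝ) • p) ((7 / 8 : ℝ) • p)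
      simpa using this
    have h3 : ‖(7 / 8 : ℝ) • p‖ = 7 / 8 := by
      rw [norm_smul, hp]; norm_num
    linarith
  have hdisj : Disjoint (convexHull ℝ (S : Set E)) (Metric.ball ((7 / 8 : ℝ) • p) (1 / 8)) := by
    rw [Set.disjoint_left]
    intro x hx hxb
    have h1 : ‖x - (7 / 8 : ℝ) • p‖ < 1 / 8 := by simpa [dist_eq_norm] using hxb
    have h2 := hull_le S h p x hx
    have h3 : (inner ℝ p (x - (7 / 8 : ℝ) • p) : ℝ) = inner ℝ p x - 7 / 8 := by
      rw [inner_sub_right, real_inner_smul_right, real_inner_self_eq_norm_sq, hp]; norm_num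
    have h4 : |(inner ℝ p (x - (7 / 8 : ℝ) • p) : ℝ)| ≤ ‖p‖ * ‖x - (7 / 8 : ℝ) • p‖ :=
      abs_real_inner_le_norm _ _
    rw [h3, hp, one_mul] at h4
    have := (abs_le.1 h4).1
    linarith
  have h1 := measure_mono (μ := volume) hsub
  rw [measure_union hdisj Metric.isOpen_ball.measurableSet, vol_unit,
    EuclideanSpace.volume_ball_fin_three] at h1
  have h2 : V S + (1 / 8) ^ 3 * (π * 4 / 3) ≤ 4 * π / 3 := by
    have h3 := ENNReal.toReal_mono ENNReal.ofReal_ne_top h1
    rw [ENNReal.toReal_add (hull_fin S) (by finiteness), ENNReal.toReal_mul, ENNReal.toReal_pow,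
      ENNReal.toReal_ofReal (by norm_num), ENNReal.toReal_ofReal (by positivity),
      ENNReal.toReal_ofReal (by positivity)] at h3
    exact h3
  have := Real.pi_gt_three
  norm_num at h2
  linarith

/-- points of the box over the ball belong to the hull -/
theorem box_mem (K : Set E) (hK : Convex ℝ K) (p : E) (hp : ‖p‖ = 1) (hpK : p ∈ K) (t : ℝ)
    (ht0 : 0 < t) (ht : t ≤ 1 / 4) (hb : Metric.closedBall (0 : E) (1 - t) ⊆ K) (x : E)
    (hx1 : 1 - t ≤ inner ℝ p x) (hx2 : (inner ℝ p x : ℝ) ≤ 1 - t + t / 3)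
    (hx3 : ‖x - (inner ℝ p x : ℝ) • p‖ ^ 2 ≤ t / 9) : x ∈ K := by
  set s : ℝ := inner ℝ p x with hs
  set w : E := x - s • p with hw
  set θ : ℝ := (1 - s) * (4 * t + 1) / (4 * t) with hθ
  have hθ0 : 0 < θ := by
    rw [hθ]; apply div_pos (mul_pos _ _) <;> linarith
  have hθ1 : θ ≤ 1 := by
    rw [hθ, div_le_one (by linarith)]
    nlinarith
  have hs1 : (1 - s) / θ = 4 * t / (4 * t + 1) := by
    rw [hθ]
    have : 1 - s ≠ 0 := by linarith
    field_simp
  -- the point z
  set z : E := (1 / (4 * t + 1)) • p + (1 / θ) • w with hz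
  have hpw : (inner ℝ p w : ℝ) = 0 := by
    rw [hw, inner_sub_right, real_inner_smul_right, real_inner_self_eq_norm_sq, hp, ← hs]; ring
  have hzn : ‖z‖ ^ 2 = (1 / (4 * t + 1)) ^ 2 + (1 / θ) ^ 2 * ‖w‖ ^ 2 := by
    rw [hz, norm_add_sq_real, norm_smul, norm_smul, real_inner_smul_left, real_inner_smul_right,
      hpw, hp, mul_pow, mul_pow, Real.norm_eq_abs, Real.norm_eq_abs, sq_abs, sq_abs]
    ring
  have hθ2 : 2 * (4 * t + 1) / 12 ≤ θ := by
    rw [hθ, le_div_iff₀ (by linarith)]
    nlinarith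
  have hθ3 : (1 / θ) ^ 2 * ‖w‖ ^ 2 ≤ 4 * t / (4 * t + 1) ^ 2 := by
    have h1 : (1 / θ) ≤ 6 / (4 * t + 1) := by
      rw [div_le_div_iff₀ hθ0 (by linarith)]
      linarith
    have h2 : (1 / θ) ^ 2 ≤ (6 / (4 * t + 1)) ^ 2 := by
      apply pow_le_pow_left₀ (by positivity) h1
    calc (1 / θ) ^ 2 * ‖w‖ ^ 2 ≤ (6 / (4 * t + 1)) ^ 2 * (t / 9) := by
          apply mul_le_mul h2 hx3 (by positivity) (by positivity)
      _ = 4 * t / (4 * t + 1) ^ 2 := by
          field_simp
          ring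
  have hzle : ‖z‖ ≤ 1 - t := by
    rw [← pow_le_pow_iff_left₀ (norm_nonneg z) (by linarith) two_ne_zero, hzn]
    have h1 : (1 / (4 * t + 1)) ^ 2 + 4 * t / (4 * t + 1) ^ 2 = 1 / (4 * t + 1) := by
      field_simp
      ring
    have h2 : 1 / (4 * t + 1) ≤ (1 - t) ^ 2 := by
      rw [div_le_iff₀ (by linarith)]
      nlinarith [mul_pos ht0 ht0]
    linarith
  have hzK : z ∈ K := hb (by simpa using hzle)
  have hxz : x = (1 - θ) • p + θ • z := by
    have h1 : θ * (1 / (4 * t + 1)) = θ - (1 - s) := by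
      have h2 : θ * (1 / (4 * t + 1)) = (1 - s) / (4 * t) := by
        rw [hθ]; field_simp
      rw [h2, hθ]
      field_simp
      ring
    rw [hz, smul_add, smul_smul, smul_smul, h1, mul_one_div_cancel hθ0.ne', one_smul, hw]
    module
  rw [hxz]
  exact hK hpK hzK (by linarith) hθ0.le (by ring)

end T7aux

open T7aux

theorem T7 : Stmt_T7 := by
  intro S hU hD
  have hne : S.Nonempty := by
    rw [Finset.nonempty_iff_ne_empty]
    rintro rfl
    have h1 : V (∅ : Finset E) = 0 := by simp [V]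
    rw [h1] at hD
    have := Real.pi_gt_three
    linarith
  obtain ⟨p, hp, hmin⟩ := exists_min S hne
  set r : ℝ := T7aux.hS S hne p with hr
  have hr1 : 3 / 4 ≤ r := r_ge S hne hU hD p hp
  have hr2 : r ≤ 1 := by
    apply Finset.sup'_le
    intro x hx
    have := real_inner_le_norm p x
    rwa [hp, hU x hx, one_mul] at this
  have hball := ball_subset S hne r hmin
  refine ⟨r, p, hr1, hr2, hp, hball, ?_⟩
  -- the hull of the enlarged set
  set K : Set E := convexHull ℝ ((insert p S : Finset E) : Set E) with hK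
  have hSK : convexHull ℝ (S : Set E) ⊆ K := convexHull_mono (by simp)
  rcases eq_or_lt_of_le hr2 with h1 | h1
  · have : V S ≤ V (insert p S) :=
      ENNReal.toReal_mono (hull_fin _) (measure_mono hSK)
    rw [h1]
    simpa using this
  set t : ℝ := 1 - r with ht
  have ht0 : 0 < t := by linarith
  -- orthonormal basis with first vector p
  obtain ⟨b, hb⟩ := Orthonormal.exists_orthonormalBasis_extension_of_card_eq (𝕜 := ℝ) (E := E)
    (ι := Fin 3) (by simp) (v := fun _ => p) (s := {0}) (by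
      constructor
      · intro i; simp [Set.domRestrict, hp]
      · intro i j hij
        exact absurd (Subsingleton.elim i j) hij)
  have hb0 : b 0 = p := hb 0 rfl
  set a : ℝ := √(t / 18) with ha
  have ha0 : 0 < a := Real.sqrt_pos.2 (by linarith)
  have ha2 : a ^ 2 = t / 18 := Real.sq_sqrt (by linarith)
  set l : Fin 3 → ℝ := ![r, -a, -a] with hl
  set u : Fin 3 → ℝ := ![r + t / 3, a, a] with hu
  set B : Set E := {x : E | ∀ i, b.repr x i ∈ Set.Ioo (l i) (u i)} with hB
  have hvB : volume B = ENNReal.ofReal (2 * t ^ 2 / 27) := by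
    rw [hB, box_volume, Fin.prod_univ_three]
    simp only [hl, hu, Matrix.cons_val_zero, Matrix.cons_val_one, Matrix.cons_val]
    rw [← ENNReal.ofReal_mul (by linarith), ← ENNReal.ofReal_mul (by nlinarith)]
    congr 1
    have : (r + t / 3 - r) * (a - -a) * (a - -a) = (t / 3) * (4 * a ^ 2) := by ring
    rw [this, ha2]; ring
  have hBK : B ⊆ K := by
    intro x hx
    have hx0 := hx 0
    have hx1 := hx 1
    have hx2 := hx 2
    simp only [hl, hu, Matrix.cons_val_zero, Matrix.cons_val_one, Matrix.cons_val,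
      Set.mem_Ioo] at hx0 hx1 hx2
    have e0 : b.repr x 0 = inner ℝ p x := by rw [b.repr_apply_apply, hb0]
    rw [e0] at hx0
    have hrt : r = 1 - t := by rw [ht]; ring
    refine box_mem K (convex_convexHull ℝ _) p hp (subset_convexHull ℝ _ (by simp)) t ht0
      (by linarith) (by rw [← hrt]; exact hball.trans hSK) x (by linarith [hx0.1])
      (by linarith [hx0.2]) ?_
    -- norm of the orthogonal part
    have h3 : ‖x - (inner ℝ p x : ℝ) • p‖ ^ 2 = (b.repr x 1) ^ 2 + (b.repr x 2) ^ 2 := by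
      have h4 : ‖x‖ ^ 2 = (b.repr x 0) ^ 2 + (b.repr x 1) ^ 2 + (b.repr x 2) ^ 2 := by
        rw [← b.repr.norm_map x, EuclideanSpace.norm_sq_eq, Fin.sum_univ_three]
        simp
      rw [norm_sub_sq_real, h4, norm_smul, real_inner_smul_right, hp, mul_pow,
        Real.norm_eq_abs, sq_abs, real_inner_comm p x, e0]
      ring
    rw [h3]
    have h5 : (b.repr x 1) ^ 2 ≤ a ^ 2 := by
      apply sq_le_sq' <;> linarith [hx1.1, hx1.2]
    have h6 : (b.repr x 2) ^ 2 ≤ a ^ 2 := by
      apply sq_le_sq' <;> linarith [hx2.1, hx2.2]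
    linarith
  have hdisj : Disjoint (convexHull ℝ (S : Set E)) B := by
    rw [Set.disjoint_left]
    intro x hx hxB
    have h2 := hull_le S hne p x hx
    have hx0 := hxB 0
    simp only [hl, hu, Matrix.cons_val_zero, Set.mem_Ioo] at hx0
    have e0 : b.repr x 0 = inner ℝ p x := by rw [b.repr_apply_apply, hb0]
    rw [e0] at hx0
    linarith [hx0.1]
  have hmu := measure_mono (μ := volume) (Set.union_subset hSK hBK)
  rw [measure_union hdisj (box_measurable b l u), hvB] at hmu
  have h3 := ENNReal.toReal_mono (hull_fin (insert p S)) hmu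
  rw [ENNReal.toReal_add (hull_fin S) ENNReal.ofReal_ne_top,
    ENNReal.toReal_ofReal (by positivity)] at h3
  have h4 : V S + 2 * t ^ 2 / 27 ≤ V (insert p S) := h3
  nlinarith [sq_nonneg t]

end Pool.Agent.Medial
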