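/-
T8: the volume of a thin triangular cap of the ball. (helper9)
-/
import Pool.Agent.Medial.T6

set_option autoImplicit false

open MeasureTheory Set Metric
open scoped Real

namespace Pool.Agent.Medial

/-- the cone spanned by a positively oriented triple -/
def cone3 (p q r : E) : Set E := {x | 0 ≤ tri x q r ∧ 0 ≤ tri p x r ∧ 0 ≤ tri p q x}

lemma tri_smul_left (a b c : E) (t : ℝ) : tri (t • a) b c = t * tri a b c := by
  simp [tri]; ring

lemma tri_smul_mid (a b c : E) (t : ℝ) : tri a (t • b) c = t * tri a b c := by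
  simp [tri]; ring

lemma continuous_tri {f g h : E → E} (hf : Continuous f) (hg : Continuous g) (hh : Continuous h) :
    Continuous (fun x => tri (f x) (g x) (h x)) := by
  unfold tri; fun_prop

lemma isClosed_cone3 (p q r : E) : IsClosed (cone3 p q r) := by
  have e : cone3 p q r = {x | 0 ≤ tri x q r} ∩ ({x | 0 ≤ tri p x r} ∩ {x | 0 ≤ tri p q x}) := rfl
  rw [e]
  exact (isClosed_le continuous_const (continuous_tri continuous_id continuous_const continuous_const)).inter
    ((isClosed_le continuous_const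
      (continuous_tri continuous_const continuous_id continuous_const)).inter
      (isClosed_le continuous_const (continuous_tri continuous_const continuous_const continuous_id)))

lemma mem_cone3 {p q r x : E} (h : 0 < tri p q r) :
    x ∈ cone3 p q r ↔ ∃ a b c : ℝ, 0 ≤ a ∧ 0 ≤ b ∧ 0 ≤ c ∧ x = a • p + b • q + c • r := by
  constructor
  · rintro ⟨h1, h2, h3⟩
    refine ⟨tri x q r / tri p q r, tri p x r / tri p q r, tri p q x / tri p q r,
      by positivity, by positivity, by positivity, ?_⟩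
    have hc := cramer p q r x
    have h0 := h.ne'
    calc x = (tri p q r)⁻¹ • (tri p q r • x) := by
          rw [smul_smul, inv_mul_cancel₀ h0, one_smul]
      _ = (tri p q r)⁻¹ • (tri x q r • p + tri p x r • q + tri p q x • r) := by rw [hc]
      _ = _ := by rw [smul_add, smul_add, smul_smul, smul_smul, smul_smul]; simp only [div_eq_inv_mul]
  · rintro ⟨a, b, c, ha, hb, hc, rfl⟩
    refine ⟨?_, ?_, ?_⟩
    · have : tri (a • p + b • q + c • r) q r = a * tri p q r := by simp [tri]; ring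
      rw [this]; positivity
    · have : tri p (a • p + b • q + c • r) r = b * tri p q r := by simp [tri]; ring
      rw [this]; positivity
    · have : tri p q (a • p + b • q + c • r) = c * tri p q r := by simp [tri]; ring
      rw [this]; positivity

lemma cone3_smul {p q r x : E} (hx : x ∈ cone3 p q r) {t : ℝ} (ht : 0 < t) : t • x ∈ cone3 p q r := by
  refine ⟨?_, ?_, ?_⟩
  · rw [tri_smul_left]; exact mul_nonneg ht.le hx.1
  · rw [tri_smul_mid]; exact mul_nonneg ht.le hx.2.1
  · rw [tri_smul_right]; exact mul_nonneg ht.le hx.2.2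

lemma defect {p q r : E} (h : 0 < tri p q r) (hp : ‖p‖ = 1) (hq : ‖q‖ = 1) (hr : ‖r‖ = 1)
    {l : ℝ} (h1 : ‖p - q‖ ≤ l) (h2 : ‖q - r‖ ≤ l) (h3 : ‖r - p‖ ≤ l) (hl : l ^ 2 < 2 / 5) :
    (volume ((closedBall (0 : E) 1 ∩ cone3 p q r) \ tet p q r)).toReal ≤
      tri p q r * (3 * l ^ 2) / 120 / (2 / 5 - l ^ 2) := by
  have hl0 : 0 ≤ l := le_trans (norm_nonneg _) h1
  set B := closedBall (0 : E) 1 with hB
  set C := cone3 p q r with hC
  have hCm : MeasurableSet C := (isClosed_cone3 p q r).measurableSet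
  have hBC : MeasurableSet (B ∩ C) := isClosed_closedBall.measurableSet.inter hCm
  have hint : IntegrableOn (fun x : E => 3 / 5 - ‖x‖ ^ 2) (B ∩ C) volume :=
    ((by fun_prop : Continuous fun x : E => 3 / 5 - ‖x‖ ^ 2).continuousOn.integrableOn_compact
      (isCompact_closedBall (0 : E) 1)).mono_set inter_subset_left
  have htet : tet p q r ⊆ B ∩ C := by
    intro x hx
    obtain ⟨a, b, c, ha, hb, hc, hs, rfl⟩ := mem_tet.1 hx
    refine ⟨?_, (mem_cone3 h).2 ⟨a, b, c, ha, hb, hc, rfl⟩⟩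
    rw [hB, mem_closedBall_zero_iff]
    calc ‖a • p + b • q + c • r‖ ≤ ‖a • p‖ + ‖b • q‖ + ‖c • r‖ := norm_add₃_le
      _ = a + b + c := by
          rw [norm_smul, norm_smul, norm_smul, hp, hq, hr, Real.norm_of_nonneg ha,
            Real.norm_of_nonneg hb, Real.norm_of_nonneg hc]; ring
      _ ≤ 1 := hs
  have hsplit := setIntegral_sdiff (measurableSet_tet p q r) hint htet
  rw [cone_moment C hCm (fun x hx t ht => cone3_smul hx ht), second_moment h hp hq hr] at hsplit
  have hfin : volume ((B ∩ C) \ tet p q r) ≠ ⊤ :=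
    ((measure_mono (sdiff_subset.trans inter_subset_left)).trans_lt ball_lt_top).ne
  have hup : ∫ x in (B ∩ C) \ tet p q r, (3 / 5 - ‖x‖ ^ 2) ≤
      ∫ _x in (B ∩ C) \ tet p q r, (-(2 / 5 - l ^ 2) : ℝ) := by
    refine setIntegral_mono_on (hint.mono_set sdiff_subset) (integrableOn_const hfin)
      (hBC.diff (measurableSet_tet p q r)) ?_
    rintro x ⟨⟨-, hxC⟩, hxt⟩
    obtain ⟨a, b, c, ha, hb, hc, rfl⟩ := (mem_cone3 h).1 hxC
    have hs : 1 < a + b + c := by
      by_contra hcon
      push Not at hcon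
      exact hxt (mem_tet.2 ⟨a, b, c, ha, hb, hc, hcon, rfl⟩)
    have hn := norm_Lm_sq hp hq hr !₂[a, b, c]
    rw [Lm_apply] at hn
    simp at hn
    rw [hn]
    have q1 : a * b * ‖p - q‖ ^ 2 ≤ a * b * l ^ 2 := by gcongr
    have q2 : b * c * ‖q - r‖ ^ 2 ≤ b * c * l ^ 2 := by gcongr
    have q3 : a * c * ‖r - p‖ ^ 2 ≤ a * c * l ^ 2 := by gcongr
    have q4 : a * b + b * c + a * c ≤ (a + b + c) ^ 2 / 3 := by
      nlinarith [sq_nonneg (a - b), sq_nonneg (b - c), sq_nonneg (a - c)]
    have q5 : (a * b + b * c + a * c) * l ^ 2 ≤ (a + b + c) ^ 2 / 3 * l ^ 2 := by gcongr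
    have q6 : 1 ≤ (a + b + c) ^ 2 := by nlinarith
    have q7 : 0 ≤ l ^ 2 := sq_nonneg l
    nlinarith
  simp only [integral_const, smul_eq_mul] at hup
  rw [measureReal_restrict_apply_univ, measureReal_def] at hup
  have hL : Lsq p q r ≤ 3 * l ^ 2 := by
    unfold Lsq
    have q1 : ‖p - q‖ ^ 2 ≤ l ^ 2 := by gcongr
    have q2 : ‖q - r‖ ^ 2 ≤ l ^ 2 := by gcongr
    have q3 : ‖r - p‖ ^ 2 ≤ l ^ 2 := by gcongr
    linarith
  have hL2 : tri p q r / 6 * Lsq p q r / 20 ≤ tri p q r * (3 * l ^ 2) / 120 := by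
    have : tri p q r * Lsq p q r ≤ tri p q r * (3 * l ^ 2) := by gcongr
    linarith
  rw [le_div_iff₀ (by linarith)]
  nlinarith

lemma norm_normalize_sub_le {x y : E} (hx : 1 ≤ ‖x‖) (hy : 1 ≤ ‖y‖) :
    ‖(‖x‖)⁻¹ • x - (‖y‖)⁻¹ • y‖ ≤ ‖x - y‖ := by
  have hx0 : 0 < ‖x‖ := by linarith
  have hy0 : 0 < ‖y‖ := by linarith
  apply le_of_sq_le_sq _ (norm_nonneg _)
  rw [norm_sub_sq_real, norm_sub_sq_real, norm_smul, norm_smul, norm_inv, norm_inv, norm_norm,
    norm_norm, inner_smul_left, inner_smul_right, inv_mul_cancel₀ hx0.ne', inv_mul_cancel₀ hy0.ne']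
  simp only [conj_trivial]
  have hcs := real_inner_le_norm x y
  set t := inner ℝ x y with ht
  set a := ‖x‖
  set b := ‖y‖
  have e : a⁻¹ * (b⁻¹ * t) = t / (a * b) := by field_simp
  rw [e]
  have hab : 1 ≤ a * b := by nlinarith
  have h1 : t / (a * b) ≤ 1 := by rw [div_le_one (by positivity)]; exact hcs
  have h2 : t = (t / (a * b)) * (a * b) := by field_simp
  set s := t / (a * b) with hs
  nlinarith [sq_nonneg (a - b), mul_nonneg (sub_nonneg.2 hab) (sub_nonneg.2 h1)]

end Pool.Agent.Medial
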