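/-
T8: triangular lattices in tangent planes. (helper9)
-/
import Pool.Agent.Medial.T8a

set_option autoImplicit false

open MeasureTheory Set Metric
open scoped Real

namespace Pool.Agent.Medial

/-- a positively oriented orthonormal frame -/
structure Fr (c f g : E) : Prop where
  nc : ‖c‖ = 1
  nf : ‖f‖ = 1
  cf : (inner ℝ c f : ℝ) = 0
  hg : g = crs c f

lemma crs_crs (a b c : E) : crs a (crs b c) = (inner ℝ a c) • b - (inner ℝ a b) • c := by
  ext i
  fin_cases i <;> simp [crs, inner_eq] <;> ring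

lemma norm_crs_sq (a b : E) : ‖crs a b‖ ^ 2 = ‖a‖ ^ 2 * ‖b‖ ^ 2 - (inner ℝ a b) ^ 2 := by
  rw [norm_sq_eq, norm_sq_eq, norm_sq_eq, inner_eq]
  simp [crs]; ring

lemma crs_anti (a b : E) : crs a b = - crs b a := by
  ext i
  fin_cases i <;> simp [crs] <;> ring

lemma exists_orth (c : E) : ∃ f : E, ‖f‖ = 1 ∧ (inner ℝ c f : ℝ) = 0 := by
  by_cases h : c 0 = 0
  · exact ⟨EuclideanSpace.single 0 1, by simp, by simp [inner_eq, h]⟩
  · set v : E := !₂[-c 1, c 0, 0] with hv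
    have hv0 : v ≠ 0 := by
      intro h'
      have := congrArg (fun t : E => t 1) h'
      simp [hv] at this
      exact h this
    refine ⟨(‖v‖)⁻¹ • v, ?_, ?_⟩
    · rw [norm_smul, norm_inv, norm_norm, inv_mul_cancel₀ (norm_ne_zero_iff.2 hv0)]
    · rw [inner_smul_right]
      have : (inner ℝ c v : ℝ) = 0 := by simp [inner_eq, hv]; ring
      rw [this, mul_zero]

lemma exists_frame {c : E} (hc : ‖c‖ = 1) : ∃ f g : E, Fr c f g := by
  obtain ⟨f, hf, hcf⟩ := exists_orth c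
  exact ⟨f, crs c f, hc, hf, hcf, rfl⟩

namespace Fr

variable {c f g : E} (h : Fr c f g)
include h

lemma ng : ‖g‖ = 1 := by
  have := norm_crs_sq c f
  rw [h.nc, h.nf, h.cf, ← h.hg] at this
  have h0 := norm_nonneg g
  nlinarith

lemma tri_one : tri c f g = 1 := by
  rw [← inner_crs, ← h.hg, real_inner_self_eq_norm_sq, h.ng]; norm_num

lemma cg : (inner ℝ c g : ℝ) = 0 := by
  rw [real_inner_comm, h.hg, inner_crs]; unfold tri; ring

lemma fg : (inner ℝ f g : ℝ) = 0 := by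
  rw [real_inner_comm, h.hg, inner_crs]; unfold tri; ring

lemma crs_fg : crs f g = c := by
  rw [h.hg, crs_crs, real_inner_self_eq_norm_sq, h.nf, real_inner_comm, h.cf]
  simp

lemma crs_gc : crs g c = f := by
  rw [crs_anti, h.hg, crs_crs, real_inner_self_eq_norm_sq, h.nc, h.cf]
  simp

lemma expand (x : E) :
    x = (inner ℝ c x) • c + (inner ℝ f x) • f + (inner ℝ g x) • g := by
  have hc := cramer c f g x
  rw [h.tri_one, one_smul] at hc
  have e1 : tri x f g = inner ℝ c x := by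
    rw [← tri_rot, ← inner_crs, h.crs_fg]
  have e2 : tri c x g = inner ℝ f x := by
    rw [← tri_rot, ← tri_rot, ← inner_crs, h.crs_gc]
  have e3 : tri c f x = inner ℝ g x := by
    rw [← inner_crs, ← h.hg]
  rw [e1, e2, e3] at hc
  exact hc

lemma norm_sq (a b d : ℝ) : ‖a • c + b • f + d • g‖ ^ 2 = a ^ 2 + b ^ 2 + d ^ 2 := by
  rw [norm_add_sq_real, norm_add_sq_real, inner_add_left]
  simp only [inner_smul_left, inner_smul_right, norm_smul, h.nc, h.nf, h.ng, h.cf, h.cg, h.fg,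
    Real.norm_eq_abs, mul_one, sq_abs, conj_trivial]
  ring

lemma tri_coords (a b d a' b' d' a'' b'' d'' : ℝ) :
    tri (a • c + b • f + d • g) (a' • c + b' • f + d' • g) (a'' • c + b'' • f + d'' • g) =
      a * (b' * d'' - d' * b'') - b * (a' * d'' - d' * a'') + d * (a' * b'' - b' * a'') := by
  have e : tri (a • c + b • f + d • g) (a' • c + b' • f + d' • g) (a'' • c + b'' • f + d'' • g) =
      (a * (b' * d'' - d' * b'') - b * (a' * d'' - d' * a'') + d * (a' * b'' - b' * a'')) *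
        tri c f g := by
    simp only [tri, PiLp.add_apply, PiLp.smul_apply, smul_eq_mul]; ring
  rw [e, h.tri_one, mul_one]

end Fr

/-- lattice points (with real coordinates) in the tangent plane -/
noncomputable def Y (c f g : E) (l a b : ℝ) : E :=
  (1 : ℝ) • c + (l * (a + b / 2)) • f + (l * (√3 / 2 * b)) • g

lemma sqrt3_sq : √3 ^ 2 = (3 : ℝ) := Real.sq_sqrt (by norm_num)

section

variable {c f g : E} (h : Fr c f g) (l : ℝ)
include h

lemma Y_inner (a b : ℝ) : (inner ℝ c (Y c f g l a b) : ℝ) = 1 := by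
  unfold Y
  rw [inner_add_right, inner_add_right, inner_smul_right, inner_smul_right, inner_smul_right,
    real_inner_self_eq_norm_sq, h.nc, h.cf, h.cg]
  norm_num

lemma one_le_norm_Y (a b : ℝ) : 1 ≤ ‖Y c f g l a b‖ := by
  have := real_inner_le_norm c (Y c f g l a b)
  rw [Y_inner h, h.nc, one_mul] at this
  exact this

lemma Y_sub_norm_sq (a b a' b' : ℝ) : ‖Y c f g l a b - Y c f g l a' b'‖ ^ 2 =
    l ^ 2 * ((a - a') ^ 2 + (a - a') * (b - b') + (b - b') ^ 2) := by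
  have e : Y c f g l a b - Y c f g l a' b' = (0 : ℝ) • c + (l * ((a - a') + (b - b') / 2)) • f +
      (l * (√3 / 2 * (b - b'))) • g := by
    unfold Y; module
  rw [e, h.norm_sq]
  have := sqrt3_sq
  have e2 : (l * (√3 / 2 * (b - b'))) ^ 2 = l ^ 2 * (√3 ^ 2 / 4 * (b - b') ^ 2) := by ring
  rw [e2, this]; ring

lemma tri_up (a b : ℝ) : tri (Y c f g l a b) (Y c f g l (a + 1) b) (Y c f g l a (b + 1)) =
    √3 / 2 * l ^ 2 := by
  unfold Y
  rw [h.tri_coords]; ring

lemma tri_down (a b : ℝ) : tri (Y c f g l (a + 1) b) (Y c f g l (a + 1) (b + 1))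
    (Y c f g l a (b + 1)) = √3 / 2 * l ^ 2 := by
  unfold Y
  rw [h.tri_coords]; ring

end

/-- the model cell -/
def D0 : Set E := {a | 0 < a 0 ∧ a 0 ≤ 1 ∧ 0 ≤ a 1 ∧ a 1 < a 0 ∧ 0 ≤ a 2 ∧ a 2 < a 0}

def D0' : Set (ℝ × ℝ × ℝ) :=
  {a | 0 < a.1 ∧ a.1 ≤ 1 ∧ 0 ≤ a.2.1 ∧ a.2.1 < a.1 ∧ 0 ≤ a.2.2 ∧ a.2.2 < a.1}

lemma measurableSet_D0' : MeasurableSet D0' := by
  have m1 : MeasurableSet {p : ℝ × ℝ × ℝ | 0 < p.1} := measurableSet_lt (by fun_prop) (by fun_prop)
  have m2 : MeasurableSet {p : ℝ × ℝ × ℝ | p.1 ≤ 1} := measurableSet_le (by fun_prop) (by fun_prop)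
  have m3 : MeasurableSet {p : ℝ × ℝ × ℝ | 0 ≤ p.2.1} := measurableSet_le (by fun_prop) (by fun_prop)
  have m4 : MeasurableSet {p : ℝ × ℝ × ℝ | p.2.1 < p.1} := measurableSet_lt (by fun_prop) (by fun_prop)
  have m5 : MeasurableSet {p : ℝ × ℝ × ℝ | 0 ≤ p.2.2} := measurableSet_le (by fun_prop) (by fun_prop)
  have m6 : MeasurableSet {p : ℝ × ℝ × ℝ | p.2.2 < p.1} := measurableSet_lt (by fun_prop) (by fun_prop)
  exact m1.inter (m2.inter (m3.inter (m4.inter (m5.inter m6))))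

lemma measurableSet_D0 : MeasurableSet D0 := mp_co.measurable measurableSet_D0'

lemma vol_D0 : volume D0 = ENNReal.ofReal (1 / 3) := by
  have e : D0 = co ⁻¹' D0' := rfl
  rw [e, mp_co.measure_preimage measurableSet_D0'.nullMeasurableSet]
  have hv : (volume : Measure (ℝ × ℝ × ℝ)) = (volume : Measure ℝ).prod (volume : Measure (ℝ × ℝ)) :=
    rfl
  rw [hv, Measure.prod_apply measurableSet_D0']
  have hslice : ∀ x : ℝ, volume (Prod.mk x ⁻¹' D0') =
      (Ioc (0 : ℝ) 1).indicator (fun x => ENNReal.ofReal (x ^ 2)) x := by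
    intro x
    by_cases hx : x ∈ Ioc (0 : ℝ) 1
    · rw [indicator_of_mem hx]
      have : Prod.mk x ⁻¹' D0' = Ico (0 : ℝ) x ×ˢ Ico (0 : ℝ) x := by
        ext ⟨y, z⟩
        simp only [mem_preimage, D0', Set.mem_ofPred_eq, mem_prod, mem_Ico]
        constructor
        · rintro ⟨_, _, h3, h4, h5, h6⟩; exact ⟨⟨h3, h4⟩, h5, h6⟩
        · rintro ⟨⟨h3, h4⟩, h5, h6⟩; exact ⟨hx.1, hx.2, h3, h4, h5, h6⟩
      rw [this]
      have hv2 : (volume : Measure (ℝ × ℝ)) = (volume : Measure ℝ).prod (volume : Measure ℝ) := rfl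
      rw [hv2, Measure.prod_prod, Real.volume_Ico, sub_zero, ← ENNReal.ofReal_mul hx.1.le, sq]
    · rw [indicator_of_notMem hx]
      have : Prod.mk x ⁻¹' D0' = ∅ := by
        ext ⟨y, z⟩
        simp only [mem_preimage, D0', Set.mem_ofPred_eq, mem_empty_iff_false, iff_false]
        rintro ⟨h1, h2, _⟩
        exact hx ⟨h1, h2⟩
      rw [this, measure_empty]
  simp only [hslice]
  rw [lintegral_indicator measurableSet_Ioc]
  have hint : IntegrableOn (fun x : ℝ => x ^ 2) (Ioc 0 1) volume :=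
    ((by fun_prop : Continuous fun x : ℝ => x ^ 2).continuousOn.integrableOn_compact
      isCompact_Icc).mono_set Ioc_subset_Icc_self
  rw [← ofReal_integral_eq_lintegral_ofReal hint (Filter.Eventually.of_forall fun x => by positivity),
    ← intervalIntegral.integral_of_le zero_le_one, integral_pow]
  norm_num

/-- the cell with corner `z` -/
noncomputable def cell (c f g : E) (l : ℝ) (z : ℤ × ℤ) : Set E :=
  Lm (Y c f g l z.1 z.2) (Y c f g l 1 0 - Y c f g l 0 0) (Y c f g l 0 1 - Y c f g l 0 0) '' D0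

section

variable {c f g : E} (h : Fr c f g) {l : ℝ} (hl : 0 < l)
include h hl

lemma tri_cell (z : ℤ × ℤ) : tri (Y c f g l z.1 z.2) (Y c f g l 1 0 - Y c f g l 0 0)
    (Y c f g l 0 1 - Y c f g l 0 0) = √3 / 2 * l ^ 2 := by
  have e1 : Y c f g l 1 0 - Y c f g l 0 0 = (0 : ℝ) • c + l • f + (0 : ℝ) • g := by
    unfold Y; module
  have e2 : Y c f g l 0 1 - Y c f g l 0 0 = (0 : ℝ) • c + (l / 2) • f + (l * (√3 / 2)) • g := by
    unfold Y; module
  rw [e1, e2]
  unfold Y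
  rw [h.tri_coords]; ring

lemma vol_cell (z : ℤ × ℤ) : volume (cell c f g l z) = ENNReal.ofReal (√3 / 6 * l ^ 2) := by
  unfold cell
  have hd : LinearMap.det ((Lm (Y c f g l z.1 z.2) (Y c f g l 1 0 - Y c f g l 0 0)
      (Y c f g l 0 1 - Y c f g l 0 0) : E →L[ℝ] E) : E →ₗ[ℝ] E) =
      tri (Y c f g l z.1 z.2) (Y c f g l 1 0 - Y c f g l 0 0)
        (Y c f g l 0 1 - Y c f g l 0 0) := Lm_det _ _ _
  rw [Measure.addHaar_image_continuousLinearMap, hd, tri_cell h hl, vol_D0,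
    ← ENNReal.ofReal_mul (abs_nonneg _)]
  congr 1
  rw [abs_of_nonneg (by positivity)]; ring

lemma mem_cell {z : ℤ × ℤ} {x : E} (hx : x ∈ cell c f g l z) :
    ∃ s α β : ℝ, 0 < s ∧ s ≤ 1 ∧ 0 ≤ α ∧ α < 1 ∧ 0 ≤ β ∧ β < 1 ∧
      x = s • Y c f g l (z.1 + α) (z.2 + β) := by
  obtain ⟨a, ⟨h1, h2, h3, h4, h5, h6⟩, rfl⟩ := hx
  refine ⟨a 0, a 1 / a 0, a 2 / a 0, h1, h2, by positivity, (div_lt_one h1).2 h4, by positivity,
    (div_lt_one h1).2 h6, ?_⟩
  rw [Lm_apply]
  have e1 : Y c f g l 1 0 - Y c f g l 0 0 = l • f := by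
    unfold Y; module
  have e2 : Y c f g l 0 1 - Y c f g l 0 0 = (l / 2) • f + (l * (√3 / 2)) • g := by
    unfold Y; module
  rw [e1, e2]
  unfold Y
  have h0 := h1.ne'
  simp only [smul_add, smul_smul, one_smul, mul_one]
  have c1 : a 0 * (l * (↑z.1 + a 1 / a 0 + (↑z.2 + a 2 / a 0) / 2)) =
      a 0 * (l * (↑z.1 + ↑z.2 / 2)) + a 1 * l + a 2 * (l / 2) := by field_simp; ring
  have c2 : a 0 * (l * (√3 / 2 * (↑z.2 + a 2 / a 0))) =
      a 0 * (l * (√3 / 2 * ↑z.2)) + a 2 * (l * (√3 / 2)) := by field_simp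
  rw [c1, c2]
  module

lemma Y_inj {a b a' b' : ℝ} (he : Y c f g l a b = Y c f g l a' b') : a = a' ∧ b = b' := by
  have := Y_sub_norm_sq h l a b a' b'
  rw [he, sub_self, norm_zero] at this
  have h2 : (a - a') ^ 2 + (a - a') * (b - b') + (b - b') ^ 2 = 0 := by
    have hl2 : l ^ 2 ≠ 0 := by positivity
    have h3 : l ^ 2 * ((a - a') ^ 2 + (a - a') * (b - b') + (b - b') ^ 2) = 0 := by
      rw [← this]; norm_num
    exact (mul_eq_zero.1 h3).resolve_left hl2
  have h3 : (a - a') ^ 2 ≤ 0 := by nlinarith [sq_nonneg (a - a' + 2 * (b - b'))]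
  have h4 : (b - b') ^ 2 ≤ 0 := by nlinarith [sq_nonneg (b - b' + 2 * (a - a'))]
  constructor
  · nlinarith
  · nlinarith

lemma cell_disjoint {z z' : ℤ × ℤ} (hne : z ≠ z') : Disjoint (cell c f g l z) (cell c f g l z') := by
  rw [Set.disjoint_left]
  intro x hx hx'
  obtain ⟨s, α, β, hs, hs1, ha, ha1, hb, hb1, rfl⟩ := mem_cell h hl hx
  obtain ⟨s', α', β', hs', hs1', ha', ha1', hb', hb1', he⟩ := mem_cell h hl hx'
  have hss : s = s' := by
    have := congrArg (fun t => (inner ℝ c t : ℝ)) he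
    simp only [inner_smul_right, Y_inner h, mul_one] at this
    exact this
  rw [hss] at he
  have he2 := smul_right_injective E hs'.ne' he
  obtain ⟨e1, e2⟩ := Y_inj h hl he2
  apply hne
  have f1 : z.1 = z'.1 := by
    have h1 : (z.1 : ℝ) < z'.1 + 1 := by linarith
    have h2 : (z'.1 : ℝ) < z.1 + 1 := by linarith
    have h1' : z.1 < z'.1 + 1 := by exact_mod_cast h1
    have h2' : z'.1 < z.1 + 1 := by exact_mod_cast h2
    omega
  have f2 : z.2 = z'.2 := by
    have h1 : (z.2 : ℝ) < z'.2 + 1 := by linarith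
    have h2 : (z'.2 : ℝ) < z.2 + 1 := by linarith
    have h1' : z.2 < z'.2 + 1 := by exact_mod_cast h1
    have h2' : z'.2 < z.2 + 1 := by exact_mod_cast h2
    omega
  exact Prod.ext f1 f2

lemma measurableSet_cell (z : ℤ × ℤ) : MeasurableSet (cell c f g l z) := by
  unfold cell
  have hinj : Function.Injective (Lm (Y c f g l z.1 z.2) (Y c f g l 1 0 - Y c f g l 0 0)
      (Y c f g l 0 1 - Y c f g l 0 0)) := by
    apply Lm_injective
    rw [tri_cell h hl]; positivity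
  exact measurableSet_D0.image_of_continuousOn_injOn
    (ContinuousLinearMap.continuous _).continuousOn hinj.injOn

end

end Pool.Agent.Medial
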