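/-
T8: nets on the sphere and truncated Voronoi cones. (helper48)
-/
import Pool.Agent.Medial.T6

set_option autoImplicit false

open MeasureTheory Set Metric
open scoped Real

namespace Pool.Agent.Medial

/-- Voronoi cone -/
def Vor (A : Finset E) (c : E) : Set E := {x | ∀ d ∈ A, (inner ℝ d x : ℝ) ≤ inner ℝ c x}

/-- truncated Voronoi cone -/
def Ce (A : Finset E) (c : E) : Set E := {x | x ∈ Vor A c ∧ (inner ℝ c x : ℝ) ≤ 1}

/-- a net of unit vectors -/
structure Net (η : ℝ) (A : Finset E) : Prop where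
  unit : ∀ c ∈ A, ‖c‖ = 1
  near : ∀ x : E, ∃ c ∈ A, (1 - η) * ‖x‖ ≤ inner ℝ c x

theorem exists_net {η : ℝ} (hη : 0 < η) (h1 : η < 1) : ∃ A : Finset E, Net η A := by
  obtain ⟨t, hts, htf, hcov⟩ := (isCompact_sphere (0 : E) 1).finite_cover_balls hη
  have key : ∀ x : E, ‖x‖ = 1 → ∃ c ∈ htf.toFinset, 1 - η ≤ inner ℝ c x := by
    intro x hx
    have hx' : x ∈ sphere (0 : E) 1 := by simpa using hx
    obtain ⟨c, hc, hxc⟩ := mem_iUnion₂.1 (hcov hx')
    refine ⟨c, htf.mem_toFinset.2 hc, ?_⟩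
    have hc1 : ‖c‖ = 1 := by simpa using hts hc
    rw [mem_ball, dist_eq_norm] at hxc
    have h2 : ‖x - c‖ ^ 2 = ‖x‖ ^ 2 - 2 * inner ℝ x c + ‖c‖ ^ 2 := norm_sub_sq_real x c
    rw [hx, hc1, real_inner_comm] at h2
    have h3 := norm_nonneg (x - c)
    nlinarith
  refine ⟨htf.toFinset, ?_, ?_⟩
  · intro c hc
    simpa using hts (htf.mem_toFinset.1 hc)
  · intro x
    by_cases h0 : x = 0
    · obtain ⟨c, hc, -⟩ := key (EuclideanSpace.single 0 1) (by simp)
      exact ⟨c, hc, by simp [h0]⟩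
    · have hn : 0 < ‖x‖ := norm_pos_iff.2 h0
      obtain ⟨c, hc, h⟩ := key ((‖x‖)⁻¹ • x) (by
        rw [norm_smul, norm_inv, norm_norm, inv_mul_cancel₀ hn.ne'])
      refine ⟨c, hc, ?_⟩
      rw [inner_smul_right, inv_mul_eq_div, le_div_iff₀ hn] at h
      exact h

lemma Net.vor_ge {η : ℝ} {A : Finset E} (h : Net η A) (_h1 : η < 1) {c x : E}
    (hx : x ∈ Vor A c) : (1 - η) * ‖x‖ ≤ inner ℝ c x := by
  obtain ⟨d, hd, h2⟩ := h.near x
  exact h2.trans (hx d hd)

lemma isClosed_Vor (A : Finset E) (c : E) : IsClosed (Vor A c) := by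
  have e : Vor A c = ⋂ d ∈ A, {x : E | (inner ℝ d x : ℝ) ≤ inner ℝ c x} := by
    ext x; simp [Vor]
  rw [e]
  exact isClosed_biInter fun d _ => isClosed_le (by fun_prop) (by fun_prop)

lemma isClosed_Ce (A : Finset E) (c : E) : IsClosed (Ce A c) := by
  have h : IsClosed {x : E | (inner ℝ c x : ℝ) ≤ 1} := isClosed_le (by fun_prop) (by fun_prop)
  exact (isClosed_Vor A c).inter h

lemma Net.Ce_subset {η : ℝ} {A : Finset E} (h : Net η A) (h1 : η < 1) (c : E) :
    Ce A c ⊆ closedBall (0 : E) (1 / (1 - η)) := by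
  intro x hx
  rw [mem_closedBall_zero_iff, le_div_iff₀ (by linarith), mul_comm]
  exact (h.vor_ge h1 hx.1).trans hx.2

theorem Net.isCompact_Ce {η : ℝ} {A : Finset E} (h : Net η A) (h1 : η < 1) {c : E} (_hc : c ∈ A) :
    IsCompact (Ce A c) :=
  (isCompact_closedBall (0 : E) (1 / (1 - η))).of_isClosed_subset (isClosed_Ce A c)
    (h.Ce_subset h1 c)

lemma Ce_inter_null (A : Finset E) {c d : E} (hc : c ∈ A) (hd : d ∈ A) (hcd : c ≠ d) :
    volume (Ce A c ∩ Ce A d) = 0 := by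
  refine measure_mono_null ?_ (MP2b501e.volume_hyperplane (sub_ne_zero.2 hcd) 0)
  rintro x ⟨h1, h2⟩
  show inner ℝ x (c - d) = (0 : ℝ)
  have h3 := h1.1 d hd
  have h4 := h2.1 c hc
  rw [inner_sub_right, real_inner_comm, real_inner_comm d x]
  linarith

theorem Net.sum_vol {η : ℝ} {A : Finset E} (h : Net η A) (h1 : η < 1) :
    ∑ c ∈ A, (volume (Ce A c)).toReal ≤ (4 * π / 3) / (1 - η) ^ 3 := by
  have hpos : 0 < 1 - η := by linarith
  have hfin : ∀ c ∈ A, volume (Ce A c) ≠ ⊤ := fun c hc =>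
    (h.isCompact_Ce h1 hc).measure_lt_top.ne
  rw [← ENNReal.toReal_sum hfin]
  have e : ∑ c ∈ A, volume (Ce A c) = volume (⋃ c ∈ A, Ce A c) := by
    refine (measure_biUnion_finset₀ ?_ fun c _ => (isClosed_Ce A c).nullMeasurableSet).symm
    intro c hc d hd hcd
    exact Ce_inter_null A hc hd hcd
  rw [e]
  have hsub : (⋃ c ∈ A, Ce A c) ⊆ closedBall (0 : E) (1 / (1 - η)) :=
    iUnion₂_subset fun c _ => h.Ce_subset h1 c
  have hb : volume (closedBall (0 : E) (1 / (1 - η))) =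
      ENNReal.ofReal ((4 * π / 3) / (1 - η) ^ 3) := by
    rw [EuclideanSpace.volume_closedBall_fin_three, ← ENNReal.ofReal_pow (by positivity),
      ← ENNReal.ofReal_mul (by positivity)]
    congr 1
    field_simp
  have h2 := measure_mono (μ := volume) hsub
  rw [hb] at h2
  have h3 := ENNReal.toReal_mono ENNReal.ofReal_ne_top h2
  rwa [ENNReal.toReal_ofReal (by positivity)] at h3

end Pool.Agent.Medial
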