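/-
T8: counting lattice points near a Voronoi cell. (helper9)
-/
import Pool.Agent.Medial.T8b
import Pool.Agent.Medial.T8c

set_option autoImplicit false

open MeasureTheory Set Metric
open scoped Real

namespace Pool.Agent.Medial

lemma Vor_smul {A : Finset E} {c x : E} (hx : x ∈ Vor A c) {s : ℝ} (hs : 0 ≤ s) :
    s • x ∈ Vor A c := by
  intro d hd
  rw [inner_smul_right, inner_smul_right]
  exact mul_le_mul_of_nonneg_left (hx d hd) hs

lemma Ce_smul {A : Finset E} {c x : E} (hx : x ∈ Ce A c) {s : ℝ} (hs : 0 ≤ s) (hs1 : s ≤ 1) :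
    s • x ∈ Ce A c := by
  refine ⟨Vor_smul hx.1 hs, ?_⟩
  rw [inner_smul_right]
  have := hx.2
  nlinarith

/-- the lattice points near `K` -/
def Near (c f g : E) (l : ℝ) (K : Set E) : Set (ℤ × ℤ) :=
  {z | ∃ q ∈ K, ‖Y c f g l z.1 z.2 - q‖ ≤ 4 * l}

lemma cell_subset {A : Finset E} {c f g : E} (h : Fr c f g) {l : ℝ} (hl : 0 < l) {z : ℤ × ℤ}
    (hz : z ∈ Near c f g l (Ce A c)) : cell c f g l z ⊆ cthickening (6 * l) (Ce A c) := by
  intro x hx
  obtain ⟨s, α, β, hs, hs1, ha, ha1, hb, hb1, rfl⟩ := mem_cell h hl hx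
  obtain ⟨q, hq, hq2⟩ := hz
  apply mem_cthickening_of_dist_le _ (s • q) _ _ (Ce_smul hq hs.le hs1)
  rw [dist_eq_norm, ← smul_sub, norm_smul, Real.norm_of_nonneg hs.le]
  have h1 : ‖Y c f g l (z.1 + α) (z.2 + β) - Y c f g l z.1 z.2‖ ≤ 2 * l := by
    apply le_of_sq_le_sq _ (by positivity)
    rw [Y_sub_norm_sq h]
    have e : (↑z.1 + α - ↑z.1) ^ 2 + (↑z.1 + α - ↑z.1) * (↑z.2 + β - ↑z.2) + (↑z.2 + β - ↑z.2) ^ 2
        = α ^ 2 + α * β + β ^ 2 := by ring
    rw [e]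
    have : α ^ 2 + α * β + β ^ 2 ≤ 4 := by nlinarith
    have hl2 : 0 ≤ l ^ 2 := sq_nonneg l
    nlinarith
  have h2 : ‖Y c f g l (z.1 + α) (z.2 + β) - q‖ ≤ 6 * l := by
    calc ‖Y c f g l (z.1 + α) (z.2 + β) - q‖
        = ‖(Y c f g l (z.1 + α) (z.2 + β) - Y c f g l z.1 z.2) + (Y c f g l z.1 z.2 - q)‖ := by
          congr 1; abel
      _ ≤ _ := norm_add_le _ _
      _ ≤ 2 * l + 4 * l := add_le_add h1 hq2
      _ = 6 * l := by ring
  calc s * ‖Y c f g l (z.1 + α) (z.2 + β) - q‖ ≤ 1 * ‖Y c f g l (z.1 + α) (z.2 + β) - q‖ := by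
        gcongr
    _ ≤ 6 * l := by rw [one_mul]; exact h2

lemma card_le {A : Finset E} {c f g : E} (h : Fr c f g) {l : ℝ} (hl : 0 < l)
    (hK : IsCompact (Ce A c)) (F : Finset (ℤ × ℤ)) (hF : ∀ z ∈ F, z ∈ Near c f g l (Ce A c)) :
    F.card * (√3 / 6 * l ^ 2) ≤ (volume (cthickening (6 * l) (Ce A c))).toReal := by
  have hfin : volume (cthickening (6 * l) (Ce A c)) ≠ ⊤ := hK.cthickening.measure_lt_top.ne
  have h1 : volume (⋃ z ∈ F, cell c f g l z) = ∑ z ∈ F, volume (cell c f g l z) :=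
    measure_biUnion_finset (fun z _ z' _ hne => cell_disjoint h hl hne)
      (fun z _ => measurableSet_cell h hl z)
  have h2 : volume (⋃ z ∈ F, cell c f g l z) ≤ volume (cthickening (6 * l) (Ce A c)) :=
    measure_mono (iUnion₂_subset fun z hz => cell_subset h hl (hF z hz))
  rw [h1] at h2
  have h3 := ENNReal.toReal_mono hfin h2
  rw [ENNReal.toReal_sum (fun z _ => by rw [vol_cell h hl]; exact ENNReal.ofReal_ne_top)] at h3
  have h4 : ∀ z ∈ F, (volume (cell c f g l z)).toReal = √3 / 6 * l ^ 2 := by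
    intro z _
    rw [vol_cell h hl, ENNReal.toReal_ofReal (by positivity)]
  rw [Finset.sum_congr rfl h4, Finset.sum_const, nsmul_eq_mul] at h3
  exact h3

lemma near_finite {A : Finset E} {c f g : E} (h : Fr c f g) {l : ℝ} (hl : 0 < l)
    (hK : IsCompact (Ce A c)) : (Near c f g l (Ce A c)).Finite := by
  by_contra hinf
  have hinf : (Near c f g l (Ce A c)).Infinite := hinf
  set M := (volume (cthickening (6 * l) (Ce A c))).toReal with hM
  have hpos : 0 < √3 / 6 * l ^ 2 := by positivity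
  obtain ⟨N, hN⟩ := exists_nat_gt (M / (√3 / 6 * l ^ 2))
  obtain ⟨F, hF, hFc⟩ := hinf.exists_subset_card_eq N
  have := card_le h hl hK F (fun z hz => hF hz)
  rw [hFc, ← hM] at this
  rw [div_lt_iff₀ hpos] at hN
  linarith

theorem count {A : Finset E} {c f g : E} (h : Fr c f g) (hK : IsCompact (Ce A c)) {ε : ℝ}
    (hε : 0 < ε) : ∃ l₀ : ℝ, 0 < l₀ ∧ ∀ l : ℝ, 0 < l → l ≤ l₀ →
      ∃ W : Finset (ℤ × ℤ), (∀ z, z ∈ Near c f g l (Ce A c) → z ∈ W) ∧
        W.card * (√3 / 6 * l ^ 2) ≤ (volume (Ce A c)).toReal + ε := by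
  have ht := tendsto_measure_cthickening_of_isCompact (μ := (volume : Measure E)) hK
  have ht2 := (ENNReal.tendsto_toReal hK.measure_lt_top.ne).comp ht
  have hev := ht2.eventually (gt_mem_nhds (show (volume (Ce A c)).toReal <
    (volume (Ce A c)).toReal + ε by linarith))
  rw [Metric.eventually_nhds_iff] at hev
  obtain ⟨r, hr, hr2⟩ := hev
  refine ⟨r / 12, by positivity, fun l hl hl2 => ?_⟩
  refine ⟨(near_finite h hl hK).toFinset, fun z hz => by simpa using hz, ?_⟩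
  refine (card_le h hl hK _ (fun z hz => by simpa using hz)).trans ?_
  have := hr2 (y := 6 * l) (by rw [Real.dist_eq, sub_zero, abs_of_pos (by positivity)]; linarith)
  exact this.le

end Pool.Agent.Medial
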