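/-
T8: the normalised lattice points cover the sphere. (helper9)
-/
import Pool.Agent.Medial.T8d

set_option autoImplicit false

open MeasureTheory Set Metric
open scoped Real

namespace Pool.Agent.Medial

/-- the normalised lattice point -/
noncomputable def Z (c f g : E) (l : ℝ) (z : ℤ × ℤ) : E :=
  (‖Y c f g l z.1 z.2‖)⁻¹ • Y c f g l z.1 z.2

section

variable {c f g : E} (h : Fr c f g) {l : ℝ} (hl : 0 < l)
include h

lemma norm_Z (z : ℤ × ℤ) : ‖Z c f g l z‖ = 1 := by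
  have h1 := one_le_norm_Y h l z.1 z.2
  unfold Z
  rw [norm_smul, norm_inv, norm_norm, inv_mul_cancel₀ (by linarith)]

lemma Y_eq_Z (z : ℤ × ℤ) : Y c f g l z.1 z.2 = ‖Y c f g l z.1 z.2‖ • Z c f g l z := by
  have h1 := one_le_norm_Y h l z.1 z.2
  unfold Z
  rw [smul_smul, mul_inv_cancel₀ (by linarith), one_smul]

include hl in
lemma Z_sub_le {z z' : ℤ × ℤ} (hz : ((z.1 : ℝ) - z'.1) ^ 2 + (z.1 - z'.1) * (z.2 - z'.2) +
    (z.2 - z'.2) ^ 2 ≤ 1) : ‖Z c f g l z - Z c f g l z'‖ ≤ l := by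
  refine (norm_normalize_sub_le (one_le_norm_Y h l _ _) (one_le_norm_Y h l _ _)).trans ?_
  apply le_of_sq_le_sq _ hl.le
  rw [Y_sub_norm_sq h]
  have : 0 ≤ l ^ 2 := sq_nonneg l
  nlinarith

include hl in
lemma tri_Z {p q r : ℤ × ℤ} (ht : tri (Y c f g l p.1 p.2) (Y c f g l q.1 q.2) (Y c f g l r.1 r.2) =
    √3 / 2 * l ^ 2) : 0 < tri (Z c f g l p) (Z c f g l q) (Z c f g l r) ∧
      tri (Z c f g l p) (Z c f g l q) (Z c f g l r) ≤ √3 / 2 * l ^ 2 := by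
  have n1 := one_le_norm_Y h l p.1 p.2
  have n2 := one_le_norm_Y h l q.1 q.2
  have n3 := one_le_norm_Y h l r.1 r.2
  unfold Z
  rw [tri_smul_left, tri_smul_mid, tri_smul_right, ht]
  refine ⟨by positivity, ?_⟩
  have m1 := inv_le_one_of_one_le₀ n1
  have m2 := inv_le_one_of_one_le₀ n2
  have m3 := inv_le_one_of_one_le₀ n3
  have hw : 0 ≤ √3 / 2 * l ^ 2 := by positivity
  have k3 : ‖Y c f g l r.1 r.2‖⁻¹ * (√3 / 2 * l ^ 2) ≤ √3 / 2 * l ^ 2 :=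
    mul_le_of_le_one_left hw m3
  have k3' : 0 ≤ ‖Y c f g l r.1 r.2‖⁻¹ * (√3 / 2 * l ^ 2) := by positivity
  have k2 := mul_le_of_le_one_left k3' m2
  have k2' : 0 ≤ ‖Y c f g l q.1 q.2‖⁻¹ * (‖Y c f g l r.1 r.2‖⁻¹ * (√3 / 2 * l ^ 2)) := by positivity
  have k1 := mul_le_of_le_one_left k2' m1
  calc _ ≤ _ := k1
    _ ≤ _ := k2
    _ ≤ _ := k3

include hl in
lemma defect_Z {p q r : ℤ × ℤ}
    (ht : tri (Y c f g l p.1 p.2) (Y c f g l q.1 q.2) (Y c f g l r.1 r.2) = √3 / 2 * l ^ 2)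
    (h1 : ((p.1 : ℝ) - q.1) ^ 2 + (p.1 - q.1) * (p.2 - q.2) + (p.2 - q.2) ^ 2 ≤ 1)
    (h2 : ((q.1 : ℝ) - r.1) ^ 2 + (q.1 - r.1) * (q.2 - r.2) + (q.2 - r.2) ^ 2 ≤ 1)
    (h3 : ((r.1 : ℝ) - p.1) ^ 2 + (r.1 - p.1) * (r.2 - p.2) + (r.2 - p.2) ^ 2 ≤ 1)
    (hl2 : l ^ 2 < 2 / 5) :
    (volume ((closedBall (0 : E) 1 ∩ cone3 (Z c f g l p) (Z c f g l q) (Z c f g l r)) \
      tet (Z c f g l p) (Z c f g l q) (Z c f g l r))).toReal ≤
      (√3 / 2 * l ^ 2) * (3 * l ^ 2) / 120 / (2 / 5 - l ^ 2) := by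
  have ht2 := tri_Z h hl ht
  refine (defect ht2.1 (norm_Z h p) (norm_Z h q) (norm_Z h r) (Z_sub_le h hl h1) (Z_sub_le h hl h2)
    (Z_sub_le h hl h3) hl2).trans ?_
  have h4 : 0 < 2 / 5 - l ^ 2 := by linarith
  have h5 := ht2.2
  gcongr

include hl in
lemma near_of {a b a' b' : ℝ} (h1 : |a - a'| ≤ 1) (h2 : |b - b'| ≤ 1) :
    ‖Y c f g l a b - Y c f g l a' b'‖ ≤ 4 * l := by
  apply le_of_sq_le_sq _ (by positivity)
  rw [Y_sub_norm_sq h]
  rw [abs_le] at h1 h2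
  have h3 : (a - a') ^ 2 ≤ 1 := by nlinarith
  have h4 : (b - b') ^ 2 ≤ 1 := by nlinarith
  have h5 : (a - a') ^ 2 + (a - a') * (b - b') + (b - b') ^ 2 ≤ 16 := by
    nlinarith [sq_nonneg ((a - a') - (b - b'))]
  have : 0 ≤ l ^ 2 := sq_nonneg l
  nlinarith

include hl in
lemma exists_coords {y : E} (hy : (inner ℝ c y : ℝ) = 1) : ∃ a b : ℝ, y = Y c f g l a b := by
  refine ⟨(inner ℝ f y) / l - (inner ℝ g y) / (l * √3), (inner ℝ g y) / (l * (√3 / 2)), ?_⟩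
  have he := h.expand y
  rw [hy] at he
  unfold Y
  have hs : √3 ≠ 0 := by positivity
  have e1 : l * ((inner ℝ f y) / l - (inner ℝ g y) / (l * √3) + (inner ℝ g y) / (l * (√3 / 2)) / 2)
      = inner ℝ f y := by field_simp; ring
  have e2 : l * (√3 / 2 * ((inner ℝ g y) / (l * (√3 / 2)))) = inner ℝ g y := by field_simp
  rw [e1, e2]
  exact he

/-- Every point above the tangent plane is in the cone of an up triangle or a down triangle. -/
theorem cover (hl : 0 < l) {x : E} (hx : 0 < (inner ℝ c x : ℝ)) : ∃ z : ℤ × ℤ,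
    (∀ p ∈ ({z, (z.1 + 1, z.2), (z.1, z.2 + 1), (z.1 + 1, z.2 + 1)} : Set (ℤ × ℤ)),
      ‖Y c f g l p.1 p.2 - (inner ℝ c x : ℝ)⁻¹ • x‖ ≤ 4 * l) ∧
    (x ∈ cone3 (Z c f g l z) (Z c f g l (z.1 + 1, z.2)) (Z c f g l (z.1, z.2 + 1)) ∨
     x ∈ cone3 (Z c f g l (z.1 + 1, z.2)) (Z c f g l (z.1 + 1, z.2 + 1))
       (Z c f g l (z.1, z.2 + 1))) := by
  set t := (inner ℝ c x : ℝ) with ht
  have hy : (inner ℝ c (t⁻¹ • x) : ℝ) = 1 := by
    rw [inner_smul_right, ← ht, inv_mul_cancel₀ hx.ne']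
  obtain ⟨a, b, hab⟩ := exists_coords h hl hy
  rw [hab]
  have hxy : x = t • Y c f g l a b := by rw [← hab, smul_smul, mul_inv_cancel₀ hx.ne', one_smul]
  set z : ℤ × ℤ := (⌊a⌋, ⌊b⌋) with hz
  have a1 := Int.floor_le a
  have a2 := Int.lt_floor_add_one a
  have b1 := Int.floor_le b
  have b2 := Int.lt_floor_add_one b
  refine ⟨z, ?_, ?_⟩
  · intro p hp
    have hp1 : |(p.1 : ℝ) - a| ≤ 1 ∧ |(p.2 : ℝ) - b| ≤ 1 := by
      simp only [mem_insert_iff, mem_singleton_iff] at hp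
      rcases hp with rfl | rfl | rfl | rfl <;> simp only [hz, abs_le] <;> push_cast <;>
        refine ⟨⟨?_, ?_⟩, ?_, ?_⟩ <;> linarith
    exact near_of h hl hp1.1 hp1.2
  · set u := a - ⌊a⌋ with hu
    set v := b - ⌊b⌋ with hv
    have n0 := one_le_norm_Y h l (⌊a⌋ : ℤ) (⌊b⌋ : ℤ)
    have n1 := one_le_norm_Y h l ((⌊a⌋ : ℤ) + 1) (⌊b⌋ : ℤ)
    have n2 := one_le_norm_Y h l (⌊a⌋ : ℤ) ((⌊b⌋ : ℤ) + 1)
    have n3 := one_le_norm_Y h l ((⌊a⌋ : ℤ) + 1) ((⌊b⌋ : ℤ) + 1)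
    have y0 := Y_eq_Z (l := l) h (z := z)
    have y1 := Y_eq_Z (l := l) h (z := (z.1 + 1, z.2))
    have y2 := Y_eq_Z (l := l) h (z := (z.1, z.2 + 1))
    have y3 := Y_eq_Z (l := l) h (z := (z.1 + 1, z.2 + 1))
    have u0 : 0 ≤ u := by rw [hu]; linarith
    have v0 : 0 ≤ v := by rw [hv]; linarith
    have u1 : u < 1 := by rw [hu]; linarith
    have v1 : v < 1 := by rw [hv]; linarith
    have ea : a = ⌊a⌋ + u := by rw [hu]; ring
    have eb : b = ⌊b⌋ + v := by rw [hv]; ring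
    have tu : 0 < tri (Z c f g l z) (Z c f g l (z.1 + 1, z.2)) (Z c f g l (z.1, z.2 + 1)) := by
      refine (tri_Z h hl ?_).1
      push_cast
      exact tri_up h l _ _
    have td : 0 < tri (Z c f g l (z.1 + 1, z.2)) (Z c f g l (z.1 + 1, z.2 + 1))
       (Z c f g l (z.1, z.2 + 1)) := by
      refine (tri_Z h hl ?_).1
      push_cast
      exact tri_down h l _ _
    by_cases huv : u + v ≤ 1
    · left
      rw [mem_cone3 tu]
      refine ⟨t * ((1 - u - v) * ‖Y c f g l z.1 z.2‖),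
        t * (u * ‖Y c f g l ((z.1 + 1, z.2) : ℤ × ℤ).1 ((z.1 + 1, z.2) : ℤ × ℤ).2‖),
        t * (v * ‖Y c f g l ((z.1, z.2 + 1) : ℤ × ℤ).1 ((z.1, z.2 + 1) : ℤ × ℤ).2‖), ?_, ?_, ?_, ?_⟩
      · exact mul_nonneg hx.le (mul_nonneg (by linarith) (norm_nonneg _))
      · exact mul_nonneg hx.le (mul_nonneg u0 (norm_nonneg _))
      · exact mul_nonneg hx.le (mul_nonneg v0 (norm_nonneg _))
      · rw [mul_smul, mul_smul, mul_smul, mul_smul, mul_smul, mul_smul, ← y0, ← y1, ← y2, hxy,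
          ← smul_add, ← smul_add]
        congr 1
        rw [ea, eb]
        unfold Y
        simp only [hz]
        push_cast
        module
    · right
      push Not at huv
      rw [mem_cone3 td]
      refine ⟨t * ((1 - v) * ‖Y c f g l ((z.1 + 1, z.2) : ℤ × ℤ).1 ((z.1 + 1, z.2) : ℤ × ℤ).2‖),
        t * ((u + v - 1) *
          ‖Y c f g l ((z.1 + 1, z.2 + 1) : ℤ × ℤ).1 ((z.1 + 1, z.2 + 1) : ℤ × ℤ).2‖),
        t * ((1 - u) * ‖Y c f g l ((z.1, z.2 + 1) : ℤ × ℤ).1 ((z.1, z.2 + 1) : ℤ × ℤ).2‖),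
        ?_, ?_, ?_, ?_⟩
      · exact mul_nonneg hx.le (mul_nonneg (by linarith) (norm_nonneg _))
      · exact mul_nonneg hx.le (mul_nonneg (by linarith) (norm_nonneg _))
      · exact mul_nonneg hx.le (mul_nonneg (by linarith) (norm_nonneg _))
      · rw [mul_smul, mul_smul, mul_smul, mul_smul, mul_smul, mul_smul, ← y1, ← y2, ← y3, hxy,
          ← smul_add, ← smul_add]
        congr 1
        rw [ea, eb]
        unfold Y
        simp only [hz]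
        push_cast
        module

end

end Pool.Agent.Medial
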