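/-
T8: the volume of the hull of the normalised lattice points. (helper9)
-/
import Pool.Agent.Medial.T8e

set_option autoImplicit false

open MeasureTheory Set Metric
open scoped Real

namespace Pool.Agent.Medial

/-- the defect region of the upper triangle -/
def upD (c f g : E) (l : ℝ) (z : ℤ × ℤ) : Set E :=
  (closedBall (0 : E) 1 ∩ cone3 (Z c f g l z) (Z c f g l (z.1 + 1, z.2)) (Z c f g l (z.1, z.2 + 1))) \
    tet (Z c f g l z) (Z c f g l (z.1 + 1, z.2)) (Z c f g l (z.1, z.2 + 1))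

/-- the defect region of the lower triangle -/
def dnD (c f g : E) (l : ℝ) (z : ℤ × ℤ) : Set E :=
  (closedBall (0 : E) 1 ∩
    cone3 (Z c f g l (z.1 + 1, z.2)) (Z c f g l (z.1 + 1, z.2 + 1)) (Z c f g l (z.1, z.2 + 1))) \
    tet (Z c f g l (z.1 + 1, z.2)) (Z c f g l (z.1 + 1, z.2 + 1)) (Z c f g l (z.1, z.2 + 1))

lemma upD_ne_top (c f g : E) (l : ℝ) (z : ℤ × ℤ) : volume (upD c f g l z) ≠ ⊤ :=
  ((measure_mono (sdiff_subset.trans inter_subset_left)).trans_lt ball_lt_top).ne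

lemma dnD_ne_top (c f g : E) (l : ℝ) (z : ℤ × ℤ) : volume (dnD c f g l z) ≠ ⊤ :=
  ((measure_mono (sdiff_subset.trans inter_subset_left)).trans_lt ball_lt_top).ne

lemma vol_upD {c f g : E} (h : Fr c f g) {l : ℝ} (hl : 0 < l) (hl2 : l ^ 2 < 2 / 5) (z : ℤ × ℤ) :
    (volume (upD c f g l z)).toReal ≤ (√3 / 2 * l ^ 2) * (3 * l ^ 2) / 120 / (2 / 5 - l ^ 2) := by
  refine defect_Z h hl ?_ ?_ ?_ ?_ hl2
  · push_cast; exact tri_up h l _ _
  · push_cast; ring_nf; norm_num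
  · push_cast; ring_nf; norm_num
  · push_cast; ring_nf; norm_num

lemma vol_dnD {c f g : E} (h : Fr c f g) {l : ℝ} (hl : 0 < l) (hl2 : l ^ 2 < 2 / 5) (z : ℤ × ℤ) :
    (volume (dnD c f g l z)).toReal ≤ (√3 / 2 * l ^ 2) * (3 * l ^ 2) / 120 / (2 / 5 - l ^ 2) := by
  refine defect_Z h hl ?_ ?_ ?_ ?_ hl2
  · push_cast; exact tri_down h l _ _
  · push_cast; ring_nf; norm_num
  · push_cast; ring_nf; norm_num
  · push_cast; ring_nf; norm_num

theorem core {η : ℝ} {A : Finset E} (hA : Net η A) (hη1 : η < 1) (f g : E → E)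
    (hfr : ∀ c ∈ A, Fr c (f c) (g c)) {l : ℝ} (hl : 0 < l) (hl2 : l ^ 2 < 2 / 5)
    (W : E → Finset (ℤ × ℤ)) (hW : ∀ c ∈ A, ∀ z ∈ Near c (f c) (g c) l (Ce A c), z ∈ W c) :
    ∃ T : Finset E, T.card ≤ ∑ c ∈ A, (W c).card ∧ Unit T ∧
      4 * π / 3 - (∑ c ∈ A, (W c).card : ℕ) * (√3 / 40 * l ^ 4 / (2 / 5 - l ^ 2)) ≤ V T := by
  classical
  set T : Finset E := A.biUnion fun c => (W c).image fun z => Z c (f c) (g c) l z with hT
  have hmem : ∀ c ∈ A, ∀ z ∈ W c, Z c (f c) (g c) l z ∈ T := by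
    intro c hc z hz
    rw [hT, Finset.mem_biUnion]
    exact ⟨c, hc, Finset.mem_image_of_mem _ hz⟩
  have hunit : Unit T := by
    intro x hx
    rw [hT, Finset.mem_biUnion] at hx
    obtain ⟨c, hc, hx⟩ := hx
    rw [Finset.mem_image] at hx
    obtain ⟨z, -, rfl⟩ := hx
    exact norm_Z (hfr c hc) z
  -- covering
  have hcov : ∀ x : E, x ≠ 0 → ∃ c ∈ A, ∃ z ∈ W c,
      (Z c (f c) (g c) l z ∈ T ∧ Z c (f c) (g c) l (z.1 + 1, z.2) ∈ T ∧
        Z c (f c) (g c) l (z.1, z.2 + 1) ∈ T ∧ Z c (f c) (g c) l (z.1 + 1, z.2 + 1) ∈ T) ∧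
      (x ∈ cone3 (Z c (f c) (g c) l z) (Z c (f c) (g c) l (z.1 + 1, z.2))
          (Z c (f c) (g c) l (z.1, z.2 + 1)) ∨
       x ∈ cone3 (Z c (f c) (g c) l (z.1 + 1, z.2)) (Z c (f c) (g c) l (z.1 + 1, z.2 + 1))
        (Z c (f c) (g c) l (z.1, z.2 + 1))) := by
    intro x hx
    have hne : A.Nonempty := by
      obtain ⟨c, hc, -⟩ := hA.near 0
      exact ⟨c, hc⟩
    obtain ⟨c, hc, hmax⟩ := A.exists_max_image (fun c => (inner ℝ c x : ℝ)) hne
    have hV : x ∈ Vor A c := fun d hd => hmax d hd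
    have hpos : 0 < (inner ℝ c x : ℝ) := by
      have := hA.vor_ge hη1 hV
      have h2 : 0 < ‖x‖ := norm_pos_iff.2 hx
      nlinarith
    obtain ⟨z, hz, hz2⟩ := cover (hfr c hc) hl hpos
    have hq : (inner ℝ c x : ℝ)⁻¹ • x ∈ Ce A c := by
      refine ⟨Vor_smul hV (by positivity), ?_⟩
      rw [inner_smul_right, inv_mul_cancel₀ hpos.ne']
    have hn : ∀ p ∈ ({z, (z.1 + 1, z.2), (z.1, z.2 + 1), (z.1 + 1, z.2 + 1)} : Set (ℤ × ℤ)),
        p ∈ W c := fun p hp => hW c hc p ⟨_, hq, hz p hp⟩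
    refine ⟨c, hc, z, hn z (by simp), ⟨hmem c hc _ (hn _ (by simp)), hmem c hc _ (hn _ (by simp)),
      hmem c hc _ (hn _ (by simp)), hmem c hc _ (hn _ (by simp))⟩, hz2⟩
  have htup : ∀ c ∈ A, ∀ z : ℤ × ℤ, 0 < tri (Z c (f c) (g c) l z) (Z c (f c) (g c) l (z.1 + 1, z.2))
          (Z c (f c) (g c) l (z.1, z.2 + 1)) := by
    intro c hc z
    refine (tri_Z (hfr c hc) hl ?_).1
    push_cast
    exact tri_up (hfr c hc) l _ _
  have htdn : ∀ c ∈ A, ∀ z : ℤ × ℤ, 0 < tri (Z c (f c) (g c) l (z.1 + 1, z.2))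
      (Z c (f c) (g c) l (z.1 + 1, z.2 + 1)) (Z c (f c) (g c) l (z.1, z.2 + 1)) := by
    intro c hc z
    refine (tri_Z (hfr c hc) hl ?_).1
    push_cast
    exact tri_down (hfr c hc) l _ _
  -- centered
  have hcen : Centered T := by
    intro a ha
    by_contra hcon
    push Not at hcon
    have key : ∀ p q r : E, p ∈ T → q ∈ T → r ∈ T → 0 < tri p q r → a ∈ cone3 p q r → False := by
      intro p q r hp hq hr ht hac
      obtain ⟨u, v, w, hu, hv, hw, he⟩ := (mem_cone3 ht).1 hac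
      have h1 : (inner ℝ a a : ℝ) = inner ℝ a (u • p + v • q + w • r) := by rw [← he]
      rw [inner_add_right, inner_add_right, inner_smul_right, inner_smul_right,
        inner_smul_right] at h1
      have h2 : 0 < (inner ℝ a a : ℝ) := real_inner_self_pos.2 ha
      have h3 := mul_nonpos_of_nonneg_of_nonpos hu (hcon p hp)
      have h4 := mul_nonpos_of_nonneg_of_nonpos hv (hcon q hq)
      have h5 := mul_nonpos_of_nonneg_of_nonpos hw (hcon r hr)
      linarith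
    obtain ⟨c, hc, z, -, ⟨m0, m1, m2, m3⟩, h4 | h4⟩ := hcov a ha
    · exact key _ _ _ m0 m1 m2 (htup c hc z) h4
    · exact key _ _ _ m1 m3 m2 (htdn c hc z) h4
  have h0 : (0 : E) ∈ convexHull ℝ (T : Set E) := interior_subset (zero_mem_interior hcen)
  have htet : ∀ p q r : E, p ∈ T → q ∈ T → r ∈ T → tet p q r ⊆ convexHull ℝ (T : Set E) := by
    intro p q r hp hq hr
    refine convexHull_min ?_ (convex_convexHull ℝ _)
    intro y hy
    simp only [mem_insert_iff, mem_singleton_iff] at hy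
    rcases hy with rfl | rfl | rfl | rfl
    · exact h0
    · exact subset_convexHull ℝ _ hp
    · exact subset_convexHull ℝ _ hq
    · exact subset_convexHull ℝ _ hr
  refine ⟨T, ?_, hunit, ?_⟩
  · rw [hT]
    refine Finset.card_biUnion_le.trans (Finset.sum_le_sum fun c _ => Finset.card_image_le)
  · set K := convexHull ℝ (T : Set E) with hK
    have hKB : K ⊆ closedBall (0 : E) 1 := by
      refine convexHull_min ?_ (convex_closedBall _ _)
      intro x hx
      rw [mem_closedBall_zero_iff]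
      exact (hunit x hx).le
    have hsub : closedBall (0 : E) 1 \ K ⊆ ⋃ c ∈ A, ⋃ z ∈ W c,
        (upD c (f c) (g c) l z ∪ dnD c (f c) (g c) l z) := by
      rintro x ⟨hxB, hxK⟩
      have hx0 : x ≠ 0 := by
        rintro rfl
        exact hxK h0
      obtain ⟨c, hc, z, hz, ⟨m0, m1, m2, m3⟩, h4⟩ := hcov x hx0
      refine mem_iUnion₂.2 ⟨c, hc, mem_iUnion₂.2 ⟨z, hz, ?_⟩⟩
      rcases h4 with h4 | h4
      · exact Or.inl ⟨⟨hxB, h4⟩, fun h5 => hxK (htet _ _ _ m0 m1 m2 h5)⟩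
      · exact Or.inr ⟨⟨hxB, h4⟩, fun h5 => hxK (htet _ _ _ m1 m3 m2 h5)⟩
    have hvol : volume (closedBall (0 : E) 1) ≤ volume K + ∑ c ∈ A, ∑ z ∈ W c,
        (volume (upD c (f c) (g c) l z) + volume (dnD c (f c) (g c) l z)) := by
      calc volume (closedBall (0 : E) 1) ≤ volume (K ∪ (closedBall (0 : E) 1 \ K)) := by
            apply measure_mono
            rw [union_sdiff_self]
            exact subset_union_right
        _ ≤ volume K + volume (closedBall (0 : E) 1 \ K) := measure_union_le _ _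
        _ ≤ _ := by
            gcongr
            refine (measure_mono hsub).trans ?_
            refine (measure_biUnion_finset_le _ _).trans (Finset.sum_le_sum fun c _ => ?_)
            refine (measure_biUnion_finset_le _ _).trans (Finset.sum_le_sum fun z _ => ?_)
            exact measure_union_le _ _
    have hKf : volume K ≠ ⊤ := ((measure_mono hKB).trans_lt ball_lt_top).ne
    have hSf : ∑ c ∈ A, ∑ z ∈ W c,
        (volume (upD c (f c) (g c) l z) + volume (dnD c (f c) (g c) l z)) ≠ ⊤ := by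
      refine ENNReal.sum_ne_top.2 fun c _ => ENNReal.sum_ne_top.2 fun z _ => ?_
      exact ENNReal.add_ne_top.2 ⟨upD_ne_top _ _ _ _ _, dnD_ne_top _ _ _ _ _⟩
    have h5 := ENNReal.toReal_mono (ENNReal.add_ne_top.2 ⟨hKf, hSf⟩) hvol
    rw [vol_ball, ENNReal.toReal_add hKf hSf, ENNReal.toReal_sum (fun c _ =>
      ENNReal.sum_ne_top.2 fun z _ =>
        ENNReal.add_ne_top.2 ⟨upD_ne_top _ _ _ _ _, dnD_ne_top _ _ _ _ _⟩)] at h5
    have h6 : ∀ c ∈ A, (∑ z ∈ W c,
        (volume (upD c (f c) (g c) l z) + volume (dnD c (f c) (g c) l z))).toReal ≤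
        (W c).card * (√3 / 40 * l ^ 4 / (2 / 5 - l ^ 2)) := by
      intro c hc
      rw [ENNReal.toReal_sum (fun z _ =>
        ENNReal.add_ne_top.2 ⟨upD_ne_top _ _ _ _ _, dnD_ne_top _ _ _ _ _⟩)]
      rw [← nsmul_eq_mul]
      refine Finset.sum_le_card_nsmul _ _ _ fun z _ => ?_
      rw [ENNReal.toReal_add (upD_ne_top _ _ _ _ _) (dnD_ne_top _ _ _ _ _)]
      have h7 := vol_upD (hfr c hc) hl hl2 z
      have h8 := vol_dnD (hfr c hc) hl hl2 z
      have h9 : √3 / 40 * l ^ 4 / (2 / 5 - l ^ 2) =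
          (√3 / 2 * l ^ 2) * (3 * l ^ 2) / 120 / (2 / 5 - l ^ 2) +
          (√3 / 2 * l ^ 2) * (3 * l ^ 2) / 120 / (2 / 5 - l ^ 2) := by ring
      rw [h9]
      exact add_le_add h7 h8
    have h10 := Finset.sum_le_sum h6
    rw [← Finset.sum_mul] at h10
    push_cast
    have h11 : V T = (volume K).toReal := rfl
    rw [h11]
    linarith

end Pool.Agent.Medial
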