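/-
T8: near-optimal configurations. (helper9)
-/
import Pool.Agent.Medial.T8f

set_option autoImplicit false

open MeasureTheory Set Metric
open scoped Real

namespace Pool.Agent.Medial

lemma T8_aux (d d' l2 : ℝ) (n : ℝ) (N : ℝ) (hd : 0 < d) (hd1 : d ≤ 1) (hd' : d' = d / 4)
    (hn : 0 < n) (hN : N ≤ n) (hl : l2 = 8 * π * (1 + d') / (√3 * n)) (hl2 : l2 ≤ 7 * d / 80) :
    N * (√3 / 40 * l2 ^ 2 / (2 / 5 - l2)) ≤ (1 + d) * (4 * π ^ 2 / (√3 * n)) := by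
  have hpi := Real.pi_pos
  have h3 : 0 < √3 := by positivity
  have hs3 : √3 * √3 = 3 := Real.mul_self_sqrt (by norm_num)
  have hl0 : 0 < l2 := by rw [hl]; subst hd'; positivity
  have h4 : 0 < 2 / 5 - l2 := by linarith
  have h5 : N * (√3 / 40 * l2 ^ 2 / (2 / 5 - l2)) ≤ n * (√3 / 40 * l2 ^ 2 / (2 / 5 - l2)) := by
    gcongr
  refine h5.trans ?_
  have h6 : n * (√3 / 40 * l2 ^ 2 / (2 / 5 - l2)) =
      (4 * π ^ 2 / (√3 * n)) * ((2 / 5) * (1 + d') ^ 2 / (2 / 5 - l2)) := by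
    have e1 : l2 ^ 2 = 64 * π ^ 2 * (1 + d') ^ 2 / (3 * n ^ 2) := by
      rw [hl, div_pow]
      have : (√3 * n) ^ 2 = 3 * n ^ 2 := by rw [mul_pow, sq √3, hs3]
      rw [this]; ring
    rw [e1]
    field_simp
    have : √3 ^ 2 = 3 := by rw [sq, hs3]
    rw [this]; ring
  rw [h6, mul_comm]
  have h7 : (2 / 5) * (1 + d') ^ 2 / (2 / 5 - l2) ≤ 1 + d := by
    rw [div_le_iff₀ h4]
    subst hd'
    nlinarith
  have h8 : 0 ≤ 4 * π ^ 2 / (√3 * n) := by positivity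
  exact mul_le_mul_of_nonneg_right h7 h8

lemma T8_aux2 (S d' n l2 : ℝ) (hd' : 0 < d') (hn : 0 < n) (hl2 : l2 = 8 * π * (1 + d') / √3 / n)
    (h : S * (√3 / 6 * l2) ≤ (4 * π / 3) * (1 + d')) : S ≤ n := by
  have h3 : 0 < √3 := by positivity
  have e : √3 / 6 * (8 * π * (1 + d') / √3 / n) = (4 * π / 3) * (1 + d') / n := by
    field_simp; ring
  rw [hl2, e] at h
  have h4 : 0 < (4 * π / 3) * (1 + d') := by positivity
  rw [mul_div_assoc', div_le_iff₀ hn] at h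
  have h5 : S * ((4 * π / 3) * (1 + d')) ≤ n * ((4 * π / 3) * (1 + d')) := by linarith
  exact le_of_mul_le_mul_right h5 h4

lemma T8_aux3 (d' η : ℝ) (hd' : 0 < d') (hd'1 : d' ≤ 1) (hη : η = d' / 12) :
    (4 * π / 3) / (1 - η) ^ 3 ≤ (4 * π / 3) * (1 + d' / 2) := by
  have hpi := Real.pi_pos
  have hη0 : 0 < η := by rw [hη]; positivity
  have h5 : 0 < 1 - η := by rw [hη]; linarith
  rw [div_le_iff₀ (by positivity)]
  have h6 : 1 ≤ (1 + d' / 2) * (1 - η) ^ 3 := by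
    have h7 : 1 - 3 * η ≤ (1 - η) ^ 3 := by nlinarith [mul_pos hη0 hη0, mul_pos (mul_pos hη0 hη0) h5]
    have h9 : (1 + d' / 2) * (1 - 3 * η) ≤ (1 + d' / 2) * (1 - η) ^ 3 := by gcongr
    have h10 : 1 ≤ (1 + d' / 2) * (1 - 3 * η) := by rw [hη]; nlinarith
    linarith
  have : 0 < 4 * π / 3 := by positivity
  nlinarith

theorem T8 : Stmt_T8 := by
  intro δ hδ
  set d := min δ 1 with hd
  have hd0 : 0 < d := lt_min hδ one_pos
  have hd1 : d ≤ 1 := min_le_right _ _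
  have hdδ : d ≤ δ := min_le_left _ _
  set d' := d / 4 with hd'
  have hd'0 : 0 < d' := by positivity
  have hd'1 : d' ≤ 1 := by rw [hd']; linarith
  set η := d' / 12 with hη
  have hη0 : 0 < η := by positivity
  have hη1 : η < 1 := by rw [hη, hd']; linarith
  have hpi := Real.pi_pos
  obtain ⟨A, hA⟩ := exists_net hη0 hη1
  have hne : A.Nonempty := by
    obtain ⟨c, hc, -⟩ := hA.near 0
    exact ⟨c, hc⟩
  have hcard : 0 < (A.card : ℝ) := by exact_mod_cast hne.card_pos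
  have hfr : ∀ c : E, ∃ f g : E, c ∈ A → Fr c f g := by
    intro c
    by_cases hc : c ∈ A
    · obtain ⟨f, g, h⟩ := exists_frame (hA.unit c hc)
      exact ⟨f, g, fun _ => h⟩
    · exact ⟨0, 0, fun h => absurd h hc⟩
  choose f g hfg using hfr
  set ε := (4 * π / 3) * (d' / 2) / A.card with hε
  have hε0 : 0 < ε := by positivity
  have hcount : ∀ c : E, ∃ l₀ : ℝ, 0 < l₀ ∧ (c ∈ A → ∀ l : ℝ, 0 < l → l ≤ l₀ →
      ∃ W : Finset (ℤ × ℤ), (∀ z, z ∈ Near c (f c) (g c) l (Ce A c) → z ∈ W) ∧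
        W.card * (√3 / 6 * l ^ 2) ≤ (volume (Ce A c)).toReal + ε) := by
    intro c
    by_cases hc : c ∈ A
    · obtain ⟨l₀, h0, h1⟩ := count (hfg c hc) (hA.isCompact_Ce hη1 hc) hε0
      exact ⟨l₀, h0, fun _ => h1⟩
    · exact ⟨1, one_pos, fun h => absurd h hc⟩
  choose l₀ hl₀ hW using hcount
  obtain ⟨c₀, hc₀, hmin⟩ := A.exists_min_image l₀ hne
  set m := min (l₀ c₀ ^ 2) (7 * d / 80) with hm
  have hm0 : 0 < m := lt_min (pow_pos (hl₀ c₀) 2) (by positivity)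
  set q := 8 * π * (1 + d') / √3 with hq
  have hq0 : 0 < q := by positivity
  obtain ⟨n₀, hn₀⟩ := exists_nat_gt (q / m)
  refine ⟨n₀, fun n hn => ?_⟩
  have hqm : 0 < q / m := by positivity
  have hn0 : (0 : ℝ) < n := by
    have : (n₀ : ℝ) ≤ n := by exact_mod_cast hn
    linarith
  set l2 := q / n with hl2
  have hl20 : 0 < l2 := by positivity
  have hl2m : l2 ≤ m := by
    rw [hl2, div_le_iff₀ hn0]
    have h1 : (n₀ : ℝ) ≤ n := by exact_mod_cast hn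
    rw [div_lt_iff₀ hm0] at hn₀
    nlinarith
  set l := √l2 with hl
  have hl0 : 0 < l := Real.sqrt_pos.2 hl20
  have hlsq : l ^ 2 = l2 := Real.sq_sqrt hl20.le
  have hll : l ≤ l₀ c₀ := by
    apply le_of_sq_le_sq _ (hl₀ c₀).le
    rw [hlsq]
    exact hl2m.trans (min_le_left _ _)
  have hWc : ∀ c : E, ∃ W : Finset (ℤ × ℤ), c ∈ A →
      ((∀ z, z ∈ Near c (f c) (g c) l (Ce A c) → z ∈ W) ∧
        W.card * (√3 / 6 * l ^ 2) ≤ (volume (Ce A c)).toReal + ε) := by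
    intro c
    by_cases hc : c ∈ A
    · obtain ⟨W, h1⟩ := hW c hc l hl0 (hll.trans (hmin c hc))
      exact ⟨W, fun _ => h1⟩
    · exact ⟨∅, fun h => absurd h hc⟩
  choose W hW2 using hWc
  have hl25 : l ^ 2 < 2 / 5 := by
    rw [hlsq]
    have := hl2m.trans (min_le_right _ _)
    linarith
  obtain ⟨T, hT1, hT2, hT3⟩ := core hA hη1 f g hfg hl0 hl25 W (fun c hc => (hW2 c hc).1)
  -- the number of points
  have hsum : (∑ c ∈ A, ((W c).card : ℝ)) * (√3 / 6 * l ^ 2) ≤ (4 * π / 3) * (1 + d') := by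
    rw [Finset.sum_mul]
    have h1 : ∑ c ∈ A, ((W c).card : ℝ) * (√3 / 6 * l ^ 2) ≤
        ∑ c ∈ A, ((volume (Ce A c)).toReal + ε) := Finset.sum_le_sum fun c hc => (hW2 c hc).2
    rw [Finset.sum_add_distrib, Finset.sum_const, nsmul_eq_mul] at h1
    have h2 := hA.sum_vol hη1
    have h3 : (A.card : ℝ) * ε = (4 * π / 3) * (d' / 2) := by
      rw [hε]; field_simp
    have h4 : (4 * π / 3) / (1 - η) ^ 3 ≤ (4 * π / 3) * (1 + d' / 2) :=
      T8_aux3 d' η hd'0 hd'1 hη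
    calc _ ≤ _ := h1
      _ ≤ (4 * π / 3) * (1 + d' / 2) + (4 * π / 3) * (d' / 2) := by rw [h3]; linarith
      _ = _ := by ring
  have hN : ((∑ c ∈ A, (W c).card : ℕ) : ℝ) ≤ n := by
    push_cast
    rw [hlsq] at hsum
    exact T8_aux2 _ d' n l2 hd'0 hn0 hl2 hsum
  refine ⟨T, ?_, hT2, ?_⟩
  · have : ((T.card : ℕ) : ℝ) ≤ n := (Nat.cast_le.2 hT1).trans hN
    exact_mod_cast this
  · have h5 := T8_aux d d' l2 n _ hd0 hd1 hd' hn0 hN (by rw [hl2, hq, div_div])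
      (hl2m.trans (min_le_right _ _))
    have h6 : l ^ 4 = l2 ^ 2 := by rw [← hlsq]; ring
    rw [h6, hlsq] at hT3
    have h7 : (1 + d) * (4 * π ^ 2 / (√3 * n)) ≤ (1 + δ) * (4 * π ^ 2 / (√3 * n)) := by
      gcongr
    linarith

end Pool.Agent.Medial
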