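/-
T9: explicit medial configurations with `n = 5k+2` vertices.
(helper41)
-/
import Pool.Agent.Medial.Basic

set_option autoImplicit false

namespace Pool.Agent.Medial

open scoped Real

/-! ### Fans from cyclically indexed neighbours -/

/-- `(x, y, z)` spans a facet of the hull of `S` -/
def Sup (S : Finset E) (x y z : E) : Prop :=
  ∃ (a : E) (d : ℝ), (inner ℝ a x : ℝ) = d ∧ (inner ℝ a y : ℝ) = d ∧ (inner ℝ a z : ℝ) = d ∧
    ∀ t ∈ S, t ≠ x → t ≠ y → t ≠ z → (inner ℝ a t : ℝ) < d

theorem Sup.rot {S : Finset E} {x y z : E} (h : Sup S x y z) : Sup S y z x := by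
  obtain ⟨a, d, h1, h2, h3, h4⟩ := h
  exact ⟨a, d, h2, h3, h1, fun t ht a1 a2 a3 => h4 t ht a3 a1 a2⟩

theorem Sup.swap {S : Finset E} {x y z : E} (h : Sup S x y z) : Sup S x z y := by
  obtain ⟨a, d, h1, h2, h3, h4⟩ := h
  exact ⟨a, d, h1, h3, h2, fun t ht a1 a2 a3 => h4 t ht a1 a3 a2⟩

open Classical in
theorem fan_of_cyclic {S : Finset E} {v : E} {m : ℕ} [NeZero m] (hm : 3 ≤ m) (w : Fin m → E)
    (hinj : Function.Injective w) (hS : ∀ i, w i ∈ S) (hne : ∀ i, w i ≠ v)
    (hsup : ∀ i, Sup S v (w i) (w (i + 1))) :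
    ∃ (σ a : E → E), Fan S (Finset.univ.image w) v σ a := by
  choose a d h1 h2 h3 h4 using hsup
  have hone : ∀ i : Fin m, i + 1 ≠ i := by
    intro i h
    have h' : (1 : Fin m) = 0 := by simpa using h
    have := congrArg Fin.val h'
    rw [Fin.val_one', Fin.val_zero, Nat.mod_eq_of_lt (by omega)] at this
    omega
  have htwo : ∀ i : Fin m, i + 1 + 1 ≠ i := by
    intro i h
    rw [add_assoc] at h
    have h' : (1 + 1 : Fin m) = 0 := by simpa using h
    have := congrArg Fin.val h'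
    rw [Fin.val_add, Fin.val_one', Fin.val_zero, Nat.mod_eq_of_lt (by omega : 1 < m),
      Nat.mod_eq_of_lt (by omega)] at this
    omega
  let idx : E → Fin m := fun y => if h : ∃ i, w i = y then h.choose else 0
  have hidx : ∀ i, idx (w i) = i := by
    intro i
    have hex : ∃ i', w i' = w i := ⟨i, rfl⟩
    have : idx (w i) = hex.choose := by simp only [idx]; rw [dif_pos hex]
    rw [this]
    exact hinj hex.choose_spec
  refine ⟨fun y => w (idx y + 1), fun y => a (idx y), ?_⟩
  have hmem : ∀ y, y ∈ Finset.univ.image w ↔ ∃ i, w i = y := by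
    intro y; simp
  constructor
  · exact ⟨w 0, by simp⟩
  · intro y hy
    obtain ⟨i, rfl⟩ := (hmem y).mp hy
    exact hS i
  · intro y hy
    obtain ⟨i, rfl⟩ := (hmem y).mp hy
    exact hne i
  · intro y hy
    simp
  · intro y hy
    obtain ⟨i, rfl⟩ := (hmem y).mp hy
    refine ⟨w (i - 1), by simp, ?_⟩
    show w (idx (w (i - 1)) + 1) = w i
    rw [hidx, sub_add_cancel]
  · intro y hy
    obtain ⟨i, rfl⟩ := (hmem y).mp hy
    show w (idx (w i) + 1) ≠ w i
    rw [hidx]
    exact fun h => hone i (hinj h)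
  · intro y hy
    obtain ⟨i, rfl⟩ := (hmem y).mp hy
    show w (idx (w (idx (w i) + 1)) + 1) ≠ w i
    rw [hidx, hidx]
    exact fun h => htwo i (hinj h)
  · intro y hy
    obtain ⟨i, rfl⟩ := (hmem y).mp hy
    show (inner ℝ (a (idx (w i))) (w i - v) : ℝ) = 0
    rw [hidx, inner_sub_right, h2, h1, sub_self]
  · intro y hy
    obtain ⟨i, rfl⟩ := (hmem y).mp hy
    show (inner ℝ (a (idx (w i))) (w (idx (w i) + 1) - v) : ℝ) = 0
    rw [hidx, inner_sub_right, h3, h1, sub_self]
  · intro y hy t ht htv htw htw'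
    obtain ⟨i, rfl⟩ := (hmem y).mp hy
    show (inner ℝ (a (idx (w i))) (t - v) : ℝ) < 0
    have htw'' : t ≠ w (i + 1) := by
      have : w (idx (w i) + 1) = w (i + 1) := by rw [hidx]
      rw [← this]; exact htw'
    rw [hidx, inner_sub_right, h1]
    have := h4 i t ht htv htw htw''
    linarith

/-! ### Trigonometry of the regular decagon -/

/-- `cos (π n / 5)` -/
noncomputable def cc (n : ℤ) : ℝ := Real.cos (π * n / 5)

/-- `sin (π n / 5)` -/
noncomputable def ss (n : ℤ) : ℝ := Real.sin (π * n / 5)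

theorem cc_add_ten (n k : ℤ) : cc (n + 10 * k) = cc n := by
  unfold cc
  rw [← Real.cos_add_int_mul_two_pi (π * n / 5) k]
  congr 1
  push_cast
  ring

theorem ss_add_ten (n k : ℤ) : ss (n + 10 * k) = ss n := by
  unfold ss
  rw [← Real.sin_add_int_mul_two_pi (π * n / 5) k]
  congr 1
  push_cast
  ring

theorem cc_sub (n m : ℤ) : cc (n - m) = cc n * cc m + ss n * ss m := by
  unfold cc ss
  rw [← Real.cos_sub]
  congr 1
  push_cast
  ring

theorem cc_sq_add_ss_sq (n : ℤ) : cc n ^ 2 + ss n ^ 2 = 1 := by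
  unfold cc ss
  exact Real.cos_sq_add_sin_sq _

theorem cc_neg (n : ℤ) : cc (-n) = cc n := by
  unfold cc
  rw [← Real.cos_neg]
  congr 1
  push_cast
  ring

theorem cc_zero : cc 0 = 1 := by
  unfold cc; simp

theorem cc_le_one (n : ℤ) : cc n ≤ 1 := Real.cos_le_one _

theorem cc_mod (n : ℤ) : cc n = cc (n % 10) := by
  conv_lhs => rw [← Int.emod_add_mul_ediv n 10]
  rw [cc_add_ten]

theorem ss_mod (n : ℤ) : ss n = ss (n % 10) := by
  conv_lhs => rw [← Int.emod_add_mul_ediv n 10]
  rw [ss_add_ten]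

/-- golden value `cos 36°` -/
theorem cc_one : cc 1 = (1 + √5) / 4 := by
  unfold cc
  have : (π * (1 : ℤ) / 5 : ℝ) = π / 5 := by push_cast; ring
  rw [this, Real.cos_pi_div_five]

theorem g_bounds : 0.809 < cc 1 ∧ cc 1 < 0.8091 := by
  rw [cc_one]
  have h1 : (2.236 : ℝ) < √5 := by
    rw [Real.lt_sqrt (by norm_num)]; norm_num
  have h2 : √5 < (2.2361 : ℝ) := by
    rw [Real.sqrt_lt' (by norm_num)]; norm_num
  constructor <;> norm_num <;> linarith

theorem cc_two_lt : cc 2 < cc 1 := by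
  unfold cc
  apply Real.cos_lt_cos_of_nonneg_of_le_pi
  · push_cast; positivity
  · push_cast; linarith [Real.pi_pos]
  · push_cast; linarith [Real.pi_pos]

theorem cc_lt_aux (n : ℤ) (h1 : 2 ≤ n) (h2 : n ≤ 5) : cc n < cc 1 := by
  unfold cc
  have h1' : (2 : ℝ) ≤ n := by exact_mod_cast h1
  have h2' : (n : ℝ) ≤ 5 := by exact_mod_cast h2
  apply Real.cos_lt_cos_of_nonneg_of_le_pi
  · push_cast; positivity
  · have := Real.pi_pos; rw [div_le_iff₀ (by norm_num)]; nlinarith
  · push_cast; have := Real.pi_pos; nlinarith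

theorem cc_lt_one_of (n : ℤ) (h : n % 10 ≠ 0) (hp : n % 10 ≠ 1) (hm : n % 10 ≠ 9) :
    cc n < cc 1 := by
  rw [cc_mod]
  have h0 : 0 ≤ n % 10 := Int.emod_nonneg _ (by norm_num)
  have h10 : n % 10 < 10 := Int.emod_lt_of_pos _ (by norm_num)
  rcases le_or_gt (n % 10) 5 with h5 | h5
  · exact cc_lt_aux _ (by omega) h5
  · rw [← cc_neg, ← cc_add_ten _ 1]
    exact cc_lt_aux _ (by omega) (by omega)

theorem cc_lt_one (n : ℤ) (h : n % 10 ≠ 0) : cc n < 1 := by
  by_cases h1 : n % 10 = 1
  · rw [cc_mod, h1]; linarith [g_bounds.2]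
  by_cases h9 : n % 10 = 9
  · rw [cc_mod, h9, ← cc_neg, ← cc_add_ten _ 1]
    have : (-9 + 10 * 1 : ℤ) = 1 := by norm_num
    rw [this]; linarith [g_bounds.2]
  have := cc_lt_one_of n h h1 h9
  linarith [g_bounds.2]

theorem cc_eq_one_iff (n : ℤ) : cc n = 1 ↔ n % 10 = 0 := by
  constructor
  · intro h
    by_contra h'
    exact absurd h (cc_lt_one n h').ne
  · intro h
    rw [cc_mod, h, cc_zero]

/-! ### The points -/

/-- the point of ring `j` at angle `π n / 5` -/
noncomputable def P (j : ℕ) (n : ℤ) : E :=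
  !₂[2 * 3 ^ j * cc n / (9 ^ j + 1), 2 * 3 ^ j * ss n / (9 ^ j + 1), (9 ^ j - 1) / (9 ^ j + 1)]

/-- north pole -/
noncomputable def NP : E := !₂[0, 0, 1]

/-- south pole -/
noncomputable def SP : E := !₂[0, 0, -1]

/-- covector of the circle `A |z|^2 - 2 c (z · u_m) + κ = 0` -/
noncomputable def cov (A c κ : ℝ) (m : ℤ) : E := !₂[c * cc m, c * ss m, (κ - A) / 2]

theorem cov_P (A c κ : ℝ) (m : ℤ) (j : ℕ) (n : ℤ) :
    (inner ℝ (cov A c κ m) (P j n) : ℝ) - (κ + A) / 2 =
      -(A * 9 ^ j - 2 * c * 3 ^ j * cc (n - m) + κ) / (9 ^ j + 1) := by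
  have h : (9 : ℝ) ^ j + 1 ≠ 0 := by positivity
  rw [inner_eq, cc_sub]
  simp only [cov, P, PiLp.toLp_apply, Matrix.cons_val_zero, Matrix.cons_val_one, Matrix.cons_val]
  field_simp
  ring

theorem cov_NP (A c κ : ℝ) (m : ℤ) : (inner ℝ (cov A c κ m) NP : ℝ) - (κ + A) / 2 = - A := by
  rw [inner_eq]
  simp only [cov, NP, PiLp.toLp_apply, Matrix.cons_val_zero, Matrix.cons_val_one, Matrix.cons_val]
  ring

theorem cov_SP (A c κ : ℝ) (m : ℤ) : (inner ℝ (cov A c κ m) SP : ℝ) - (κ + A) / 2 = - κ := by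
  rw [inner_eq]
  simp only [cov, SP, PiLp.toLp_apply, Matrix.cons_val_zero, Matrix.cons_val_one, Matrix.cons_val]
  ring

theorem nine_pow (j : ℕ) : (9 : ℝ) ^ j = (3 ^ j) ^ 2 := by
  rw [← pow_mul, mul_comm, pow_mul]; norm_num

theorem norm_P (j : ℕ) (n : ℤ) : ‖P j n‖ = 1 := by
  have h : (9 : ℝ) ^ j + 1 ≠ 0 := by positivity
  have h1 : ‖P j n‖ ^ 2 = 1 := by
    rw [norm_sq_eq]
    simp only [P, PiLp.toLp_apply, Matrix.cons_val_zero, Matrix.cons_val_one, Matrix.cons_val]
    have h2 := cc_sq_add_ss_sq n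
    field_simp
    rw [nine_pow]
    linear_combination (4 * (3 ^ j) ^ 2) * h2
  have h3 : 0 ≤ ‖P j n‖ := norm_nonneg _
  nlinarith

theorem norm_NP : ‖NP‖ = 1 := by
  have h1 : ‖NP‖ ^ 2 = 1 := by
    rw [norm_sq_eq]
    simp [NP]
  have h3 : 0 ≤ ‖NP‖ := norm_nonneg _
  nlinarith

theorem norm_SP : ‖SP‖ = 1 := by
  have h1 : ‖SP‖ ^ 2 = 1 := by
    rw [norm_sq_eq]
    simp [SP]
  have h3 : 0 ≤ ‖SP‖ := norm_nonneg _
  nlinarith

theorem P_congr (j : ℕ) {n n' : ℤ} (h : n % 10 = n' % 10) : P j n = P j n' := by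
  unfold P
  rw [cc_mod n, cc_mod n', ss_mod n, ss_mod n', h]

theorem P_two (j : ℕ) (n : ℤ) : (P j n) 2 = (9 ^ j - 1) / (9 ^ j + 1) := by
  simp [P]

theorem P_two_lt {j j' : ℕ} (h : j < j') (n n' : ℤ) : (P j n) 2 < (P j' n') 2 := by
  rw [P_two, P_two]
  have h1 : (9 : ℝ) ^ j < 9 ^ j' := pow_lt_pow_right₀ (by norm_num) h
  rw [div_lt_div_iff₀ (by positivity) (by positivity)]
  nlinarith

theorem P_inj {j j' : ℕ} {n n' : ℤ} (h : P j n = P j' n') : j = j' ∧ n % 10 = n' % 10 := by
  have h2 := congrArg (fun t : E => t 2) h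
  have hj : j = j' := by
    rcases lt_trichotomy j j' with h3 | h3 | h3
    · exact absurd h2 (P_two_lt h3 n n').ne
    · exact h3
    · exact absurd h2 (P_two_lt h3 n' n).ne'
  subst hj
  refine ⟨rfl, ?_⟩
  have h0 := congrArg (fun t : E => t 0) h
  have h1 := congrArg (fun t : E => t 1) h
  simp only [P, PiLp.toLp_apply, Matrix.cons_val_zero, Matrix.cons_val_one] at h0 h1
  have hpos : (9 : ℝ) ^ j + 1 ≠ 0 := by positivity
  have h3 : (2 * 3 ^ j : ℝ) ≠ 0 := by positivity
  rw [div_left_inj' hpos, mul_right_inj' h3] at h0 h1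
  have h4 : cc (n - n') = 1 := by
    rw [cc_sub, h0, h1]
    have := cc_sq_add_ss_sq n'
    linarith
  rw [cc_eq_one_iff] at h4
  omega

theorem P_ne_NP (j : ℕ) (n : ℤ) : P j n ≠ NP := by
  intro h
  have h2 := congrArg (fun t : E => t 2) h
  have : (NP : E) 2 = 1 := by simp [NP]
  simp only [P_two, this] at h2
  rw [div_eq_one_iff_eq (by positivity)] at h2
  linarith

theorem P_ne_SP (j : ℕ) (n : ℤ) : P j n ≠ SP := by
  intro h
  have h2 := congrArg (fun t : E => t 2) h
  have : (SP : E) 2 = -1 := by simp [SP]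
  simp only [P_two, this] at h2
  rw [div_eq_iff (by positivity)] at h2
  have : (0 : ℝ) < 9 ^ j := by positivity
  linarith

theorem NP_ne_SP : NP ≠ SP := by
  intro h
  have h2 := congrArg (fun t : E => t 2) h
  simp [NP, SP] at h2
  norm_num at h2

open Classical in
/-- the ring points -/
noncomputable def Ring (k : ℕ) : Finset E :=
  (Finset.range k ×ˢ Finset.range 5).image (fun p => P p.1 (2 * p.2 + p.1))

open Classical in
/-- the configuration -/
noncomputable def Conf (k : ℕ) : Finset E := insert NP (insert SP (Ring k))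

theorem mem_Ring {k : ℕ} {x : E} :
    x ∈ Ring k ↔ ∃ (j : ℕ) (n : ℤ), j < k ∧ (n - j) % 2 = 0 ∧ x = P j n := by
  classical
  unfold Ring
  simp only [Finset.mem_image, Finset.mem_product, Finset.mem_range, Prod.exists]
  constructor
  · rintro ⟨j, i, ⟨hj, hi⟩, rfl⟩
    exact ⟨j, 2 * i + j, hj, by omega, rfl⟩
  · rintro ⟨j, n, hj, hn, rfl⟩
    refine ⟨j, (((n - j) / 2) % 5).toNat, ⟨hj, ?_⟩, ?_⟩
    · omega
    · apply P_congr
      omega

theorem mem_Conf {k : ℕ} {x : E} :
    x ∈ Conf k ↔ x = NP ∨ x = SP ∨ ∃ (j : ℕ) (n : ℤ), j < k ∧ (n - j) % 2 = 0 ∧ x = P j n := by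
  classical
  unfold Conf
  rw [Finset.mem_insert, Finset.mem_insert, mem_Ring]

theorem card_Conf (k : ℕ) : (Conf k).card = 5 * k + 2 := by
  classical
  unfold Conf
  rw [Finset.card_insert_of_notMem, Finset.card_insert_of_notMem]
  · unfold Ring
    rw [Finset.card_image_of_injOn, Finset.card_product, Finset.card_range, Finset.card_range]
    · ring
    · rintro ⟨j, i⟩ h ⟨j', i'⟩ h' heq
      simp only [Finset.coe_product, Finset.coe_range, Set.mem_prod, Set.mem_Iio] at h h'
      obtain ⟨h1, h2⟩ := P_inj heq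
      simp only at h1
      subst h1
      simp only at h2
      have : i = i' := by omega
      rw [this]
  · rw [mem_Ring]
    rintro ⟨j, n, -, -, h⟩
    exact P_ne_SP j n h.symm
  · rw [Finset.mem_insert, mem_Ring]
    rintro (h | ⟨j, n, -, -, h⟩)
    · exact NP_ne_SP h
    · exact P_ne_NP j n h.symm

theorem unit_Conf (k : ℕ) : Unit (Conf k) := by
  intro x hx
  rcases mem_Conf.mp hx with rfl | rfl | ⟨j, n, -, -, rfl⟩
  · exact norm_NP
  · exact norm_SP
  · exact norm_P j n

/-! ### The facets -/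

/-- value of the scaled covector -/
theorem val_P (c κ : ℝ) (m : ℤ) (j j' : ℕ) (n : ℤ) :
    (inner ℝ (cov (1 / 9 ^ j) (c / 3 ^ j) κ m) (P j' n) : ℝ) - (κ + 1 / 9 ^ j) / 2 =
      -((3 ^ j' / 3 ^ j) ^ 2 - 2 * c * (3 ^ j' / 3 ^ j) * cc (n - m) + κ) / (9 ^ j' + 1) := by
  rw [cov_P]
  congr 2
  rw [nine_pow j, nine_pow j', div_pow]
  ring

theorem neg_far (c κ : ℝ) (hc : 0 < c) (hc9 : 2 * c < 9) (hκ : 0 < κ) (hκc : 2 * c / 3 < κ) (m : ℤ)
    (j j' : ℕ) (n : ℤ) (h : j + 2 ≤ j' ∨ j' < j) :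
    (inner ℝ (cov (1 / 9 ^ j) (c / 3 ^ j) κ m) (P j' n) : ℝ) < (κ + 1 / 9 ^ j) / 2 := by
  rw [← sub_neg, val_P]
  have hp : (0 : ℝ) < 9 ^ j' + 1 := by positivity
  apply div_neg_of_neg_of_pos _ hp
  have ht := cc_le_one (n - m)
  set t := cc (n - m)
  set ρ : ℝ := 3 ^ j' / 3 ^ j with hρ
  have hρ0 : 0 < ρ := by positivity
  have hcρ : 0 < c * ρ := mul_pos hc hρ0
  have h1 : c * ρ * t ≤ c * ρ * 1 := mul_le_mul_of_nonneg_left ht hcρ.le
  rcases h with h | h
  · have h9 : 9 ≤ ρ := by
      rw [hρ, le_div_iff₀ (by positivity)]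
      calc (9 : ℝ) * 3 ^ j = 3 ^ (j + 2) := by rw [pow_add]; ring
        _ ≤ 3 ^ j' := pow_le_pow_right₀ (by norm_num) h
    nlinarith
  · have h3 : ρ ≤ 1 / 3 := by
      rw [hρ, div_le_div_iff₀ (by positivity) (by norm_num)]
      calc (3 : ℝ) ^ j' * 3 = 3 ^ (j' + 1) := by rw [pow_add]; ring
        _ ≤ 3 ^ j := pow_le_pow_right₀ (by norm_num) h
        _ = 1 * 3 ^ j := by ring
    have h4 : c * ρ ≤ c * (1 / 3) := mul_le_mul_of_nonneg_left h3 hc.le
    nlinarith [sq_nonneg ρ]

theorem sup_F1 {k j : ℕ} {m : ℤ} (hm : (m - (j + 1)) % 2 = 0) :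
    Sup (Conf k) (P j (m - 1)) (P j (m + 1)) (P (j + 1) m) := by
  obtain ⟨g1, g2⟩ := g_bounds
  set g := cc 1 with hg
  have hden : 0 < 6 - 2 * g := by linarith
  obtain ⟨c, hc⟩ : ∃ c, c = 8 / (6 - 2 * g) := ⟨_, rfl⟩
  have hc' : c * (6 - 2 * g) = 8 := by rw [hc, div_mul_cancel₀ _ hden.ne']
  have c1 : 1.82 < c := by nlinarith
  have c2 : c < 1.83 := by nlinarith
  set κ := 6 * c - 9 with hκ
  have hpos : ∀ j' : ℕ, (0 : ℝ) < 9 ^ j' + 1 := fun j' => by positivity
  refine ⟨cov (1 / 9 ^ j) (c / 3 ^ j) κ m, (κ + 1 / 9 ^ j) / 2, ?_, ?_, ?_, ?_⟩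
  · rw [← sub_eq_zero, val_P]
    have h1 : cc (m - 1 - m) = g := by
      rw [show m - 1 - m = -1 by ring, cc_neg]
    rw [h1, div_self (by positivity)]
    rw [div_eq_zero_iff]; left
    rw [hκ]; linarith
  · rw [← sub_eq_zero, val_P]
    have h1 : cc (m + 1 - m) = g := by
      rw [show m + 1 - m = 1 by ring]
    rw [h1, div_self (by positivity)]
    rw [div_eq_zero_iff]; left
    rw [hκ]; linarith
  · rw [← sub_eq_zero, val_P]
    have h2 : (3 : ℝ) ^ (j + 1) / 3 ^ j = 3 := by
      rw [pow_succ]; field_simp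
    rw [h2, sub_self, cc_zero]
    rw [div_eq_zero_iff]; left
    rw [hκ]; ring
  · intro t ht h1 h2 h3
    rcases mem_Conf.mp ht with rfl | rfl | ⟨j', n, hj', hn, rfl⟩
    · rw [← sub_neg, cov_NP]
      have : (0 : ℝ) < 1 / 9 ^ j := by positivity
      linarith
    · rw [← sub_neg, cov_SP]
      rw [hκ]; linarith
    · rcases lt_trichotomy j' j with h | h | h
      · exact neg_far c κ (by linarith) (by linarith) (by linarith) (by linarith) m j j' n (Or.inr h)
      · subst h
        rw [← sub_neg, val_P, div_self (by positivity)]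
        apply div_neg_of_neg_of_pos _ (hpos _)
        have hlt : cc (n - m) < g := by
          apply cc_lt_one_of
          · omega
          · intro h
            exact h2 (P_congr _ (by omega))
          · intro h
            exact h1 (P_congr _ (by omega))
        rw [hκ]
        nlinarith
      · rcases eq_or_lt_of_le (Nat.succ_le_of_lt h) with h' | h'
        · have h' : j' = j + 1 := h'.symm
          subst h'
          rw [← sub_neg, val_P]
          have h2 : (3 : ℝ) ^ (j + 1) / 3 ^ j = 3 := by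
            rw [pow_succ]; field_simp
          rw [h2]
          apply div_neg_of_neg_of_pos _ (hpos _)
          have hlt : cc (n - m) < 1 := by
            apply cc_lt_one
            intro h
            exact h3 (P_congr _ (by omega))
          rw [hκ]
          nlinarith
        · exact neg_far c κ (by linarith) (by linarith) (by linarith) (by linarith) m j j' n (Or.inl h')

theorem sup_F2 {k j : ℕ} {m : ℤ} (hm : (m - j) % 2 = 0) :
    Sup (Conf k) (P j m) (P (j + 1) (m - 1)) (P (j + 1) (m + 1)) := by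
  obtain ⟨g1, g2⟩ := g_bounds
  set g := cc 1 with hg
  have hden : 0 < 6 * g - 2 := by linarith
  obtain ⟨c, hc⟩ : ∃ c, c = 8 / (6 * g - 2) := ⟨_, rfl⟩
  have hc' : c * (6 * g - 2) = 8 := by rw [hc, div_mul_cancel₀ _ hden.ne']
  have c1 : 2.8 < c := by nlinarith
  have c2 : c < 2.81 := by nlinarith
  set κ := 2 * c - 1 with hκ
  have hpos : ∀ j' : ℕ, (0 : ℝ) < 9 ^ j' + 1 := fun j' => by positivity
  have h33 : (3 : ℝ) ^ (j + 1) / 3 ^ j = 3 := by
    rw [pow_succ]; field_simp
  refine ⟨cov (1 / 9 ^ j) (c / 3 ^ j) κ m, (κ + 1 / 9 ^ j) / 2, ?_, ?_, ?_, ?_⟩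
  · rw [← sub_eq_zero, val_P]
    rw [sub_self, cc_zero, div_self (by positivity)]
    rw [div_eq_zero_iff]; left
    rw [hκ]; ring
  · rw [← sub_eq_zero, val_P]
    have h1 : cc (m - 1 - m) = g := by
      rw [show m - 1 - m = -1 by ring, cc_neg]
    rw [h33, h1]
    rw [div_eq_zero_iff]; left
    rw [hκ]; linarith
  · rw [← sub_eq_zero, val_P]
    have h1 : cc (m + 1 - m) = g := by
      rw [show m + 1 - m = 1 by ring]
    rw [h33, h1]
    rw [div_eq_zero_iff]; left
    rw [hκ]; linarith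
  · intro t ht h1 h2 h3
    rcases mem_Conf.mp ht with rfl | rfl | ⟨j', n, hj', hn, rfl⟩
    · rw [← sub_neg, cov_NP]
      have : (0 : ℝ) < 1 / 9 ^ j := by positivity
      linarith
    · rw [← sub_neg, cov_SP]
      rw [hκ]; linarith
    · rcases lt_trichotomy j' j with h | h | h
      · exact neg_far c κ (by linarith) (by linarith) (by linarith) (by linarith) m j j' n (Or.inr h)
      · subst h
        rw [← sub_neg, val_P, div_self (by positivity)]
        apply div_neg_of_neg_of_pos _ (hpos _)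
        have hlt : cc (n - m) < 1 := by
          apply cc_lt_one
          intro h
          exact h1 (P_congr _ (by omega))
        rw [hκ]
        nlinarith
      · rcases eq_or_lt_of_le (Nat.succ_le_of_lt h) with h' | h'
        · have h' : j' = j + 1 := h'.symm
          subst h'
          rw [← sub_neg, val_P, h33]
          apply div_neg_of_neg_of_pos _ (hpos _)
          have hlt : cc (n - m) < g := by
            apply cc_lt_one_of
            · push_cast at hn; omega
            · intro h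
              exact h3 (P_congr _ (by omega))
            · intro h
              exact h2 (P_congr _ (by omega))
          rw [hκ]
          nlinarith
        · exact neg_far c κ (by linarith) (by linarith) (by linarith) (by linarith) m j j' n (Or.inl h')

theorem sup_CS {k : ℕ} {m : ℤ} (hm : (m - 1) % 2 = 0) :
    Sup (Conf k) SP (P 0 (m - 1)) (P 0 (m + 1)) := by
  obtain ⟨g1, g2⟩ := g_bounds
  set g := cc 1 with hg
  have hpos : ∀ j' : ℕ, (0 : ℝ) < 9 ^ j' + 1 := fun j' => by positivity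
  refine ⟨cov (2 * g) 1 0 m, (0 + 2 * g) / 2, ?_, ?_, ?_, ?_⟩
  · rw [← sub_eq_zero, cov_SP]; simp
  · rw [← sub_eq_zero, cov_P]
    have h1 : cc (m - 1 - m) = g := by
      rw [show m - 1 - m = -1 by ring, cc_neg]
    rw [h1]; simp
  · rw [← sub_eq_zero, cov_P]
    have h1 : cc (m + 1 - m) = g := by
      rw [show m + 1 - m = 1 by ring]
    rw [h1]; simp
  · intro t ht h1 h2 h3
    rcases mem_Conf.mp ht with rfl | rfl | ⟨j', n, hj', hn, rfl⟩
    · rw [← sub_neg, cov_NP]; linarith
    · exact absurd rfl h1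
    · rw [← sub_neg, cov_P]
      apply div_neg_of_neg_of_pos _ (hpos _)
      rcases Nat.eq_zero_or_pos j' with h | h
      · subst h
        have hlt : cc (n - m) < g := by
          apply cc_lt_one_of
          · push_cast at hn; omega
          · intro h
            exact h3 (P_congr _ (by omega))
          · intro h
            exact h2 (P_congr _ (by omega))
        simp only [pow_zero]
        nlinarith
      · have h3' : (3 : ℝ) ≤ 3 ^ j' := by
          calc (3 : ℝ) = 3 ^ 1 := by norm_num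
            _ ≤ 3 ^ j' := pow_le_pow_right₀ (by norm_num) h
        have ht := cc_le_one (n - m)
        rw [nine_pow]
        nlinarith

theorem sup_CN {K : ℕ} {m : ℤ} (hm : (m - (K + 1)) % 2 = 0) :
    Sup (Conf (K + 1)) NP (P K (m - 1)) (P K (m + 1)) := by
  obtain ⟨g1, g2⟩ := g_bounds
  set g := cc 1 with hg
  have hpos : ∀ j' : ℕ, (0 : ℝ) < 9 ^ j' + 1 := fun j' => by positivity
  have h33 : (1 / (3 : ℝ) ^ K) * 3 ^ K = 1 := by field_simp
  refine ⟨cov 0 (1 / 3 ^ K) (2 * g) m, (2 * g + 0) / 2, ?_, ?_, ?_, ?_⟩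
  · rw [← sub_eq_zero, cov_NP]; simp
  · rw [← sub_eq_zero, cov_P]
    have h1 : cc (m - 1 - m) = g := by
      rw [show m - 1 - m = -1 by ring, cc_neg]
    rw [h1]
    rw [div_eq_zero_iff]; left
    linear_combination 2 * g * h33
  · rw [← sub_eq_zero, cov_P]
    have h1 : cc (m + 1 - m) = g := by
      rw [show m + 1 - m = 1 by ring]
    rw [h1]
    rw [div_eq_zero_iff]; left
    linear_combination 2 * g * h33
  · intro t ht h1 h2 h3
    rcases mem_Conf.mp ht with rfl | rfl | ⟨j', n, hj', hn, rfl⟩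
    · exact absurd rfl h1
    · rw [← sub_neg, cov_SP]; linarith
    · rw [← sub_neg, cov_P]
      apply div_neg_of_neg_of_pos _ (hpos _)
      rcases eq_or_lt_of_le (Nat.le_of_lt_succ hj') with h | h
      · subst h
        have hlt : cc (n - m) < g := by
          apply cc_lt_one_of
          · omega
          · intro h
            exact h3 (P_congr _ (by omega))
          · intro h
            exact h2 (P_congr _ (by omega))
        have : (1 / (3 : ℝ) ^ j') * 3 ^ j' * cc (n - m) = cc (n - m) := by rw [h33, one_mul]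
        nlinarith
      · have h3' : (1 / (3 : ℝ) ^ K) * 3 ^ j' ≤ 1 / 3 := by
          rw [one_div_mul_eq_div, div_le_div_iff₀ (by positivity) (by norm_num)]
          calc (3 : ℝ) ^ j' * 3 = 3 ^ (j' + 1) := by rw [pow_add]; ring
            _ ≤ 3 ^ K := pow_le_pow_right₀ (by norm_num) h
            _ = 1 * 3 ^ K := by ring
        have h0 : 0 < (1 / (3 : ℝ) ^ K) * 3 ^ j' := by positivity
        have ht := cc_le_one (n - m)
        nlinarith

/-! ### The fans -/

open Classical in
/-- `v` has a fan of five or six neighbours -/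
def Good (S : Finset E) (v : E) : Prop :=
  ∃ (O : Finset E) (σ a : E → E), Fan S O v σ a ∧ 5 ≤ O.card ∧ O.card ≤ 6

theorem good_of_cyclic {S : Finset E} {v : E} {m : ℕ} [NeZero m] (hm : 5 ≤ m) (hm' : m ≤ 6)
    (w : Fin m → E) (hinj : Function.Injective w) (hS : ∀ i, w i ∈ S) (hne : ∀ i, w i ≠ v)
    (hsup : ∀ i, Sup S v (w i) (w (i + 1))) : Good S v := by
  classical
  obtain ⟨σ, a, h⟩ := fan_of_cyclic (by omega) w hinj hS hne hsup
  refine ⟨_, σ, a, h, ?_⟩
  rw [Finset.card_image_of_injective _ hinj, Finset.card_univ, Fintype.card_fin]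
  exact ⟨hm, hm'⟩

theorem mem_P {k j : ℕ} {n : ℤ} (hj : j < k) (hn : (n - j) % 2 = 0) : P j n ∈ Conf k :=
  mem_Conf.mpr (Or.inr (Or.inr ⟨j, n, hj, hn, rfl⟩))

theorem mem_NP (k : ℕ) : NP ∈ Conf k := mem_Conf.mpr (Or.inl rfl)

theorem mem_SP (k : ℕ) : SP ∈ Conf k := mem_Conf.mpr (Or.inr (Or.inl rfl))

theorem good_SP {k : ℕ} (hk : 1 ≤ k) : Good (Conf k) SP := by
  refine good_of_cyclic (m := 5) (by norm_num) (by norm_num) (fun i => P 0 (2 * (i.val : ℤ)))
    ?_ ?_ ?_ ?_
  · intro i i' h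
    have := (P_inj h).2
    apply Fin.ext
    omega
  · intro i
    exact mem_P (by omega) (by omega)
  · intro i
    exact P_ne_SP _ _
  · intro i
    have h := sup_CS (k := k) (m := 2 * (i.val : ℤ) + 1) (by omega)
    have e1 : P 0 (2 * (i.val : ℤ) + 1 - 1) = P 0 (2 * (i.val : ℤ)) := P_congr _ (by omega)
    have e2 : P 0 (2 * (i.val : ℤ) + 1 + 1) = P 0 (2 * ((i + 1 : Fin 5).val : ℤ)) := by
      apply P_congr
      rw [Fin.val_add]
      fin_cases i <;> simp
    rw [e1, e2] at h
    exact h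

theorem good_NP (K : ℕ) : Good (Conf (K + 1)) NP := by
  refine good_of_cyclic (m := 5) (by norm_num) (by norm_num) (fun i => P K (K + 2 * (i.val : ℤ)))
    ?_ ?_ ?_ ?_
  · intro i i' h
    have := (P_inj h).2
    apply Fin.ext
    omega
  · intro i
    exact mem_P (by omega) (by omega)
  · intro i
    exact P_ne_NP _ _
  · intro i
    have h := sup_CN (K := K) (m := K + 2 * (i.val : ℤ) + 1) (by omega)
    have e1 : P K (K + 2 * (i.val : ℤ) + 1 - 1) = P K (K + 2 * (i.val : ℤ)) := P_congr _ (by omega)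
    have e2 : P K (K + 2 * (i.val : ℤ) + 1 + 1) = P K (K + 2 * ((i + 1 : Fin 5).val : ℤ)) := by
      apply P_congr
      rw [Fin.val_add]
      fin_cases i <;> simp <;> omega
    rw [e1, e2] at h
    exact h

theorem P_ne_of_level {j j' : ℕ} (h : j ≠ j') (n n' : ℤ) : P j n ≠ P j' n' :=
  fun h' => h (P_inj h').1

theorem P_ne_of_mod (j : ℕ) {n n' : ℤ} (h : n % 10 ≠ n' % 10) : P j n ≠ P j n' :=
  fun h' => h (P_inj h').2

theorem good_mid {k j : ℕ} (hj : j + 2 < k) {n : ℤ} (hn : (n - (j + 1)) % 2 = 0) :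
    Good (Conf k) (P (j + 1) n) := by
  refine good_of_cyclic (m := 6) (by norm_num) (by norm_num)
    ![P (j + 1) (n + 2), P (j + 2) (n + 1), P (j + 2) (n - 1), P (j + 1) (n - 2), P j (n - 1),
      P j (n + 1)] ?_ ?_ ?_ ?_
  · intro i i' h
    fin_cases i <;> fin_cases i' <;> first
      | rfl
      | exact absurd (P_inj h).1 (by omega)
      | exact absurd (P_inj h).2 (by omega)
  · intro i
    fin_cases i <;> exact mem_P (by omega) (by push_cast; omega)
  · intro i
    fin_cases i <;> first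
      | exact P_ne_of_level (by omega) _ _
      | exact P_ne_of_mod _ (by omega)
  · intro i
    have f1 := sup_F1 (k := k) (j := j + 1) (m := n + 1) (by push_cast; omega)
    have f2 := sup_F2 (k := k) (j := j + 1) (m := n) (by push_cast; omega)
    have f3 := sup_F1 (k := k) (j := j + 1) (m := n - 1) (by push_cast; omega)
    have f4 := sup_F2 (k := k) (j := j) (m := n - 1) (by omega)
    have f5 := sup_F1 (k := k) (j := j) (m := n) (by omega)
    have f6 := sup_F2 (k := k) (j := j) (m := n + 1) (by omega)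
    rw [show n + 1 - 1 = n by ring, show n + 1 + 1 = n + 2 by ring] at f1 f6
    rw [show n - 1 - 1 = n - 2 by ring, show n - 1 + 1 = n by ring] at f3 f4
    fin_cases i
    · exact f1
    · exact f2.swap
    · exact f3.rot
    · exact f4.rot.rot.swap
    · exact f5.rot.rot
    · exact f6.rot.swap

theorem good_first {k : ℕ} (hk : 2 ≤ k) {n : ℤ} (hn : n % 2 = 0) :
    Good (Conf k) (P 0 n) := by
  refine good_of_cyclic (m := 5) (by norm_num) (by norm_num)
    ![P 0 (n + 2), P 1 (n + 1), P 1 (n - 1), P 0 (n - 2), SP] ?_ ?_ ?_ ?_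
  · intro i i' h
    fin_cases i <;> fin_cases i' <;> first
      | rfl
      | exact absurd (P_inj h).1 (by omega)
      | exact absurd (P_inj h).2 (by omega)
      | exact absurd h (P_ne_SP _ _)
      | exact absurd h.symm (P_ne_SP _ _)
  · intro i
    fin_cases i <;> first
      | exact mem_SP _
      | exact mem_P (by omega) (by push_cast; omega)
  · intro i
    fin_cases i <;> first
      | exact P_ne_of_level (by omega) _ _
      | exact P_ne_of_mod _ (by omega)
      | exact (P_ne_SP _ _).symm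
  · intro i
    have f1 := sup_F1 (k := k) (j := 0) (m := n + 1) (by push_cast; omega)
    have f2 := sup_F2 (k := k) (j := 0) (m := n) (by push_cast; omega)
    have f3 := sup_F1 (k := k) (j := 0) (m := n - 1) (by push_cast; omega)
    have f4 := sup_CS (k := k) (m := n - 1) (by omega)
    have f5 := sup_CS (k := k) (m := n + 1) (by omega)
    rw [show n + 1 - 1 = n by ring, show n + 1 + 1 = n + 2 by ring] at f1 f5
    rw [show n - 1 - 1 = n - 2 by ring, show n - 1 + 1 = n by ring] at f3 f4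
    fin_cases i
    · exact f1
    · exact f2.swap
    · exact f3.rot
    · exact f4.rot.rot.swap
    · exact f5.rot.swap

theorem good_last {K : ℕ} {n : ℤ} (hn : (n - (K + 1)) % 2 = 0) :
    Good (Conf (K + 2)) (P (K + 1) n) := by
  refine good_of_cyclic (m := 5) (by norm_num) (by norm_num)
    ![P (K + 1) (n + 2), NP, P (K + 1) (n - 2), P K (n - 1), P K (n + 1)] ?_ ?_ ?_ ?_
  · intro i i' h
    fin_cases i <;> fin_cases i' <;> first
      | rfl
      | exact absurd (P_inj h).1 (by omega)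
      | exact absurd (P_inj h).2 (by omega)
      | exact absurd h (P_ne_NP _ _)
      | exact absurd h.symm (P_ne_NP _ _)
  · intro i
    fin_cases i <;> first
      | exact mem_NP _
      | exact mem_P (by omega) (by push_cast; omega)
  · intro i
    fin_cases i <;> first
      | exact P_ne_of_level (by omega) _ _
      | exact P_ne_of_mod _ (by omega)
      | exact (P_ne_NP _ _).symm
  · intro i
    have f1 := sup_CN (K := K + 1) (m := n + 1) (by push_cast; omega)
    have f2 := sup_CN (K := K + 1) (m := n - 1) (by push_cast; omega)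
    have f4 := sup_F2 (k := K + 2) (j := K) (m := n - 1) (by omega)
    have f5 := sup_F1 (k := K + 2) (j := K) (m := n) (by omega)
    have f6 := sup_F2 (k := K + 2) (j := K) (m := n + 1) (by omega)
    rw [show n + 1 - 1 = n by ring, show n + 1 + 1 = n + 2 by ring] at f1 f6
    rw [show n - 1 - 1 = n - 2 by ring, show n - 1 + 1 = n by ring] at f2 f4
    fin_cases i
    · exact f1.rot
    · exact f2.rot.rot
    · exact f4.rot.rot.swap
    · exact f5.rot.rot
    · exact f6.rot.swap

theorem good_all {k : ℕ} (hk : 3 ≤ k) : ∀ v ∈ Conf k, Good (Conf k) v := by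
  intro v hv
  rcases mem_Conf.mp hv with rfl | rfl | ⟨j, n, hj, hn, rfl⟩
  · obtain ⟨K, rfl⟩ : ∃ K, k = K + 1 := ⟨k - 1, by omega⟩
    exact good_NP K
  · exact good_SP (by omega)
  · rcases Nat.eq_zero_or_pos j with h | h
    · subst h
      exact good_first (by omega) (by push_cast at hn; omega)
    · obtain ⟨j', rfl⟩ : ∃ j', j = j' + 1 := ⟨j - 1, by omega⟩
      rcases eq_or_lt_of_le (Nat.succ_le_of_lt hj) with h' | h'
      · have : k = j' + 2 := by omega
        subst this
        exact good_last (by push_cast at hn; exact hn)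
      · exact good_mid (by omega) (by push_cast at hn; exact hn)

theorem T9 : Stmt_T9 := by
  intro k hk
  have hg := good_all hk
  refine ⟨Conf k, card_Conf k, unit_Conf k, ?_, ?_⟩
  · apply simplicial_of_fans (unit_Conf k)
    intro v hv
    obtain ⟨O, σ, a, h, -, -⟩ := hg v hv
    exact ⟨O, σ, a, h⟩
  · intro v hv
    obtain ⟨O, σ, a, h, h5, h6⟩ := hg v hv
    rw [h.nb_eq hv (pos_of_unit (unit_Conf k) hv), Set.ncard_coe_finset]
    exact ⟨h5, h6⟩

end Pool.Agent.Medial
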